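import Pool.Agent.Sausage27.VB12

/-!
# Sausage27, VO28: the first intrinsic volume and the Gaussian functional
-/

namespace Pool.Agent.Sausage27

open MeasureTheory Set Metric Filter Topology
open scoped InnerProductSpace Pointwise ENNReal

section polar

variable {E : Type*} [NormedAddCommGroup E] [InnerProductSpace ℝ E] [FiniteDimensional ℝ E]
  [MeasurableSpace E] [BorelSpace E] [Nontrivial E]

/-- Polar coordinates for the Bochner integral. -/
theorem VO28_polar (f : E → ℝ) :
    ∫ x : E, f x = ∫ p : sphere (0 : E) 1 × Ioi (0 : ℝ), f (p.2.1 • p.1.1)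
      ∂((volume : Measure E).toSphere.prod (.volumeIoiPow (Module.finrank ℝ E - 1))) := by
  have h1 : ∫ x : E, f x = ∫ x : ({(0 : E)}ᶜ : Set E), f x.1 ∂((volume : Measure E).comap (↑)) := by
    rw [integral_subtype_comap (measurableSet_singleton _).compl f, restrict_compl_singleton]
  rw [h1]
  have h2 := (volume : Measure E).measurePreserving_homeomorphUnitSphereProd.integral_comp
    (Homeomorph.measurableEmbedding _) (fun p : sphere (0 : E) 1 × Ioi (0 : ℝ) =>
      f (p.2.1 • p.1.1))
  rw [← h2]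
  congr 1
  ext x
  congr 1
  have hx : ‖x.1‖ ≠ 0 := norm_ne_zero_iff.2 x.2
  simp only [homeomorphUnitSphereProd_apply_snd_coe, homeomorphUnitSphereProd_apply_fst_coe]
  rw [smul_smul, mul_inv_cancel₀ hx, one_smul]

/-- Polar coordinates for the Lebesgue integral. -/
theorem VO28_lpolar (f : E → ℝ≥0∞) (hf : Measurable f) :
    ∫⁻ x : E, f x = ∫⁻ u : sphere (0 : E) 1, ∫⁻ r : Ioi (0 : ℝ), f (r.1 • u.1)
      ∂(Measure.volumeIoiPow (Module.finrank ℝ E - 1)) ∂((volume : Measure E).toSphere) := by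
  have h1 : ∫⁻ x : E, f x = ∫⁻ x : ({(0 : E)}ᶜ : Set E), f x.1 ∂((volume : Measure E).comap (↑)) := by
    rw [lintegral_subtype_comap (measurableSet_singleton _).compl f, restrict_compl_singleton]
  rw [h1]
  have hg : Measurable (fun p : sphere (0 : E) 1 × Ioi (0 : ℝ) => f (p.2.1 • p.1.1)) := by
    apply hf.comp
    exact (measurable_subtype_coe.comp measurable_snd).smul
      (measurable_subtype_coe.comp measurable_fst)
  have h2 := (volume : Measure E).measurePreserving_homeomorphUnitSphereProd.lintegral_comp hg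
  rw [lintegral_prod _ hg.aemeasurable] at h2
  rw [← h2]
  congr 1
  ext x
  congr 1
  have hx : ‖x.1‖ ≠ 0 := norm_ne_zero_iff.2 x.2
  simp only [homeomorphUnitSphereProd_apply_snd_coe, homeomorphUnitSphereProd_apply_fst_coe]
  rw [smul_smul, mul_inv_cancel₀ hx, one_smul]

end polar

/-- algebraic form of the difference quotient -/
theorem VO28_alg (d : ℕ) (hd : 1 ≤ d) (a c : ℝ) {t : ℝ} (ht : 0 < t) :
    ((t + a - c / t) ^ d - t ^ d) / (d * t ^ (d - 1)) =
      (∑ i ∈ Finset.range d, (1 + (a - c / t) / t) ^ i) * (a - c / t) / d := by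
  have hd0 : (d : ℝ) ≠ 0 := by
    have : d ≠ 0 := by omega
    exact_mod_cast this
  set x : ℝ := 1 + (a - c / t) / t with hx
  have h1 : t + a - c / t = t * x := by rw [hx]; field_simp; ring
  have h2 : x - 1 = (a - c / t) / t := by rw [hx]; ring
  have h3 := geom_sum_mul x d
  rw [h2] at h3
  obtain ⟨m, rfl⟩ : ∃ m, d = m + 1 := ⟨d - 1, by omega⟩
  rw [h1, mul_pow]
  have h4 : t ^ (m + 1) * x ^ (m + 1) - t ^ (m + 1) = t ^ (m + 1) * (x ^ (m + 1) - 1) := by ring
  rw [h4, ← h3, Nat.add_sub_cancel]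
  have ht0 : t ≠ 0 := ht.ne'
  field_simp
  ring

theorem VO28_ptlim (d : ℕ) (hd : 1 ≤ d) (a c : ℝ) :
    Tendsto (fun t : ℝ => (∑ i ∈ Finset.range d, (1 + (a - c / t) / t) ^ i) * (a - c / t) / d)
      atTop (𝓝 a) := by
  have hd0 : (d : ℝ) ≠ 0 := by
    have : d ≠ 0 := by omega
    exact_mod_cast this
  have h1 : Tendsto (fun t : ℝ => c / t) atTop (𝓝 0) := tendsto_const_nhds.div_atTop tendsto_id
  have h2 : Tendsto (fun t : ℝ => a - c / t) atTop (𝓝 a) := by
    simpa using tendsto_const_nhds.sub h1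
  have h3 : Tendsto (fun t : ℝ => (a - c / t) / t) atTop (𝓝 0) := h2.div_atTop tendsto_id
  have h4 : Tendsto (fun t : ℝ => 1 + (a - c / t) / t) atTop (𝓝 1) := by
    simpa using tendsto_const_nhds.add h3
  have h5 : Tendsto (fun t : ℝ => ∑ i ∈ Finset.range d, (1 + (a - c / t) / t) ^ i) atTop
      (𝓝 (∑ i ∈ Finset.range d, (1 : ℝ) ^ i)) :=
    tendsto_finsetSum _ fun i _ => h4.pow i
  have h6 := (h5.mul h2).div_const (d : ℝ)
  have h7 : (∑ i ∈ Finset.range d, (1 : ℝ) ^ i) * a / d = a := by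
    simp only [one_pow, Finset.sum_const, Finset.card_range, nsmul_eq_mul, mul_one]
    field_simp
  rw [h7] at h6
  exact h6

theorem VO28_bd (d : ℕ) (hd : 1 ≤ d) {a R c : ℝ} (ha : |a| ≤ R) {t : ℝ} (ht : 1 ≤ t) :
    ‖(∑ i ∈ Finset.range d, (1 + (a - c / t) / t) ^ i) * (a - c / t) / d‖ ≤
      (1 + (R + |c|)) ^ d * (R + |c|) := by
  have hd0 : (0 : ℝ) < d := by
    have : 0 < d := by omega
    exact_mod_cast this
  have hR : 0 ≤ R := (abs_nonneg a).trans ha
  have h1 : |c / t| ≤ |c| := by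
    rw [abs_div, abs_of_pos (by linarith : (0 : ℝ) < t)]
    exact div_le_self (abs_nonneg c) ht
  have h2 : |a - c / t| ≤ R + |c| := (abs_sub _ _).trans (add_le_add ha h1)
  have h3 : |(a - c / t) / t| ≤ R + |c| := by
    rw [abs_div, abs_of_pos (by linarith : (0 : ℝ) < t)]
    exact (div_le_self (abs_nonneg _) ht).trans h2
  have h4 : |1 + (a - c / t) / t| ≤ 1 + (R + |c|) := by
    refine (abs_add_le _ _).trans ?_
    rw [abs_one]
    linarith
  have h5 : |∑ i ∈ Finset.range d, (1 + (a - c / t) / t) ^ i| ≤ d * (1 + (R + |c|)) ^ d := by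
    refine (Finset.abs_sum_le_sum_abs _ _).trans ?_
    have : ∀ i ∈ Finset.range d, |(1 + (a - c / t) / t) ^ i| ≤ (1 + (R + |c|)) ^ d := by
      intro i hi
      rw [abs_pow]
      have hb : 1 ≤ 1 + (R + |c|) := by
        have := abs_nonneg c
        linarith
      exact (pow_le_pow_left₀ (abs_nonneg _) h4 i).trans
        (pow_le_pow_right₀ hb (Finset.mem_range.1 hi).le)
    refine (Finset.sum_le_sum this).trans ?_
    simp
  rw [norm_div, norm_mul, Real.norm_eq_abs, Real.norm_eq_abs, Real.norm_eq_abs, abs_of_pos hd0,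
    div_le_iff₀ hd0]
  calc _ ≤ d * (1 + (R + |c|)) ^ d * (R + |c|) :=
        mul_le_mul h5 h2 (abs_nonneg _) (by positivity)
    _ = _ := by ring

theorem VO28_lim {S : Type*} [MeasurableSpace S] (μ : Measure S) [IsFiniteMeasure μ] (d : ℕ)
    (hd : 1 ≤ d) {h : S → ℝ} (hm : Measurable h) {R : ℝ} (hR : ∀ u, |h u| ≤ R) (c : ℝ) :
    Tendsto (fun t : ℝ => ∫ u, ((t + h u - c / t) ^ d - t ^ d) / (d * t ^ (d - 1)) ∂μ) atTop
      (𝓝 (∫ u, h u ∂μ)) := by
  have key : Tendsto (fun t : ℝ => ∫ u, (∑ i ∈ Finset.range d, (1 + (h u - c / t) / t) ^ i) *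
      (h u - c / t) / d ∂μ) atTop (𝓝 (∫ u, h u ∂μ)) := by
    apply tendsto_integral_filter_of_dominated_convergence
      (fun _ => (1 + (R + |c|)) ^ d * (R + |c|))
    · refine Eventually.of_forall fun t => ?_
      apply Measurable.aestronglyMeasurable
      fun_prop
    · filter_upwards [eventually_ge_atTop (1 : ℝ)] with t ht
      exact Eventually.of_forall fun u => VO28_bd d hd (hR u) ht
    · exact integrable_const _
    · exact Eventually.of_forall fun u => VO28_ptlim d hd (h u) c
  refine key.congr' ?_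
  filter_upwards [eventually_gt_atTop (0 : ℝ)] with t ht
  exact integral_congr_ae (Eventually.of_forall fun u => (VO28_alg d hd (h u) c ht).symm)

section star

variable {E : Type*} [NormedAddCommGroup E] [InnerProductSpace ℝ E]

theorem VO28_upper {D : Set E} (hD : Body D) {u : E} (hu : ‖u‖ = 1) {t r : ℝ} (ht : 0 < t)
    (hr : r • u ∈ D + closedBall (0 : E) t) : r < t + hS D u - (-1) / t := by
  obtain ⟨x, hx, b, hb, hxb⟩ := Set.mem_add.1 hr
  have h1 : ⟪r • u, u⟫_ℝ = r := by
    rw [real_inner_smul_left, real_inner_self_eq_norm_sq, hu]; ring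
  rw [← hxb, inner_add_left] at h1
  have h2 := hD.inner_le hx u
  have h3 : ⟪b, u⟫_ℝ ≤ t := by
    refine (real_inner_le_norm _ _).trans ?_
    rw [hu, mul_one]
    simpa using hb
  have h4 : 0 < 1 / t := by positivity
  have h5 : -(-1 / t) = 1 / t := by ring
  linarith

theorem VO28_lower {D : Set E} (hD : Body D) {R : ℝ} (hR : 0 < R) (hDR : ∀ x ∈ D, ‖x‖ ≤ R) {u : E}
    (hu : ‖u‖ = 1) {t r : ℝ} (ht : R ≤ t) (hr0 : 0 < r) (hr : r < t + hS D u - R ^ 2 / t) :
    r • u ∈ D + closedBall (0 : E) t := by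
  obtain ⟨x, hx, hxe⟩ := hD.exists_eq u
  refine Set.mem_add.2 ⟨x, hx, r • u - x, ?_, by abel⟩
  rw [mem_closedBall, dist_zero_right]
  have htpos : 0 < t := hR.trans_le ht
  apply abs_le_of_sq_le_sq' _ htpos.le |>.2
  have h1 : ‖r • u - x‖ ^ 2 = (r - hS D u) ^ 2 + ‖x‖ ^ 2 - hS D u ^ 2 := by
    rw [norm_sub_sq_real, norm_smul, hu, real_inner_smul_left, real_inner_comm, ← hxe,
      Real.norm_eq_abs, mul_one, sq_abs]
    ring
  rw [h1]
  have hxR : ‖x‖ ^ 2 ≤ R ^ 2 := pow_le_pow_left₀ (norm_nonneg _) (hDR x hx) 2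
  have hR2 : R ^ 2 ≤ t ^ 2 := pow_le_pow_left₀ hR.le ht 2
  rcases le_total (hS D u) r with h | h
  · have h2 : 0 ≤ r - hS D u := by linarith
    have h3 : (r - hS D u) ^ 2 ≤ (t - R ^ 2 / t) ^ 2 := pow_le_pow_left₀ h2 (by linarith) 2
    have h4 : (t - R ^ 2 / t) ^ 2 = t ^ 2 - 2 * R ^ 2 + (R ^ 2 / t) ^ 2 := by
      field_simp
      ring
    have h5 : (R ^ 2 / t) ^ 2 ≤ R ^ 2 := by
      rw [div_pow, div_le_iff₀ (by positivity)]
      have : (R ^ 2) ^ 2 = R ^ 2 * R ^ 2 := by ring
      rw [this]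
      exact mul_le_mul_of_nonneg_left hR2 (by positivity)
    have h6 := sq_nonneg (hS D u)
    linarith
  · have h3 : (r - hS D u) ^ 2 ≤ hS D u ^ 2 := by
      apply sq_le_sq'
      · linarith
      · linarith
    linarith

end star

theorem VO28_vol {d : ℕ} (hd : 1 ≤ d) {D : Set (Eu d)} (hD : Body D) {R : ℝ} (hR : 0 < R)
    (hDR : ∀ x ∈ D, ‖x‖ ≤ R) {t : ℝ} (ht : 2 * R + 1 ≤ t) :
    (∫ u : sphere (0 : Eu d) 1, (t + hS D u - R ^ 2 / t) ^ d / d ∂(volume : Measure (Eu d)).toSphere)
      ≤ (volume (D + closedBall (0 : Eu d) t)).toReal ∧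
    (volume (D + closedBall (0 : Eu d) t)).toReal ≤
      ∫ u : sphere (0 : Eu d) 1, (t + hS D u - (-1) / t) ^ d / d
        ∂(volume : Measure (Eu d)).toSphere := by
  have : Nontrivial (Eu d) := by
    have : Nonempty (Fin d) := ⟨⟨0, by omega⟩⟩
    infer_instance
  have htpos : 0 < t := by linarith
  have hfr : Module.finrank ℝ (Eu d) = d := by simp
  have hcomp : IsCompact (D + closedBall (0 : Eu d) t) := hD.comp.add (isCompact_closedBall _ _)
  have hmeas : MeasurableSet (D + closedBall (0 : Eu d) t) := hcomp.isClosed.measurableSet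
  have hfin : volume (D + closedBall (0 : Eu d) t) ≠ ⊤ := hcomp.measure_ne_top
  have hdR : ((d - 1 : ℕ) : ℝ) + 1 = d := by
    rw [Nat.cast_sub hd]; simp
  have hdn : d - 1 + 1 = d := by omega
  -- volume in polar coordinates
  have hpol : volume (D + closedBall (0 : Eu d) t) =
      ∫⁻ u : sphere (0 : Eu d) 1, Measure.volumeIoiPow (d - 1)
        {r : Ioi (0 : ℝ) | r.1 • u.1 ∈ D + closedBall (0 : Eu d) t}
        ∂((volume : Measure (Eu d)).toSphere) := by
    rw [← lintegral_indicator_one hmeas, VO28_lpolar _ (measurable_one.indicator hmeas), hfr]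
    congr 1
    ext u
    have hms : MeasurableSet {r : Ioi (0 : ℝ) | r.1 • u.1 ∈ D + closedBall (0 : Eu d) t} := by
      apply MeasurableSet.preimage hmeas
        (f := fun r : Ioi (0 : ℝ) => r.1 • u.1)
      exact (measurable_subtype_coe.smul_const _)
    rw [← lintegral_indicator_one hms]
    congr 1
  have hcont : Continuous fun u : sphere (0 : Eu d) 1 => hS D u.1 :=
    hD.continuous_hS.comp continuous_subtype_val
  have hint : ∀ c : ℝ, Integrable (fun u : sphere (0 : Eu d) 1 => (t + hS D u.1 - c / t) ^ d / d)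
      (volume : Measure (Eu d)).toSphere := by
    intro c
    have : Continuous fun u : sphere (0 : Eu d) 1 => (t + hS D u.1 - c / t) ^ d / d := by fun_prop
    exact this.integrable_of_hasCompactSupport (HasCompactSupport.of_compactSpace _)
  have hhb : ∀ u : sphere (0 : Eu d) 1, |hS D u.1| ≤ R := by
    intro u
    have hu : ‖u.1‖ = 1 := by simp
    obtain ⟨x, hx, hxe⟩ := hD.exists_eq u.1
    rw [hxe]
    refine (abs_real_inner_le_norm _ _).trans ?_
    rw [hu, mul_one]; exact hDR x hx
  have hbase : ∀ (u : sphere (0 : Eu d) 1), 0 < t + hS D u.1 - R ^ 2 / t := by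
    intro u
    have h1 := (abs_le.1 (hhb u)).1
    have h2 : R ^ 2 / t ≤ R := by
      rw [div_le_iff₀ htpos]
      nlinarith
    linarith
  have hbase' : ∀ (u : sphere (0 : Eu d) 1), 0 < t + hS D u.1 - (-1) / t := by
    intro u
    have h1 := (abs_le.1 (hhb u)).1
    have h2 : -(-1 / t) = 1 / t := by ring
    have h3 : 0 < 1 / t := by positivity
    linarith
  constructor
  · rw [← ENNReal.ofReal_le_iff_le_toReal hfin, ofReal_integral_eq_lintegral_ofReal (hint (R ^ 2))
      (Eventually.of_forall fun u => by have := hbase u; positivity), hpol]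
    refine lintegral_mono fun u => ?_
    have hu : ‖u.1‖ = 1 := by simp
    have h1 := Measure.volumeIoiPow_apply_Iio (d - 1) ⟨t + hS D u.1 - R ^ 2 / t, hbase u⟩
    rw [hdR, hdn] at h1
    rw [← h1]
    apply measure_mono
    intro r hr
    exact VO28_lower hD hR hDR hu (by linarith) r.2 hr
  · apply ENNReal.toReal_le_of_le_ofReal
    · apply integral_nonneg
      intro u
      have := hbase' u
      positivity
    · rw [ofReal_integral_eq_lintegral_ofReal (hint (-1))
        (Eventually.of_forall fun u => by have := hbase' u; positivity), hpol]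
      refine lintegral_mono fun u => ?_
      have hu : ‖u.1‖ = 1 := by simp
      have h1 := Measure.volumeIoiPow_apply_Iio (d - 1) ⟨t + hS D u.1 - (-1) / t, hbase' u⟩
      rw [hdR, hdn] at h1
      rw [← h1]
      apply measure_mono
      intro r hr
      exact VO28_upper hD hu htpos hr

theorem VO28_kap {d : ℕ} (hd : 1 ≤ d) (t : ℝ) :
    kap d * t ^ d = ∫ _u : sphere (0 : Eu d) 1, t ^ d / d ∂(volume : Measure (Eu d)).toSphere := by
  have : Nontrivial (Eu d) := by
    have : Nonempty (Fin d) := ⟨⟨0, by omega⟩⟩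
    infer_instance
  have hd0 : (d : ℝ) ≠ 0 := by
    have : d ≠ 0 := by omega
    exact_mod_cast this
  rw [integral_const, Measure.toSphere_real_apply_univ, smul_eq_mul]
  have h1 : (volume : Measure (Eu d)).real (ball 0 1) = kap d := by
    unfold kap
    rw [Measure.addHaar_closedBall_eq_addHaar_ball]
    rfl
  rw [h1]
  simp only [finrank_euclideanSpace, Fintype.card_fin]
  field_simp

theorem kap_pos (m : ℕ) : 0 < kap m := by
  unfold kap
  apply ENNReal.toReal_pos
  · exact (measure_closedBall_pos volume _ one_pos).ne'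
  · exact measure_closedBall_lt_top.ne

/-- VO28. -/
theorem V1_eq (d : ℕ) (hd : 1 ≤ d) : ∃ C : ℝ, 0 < C ∧ ∀ D : Set (Eu d), Body D →
    Tendsto (fun t : ℝ => ((volume (D + closedBall (0 : Eu d) t)).toReal - kap d * t ^ d) /
      (kap (d - 1) * t ^ (d - 1))) atTop (𝓝 (C * G D)) := by
  have hnt : Nontrivial (Eu d) := by
    have : Nonempty (Fin d) := ⟨⟨0, by omega⟩⟩
    infer_instance
  have hd0 : (0 : ℝ) < d := by
    have : 0 < d := by omega
    exact_mod_cast this
  have hκ := kap_pos (d - 1)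
  -- the radial integral
  set I : ℝ := ∫ r : Ioi (0 : ℝ), r.1 * Real.exp (-r.1 ^ 2 / 2)
    ∂(Measure.volumeIoiPow (Module.finrank ℝ (Eu d) - 1)) with hI
  have hG : ∀ (f : Eu d → ℝ), (∀ (r : ℝ) (u : Eu d), 0 < r → f (r • u) = r * f u) →
      ∫ x : Eu d, f x * Real.exp (-‖x‖ ^ 2 / 2) =
        (∫ u : sphere (0 : Eu d) 1, f u.1 ∂(volume : Measure (Eu d)).toSphere) * I := by
    intro f hf
    rw [VO28_polar, hI, ← integral_prod_mul]
    congr 1
    ext p
    have hu : ‖p.1.1‖ = 1 := by simp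
    rw [hf _ _ p.2.2, norm_smul, hu, Real.norm_of_nonneg p.2.2.le]
    ring_nf
  have hIpos : 0 < I := by
    have h1 := hG (fun x => ‖x‖) (fun r u hr => by rw [norm_smul, Real.norm_of_nonneg hr.le])
    obtain ⟨e, he⟩ : ∃ e : Eu d, ‖e‖ = 1 := ⟨EuclideanSpace.single ⟨0, by omega⟩ 1, by simp⟩
    have h2 : 0 < ∫ x : Eu d, ‖x‖ * Real.exp (-‖x‖ ^ 2 / 2) := by
      have h3 := gauss_abs (E := Eu d) he
      have h4 : 0 < √(2 / Real.pi) * Zg (Eu d) := by
        have := Zg_pos (E := Eu d)
        positivity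
      rw [← h3] at h4
      refine h4.trans_le (integral_mono ?_ ?_ ?_)
      · exact VB12_integrable (E := Eu d) (f := fun x => |⟪e, x⟫_ℝ|) (by fun_prop) (R := 1)
          (fun x => by
            rw [abs_abs]
            exact (abs_real_inner_le_norm e x).trans (by rw [he]))
      · exact VB12_integrable (E := Eu d) (f := fun x => ‖x‖) (by fun_prop) (R := 1)
          (fun x => by rw [abs_norm, one_mul])
      · intro x
        refine mul_le_mul_of_nonneg_right ?_ (Real.exp_pos _).le
        exact (abs_real_inner_le_norm e x).trans (by rw [he, one_mul])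
    rw [h1] at h2
    have h3 : 0 ≤ ∫ u : sphere (0 : Eu d) 1, ‖u.1‖ ∂(volume : Measure (Eu d)).toSphere :=
      integral_nonneg fun _ => norm_nonneg _
    by_contra hI0
    push Not at hI0
    have := mul_nonpos_of_nonneg_of_nonpos h3 hI0
    linarith
  refine ⟨1 / (kap (d - 1) * I), by positivity, fun D hD => ?_⟩
  obtain ⟨R, hR, hDR, hb, -⟩ := hD.exists_bound
  have hcont : Continuous fun u : sphere (0 : Eu d) 1 => hS D u.1 :=
    hD.continuous_hS.comp continuous_subtype_val
  have hhb : ∀ u : sphere (0 : Eu d) 1, |hS D u.1| ≤ R := by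
    intro u
    have := hb u.1
    simpa using this
  have hGD : G D = (∫ u : sphere (0 : Eu d) 1, hS D u.1 ∂(volume : Measure (Eu d)).toSphere) * I :=
    hG (hS D) fun r u hr => hD.hS_smul hr.le u
  have hlimc : 1 / (kap (d - 1) * I) * G D =
      (∫ u : sphere (0 : Eu d) 1, hS D u.1 ∂(volume : Measure (Eu d)).toSphere) / kap (d - 1) := by
    rw [hGD]; field_simp
  rw [hlimc]
  have hint : ∀ c t : ℝ, Integrable (fun u : sphere (0 : Eu d) 1 =>
      (t + hS D u.1 - c / t) ^ d / d) (volume : Measure (Eu d)).toSphere := by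
    intro c t
    have : Continuous fun u : sphere (0 : Eu d) 1 => (t + hS D u.1 - c / t) ^ d / d := by fun_prop
    exact this.integrable_of_hasCompactSupport (HasCompactSupport.of_compactSpace _)
  have hlim : ∀ c : ℝ, Tendsto (fun t : ℝ =>
      ((∫ u : sphere (0 : Eu d) 1, (t + hS D u.1 - c / t) ^ d / d
        ∂(volume : Measure (Eu d)).toSphere) - kap d * t ^ d) / (kap (d - 1) * t ^ (d - 1))) atTop
      (𝓝 ((∫ u : sphere (0 : Eu d) 1, hS D u.1 ∂(volume : Measure (Eu d)).toSphere) /
        kap (d - 1))) := by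
    intro c
    have h1 := (VO28_lim (volume : Measure (Eu d)).toSphere d hd hcont.measurable hhb c).div_const
      (kap (d - 1))
    refine h1.congr' ?_
    filter_upwards [eventually_gt_atTop (0 : ℝ)] with t ht
    rw [VO28_kap hd, ← integral_sub (hint c t) (integrable_const _), mul_comm (kap (d - 1)),
      ← div_div]
    congr 1
    rw [← integral_div]
    refine integral_congr_ae (Eventually.of_forall fun u => ?_)
    show ((t + hS D u.1 - c / t) ^ d - t ^ d) / (d * t ^ (d - 1)) =
      ((t + hS D u.1 - c / t) ^ d / d - t ^ d / d) / t ^ (d - 1)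
    field_simp
  refine tendsto_of_tendsto_of_tendsto_of_le_of_le' (hlim (R ^ 2)) (hlim (-1)) ?_ ?_
  · filter_upwards [eventually_ge_atTop (2 * R + 1)] with t ht
    have htp : 0 < t := by linarith
    apply div_le_div_of_nonneg_right _ (by positivity)
    have := (VO28_vol hd hD hR hDR ht).1
    linarith
  · filter_upwards [eventually_ge_atTop (2 * R + 1)] with t ht
    have htp : 0 < t := by linarith
    apply div_le_div_of_nonneg_right _ (by positivity)
    have := (VO28_vol hd hD hR hDR ht).2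
    linarith

end Pool.Agent.Sausage27
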