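import Pool.Agent.Sausage27.Defs

/-!
# The first intrinsic volume of the `(d-1)`-dimensional unit ball
-/

namespace Pool.Agent.Sausage27

/-- The first intrinsic volume of the `(d-1)`-dimensional unit ball:
`2 √π Γ(d/2) / Γ((d-1)/2)`. -/
noncomputable def betaV (d : ℕ) : ℝ :=
  2 * √Real.pi * Real.Gamma ((d : ℝ) / 2) / Real.Gamma (((d : ℝ) - 1) / 2)

end Pool.Agent.Sausage27
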