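import Pool.Agent.Sausage27.VO28
import Pool.Agent.Sausage27.DefsB

/-!
# Sausage27, SG2-A: the explicit constant in the formula for the first intrinsic volume
-/

namespace Pool.Agent.Sausage27

open MeasureTheory Set Metric Filter Topology
open scoped InnerProductSpace Pointwise

theorem ConstA_kap (m : ℕ) : kap m = √Real.pi ^ m / Real.Gamma ((m : ℝ) / 2 + 1) := by
  rcases Nat.eq_zero_or_pos m with rfl | hm
  · have h1 : closedBall (0 : Eu 0) 1 = univ := by
      ext x
      simp [Subsingleton.elim x 0]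
    have h2 : (volume (univ : Set (Eu 0))) = 1 := by
      have h3 := (PiLp.volume_preserving_toLp (Fin 0)).measure_preimage
        (s := (univ : Set (Eu 0))) MeasurableSet.univ.nullMeasurableSet
      rw [← h3, preimage_univ]
      simp [volume_pi]
    unfold kap
    rw [h1, h2]
    simp
  · have : Nonempty (Fin m) := ⟨⟨0, hm⟩⟩
    unfold kap
    rw [EuclideanSpace.volume_closedBall, Fintype.card_fin, ENNReal.ofReal_one, one_pow, one_mul,
      ENNReal.toReal_ofReal]
    have := Real.Gamma_pos_of_pos (show (0 : ℝ) < (m : ℝ) / 2 + 1 by positivity)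
    positivity

theorem ConstA_Zg (d : ℕ) : Zg (Eu d) = (2 * Real.pi) ^ ((d : ℝ) / 2) := by
  have h := GaussianFourier.integral_rexp_neg_mul_sq_norm (V := Eu d) (b := 1 / 2) (by norm_num)
  unfold Zg
  rw [finrank_euclideanSpace, Fintype.card_fin] at h
  rw [show (2 * Real.pi : ℝ) = Real.pi / (1 / 2) by ring, ← h]
  congr 1
  ext x
  congr 1
  ring

theorem ConstA_norm {d : ℕ} (hd : 1 ≤ d) : ∫ x : Eu d, ‖x‖ * Real.exp (-‖x‖ ^ 2 / 2) =
    d * kap d * ((1 / 2 : ℝ) ^ (-((d : ℝ) + 1) / 2) * (1 / 2) * Real.Gamma (((d : ℝ) + 1) / 2)) := by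
  have : Nontrivial (Eu d) := by
    have : Nonempty (Fin d) := ⟨⟨0, by omega⟩⟩
    infer_instance
  have h := integral_fun_norm_addHaar (volume : Measure (Eu d))
    (fun r : ℝ => r * Real.exp (-r ^ 2 / 2))
  rw [h, finrank_euclideanSpace, Fintype.card_fin, nsmul_eq_mul, smul_eq_mul, mul_assoc]
  have h1 : (volume : Measure (Eu d)).real (ball 0 1) = kap d := by
    unfold kap
    rw [Measure.addHaar_closedBall_eq_addHaar_ball]
    rfl
  rw [h1]
  congr 2
  have h2 := integral_rpow_mul_exp_neg_mul_rpow (p := 2) (q := (d : ℝ)) (b := 1 / 2) (by norm_num)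
    (by have : (0 : ℝ) ≤ d := Nat.cast_nonneg d
        linarith) (by norm_num)
  rw [← h2]
  refine setIntegral_congr_fun measurableSet_Ioi fun r hr => ?_
  obtain ⟨m, rfl⟩ : ∃ m, d = m + 1 := ⟨d - 1, by omega⟩
  simp only [smul_eq_mul, Nat.add_sub_cancel]
  rw [Real.rpow_natCast, ← mul_assoc, ← pow_succ]
  congr 2
  rw [Real.rpow_two]
  ring

theorem ConstA_body (d : ℕ) : Body (closedBall (0 : Eu d) 1) :=
  ⟨convex_closedBall _ _, isCompact_closedBall _ _, ⟨0, by simp⟩⟩

theorem ConstA_hS (d : ℕ) (u : Eu d) : hS (closedBall (0 : Eu d) 1) u = ‖u‖ := by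
  apply le_antisymm
  · refine (ConstA_body d).hS_le fun x hx => ?_
    rw [mem_closedBall, dist_zero_right] at hx
    refine (real_inner_le_norm _ _).trans ?_
    calc ‖x‖ * ‖u‖ ≤ 1 * ‖u‖ := mul_le_mul_of_nonneg_right hx (norm_nonneg _)
      _ = ‖u‖ := one_mul _
  · by_cases hu : u = 0
    · subst hu
      have := (ConstA_body d).inner_le (x := 0) (by simp) (0 : Eu d)
      simpa using this
    · have hn : ‖u‖ ≠ 0 := norm_ne_zero_iff.2 hu
      have h1 := (ConstA_body d).inner_le (x := ‖u‖⁻¹ • u) (by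
        rw [mem_closedBall, dist_zero_right, norm_smul, norm_inv, norm_norm,
          inv_mul_cancel₀ hn]) u
      rw [real_inner_smul_left, real_inner_self_eq_norm_sq] at h1
      have h2 : ‖u‖⁻¹ * ‖u‖ ^ 2 = ‖u‖ := by field_simp
      rw [h2] at h1
      exact h1

theorem ConstA_lim {d : ℕ} (hd : 1 ≤ d) : Tendsto (fun t : ℝ =>
    ((volume (closedBall (0 : Eu d) 1 + closedBall (0 : Eu d) t)).toReal - kap d * t ^ d) /
      (kap (d - 1) * t ^ (d - 1))) atTop (𝓝 (d * kap d / kap (d - 1))) := by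
  have hk := kap_pos (d - 1)
  have hd0 : (0 : ℝ) < d := by
    have : 0 < d := by omega
    exact_mod_cast this
  have h1 := (VO28_ptlim d hd 1 0).const_mul (d * kap d / kap (d - 1))
  rw [mul_one] at h1
  refine h1.congr' ?_
  filter_upwards [eventually_gt_atTop (0 : ℝ)] with t ht
  have h2 := VO28_alg d hd 1 0 ht
  rw [← h2]
  have h3 : closedBall (0 : Eu d) 1 + closedBall (0 : Eu d) t = closedBall (0 : Eu d) (t + 1) := by
    rw [closedBall_add_closedBall (by norm_num) ht.le, add_zero, add_comm]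
  have h4 : (volume (closedBall (0 : Eu d) (t + 1))).toReal = kap d * (t + 1) ^ d := by
    unfold kap
    rw [Measure.addHaar_closedBall' volume (0 : Eu d) (by linarith : (0 : ℝ) ≤ t + 1),
      ENNReal.toReal_mul, finrank_euclideanSpace, Fintype.card_fin,
      ENNReal.toReal_ofReal (by positivity), mul_comm]
  rw [h3, h4, zero_div, sub_zero]
  field_simp

/-- SG2-A. -/
theorem V1_formula {d : ℕ} (hd : 1 ≤ d) {D : Set (Eu d)} (hD : Body D) :
    V1 D = √(2 * Real.pi) / Zg (Eu d) * G D := by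
  obtain ⟨C, hC, h⟩ := V1_eq d hd
  have h1 : V1 D = C * G D := (h D hD).limUnder_eq
  rw [h1]
  congr 1
  have h2 := tendsto_nhds_unique (h _ (ConstA_body d)) (ConstA_lim hd)
  have h3 : G (closedBall (0 : Eu d) 1) = ∫ x : Eu d, ‖x‖ * Real.exp (-‖x‖ ^ 2 / 2) := by
    unfold G
    congr 1
    ext x
    rw [ConstA_hS]
  rw [h3, ConstA_norm hd] at h2
  have hk := kap_pos (d - 1)
  have hk' := kap_pos d
  have hd0 : (0 : ℝ) < d := by
    have : 0 < d := by omega
    exact_mod_cast this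
  have hΓ : 0 < Real.Gamma (((d : ℝ) + 1) / 2) := Real.Gamma_pos_of_pos (by positivity)
  have hcast : ((d - 1 : ℕ) : ℝ) = (d : ℝ) - 1 := by
    rw [Nat.cast_sub hd, Nat.cast_one]
  have hkk : kap (d - 1) = √Real.pi ^ (d - 1) / Real.Gamma (((d : ℝ) + 1) / 2) := by
    rw [ConstA_kap, hcast]
    congr 2
    ring
  set g := Real.Gamma (((d : ℝ) + 1) / 2) with hg
  set p := (1 / 2 : ℝ) ^ (-((d : ℝ) + 1) / 2) with hp
  have hp0 : 0 < p := Real.rpow_pos_of_pos (by norm_num) _
  have h4 : C * (p * (1 / 2) * g) = 1 / kap (d - 1) := by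
    have h5 : (d : ℝ) * kap d * (C * (p * (1 / 2) * g)) = d * kap d * (1 / kap (d - 1)) := by
      have h5' : (d : ℝ) * kap d * (1 / kap (d - 1)) = d * kap d / kap (d - 1) := by ring
      rw [h5', ← h2]
      ring
    exact mul_left_cancel₀ (by positivity) h5
  rw [hkk, one_div_div] at h4
  have hs0 : 0 < √Real.pi := Real.sqrt_pos.2 Real.pi_pos
  have h6 : C * (p * (1 / 2)) = 1 / √Real.pi ^ (d - 1) := by
    have h7 : C * (p * (1 / 2)) * g = 1 / √Real.pi ^ (d - 1) * g := by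
      rw [one_div_mul_eq_div, ← h4]
      ring
    exact mul_right_cancel₀ hΓ.ne' h7
  rw [ConstA_Zg]
  -- powers
  have h8 : p = 2 ^ (((d : ℝ) + 1) / 2) := by
    rw [hp, one_div, Real.inv_rpow (by norm_num), ← Real.rpow_neg (by norm_num)]
    congr 1
    ring
  have h9 : √Real.pi ^ (d - 1) = Real.pi ^ (((d : ℝ) - 1) / 2) := by
    rw [Real.sqrt_eq_rpow, ← Real.rpow_natCast, ← Real.rpow_mul Real.pi_pos.le, hcast]
    congr 1
    ring
  have h10 : √(2 * Real.pi) = 2 ^ (1 / 2 : ℝ) * Real.pi ^ (1 / 2 : ℝ) := by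
    rw [Real.sqrt_eq_rpow, Real.mul_rpow (by norm_num) Real.pi_pos.le]
  rw [h10, Real.mul_rpow (by norm_num) Real.pi_pos.le]
  rw [h8, h9] at h6
  have h11 : (2 : ℝ) ^ (((d : ℝ) + 1) / 2) = 2 ^ ((d : ℝ) / 2) * 2 ^ (1 / 2 : ℝ) := by
    rw [← Real.rpow_add (by norm_num)]
    congr 1
    ring
  have h12 : (2 : ℝ) ^ (1 / 2 : ℝ) * 2 ^ (1 / 2 : ℝ) = 2 := by
    rw [← Real.rpow_add (by norm_num)]
    norm_num
  have h13 : Real.pi ^ ((d : ℝ) / 2) = Real.pi ^ (((d : ℝ) - 1) / 2) * Real.pi ^ (1 / 2 : ℝ) := by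
    rw [← Real.rpow_add Real.pi_pos]
    congr 1
    ring
  rw [h11] at h6
  rw [h13]
  set A := (2 : ℝ) ^ ((d : ℝ) / 2) with hA
  set B := (2 : ℝ) ^ (1 / 2 : ℝ) with hB
  set P := Real.pi ^ (((d : ℝ) - 1) / 2) with hPdef
  set Q := Real.pi ^ (1 / 2 : ℝ) with hQ
  have hA0 : 0 < A := Real.rpow_pos_of_pos (by norm_num) _
  have hB0 : 0 < B := Real.rpow_pos_of_pos (by norm_num) _
  have hP0 : 0 < P := Real.rpow_pos_of_pos Real.pi_pos _
  have hQ0 : 0 < Q := Real.rpow_pos_of_pos Real.pi_pos _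
  rw [eq_div_iff hP0.ne'] at h6
  rw [eq_div_iff (by positivity)]
  have h14 : C * (A * (P * Q)) * B = B * Q * B := by
    have : C * (A * (P * Q)) * B = 2 * Q * (C * (A * B * (1 / 2)) * P) := by ring
    rw [this, h6]
    have : B * Q * B = (B * B) * Q := by ring
    rw [this, h12]
    ring
  exact mul_right_cancel₀ hB0.ne' h14

end Pool.Agent.Sausage27
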