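import Mathlib

/-!
# The sausage-skin problem: basic definitions
-/

namespace Pool.Agent.Sausage27

open MeasureTheory Set Metric Filter Topology
open scoped InnerProductSpace Pointwise

/-- Euclidean `d`-space. -/
abbrev Eu (d : ℕ) : Type := EuclideanSpace ℝ (Fin d)

section general

variable {E : Type*} [NormedAddCommGroup E] [InnerProductSpace ℝ E]

/-- A nonempty compact convex set (possibly lower dimensional). -/
structure Body (D : Set E) : Prop where
  conv : Convex ℝ D
  comp : IsCompact D
  ne : D.Nonempty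

/-- The `i`-skeleton of `D`: the points of `D` that are not the centre of an `(i+1)`-dimensional
ball (of positive radius) contained in `D`. -/
def skel (i : ℕ) (D : Set E) : Set E :=
  {x | x ∈ D ∧ ¬ ∃ (P : Submodule ℝ E) (r : ℝ), Module.finrank ℝ P = i + 1 ∧ 0 < r ∧
    ∀ v ∈ P, ‖v‖ ≤ r → x + v ∈ D}

end general

/-- The volume of the `m`-dimensional unit ball. -/
noncomputable def kap (m : ℕ) : ℝ := (volume (closedBall (0 : Eu m) 1)).toReal

/-- The first intrinsic volume of `D ⊆ ℝ^d`, read off from the Steiner formula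
`vol (D + t B) = κ_d t^d + κ_{d-1} V₁(D) t^{d-1} + ...` : the limit, as `t → ∞`, of
`(vol (D + t B) - κ_d t^d) / (κ_{d-1} t^{d-1})`. -/
noncomputable def V1 {d : ℕ} (D : Set (Eu d)) : ℝ :=
  limUnder atTop (fun t : ℝ =>
    ((volume (D + closedBall (0 : Eu d) t)).toReal - kap d * t ^ d) / (kap (d - 1) * t ^ (d - 1)))

/-- The set `D` is extremal for `n` balls: it is a nonempty compact convex set whose `1`-skeleton
can be covered by `n` closed unit balls, and its first intrinsic volume (equivalently, its mean
width) is maximal among all such sets. -/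
def Extremal {d : ℕ} (n : ℕ) (D : Set (Eu d)) : Prop :=
  Body D ∧ (∃ c : Fin n → Eu d, skel 1 D ⊆ ⋃ j, closedBall (c j) 1) ∧
    ∀ D' : Set (Eu d), Body D' → (∃ c : Fin n → Eu d, skel 1 D' ⊆ ⋃ j, closedBall (c j) 1) →
      V1 D' ≤ V1 D

end Pool.Agent.Sausage27
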