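import Pool.Agent.Sausage27.Defs

/-!
# Support functions and the Gaussian functional
-/

namespace Pool.Agent.Sausage27

open MeasureTheory Set Metric Filter Topology
open scoped InnerProductSpace Pointwise

section general

variable {E : Type*} [NormedAddCommGroup E] [InnerProductSpace ℝ E]

/-- Support function of `D`. -/
noncomputable def hS (D : Set E) (u : E) : ℝ := sSup ((fun x => ⟪x, u⟫_ℝ) '' D)

/-- Every hyperplane slice of `D` has all its extreme points in the union of the unit balls. -/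
def SliceCov {n : ℕ} (D : Set E) (c : Fin n → E) : Prop :=
  ∀ (u : E) (t : ℝ), u ≠ 0 →
    (D ∩ {x | ⟪u, x⟫_ℝ = t}).extremePoints ℝ ⊆ ⋃ j, closedBall (c j) 1

theorem Body.bddAbove {D : Set E} (hD : Body D) (u : E) :
    BddAbove ((fun x => ⟪x, u⟫_ℝ) '' D) :=
  (hD.comp.image (by fun_prop)).bddAbove

theorem Body.inner_le {D : Set E} (hD : Body D) {x : E} (hx : x ∈ D) (u : E) :
    ⟪x, u⟫_ℝ ≤ hS D u :=
  le_csSup (hD.bddAbove u) (mem_image_of_mem _ hx)

theorem Body.exists_eq {D : Set E} (hD : Body D) (u : E) : ∃ x ∈ D, hS D u = ⟪x, u⟫_ℝ := by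
  obtain ⟨x, hx, hmax⟩ := hD.comp.exists_isMaxOn hD.ne
    (f := fun x => ⟪x, u⟫_ℝ) (by fun_prop)
  refine ⟨x, hx, le_antisymm ?_ (hD.inner_le hx u)⟩
  refine csSup_le (hD.ne.image _) ?_
  rintro _ ⟨y, hy, rfl⟩
  exact hmax hy

theorem Body.hS_le {D : Set E} (hD : Body D) {u : E} {a : ℝ} (h : ∀ x ∈ D, ⟪x, u⟫_ℝ ≤ a) :
    hS D u ≤ a := by
  obtain ⟨x, hx, he⟩ := hD.exists_eq u
  rw [he]; exact h x hx

theorem Body.hS_smul {D : Set E} (hD : Body D) {t : ℝ} (ht : 0 ≤ t) (u : E) :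
    hS D (t • u) = t * hS D u := by
  apply le_antisymm
  · refine hD.hS_le fun x hx => ?_
    rw [inner_smul_right]
    exact mul_le_mul_of_nonneg_left (hD.inner_le hx u) ht
  · obtain ⟨x, hx, he⟩ := hD.exists_eq u
    rw [he, ← inner_smul_right]
    exact hD.inner_le hx _

theorem Body.exists_bound {D : Set E} (hD : Body D) :
    ∃ R : ℝ, 0 < R ∧ (∀ x ∈ D, ‖x‖ ≤ R) ∧ (∀ u, |hS D u| ≤ R * ‖u‖) ∧
      ∀ u v, |hS D u - hS D v| ≤ R * ‖u - v‖ := by
  obtain ⟨R, hR⟩ := hD.comp.isBounded.exists_norm_le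
  have hR' : ∀ x ∈ D, ‖x‖ ≤ max R 1 := fun x hx => (hR x hx).trans (le_max_left _ _)
  have hpos : (0 : ℝ) < max R 1 := lt_of_lt_of_le one_pos (le_max_right _ _)
  have key : ∀ u v, hS D u - hS D v ≤ max R 1 * ‖u - v‖ := by
    intro u v
    obtain ⟨x, hx, he⟩ := hD.exists_eq u
    have h1 := hD.inner_le hx v
    have h2 : ⟪x, u⟫_ℝ - ⟪x, v⟫_ℝ = ⟪x, u - v⟫_ℝ := by rw [inner_sub_right]
    have h3 : ⟪x, u - v⟫_ℝ ≤ ‖x‖ * ‖u - v‖ := real_inner_le_norm _ _
    have h4 : ‖x‖ * ‖u - v‖ ≤ max R 1 * ‖u - v‖ :=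
      mul_le_mul_of_nonneg_right (hR' x hx) (norm_nonneg _)
    linarith
  refine ⟨max R 1, hpos, hR', ?_, ?_⟩
  · intro u
    have h0 : hS D 0 = 0 := by
      obtain ⟨x, hx, he⟩ := hD.exists_eq 0
      rw [he, inner_zero_right]
    have h1 := key u 0
    have h2 := key 0 u
    rw [h0] at h1 h2
    rw [sub_zero, sub_zero] at h1
    rw [zero_sub, zero_sub, norm_neg] at h2
    rw [abs_le]; constructor <;> linarith
  · intro u v
    have h1 := key u v
    have h2 := key v u
    rw [norm_sub_rev] at h2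
    rw [abs_le]; constructor <;> linarith

theorem Body.continuous_hS {D : Set E} (hD : Body D) : Continuous (hS D) := by
  obtain ⟨R, hR, -, -, hL⟩ := hD.exists_bound
  refine LipschitzWith.continuous (K := ⟨R, hR.le⟩) ?_
  refine LipschitzWith.of_dist_le_mul fun u v => ?_
  rw [Real.dist_eq, dist_eq_norm]
  exact hL u v

/-- Translates. -/
theorem Body.translate {D : Set E} (hD : Body D) (a : E) : Body ((fun x => x + a) '' D) := by
  refine ⟨?_, hD.comp.image (by fun_prop), hD.ne.image _⟩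
  have h := hD.conv.translate a
  convert h using 1
  ext x
  simp [add_comm]

theorem Body.hS_translate {D : Set E} (hD : Body D) (a u : E) :
    hS ((fun x => x + a) '' D) u = hS D u + ⟪a, u⟫_ℝ := by
  apply le_antisymm
  · refine (hD.translate a).hS_le ?_
    rintro _ ⟨x, hx, rfl⟩
    rw [inner_add_left]
    have := hD.inner_le hx u
    linarith
  · obtain ⟨x, hx, he⟩ := hD.exists_eq u
    rw [he, ← inner_add_left]
    exact (hD.translate a).inner_le (mem_image_of_mem _ hx) u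

end general

section gauss

variable {E : Type*} [NormedAddCommGroup E] [InnerProductSpace ℝ E] [FiniteDimensional ℝ E]
  [MeasurableSpace E] [BorelSpace E]

/-- The Gaussian functional `∫ h_D(x) exp(-|x|²/2) dx`. -/
noncomputable def G (D : Set E) : ℝ := ∫ x : E, hS D x * Real.exp (-‖x‖ ^ 2 / 2)

/-- The Gaussian normalisation `∫ exp(-|x|²/2) dx`. -/
noncomputable def Zg (E : Type*) [NormedAddCommGroup E] [InnerProductSpace ℝ E]
    [FiniteDimensional ℝ E] [MeasurableSpace E] [BorelSpace E] : ℝ :=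
  ∫ x : E, Real.exp (-‖x‖ ^ 2 / 2)

end gauss

end Pool.Agent.Sausage27
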