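import Pool.Agent.Sausage27.GF8
import Pool.Agent.Sausage27.DefsB

/-!
# Sausage27, package SG2-B: the mean of the norm of the projection
-/

namespace Pool.Agent.Sausage27

open MeasureTheory Set Metric Filter Topology
open scoped InnerProductSpace Pointwise

/-- `∫_0^∞ r^m e^{-r²/2} dr`. -/
theorem SG2B_radial (m : ℕ) :
    ∫ r in Ioi (0 : ℝ), r ^ m * Real.exp (-r ^ 2 / 2)
      = √2 ^ (m + 1) / 2 * Real.Gamma (((m : ℝ) + 1) / 2) := by
  have h := integral_rpow_mul_exp_neg_mul_rpow (p := 2) (q := m) (b := 1 / 2) (by norm_num)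
    (by have : (0 : ℝ) ≤ m := Nat.cast_nonneg m
        linarith) (by norm_num)
  have e1 : ∫ r in Ioi (0 : ℝ), r ^ m * Real.exp (-r ^ 2 / 2)
      = ∫ r in Ioi (0 : ℝ), r ^ (m : ℝ) * Real.exp (-(1 / 2) * r ^ (2 : ℝ)) := by
    refine setIntegral_congr_fun measurableSet_Ioi fun r _ => ?_
    rw [Real.rpow_natCast, Real.rpow_two]
    congr 2
    ring
  rw [e1, h]
  have e2 : ((1 : ℝ) / 2) ^ (-((m : ℝ) + 1) / 2) = √2 ^ (m + 1) := by
    rw [one_div, Real.inv_rpow (by norm_num), ← Real.rpow_neg (by norm_num),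
      Real.sqrt_eq_rpow, ← Real.rpow_natCast, ← Real.rpow_mul (by norm_num)]
    congr 1
    push_cast
    ring
  rw [e2]
  ring

/-- `∫_{R^m} |y| e^{-|y|²/2} dy`. -/
theorem SG2B_norm (m : ℕ) (hm : 1 ≤ m) :
    ∫ y : EuclideanSpace ℝ (Fin m), ‖y‖ * Real.exp (-‖y‖ ^ 2 / 2)
      = m * (√Real.pi ^ m / Real.Gamma ((m : ℝ) / 2 + 1)) *
        (√2 ^ (m + 1) / 2 * Real.Gamma (((m : ℝ) + 1) / 2)) := by
  have hne : Nonempty (Fin m) := ⟨⟨0, hm⟩⟩
  have hnt : Nontrivial (EuclideanSpace ℝ (Fin m)) := by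
    have : 0 < Module.finrank ℝ (EuclideanSpace ℝ (Fin m)) := by
      rw [finrank_euclideanSpace_fin]; exact hm
    exact Module.nontrivial_of_finrank_pos this
  have h := integral_fun_norm_addHaar
    (volume : Measure (EuclideanSpace ℝ (Fin m))) (fun r => r * Real.exp (-r ^ 2 / 2))
  rw [h, finrank_euclideanSpace_fin]
  have e1 : ∫ y in Ioi (0 : ℝ), y ^ (m - 1) • (y * Real.exp (-y ^ 2 / 2))
      = ∫ r in Ioi (0 : ℝ), r ^ m * Real.exp (-r ^ 2 / 2) := by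
    refine setIntegral_congr_fun measurableSet_Ioi fun r _ => ?_
    simp only [smul_eq_mul]
    rw [← mul_assoc, ← pow_succ]
    congr 2
    omega
  have hΓ : 0 < Real.Gamma ((m : ℝ) / 2 + 1) := Real.Gamma_pos_of_pos (by positivity)
  have e2 : (volume : Measure (EuclideanSpace ℝ (Fin m))).real (ball 0 1)
      = √Real.pi ^ m / Real.Gamma ((m : ℝ) / 2 + 1) := by
    rw [Measure.real, EuclideanSpace.volume_ball]
    simp only [ENNReal.ofReal_one, one_pow, one_mul, Fintype.card_fin]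
    exact ENNReal.toReal_ofReal (by positivity)
  rw [e1, e2, SG2B_radial]
  simp only [nsmul_eq_mul, smul_eq_mul]
  ring

/-- The mean of the norm of the projection, before the evaluation of the constants. -/
theorem SG2B_split (m : ℕ) {e : Eu (m + 1)} (he : ‖e‖ = 1) :
    ∫ x : Eu (m + 1), ‖x - ⟪e, x⟫_ℝ • e‖ * Real.exp (-‖x‖ ^ 2 / 2)
      = √(2 * Real.pi) * ∫ y : EuclideanSpace ℝ (Fin m), ‖y‖ * Real.exp (-‖y‖ ^ 2 / 2) := by
  -- an orthonormal basis starting with `e`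
  obtain ⟨b, hb⟩ : ∃ b : OrthonormalBasis (Fin (m + 1)) ℝ (Eu (m + 1)), b 0 = e := by
    obtain ⟨b, hb⟩ := Orthonormal.exists_orthonormalBasis_extension_of_card_eq (𝕜 := ℝ)
      (E := Eu (m + 1)) (ι := Fin (m + 1)) (by simp) (v := fun _ => e) (s := {0}) (by
        constructor
        · rintro ⟨i, hi⟩; simpa using he
        · rintro ⟨i, hi⟩ ⟨j, hj⟩ hij
          exact absurd (Subtype.ext ((mem_singleton_iff.mp hi).trans
            (mem_singleton_iff.mp hj).symm)) hij)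
    exact ⟨b, hb _ rfl⟩
  let Φ : Eu (m + 1) → ℝ × (Fin m → ℝ) := fun x =>
    MeasurableEquiv.piFinSuccAbove (fun _ => ℝ) 0 (WithLp.ofLp (b.repr x))
  have hΦ : MeasurePreserving Φ volume volume :=
    (volume_preserving_piFinSuccAbove (fun _ : Fin (m + 1) => ℝ) 0).comp
      ((PiLp.volume_preserving_ofLp (Fin (m + 1))).comp b.measurePreserving_repr)
  have hΦe : MeasurableEmbedding Φ :=
    (MeasurableEquiv.piFinSuccAbove (fun _ : Fin (m + 1) => ℝ) 0).measurableEmbedding.comp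
      ((MeasurableEquiv.toLp 2 (Fin (m + 1) → ℝ)).symm.measurableEmbedding.comp
        b.repr.toHomeomorph.measurableEmbedding)
  have h1 : ∀ x, (Φ x).1 = ⟪e, x⟫_ℝ := by
    intro x
    show b.repr x 0 = _
    rw [OrthonormalBasis.repr_apply_apply, hb]
  have h2 : ∀ x i, (Φ x).2 i = ⟪b i.succ, x⟫_ℝ := by
    intro x i
    show b.repr x ((0 : Fin (m + 1)).succAbove i) = _
    rw [OrthonormalBasis.repr_apply_apply, Fin.zero_succAbove]
  have hn : ∀ x, ‖x‖ ^ 2 = (Φ x).1 ^ 2 + ∑ i, (Φ x).2 i ^ 2 := by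
    intro x
    rw [GF8_norm_sq b x, Fin.sum_univ_succ, h1, hb]
    congr 1
    exact Finset.sum_congr rfl fun i _ => by rw [h2]
  have hp : ∀ x, ‖x - ⟪e, x⟫_ℝ • e‖ = √(∑ i, (Φ x).2 i ^ 2) := by
    intro x
    have h3 : ‖x - ⟪e, x⟫_ℝ • e‖ ^ 2 = ∑ i, (Φ x).2 i ^ 2 := by
      rw [@norm_sub_sq_real, hn x, norm_smul, he, h1, inner_smul_right, real_inner_comm,
        Real.norm_eq_abs, mul_one, sq_abs]
      ring
    rw [← h3, Real.sqrt_sq (norm_nonneg _)]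
  have key : ∀ x : Eu (m + 1), ‖x - ⟪e, x⟫_ℝ • e‖ * Real.exp (-‖x‖ ^ 2 / 2)
      = (fun p : ℝ × (Fin m → ℝ) => Real.exp (-p.1 ^ 2 / 2) *
        (√(∑ i, p.2 i ^ 2) * Real.exp (-(∑ i, p.2 i ^ 2) / 2))) (Φ x) := by
    intro x
    simp only
    rw [hp x, hn x, mul_left_comm, ← Real.exp_add]
    congr 2
    ring
  simp_rw [key]
  rw [hΦ.integral_comp hΦe (fun p : ℝ × (Fin m → ℝ) => Real.exp (-p.1 ^ 2 / 2) *
        (√(∑ i, p.2 i ^ 2) * Real.exp (-(∑ i, p.2 i ^ 2) / 2)))]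
  have h4 : ∫ p : ℝ × (Fin m → ℝ), Real.exp (-p.1 ^ 2 / 2) *
        (√(∑ i, p.2 i ^ 2) * Real.exp (-(∑ i, p.2 i ^ 2) / 2))
      = (∫ t : ℝ, Real.exp (-t ^ 2 / 2)) *
        ∫ y : Fin m → ℝ, √(∑ i, y i ^ 2) * Real.exp (-(∑ i, y i ^ 2) / 2) :=
    integral_prod_mul (fun t : ℝ => Real.exp (-t ^ 2 / 2))
      (fun y : Fin m → ℝ => √(∑ i, y i ^ 2) * Real.exp (-(∑ i, y i ^ 2) / 2))
  rw [h4, GF8_int0]
  congr 1
  rw [← (PiLp.volume_preserving_ofLp (Fin m)).integral_comp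
    (MeasurableEquiv.toLp 2 (Fin m → ℝ)).symm.measurableEmbedding
    (fun y : Fin m → ℝ => √(∑ i, y i ^ 2) * Real.exp (-(∑ i, y i ^ 2) / 2))]
  congr 1
  funext y
  have h5 : ‖y‖ ^ 2 = ∑ i, y i ^ 2 := by
    rw [EuclideanSpace.real_norm_sq_eq]
  rw [h5, ← Real.sqrt_sq (norm_nonneg y), h5]

/-- SG2-B. -/
theorem perp_int {d : ℕ} (hd : 2 ≤ d) {e : Eu d} (he : ‖e‖ = 1) :
    √(2 * Real.pi) / Zg (Eu d) *
      ∫ x : Eu d, ‖x - ⟪e, x⟫_ℝ • e‖ * Real.exp (-‖x‖ ^ 2 / 2) = betaV d := by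
  obtain ⟨m, rfl⟩ : ∃ m, d = m + 1 := ⟨d - 1, by omega⟩
  have hm : 1 ≤ m := by omega
  have hZ : Zg (Eu (m + 1)) = √(2 * Real.pi) ^ (m + 1) := by
    rw [GF8_Zg (EuclideanSpace.basisFun (Fin (m + 1)) ℝ), Fintype.card_fin]
  rw [SG2B_split m he, SG2B_norm m hm, hZ, betaV]
  have hmr : (0 : ℝ) < m := by exact_mod_cast hm
  have hΓ1 : Real.Gamma ((m : ℝ) / 2 + 1) = (m : ℝ) / 2 * Real.Gamma ((m : ℝ) / 2) :=
    Real.Gamma_add_one (by positivity)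
  have hΓ2 : 0 < Real.Gamma ((m : ℝ) / 2) := Real.Gamma_pos_of_pos (by positivity)
  have hs : √(2 * Real.pi) = √2 * √Real.pi := Real.sqrt_mul (by norm_num) _
  have hπ : 0 < √Real.pi := Real.sqrt_pos.mpr Real.pi_pos
  have h2 : 0 < √(2 : ℝ) := Real.sqrt_pos.mpr (by norm_num)
  have h22 : √(2 : ℝ) ^ 2 = 2 := Real.sq_sqrt (by norm_num)
  rw [hΓ1, hs]
  push_cast
  rw [show ((m : ℝ) + 1 - 1) / 2 = (m : ℝ) / 2 by ring, mul_pow]
  field_simp
  ring_nf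
  rw [h22]
  ring

end Pool.Agent.Sausage27
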