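import Pool.Agent.Sausage27.Basic

/-!
# A subspace of wide directions (package WS5)
-/

namespace Pool.Agent.Sausage27

open MeasureTheory Set Metric Filter Topology
open scoped InnerProductSpace Pointwise

variable {E : Type*} [NormedAddCommGroup E] [InnerProductSpace ℝ E]

theorem ws5_abs_inner_le {D : Set E} (hD : Body D) {x y : E} (hx : x ∈ D) (hy : y ∈ D) (w : E) :
    |⟪w, x - y⟫_ℝ| ≤ hS D w + hS D (-w) := by
  have h1 := hD.inner_le hx w
  have h2 := hD.inner_le hy w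
  have h3 := hD.inner_le hx (-w)
  have h4 := hD.inner_le hy (-w)
  rw [inner_neg_right] at h3 h4
  rw [real_inner_comm, inner_sub_left, abs_le]
  constructor <;> linarith

theorem ws5_aux [FiniteDimensional ℝ E] {D : Set E} (hD : Body D) {H : ℝ}
    (hH : 0 < H) (k : ℕ) : ∀ W : Submodule ℝ E, Module.finrank ℝ W ≤ k →
    (∀ x ∈ D, ∀ y ∈ D, ∀ v ∈ Wᗮ, ‖v‖ ≤ 1 →
      ⟪v, x - y⟫_ℝ ≤ H * ((Module.finrank ℝ E : ℝ) - Module.finrank ℝ W)) →
    ∃ W : Submodule ℝ E, (∀ w ∈ W, ‖w‖ = 1 → H ≤ hS D w + hS D (-w)) ∧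
      ∀ x ∈ D, ∀ y ∈ D, ∀ v ∈ Wᗮ, ‖v‖ ≤ 1 → ⟪v, x - y⟫_ℝ ≤ H * Module.finrank ℝ E := by
  induction k with
  | zero =>
    intro W hk hW
    refine ⟨W, ?_, ?_⟩
    · intro w hw hn
      exfalso
      have h0 : W = ⊥ := by
        rw [← Submodule.finrank_eq_zero (R := ℝ)]
        omega
      rw [h0, Submodule.mem_bot] at hw
      rw [hw, norm_zero] at hn
      exact zero_ne_one hn
    · intro x hx y hy v hv hn
      refine (hW x hx y hy v hv hn).trans (mul_le_mul_of_nonneg_left ?_ hH.le)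
      have : (0 : ℝ) ≤ Module.finrank ℝ W := Nat.cast_nonneg _
      linarith
  | succ k ih =>
    intro W hk hW
    by_cases hwide : ∀ w ∈ W, ‖w‖ = 1 → H ≤ hS D w + hS D (-w)
    · refine ⟨W, hwide, ?_⟩
      intro x hx y hy v hv hn
      refine (hW x hx y hy v hv hn).trans (mul_le_mul_of_nonneg_left ?_ hH.le)
      have : (0 : ℝ) ≤ Module.finrank ℝ W := Nat.cast_nonneg _
      linarith
    · push Not at hwide
      obtain ⟨w, hw, hn, hlt⟩ := hwide
      have hww : ⟪w, w⟫_ℝ = 1 := by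
        rw [real_inner_self_eq_norm_sq, hn]
        norm_num
      set W₁ : Submodule ℝ E := W ⊓ (ℝ ∙ w)ᗮ with hW₁
      have hmem : ∀ z, z ∈ W₁ ↔ z ∈ W ∧ ⟪w, z⟫_ℝ = 0 := by
        intro z
        rw [hW₁, Submodule.mem_inf, Submodule.mem_orthogonal_singleton_iff_inner_right]
      have hlt1 : W₁ < W := by
        refine lt_of_le_of_ne inf_le_left ?_
        intro h
        have h1 : w ∈ W₁ := h ▸ hw
        rw [hmem, hww] at h1
        exact one_ne_zero h1.2
      have hdim : Module.finrank ℝ W₁ + 1 ≤ Module.finrank ℝ W :=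
        Submodule.finrank_lt_finrank_of_lt hlt1
      refine ih W₁ (by omega) ?_
      intro x hx y hy v hv hvn
      set a : ℝ := ⟪w, v⟫_ℝ with ha
      set v' : E := v - a • w with hv'
      have hv'w : ⟪w, v'⟫_ℝ = 0 := by
        rw [hv', inner_sub_right, inner_smul_right, hww, ← ha]
        ring
      have hv'W : v' ∈ Wᗮ := by
        rw [Submodule.mem_orthogonal]
        intro z hz
        set b : ℝ := ⟪w, z⟫_ℝ with hb
        have hz1 : z - b • w ∈ W₁ := by
          rw [hmem]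
          refine ⟨W.sub_mem hz (W.smul_mem b hw), ?_⟩
          rw [inner_sub_right, inner_smul_right, hww, ← hb]
          ring
        have h1 : ⟪z - b • w, v⟫_ℝ = 0 := (Submodule.mem_orthogonal _ _).1 hv _ hz1
        have h2 : ⟪z, w⟫_ℝ = b := by rw [real_inner_comm]
        rw [inner_sub_left, inner_smul_left, ← ha] at h1
        rw [hv', inner_sub_right, inner_smul_right, h2]
        simp only [conj_trivial] at h1
        linarith
      have hnorm : ‖v‖ ^ 2 = ‖v'‖ ^ 2 + a ^ 2 := by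
        have h1 : v = v' + a • w := by rw [hv']; abel
        have h2 : ‖v' + a • w‖ ^ 2 = ‖v'‖ ^ 2 + 2 * ⟪v', a • w⟫_ℝ + ‖a • w‖ ^ 2 :=
          norm_add_sq_real _ _
        rw [← h1, inner_smul_right, real_inner_comm, hv'w, norm_smul, hn, mul_one,
          Real.norm_eq_abs, sq_abs] at h2
        linarith
      have hv1 : ‖v‖ ^ 2 ≤ 1 := by
        have := norm_nonneg v
        nlinarith
      have hv'n : ‖v'‖ ≤ 1 := by
        have h1 := sq_nonneg a
        have h2 := norm_nonneg v'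
        nlinarith
      have han : |a| ≤ 1 := by
        rw [← sq_le_one_iff_abs_le_one]
        have h1 := sq_nonneg ‖v'‖
        linarith
      have h3 := hW x hx y hy v' hv'W hv'n
      have h4 := ws5_abs_inner_le hD hx hy w
      have h5 : ⟪v, x - y⟫_ℝ = ⟪v', x - y⟫_ℝ + a * ⟪w, x - y⟫_ℝ := by
        have h1 : v = v' + a • w := by rw [hv']; abel
        conv_lhs => rw [h1]
        rw [inner_add_left, inner_smul_left]
        simp
      have h6 : a * ⟪w, x - y⟫_ℝ ≤ H := by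
        have h7 : a * ⟪w, x - y⟫_ℝ ≤ |a| * |⟪w, x - y⟫_ℝ| := by
          rw [← abs_mul]
          exact le_abs_self _
        have h8 : |a| * |⟪w, x - y⟫_ℝ| ≤ 1 * |⟪w, x - y⟫_ℝ| :=
          mul_le_mul_of_nonneg_right han (abs_nonneg _)
        linarith
      have h7 : (Module.finrank ℝ W₁ : ℝ) + 1 ≤ Module.finrank ℝ W := by exact_mod_cast hdim
      rw [h5]
      have h8 : H * ((Module.finrank ℝ E : ℝ) - Module.finrank ℝ W) + H ≤
          H * ((Module.finrank ℝ E : ℝ) - Module.finrank ℝ W₁) := by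
        nlinarith
      linarith

/-- WS5. -/
theorem exists_wide_subspace [FiniteDimensional ℝ E] {D : Set E} (hD : Body D) {H : ℝ}
    (hH : 0 < H) :
    ∃ W : Submodule ℝ E, (∀ w ∈ W, ‖w‖ = 1 → H ≤ hS D w + hS D (-w)) ∧
      ∀ x ∈ D, ∀ y ∈ D, ∀ v ∈ Wᗮ, ‖v‖ ≤ 1 → ⟪v, x - y⟫_ℝ ≤ H * Module.finrank ℝ E := by
  refine ws5_aux hD hH (Module.finrank ℝ (⊤ : Submodule ℝ E)) ⊤ le_rfl ?_
  intro x _ y _ v hv _
  rw [Submodule.top_orthogonal_eq_bot, Submodule.mem_bot] at hv
  rw [hv, inner_zero_left, finrank_top, sub_self, mul_zero]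

end Pool.Agent.Sausage27
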