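import Pool.Agent.Sausage27.Basic

/-!
# Sausage27 HB6: a ball in the projection of a wide body (Helly)
-/

namespace Pool.Agent.Sausage27

open MeasureTheory Set Metric Filter Topology
open scoped InnerProductSpace Pointwise

section general

variable {E : Type*} [NormedAddCommGroup E] [InnerProductSpace ℝ E]

lemma HB6_comb {F : Type*} [AddCommGroup F] [Module ℝ F] {K : Set F} (hK : Convex ℝ K)
    {ι : Type*} (s : Finset ι) (z : ι → F) (hz : ∀ i ∈ s, z i ∈ K) {x₀ : F} (hx₀ : x₀ ∈ K)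
    {a : ℝ} (ha : 0 ≤ a) (hs : a * s.card ≤ 1) :
    a • ∑ i ∈ s, z i + (1 - a * s.card) • x₀ ∈ K := by
  classical
  induction s using Finset.induction_on generalizing a with
  | empty => simpa using hx₀
  | insert i s hi ih =>
    rw [Finset.card_insert_of_notMem hi] at hs ⊢
    rw [Finset.sum_insert hi]
    push_cast at hs ⊢
    have hzi := hz i (Finset.mem_insert_self _ _)
    by_cases ha1 : a = 1
    · have hc : (s.card : ℝ) = 0 := by
        have h1 : (0 : ℝ) ≤ s.card := Nat.cast_nonneg _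
        rw [ha1] at hs
        linarith
      have hs0 : s = ∅ := by
        rw [Nat.cast_eq_zero] at hc
        exact Finset.card_eq_zero.mp hc
      subst hs0
      rw [ha1]
      simpa using hzi
    · have ha2 : a < 1 := by
        refine lt_of_le_of_ne ?_ ha1
        have h1 : (0 : ℝ) ≤ s.card := Nat.cast_nonneg _
        nlinarith
      have hpos : 0 < 1 - a := by linarith
      have h1 := ih (fun j hj => hz j (Finset.mem_insert_of_mem hj)) (a := a / (1 - a))
        (div_nonneg ha hpos.le) (by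
          rw [div_mul_eq_mul_div, div_le_one hpos]; linarith)
      have h2 := hK hzi h1 ha hpos.le (by ring)
      convert h2 using 1
      rw [smul_add, smul_add, smul_smul, smul_smul, mul_sub, ← mul_assoc,
        mul_div_cancel₀ _ hpos.ne', add_assoc]
      congr 3
      ring

/-- The core statement, in the space itself. -/
lemma HB6_core {F : Type*} [NormedAddCommGroup F] [InnerProductSpace ℝ F] [FiniteDimensional ℝ F]
    {K : Set F} (hK : Body K) {ω : ℝ} (hω : 0 < ω)
    (hw : ∀ w : F, ‖w‖ = 1 → ω ≤ hS K w + hS K (-w)) :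
    ∃ o : F, ∀ w : F, ‖w‖ ≤ ω / (Module.finrank ℝ F + 1) → o + w ∈ K := by
  classical
  obtain ⟨x₀, hx₀⟩ := hK.ne
  set k : ℝ := (Module.finrank ℝ F : ℝ) with hk
  have hk0 : 0 ≤ k := Nat.cast_nonneg _
  have hk1 : 0 < k + 1 := by linarith
  have hell : (⋂ x : K, (fun y : F => (1 / (k + 1)) • (x : F) + (k / (k + 1)) • y) '' K).Nonempty := by
    refine Convex.helly_theorem_compact' (𝕜 := ℝ) ?_ ?_ ?_
    · intro x
      have h1 := (hK.conv.smul (k / (k + 1))).translate ((1 / (k + 1)) • (x : F))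
      have hset : (fun y : F => (1 / (k + 1)) • (x : F) + (k / (k + 1)) • y) '' K =
          (fun z : F => (1 / (k + 1)) • (x : F) + z) '' ((k / (k + 1)) • K) := by
        ext z
        simp only [mem_image, mem_smul_set]
        constructor
        · rintro ⟨y, hy, rfl⟩
          exact ⟨_, ⟨y, hy, rfl⟩, rfl⟩
        · rintro ⟨_, ⟨y, hy, rfl⟩, rfl⟩
          exact ⟨y, hy, rfl⟩
      rw [hset]
      exact h1
    · intro x
      exact hK.comp.image (by fun_prop)
    · intro I hI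
      refine ⟨(1 / (k + 1)) • ∑ x ∈ I, (x : F) + (1 - 1 / (k + 1) * I.card) • x₀, ?_⟩
      simp only [mem_iInter]
      intro x hx
      have hIc : (I.card : ℝ) ≤ k + 1 := by
        rw [hk]
        exact_mod_cast hI
      have hIe : ((I.erase x).card : ℝ) = I.card - 1 := by
        rw [Finset.card_erase_of_mem hx, Nat.cast_sub (Finset.card_pos.mpr ⟨x, hx⟩), Nat.cast_one]
      rcases hk0.eq_or_lt with hk2 | hk2
      · -- dimension zero
        refine ⟨x₀, hx₀, ?_⟩
        rw [← hk2] at hIc ⊢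
        have hcard : I.card = 1 := by
          have h1 : 0 < I.card := Finset.card_pos.mpr ⟨x, hx⟩
          have h2 : (I.card : ℝ) ≤ 1 := by linarith
          have h3 : I.card ≤ 1 := by exact_mod_cast h2
          omega
        obtain ⟨x', hx'⟩ := Finset.card_eq_one.mp hcard
        rw [hx'] at hx ⊢
        rw [Finset.mem_singleton] at hx
        subst hx
        simp
      · refine ⟨(1 / k) • ∑ x' ∈ I.erase x, (x' : F) + (1 - 1 / k * (I.erase x).card) • x₀, ?_, ?_⟩
        · refine HB6_comb hK.conv _ _ (fun i _ => i.2) hx₀ (by positivity) ?_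
          rw [hIe, div_mul_eq_mul_div, div_le_one hk2]
          linarith
        · rw [← Finset.add_sum_erase I _ hx, hIe]
          simp only
          rw [smul_add (k / (k + 1)), smul_smul, smul_smul, smul_add (1 / (k + 1)), ← add_assoc]
          congr 1
          · congr 2
            field_simp
          · congr 1
            field_simp
            ring
  obtain ⟨o, ho⟩ := hell
  simp only [mem_iInter] at ho
  have hg : ∀ w : F, ‖w‖ = 1 → ω / (k + 1) ≤ hS K w - ⟪o, w⟫_ℝ := by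
    intro w hw1
    obtain ⟨x, hx, hxe⟩ := hK.exists_eq (-w)
    obtain ⟨y, hy, hyo⟩ := ho ⟨x, hx⟩
    have h1 := hK.inner_le hy w
    have h2 := hw w hw1
    have h3 : ⟪o, w⟫_ℝ = (1 / (k + 1)) * ⟪x, w⟫_ℝ + (k / (k + 1)) * ⟪y, w⟫_ℝ := by
      rw [← hyo]
      simp only
      rw [inner_add_left, inner_smul_left, inner_smul_left]
      rfl
    rw [inner_neg_right] at hxe
    have h4 : ⟪x, w⟫_ℝ = -hS K (-w) := by linarith
    rw [h3, h4]
    have h5 : (k / (k + 1)) * ⟪y, w⟫_ℝ ≤ (k / (k + 1)) * hS K w :=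
      mul_le_mul_of_nonneg_left h1 (by positivity)
    have h6 : hS K w - (1 / (k + 1) * -hS K (-w) + k / (k + 1) * hS K w) =
        (hS K w + hS K (-w)) / (k + 1) := by
      field_simp
      ring
    have h7 : ω / (k + 1) ≤ (hS K w + hS K (-w)) / (k + 1) :=
      div_le_div_of_nonneg_right h2 hk1.le
    linarith
  refine ⟨o, fun w hwn => ?_⟩
  by_contra hcon
  obtain ⟨f, u, hf1, hf2⟩ := geometric_hahn_banach_closed_point hK.conv hK.comp.isClosed hcon
  obtain ⟨g, hgf⟩ : ∃ g : F, ∀ x, f x = ⟪g, x⟫_ℝ :=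
    ⟨(InnerProductSpace.toDual ℝ F).symm f, fun x =>
      (InnerProductSpace.toDual_symm_apply).symm⟩
  have hg0 : g ≠ 0 := by
    rintro rfl
    have h1 := hf1 x₀ hx₀
    rw [hgf, inner_zero_left] at h1
    rw [hgf, inner_zero_left] at hf2
    linarith
  have hgn : 0 < ‖g‖ := norm_pos_iff.mpr hg0
  have h1 := hg (‖g‖⁻¹ • g) (by
    rw [norm_smul, norm_inv, norm_norm, inv_mul_cancel₀ hgn.ne'])
  have h2 : hS K g = ‖g‖ * hS K (‖g‖⁻¹ • g) := by
    rw [← hK.hS_smul hgn.le, smul_smul, mul_inv_cancel₀ hgn.ne', one_smul]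
  obtain ⟨x, hx, hxe⟩ := hK.exists_eq g
  have h3 := hf1 x hx
  rw [hgf, real_inner_comm, ← hxe] at h3
  rw [hgf, inner_add_right] at hf2
  have h4 : ⟪g, w⟫_ℝ ≤ ‖g‖ * ‖w‖ := real_inner_le_norm _ _
  have h5 : ‖g‖ * ‖w‖ ≤ ‖g‖ * (ω / (k + 1)) := mul_le_mul_of_nonneg_left hwn hgn.le
  have h6 : ⟪o, ‖g‖⁻¹ • g⟫_ℝ = ‖g‖⁻¹ * ⟪g, o⟫_ℝ := by
    rw [inner_smul_right, real_inner_comm]
  rw [h6] at h1
  have h7 : ‖g‖ * (ω / (k + 1)) ≤ ‖g‖ * (hS K (‖g‖⁻¹ • g) - ‖g‖⁻¹ * ⟪g, o⟫_ℝ) :=
    mul_le_mul_of_nonneg_left h1 hgn.le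
  rw [mul_sub, ← h2, ← mul_assoc, mul_inv_cancel₀ hgn.ne', one_mul] at h7
  linarith

/-- HB6. -/
theorem exists_ball_proj [FiniteDimensional ℝ E] {D : Set E} (hD : Body D) (W : Submodule ℝ E)
    {ω : ℝ} (hω : 0 < ω) (hw : ∀ w ∈ W, ‖w‖ = 1 → ω ≤ hS D w + hS D (-w)) :
    ∃ o : E, ∀ w ∈ W, ‖w‖ ≤ ω / (Module.finrank ℝ W + 1) →
      ∃ x ∈ D, ∀ v ∈ W, ⟪v, x⟫_ℝ = ⟪v, o + w⟫_ℝ := by
  have hK : Body (W.orthogonalProjectionOnto '' D) := by
    refine ⟨hD.conv.linear_image (W.orthogonalProjectionOnto : E →ₗ[ℝ] W), 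
      hD.comp.image (by fun_prop), hD.ne.image _⟩
  have hin : ∀ (x : E) (v : W), ⟪W.orthogonalProjectionOnto x, v⟫_ℝ = ⟪x, (v : E)⟫_ℝ := by
    intro x v
    rw [real_inner_comm]
    rw [Submodule.inner_orthogonalProjectionOnto_eq_of_mem_left v x, real_inner_comm]
  have hSe : ∀ v : W, hS (W.orthogonalProjectionOnto '' D) v = hS D v := by
    intro v
    unfold hS
    rw [image_image]
    congr 1
    refine image_congr fun x _ => hin x v
  obtain ⟨o, ho⟩ := HB6_core hK hω (by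
    intro w hw1
    rw [hSe, hSe]
    have h1 := hw w w.2 (by simpa using hw1)
    simpa using h1)
  refine ⟨o, fun w hwW hwn => ?_⟩
  obtain ⟨x, hx, hxe⟩ := ho ⟨w, hwW⟩ (by simpa using hwn)
  refine ⟨x, hx, fun v hv => ?_⟩
  have h1 := hin x ⟨v, hv⟩
  rw [hxe] at h1
  rw [real_inner_comm, ← h1, real_inner_comm]
  rfl

end general

end Pool.Agent.Sausage27
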