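import Pool.Agent.Sausage27.Basic

/-!
# Sausage27: slices and the skeleton (SK1), Krein-Milman for a slice (KM2)
-/

namespace Pool.Agent.Sausage27

open MeasureTheory Set Metric Filter Topology
open scoped InnerProductSpace Pointwise

section general

variable {E : Type*} [NormedAddCommGroup E] [InnerProductSpace ℝ E]

/-- In a plane there is a nonzero vector orthogonal to a given vector. -/
theorem SK1_exists_orth {P : Submodule ℝ E} (hP : Module.finrank ℝ P = 2) (u : E) :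
    ∃ w ∈ P, w ≠ 0 ∧ ⟪u, w⟫_ℝ = 0 := by
  haveI : FiniteDimensional ℝ P := FiniteDimensional.of_finrank_pos (by omega)
  let f : P →ₗ[ℝ] ℝ := (innerₛₗ ℝ u).comp P.subtype
  have hk : f.ker ≠ ⊥ := by
    apply LinearMap.ker_ne_bot_of_finrank_lt
    rw [hP, Module.finrank_self]; norm_num
  obtain ⟨w, hw, hw0⟩ := Submodule.exists_mem_ne_zero_of_ne_bot hk
  refine ⟨w, w.2, ?_, ?_⟩
  · intro h; exact hw0 (Subtype.ext h)
  · have : f w = 0 := hw
    simpa [f] using this

/-- SK1. -/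
theorem sliceCov_of_skel {n : ℕ} {D : Set E} {c : Fin n → E}
    (h : skel 1 D ⊆ ⋃ j, closedBall (c j) 1) : SliceCov D c := by
  intro u t _ x hx
  apply h
  refine ⟨hx.1.1, ?_⟩
  rintro ⟨P, r, hP, hr, hPr⟩
  obtain ⟨w, hwP, hw0, huw⟩ := SK1_exists_orth (by simpa using hP) u
  have hn : 0 < ‖w‖ := norm_pos_iff.mpr hw0
  set v : E := (r / ‖w‖) • w with hv
  have hvP : v ∈ P := P.smul_mem _ hwP
  have hvn : ‖v‖ ≤ r := by
    rw [hv, norm_smul, Real.norm_of_nonneg (by positivity), div_mul_cancel₀ _ hn.ne']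
  have hv0 : v ≠ 0 := smul_ne_zero (by positivity) hw0
  have huv : ⟪u, v⟫_ℝ = 0 := by rw [hv, inner_smul_right, huw, mul_zero]
  have hxt : ⟪u, x⟫_ℝ = t := hx.1.2
  have h1 : x + v ∈ D ∩ {x | ⟪u, x⟫_ℝ = t} := by
    refine ⟨hPr v hvP hvn, ?_⟩
    rw [mem_setOf_eq, inner_add_right, huv, hxt, add_zero]
  have h2 : x - v ∈ D ∩ {x | ⟪u, x⟫_ℝ = t} := by
    refine ⟨?_, ?_⟩
    · have := hPr (-v) (P.neg_mem hvP) (by rwa [norm_neg])
      rwa [← sub_eq_add_neg] at this
    · rw [mem_setOf_eq, inner_sub_right, huv, hxt, sub_zero]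
  have h3 : x ∈ openSegment ℝ (x + v) (x - v) := by
    refine ⟨1 / 2, 1 / 2, by norm_num, by norm_num, by norm_num, ?_⟩
    module
  have h4 := hx.2 h1 h2 h3
  apply hv0
  have : x + v = x + 0 := by rw [h4, add_zero]
  exact add_left_cancel this

/-- KM2. Krein-Milman for a slice. -/
theorem slice_subset [FiniteDimensional ℝ E] {D : Set E} (hD : Body D) {u : E} {t : ℝ} {C : Set E}
    (hC : Convex ℝ C) (hC' : IsClosed C)
    (h : (D ∩ {x | ⟪u, x⟫_ℝ = t}).extremePoints ℝ ⊆ C) : D ∩ {x | ⟪u, x⟫_ℝ = t} ⊆ C := by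
  have hcl : IsClosed {x : E | ⟪u, x⟫_ℝ = t} := isClosed_eq (by fun_prop) (by fun_prop)
  have hconv : Convex ℝ {x : E | ⟪u, x⟫_ℝ = t} := by
    intro x hx y hy a b ha hb hab
    rw [mem_setOf_eq] at *
    rw [inner_add_right, inner_smul_right, inner_smul_right, hx, hy, ← add_mul, hab, one_mul]
  have hcomp : IsCompact (D ∩ {x | ⟪u, x⟫_ℝ = t}) := hD.comp.inter_right hcl
  have hcv : Convex ℝ (D ∩ {x | ⟪u, x⟫_ℝ = t}) := hD.conv.inter hconv
  rw [← closure_convexHull_extremePoints hcomp hcv]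
  exact closure_minimal (convexHull_min h hC) hC'

end general

end Pool.Agent.Sausage27
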