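import Pool.Agent.Sausage27.Basic

/-!
# CT3: counting unit intervals
-/

namespace Pool.Agent.Sausage27

open MeasureTheory Set Metric Filter Topology
open scoped InnerProductSpace Pointwise

/-- Counting, for a finite set of centres. -/
theorem CT3_count {ι : Type*} (S : Finset ι) (t : ι → ℝ) (k : ℕ) {α β : ℝ} (hαβ : α ≤ β)
    (h : ∀ s ∈ Ioo α β, k ≤ (S.filter (fun j => |t j - s| ≤ 1)).card) :
    (k : ℝ) * (β - α) ≤ 2 * S.card := by
  classical
  have h1 : ∀ s ∈ Ioo α β, (k : ENNReal) ≤
      ∑ j ∈ S, (Icc (t j - 1) (t j + 1)).indicator (fun _ => (1 : ENNReal)) s := by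
    intro s hs
    have h2 := h s hs
    have h3 : ∑ j ∈ S, (Icc (t j - 1) (t j + 1)).indicator (fun _ => (1 : ENNReal)) s =
        ((S.filter (fun j => |t j - s| ≤ 1)).card : ENNReal) := by
      rw [Finset.card_filter, Nat.cast_sum]
      refine Finset.sum_congr rfl fun j _ => ?_
      by_cases hj : |t j - s| ≤ 1
      · rw [if_pos hj, Set.indicator_of_mem]
        · simp
        · rw [abs_le] at hj
          constructor <;> linarith [hj.1, hj.2]
      · rw [if_neg hj, Set.indicator_of_notMem]
        · simp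
        · intro hm
          apply hj
          rw [abs_le]
          constructor <;> linarith [hm.1, hm.2]
    rw [h3]
    exact_mod_cast h2
  have h4 : ∫⁻ s in Ioo α β, (k : ENNReal) ≤ ∫⁻ s in Ioo α β,
      ∑ j ∈ S, (Icc (t j - 1) (t j + 1)).indicator (fun _ => (1 : ENNReal)) s :=
    setLIntegral_mono' measurableSet_Ioo h1
  have h5 : ∫⁻ s in Ioo α β,
      ∑ j ∈ S, (Icc (t j - 1) (t j + 1)).indicator (fun _ => (1 : ENNReal)) s ≤
        ((2 * S.card : ℕ) : ENNReal) := by
    calc ∫⁻ s in Ioo α β,
          ∑ j ∈ S, (Icc (t j - 1) (t j + 1)).indicator (fun _ => (1 : ENNReal)) s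
        ≤ ∫⁻ s, ∑ j ∈ S, (Icc (t j - 1) (t j + 1)).indicator (fun _ => (1 : ENNReal)) s :=
          setLIntegral_le_lintegral _ _
      _ = ∑ j ∈ S, ∫⁻ s, (Icc (t j - 1) (t j + 1)).indicator (fun _ => (1 : ENNReal)) s :=
          lintegral_finsetSum _ fun j _ => measurable_const.indicator measurableSet_Icc
      _ = ∑ j ∈ S, (2 : ENNReal) := by
          refine Finset.sum_congr rfl fun j _ => ?_
          rw [lintegral_indicator measurableSet_Icc, lintegral_const, one_mul,
            Measure.restrict_apply_univ, Real.volume_Icc]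
          norm_num
      _ = _ := by
          rw [Finset.sum_const, nsmul_eq_mul]
          push_cast
          ring
  have h6 := h4.trans h5
  rw [lintegral_const, Measure.restrict_apply_univ, Real.volume_Ioo] at h6
  have h7 : (k : ENNReal) * ENNReal.ofReal (β - α) = ENNReal.ofReal ((k : ℝ) * (β - α)) := by
    rw [ENNReal.ofReal_mul (Nat.cast_nonneg _), ENNReal.ofReal_natCast]
  have h8 : ((2 * S.card : ℕ) : ENNReal) = ENNReal.ofReal (2 * S.card : ℝ) := by
    rw [← ENNReal.ofReal_natCast]
    push_cast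
    rfl
  rw [h7, h8] at h6
  exact (ENNReal.ofReal_le_ofReal_iff (by positivity)).1 h6

/-- CT3. -/
theorem count_le {n : ℕ} (t : Fin n → ℝ) (k : ℕ) {α β : ℝ} (hαβ : α ≤ β)
    (h : ∀ s ∈ Ioo α β, k ≤ (Finset.univ.filter (fun j => |t j - s| ≤ 1)).card) :
    (k : ℝ) * (β - α) ≤ 2 * n := by
  have := CT3_count Finset.univ t k hαβ h
  simpa using this

/-- SP14. -/
theorem sorted_pos {n : ℕ} (t : Fin n → ℝ) (ht : Monotone t) {ℓ η : ℝ} (hη : η < 2)
    (hcov : ∀ s ∈ Icc 0 ℓ, ∃ j, |t j - s| ≤ 1) (hℓ : 2 * n - η ≤ ℓ) (hℓ' : ℓ ≤ 2 * n) (j : Fin n) :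
    2 * (j : ℝ) + 1 - η ≤ t j ∧ t j ≤ 2 * (j : ℝ) + 1 := by
  have hj0 : (0 : ℝ) ≤ (j : ℝ) := Nat.cast_nonneg _
  have hjn : (j : ℝ) + 1 ≤ n := by exact_mod_cast j.2
  constructor
  · by_contra hlt
    push Not at hlt
    set α := max (t j + 1) 0 with hα
    have hα1 : α < 2 * j + 2 - η := by
      rw [hα, max_lt_iff]
      constructor <;> linarith
    have h1 := CT3_count (Finset.univ.filter fun i => j < i) t 1 (α := α) (β := ℓ) (by linarith) ?_
    · have h2 : (Finset.univ.filter fun i => j < i).card = n - 1 - j := by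
        have : (Finset.univ.filter fun i => j < i) = Finset.Ioi j := by
          ext i
          simp
        rw [this, Fin.card_Ioi]
      rw [h2] at h1
      have h3 : ((n - 1 - j : ℕ) : ℝ) = n - 1 - j := by
        have := j.2
        rw [Nat.cast_sub (by omega), Nat.cast_sub (by omega)]
        push_cast
        ring
      rw [h3] at h1
      push_cast at h1
      linarith
    · intro s hs
      have hs0 : 0 ≤ s := (le_max_right _ _).trans hs.1.le
      have hs1 : t j + 1 < s := (le_max_left _ _).trans_lt hs.1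
      obtain ⟨i, hi⟩ := hcov s ⟨hs0, hs.2.le⟩
      refine Finset.card_pos.2 ⟨i, ?_⟩
      simp only [Finset.mem_filter, Finset.mem_univ, true_and]
      refine ⟨?_, hi⟩
      by_contra hij
      have h2 := ht (not_lt.1 hij)
      rw [abs_le] at hi
      linarith [hi.1]
  · by_contra hlt
    push Not at hlt
    set β := min (t j - 1) ℓ with hβ
    have hβ1 : 2 * (j : ℝ) < β := by
      rw [hβ, lt_min_iff]
      constructor <;> linarith
    have h1 := CT3_count (Finset.univ.filter fun i => i < j) t 1 (α := 0) (β := β) (by linarith) ?_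
    · have h2 : (Finset.univ.filter fun i => i < j).card = j := by
        have : (Finset.univ.filter fun i => i < j) = Finset.Iio j := by
          ext i
          simp
        rw [this, Fin.card_Iio]
      rw [h2] at h1
      push_cast at h1
      linarith
    · intro s hs
      have hs0 : s < t j - 1 := hs.2.trans_le (min_le_left _ _)
      have hs1 : s < ℓ := hs.2.trans_le (min_le_right _ _)
      obtain ⟨i, hi⟩ := hcov s ⟨hs.1.le, hs1.le⟩
      refine Finset.card_pos.2 ⟨i, ?_⟩
      simp only [Finset.mem_filter, Finset.mem_univ, true_and]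
      refine ⟨?_, hi⟩
      by_contra hij
      have h2 := ht (not_lt.1 hij)
      rw [abs_le] at hi
      linarith [hi.2]

end Pool.Agent.Sausage27
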