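import Pool.Agent.Sausage27.Basic

/-!
# SC4: many balls are needed for a wide slice
-/

namespace Pool.Agent.Sausage27

open MeasureTheory Set Metric Filter Topology
open scoped InnerProductSpace Pointwise

variable {E : Type*} [NormedAddCommGroup E] [InnerProductSpace ℝ E]

lemma SC4_isClosed_hyp (u : E) (t : ℝ) : IsClosed {x : E | ⟪u, x⟫_ℝ = t} :=
  isClosed_eq (by fun_prop) continuous_const

lemma SC4_convex_hyp (u : E) (t : ℝ) : Convex ℝ {x : E | ⟪u, x⟫_ℝ = t} := by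
  intro x hx y hy a b _ _ hab
  simp only [mem_setOf_eq] at hx hy ⊢
  rw [inner_add_right, inner_smul_right, inner_smul_right, hx, hy, ← add_mul, hab, one_mul]

lemma SC4_slice_subset {D : Set E} (hD : Body D) {u : E} {t : ℝ} {C : Set E}
    (hC : Convex ℝ C) (hC' : IsClosed C)
    (h : (D ∩ {x | ⟪u, x⟫_ℝ = t}).extremePoints ℝ ⊆ C) : D ∩ {x | ⟪u, x⟫_ℝ = t} ⊆ C := by
  have h1 := closure_convexHull_extremePoints (hD.comp.inter_right (SC4_isClosed_hyp u t))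
    (hD.conv.inter (SC4_convex_hyp u t))
  rw [← h1]
  exact closure_minimal (convexHull_min h hC) hC'

/-- SC4. -/
theorem slice_card [FiniteDimensional ℝ E] {n : ℕ} {D : Set E} (hD : Body D) {c : Fin n → E}
    (hc : SliceCov D c) {u : E} (hu : ‖u‖ = 1) (W : Submodule ℝ E) (huW : u ∈ W) (t : ℝ)
    (hne : (D ∩ {x | ⟪u, x⟫_ℝ = t}).Nonempty)
    (hw : ∀ w ∈ W, ‖w‖ = 1 → ⟪u, w⟫_ℝ = 0 →
      ∃ x ∈ D, ∃ y ∈ D, ⟪u, x⟫_ℝ = t ∧ ⟪u, y⟫_ℝ = t ∧ 2 < ⟪w, x - y⟫_ℝ) :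
    Module.finrank ℝ W ≤ (Finset.univ.filter (fun j => |⟪u, c j⟫_ℝ - t| ≤ 1)).card := by
  classical
  set S := Finset.univ.filter (fun j => |⟪u, c j⟫_ℝ - t| ≤ 1) with hS
  have hu0 : u ≠ 0 := by
    intro h
    rw [h, norm_zero] at hu
    exact zero_ne_one hu
  -- a point of the hyperplane in the ball `j` forces `j ∈ S`
  have hmem : ∀ x j, ⟪u, x⟫_ℝ = t → x ∈ closedBall (c j) 1 → j ∈ S := by
    intro x j hx hj
    rw [hS, Finset.mem_filter]
    refine ⟨Finset.mem_univ _, ?_⟩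
    have h1 : ⟪u, c j⟫_ℝ - t = ⟪u, c j - x⟫_ℝ := by rw [inner_sub_right, hx]
    rw [h1]
    refine (abs_real_inner_le_norm _ _).trans ?_
    rw [hu, one_mul, ← dist_eq_norm, dist_comm]
    exact mem_closedBall.1 hj
  by_contra hlt
  push Not at hlt
  obtain ⟨x₀, hx₀⟩ := (hD.comp.inter_right (SC4_isClosed_hyp u t)).extremePoints_nonempty hne
  obtain ⟨j₀, hj₀⟩ := mem_iUnion.1 (hc u t hu0 hx₀)
  have hj₀S : j₀ ∈ S := hmem x₀ j₀ (extremePoints_subset hx₀).2 hj₀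
  let f : W →ₗ[ℝ] (S → ℝ) := LinearMap.pi fun j =>
    (innerₛₗ ℝ (if (j : Fin n) = j₀ then u else c j - c j₀)) ∘ₗ W.subtype
  have hdim : Module.finrank ℝ (S → ℝ) < Module.finrank ℝ W := by
    rw [Module.finrank_fintype_fun_eq_card, Fintype.card_coe]
    exact hlt
  obtain ⟨w', hw'0, hw'⟩ : ∃ v : W, v ≠ 0 ∧ f v = 0 := by
    have hker : LinearMap.ker f ≠ ⊥ := LinearMap.ker_ne_bot_of_finrank_lt hdim
    obtain ⟨v, hv, hv0⟩ := Submodule.exists_mem_ne_zero_of_ne_bot hker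
    exact ⟨v, hv0, hv⟩
  have hz : ∀ j ∈ S, ⟪(if j = j₀ then u else c j - c j₀), (w' : E)⟫_ℝ = 0 := by
    intro j hj
    exact congrFun hw' ⟨j, hj⟩
  have hn0 : ‖(w' : E)‖ ≠ 0 := by
    simpa using hw'0
  set w : E := (‖(w' : E)‖)⁻¹ • (w' : E) with hwdef
  have hwW : w ∈ W := W.smul_mem _ w'.2
  have hw1 : ‖w‖ = 1 := by
    rw [hwdef, norm_smul, norm_inv, norm_norm, inv_mul_cancel₀ hn0]
  have hwz : ∀ j ∈ S, ⟪(if j = j₀ then u else c j - c j₀), w⟫_ℝ = 0 := by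
    intro j hj
    rw [hwdef, inner_smul_right, hz j hj, mul_zero]
  have huw : ⟪u, w⟫_ℝ = 0 := by
    have := hwz j₀ hj₀S
    rwa [if_pos rfl] at this
  have hcw : ∀ j ∈ S, ⟪w, c j⟫_ℝ = ⟪w, c j₀⟫_ℝ := by
    intro j hj
    by_cases h : j = j₀
    · rw [h]
    · have := hwz j hj
      rw [if_neg h, real_inner_comm, inner_sub_right] at this
      linarith
  set C : Set E := {x | ⟪w, c j₀⟫_ℝ - 1 ≤ ⟪w, x⟫_ℝ} ∩ {x | ⟪w, x⟫_ℝ ≤ ⟪w, c j₀⟫_ℝ + 1} with hC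
  have hCc : Convex ℝ C := by
    refine Convex.inter ?_ ?_
    · exact convex_halfSpace_ge (f := fun x => ⟪w, x⟫_ℝ)
        ⟨fun x y => inner_add_right _ _ _, fun a x => by rw [inner_smul_right]; rfl⟩ _
    · exact convex_halfSpace_le (f := fun x => ⟪w, x⟫_ℝ)
        ⟨fun x y => inner_add_right _ _ _, fun a x => by rw [inner_smul_right]; rfl⟩ _
  have hCc' : IsClosed C := by
    refine IsClosed.inter ?_ ?_
    · exact isClosed_le continuous_const (by fun_prop)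
    · exact isClosed_le (by fun_prop) continuous_const
  have hsub : D ∩ {x | ⟪u, x⟫_ℝ = t} ⊆ C := by
    refine SC4_slice_subset hD hCc hCc' fun x hx => ?_
    obtain ⟨j, hj⟩ := mem_iUnion.1 (hc u t hu0 hx)
    have hjS : j ∈ S := hmem x j (extremePoints_subset hx).2 hj
    have h1 : |⟪w, x - c j⟫_ℝ| ≤ 1 := by
      refine (abs_real_inner_le_norm _ _).trans ?_
      rw [hw1, one_mul, ← dist_eq_norm]
      exact mem_closedBall.1 hj
    rw [inner_sub_right, hcw j hjS, abs_le] at h1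
    exact ⟨by simp only [mem_setOf_eq]; linarith [h1.1], by simp only [mem_setOf_eq]; linarith [h1.2]⟩
  obtain ⟨x, hx, y, hy, hxt, hyt, hxy⟩ := hw w hwW hw1 huw
  have h1 := hsub ⟨hx, hxt⟩
  have h2 := hsub ⟨hy, hyt⟩
  simp only [hC, mem_inter_iff, mem_setOf_eq] at h1 h2
  rw [inner_sub_right] at hxy
  linarith [h1.2, h2.1]

end Pool.Agent.Sausage27
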