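import Pool.Agent.Sausage27.HB6
import Pool.Agent.Sausage27.CT3
import Pool.Agent.Sausage27.SC4

/-!
# Widths of a body covered slice by slice
-/

namespace Pool.Agent.Sausage27

open MeasureTheory Set Metric Filter Topology
open scoped InnerProductSpace Pointwise

section general

variable {E : Type*} [NormedAddCommGroup E] [InnerProductSpace ℝ E]

/-- WW7a. -/
theorem width_le [FiniteDimensional ℝ E] {n : ℕ} {D : Set E} (hD : Body D) {c : Fin n → E}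
    (hc : SliceCov D c) {u : E} (hu : ‖u‖ = 1) : hS D u + hS D (-u) ≤ 2 * n := by
  obtain ⟨p, hp, hpe⟩ := hD.exists_eq u
  obtain ⟨p', hp', hpe'⟩ := hD.exists_eq (-u)
  rw [inner_neg_right] at hpe'
  have hu0 : u ≠ 0 := by
    intro h
    rw [h, norm_zero] at hu
    exact zero_ne_one hu
  have hαβ : ⟪p', u⟫_ℝ ≤ ⟪p, u⟫_ℝ := by
    rw [← hpe]
    exact hD.inner_le hp' u
  have hcard : ∀ s ∈ Ioo ⟪p', u⟫_ℝ ⟪p, u⟫_ℝ,
      1 ≤ (Finset.univ.filter (fun j => |⟪u, c j⟫_ℝ - s| ≤ 1)).card := by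
    intro s hs
    have hlt : ⟪p', u⟫_ℝ < ⟪p, u⟫_ℝ := lt_trans hs.1 hs.2
    have hd : 0 < ⟪p, u⟫_ℝ - ⟪p', u⟫_ℝ := by linarith
    have hne : (D ∩ {x | ⟪u, x⟫_ℝ = s}).Nonempty := by
      refine ⟨((⟪p, u⟫_ℝ - s) / (⟪p, u⟫_ℝ - ⟪p', u⟫_ℝ)) • p' +
        ((s - ⟪p', u⟫_ℝ) / (⟪p, u⟫_ℝ - ⟪p', u⟫_ℝ)) • p, ?_, ?_⟩
      · refine hD.conv hp' hp (div_nonneg (by linarith [hs.2]) hd.le)
          (div_nonneg (by linarith [hs.1]) hd.le) ?_
        rw [← add_div]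
        rw [div_eq_one_iff_eq hd.ne']
        ring
      · change ⟪u, _⟫_ℝ = s
        rw [inner_add_right, inner_smul_right, inner_smul_right, real_inner_comm p' u,
          real_inner_comm p u]
        field_simp
        ring
    have h1 := slice_card hD hc hu (Submodule.span ℝ {u}) (Submodule.mem_span_singleton_self u) s
      hne (by
        intro w hw hw1 hwu
        exfalso
        obtain ⟨a, rfl⟩ := Submodule.mem_span_singleton.mp hw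
        rw [inner_smul_right, real_inner_self_eq_norm_sq, hu] at hwu
        have ha : a = 0 := by linarith
        rw [ha, zero_smul, norm_zero] at hw1
        exact zero_ne_one hw1)
    rwa [finrank_span_singleton hu0] at h1
  have h2 := count_le (fun j => ⟪u, c j⟫_ℝ) 1 hαβ hcard
  rw [hpe, hpe']
  push_cast at h2
  linarith

theorem WW7_aux [FiniteDimensional ℝ E] {n : ℕ} {D : Set E} (hD : Body D) {c : Fin n → E}
    (hc : SliceCov D c) (W : Submodule ℝ E) {u : E} (huW : u ∈ W) (hu : ‖u‖ = 1) {o : E}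
    (ho : ∀ w ∈ W, ‖w‖ ≤ 10 → ∃ x ∈ D, ∀ v ∈ W, ⟪v, x⟫_ℝ = ⟪v, o + w⟫_ℝ)
    {p : E} (hp : p ∈ D) {l s : ℝ} (hl0 : 0 ≤ l) (hl1 : l < 9 / 10)
    (hs : (1 - l) * ⟪u, o⟫_ℝ + l * ⟪u, p⟫_ℝ = s) :
    Module.finrank ℝ W ≤ (Finset.univ.filter (fun j => |⟪u, c j⟫_ℝ - s| ≤ 1)).card := by
  have key : ∀ w ∈ W, ‖w‖ ≤ 10 → ⟪u, w⟫_ℝ = 0 → ∃ x ∈ D, ⟪u, x⟫_ℝ = s ∧
      ∀ v ∈ W, ⟪v, x⟫_ℝ = (1 - l) * (⟪v, o⟫_ℝ + ⟪v, w⟫_ℝ) + l * ⟪v, p⟫_ℝ := by
    intro w hw hw1 hwu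
    obtain ⟨x, hx, hxv⟩ := ho w hw hw1
    have h1 : ∀ v ∈ W, ⟪v, (1 - l) • x + l • p⟫_ℝ =
        (1 - l) * (⟪v, o⟫_ℝ + ⟪v, w⟫_ℝ) + l * ⟪v, p⟫_ℝ := by
      intro v hv
      rw [inner_add_right, inner_smul_right, inner_smul_right, hxv v hv, inner_add_right]
    refine ⟨(1 - l) • x + l • p, hD.conv hx hp (by linarith) hl0 (by ring), ?_, h1⟩
    rw [h1 u huW, hwu, add_zero, hs]
  apply slice_card hD hc hu W huW s
  · obtain ⟨x, hx, hxs, -⟩ := key 0 W.zero_mem (by rw [norm_zero]; norm_num) (inner_zero_right _)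
    exact ⟨x, hx, hxs⟩
  · intro w hw hw1 hwu
    obtain ⟨x, hx, hxs, hxv⟩ := key ((10 : ℝ) • w) (W.smul_mem _ hw)
      (by rw [norm_smul, hw1, Real.norm_eq_abs, abs_of_pos (by norm_num : (0 : ℝ) < 10)]; norm_num)
      (by rw [inner_smul_right, hwu, mul_zero])
    obtain ⟨y, hy, hys, hyv⟩ := key ((-10 : ℝ) • w) (W.smul_mem _ hw)
      (by rw [norm_smul, hw1, Real.norm_eq_abs, abs_of_neg (by norm_num : (-10 : ℝ) < 0)]; norm_num)
      (by rw [inner_smul_right, hwu, mul_zero])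
    refine ⟨x, hx, y, hy, hxs, hys, ?_⟩
    rw [inner_sub_right, hxv w hw, hyv w hw, inner_smul_right, inner_smul_right,
      real_inner_self_eq_norm_sq, hw1]
    nlinarith

/-- WW7b. -/
theorem width_wide [FiniteDimensional ℝ E] {n : ℕ} {D : Set E} (hD : Body D) {c : Fin n → E}
    (hc : SliceCov D c) (W : Submodule ℝ E)
    (hw : ∀ w ∈ W, ‖w‖ = 1 → 10 * ((Module.finrank ℝ W : ℝ) + 1) ≤ hS D w + hS D (-w))
    {u : E} (huW : u ∈ W) (hu : ‖u‖ = 1) :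
    (Module.finrank ℝ W : ℝ) * (9 / 10) * (hS D u + hS D (-u)) ≤ 2 * n := by
  have hk : (0 : ℝ) < (Module.finrank ℝ W : ℝ) + 1 := by positivity
  obtain ⟨o, ho⟩ := exists_ball_proj hD W (mul_pos (by norm_num : (0 : ℝ) < 10) hk) hw
  have hdiv : 10 * ((Module.finrank ℝ W : ℝ) + 1) / ((Module.finrank ℝ W : ℝ) + 1) = 10 := by
    field_simp
  rw [hdiv] at ho
  obtain ⟨p, hp, hpe⟩ := hD.exists_eq u
  obtain ⟨p', hp', hpe'⟩ := hD.exists_eq (-u)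
  rw [inner_neg_right] at hpe'
  rw [real_inner_comm u p] at hpe
  rw [real_inner_comm u p'] at hpe'
  have h1 : ⟪u, o⟫_ℝ + 10 ≤ ⟪u, p⟫_ℝ := by
    obtain ⟨x, hx, hxv⟩ := ho ((10 : ℝ) • u) (W.smul_mem _ huW)
      (by rw [norm_smul, hu, Real.norm_eq_abs, abs_of_pos (by norm_num : (0 : ℝ) < 10)]; norm_num)
    have h2 := hxv u huW
    rw [inner_add_right, inner_smul_right, real_inner_self_eq_norm_sq, hu] at h2
    have h3 := hD.inner_le hx u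
    rw [real_inner_comm u x, h2, hpe] at h3
    linarith
  have h1' : ⟪u, p'⟫_ℝ ≤ ⟪u, o⟫_ℝ - 10 := by
    obtain ⟨x, hx, hxv⟩ := ho ((-10 : ℝ) • u) (W.smul_mem _ huW)
      (by rw [norm_smul, hu, Real.norm_eq_abs, abs_of_neg (by norm_num : (-10 : ℝ) < 0)]; norm_num)
    have h2 := hxv u huW
    rw [inner_add_right, inner_smul_right, real_inner_self_eq_norm_sq, hu] at h2
    have h3 := hD.inner_le hx (-u)
    rw [inner_neg_right, real_inner_comm u x, h2, hpe'] at h3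
    linarith
  have h4 := count_le (fun j => ⟪u, c j⟫_ℝ) (Module.finrank ℝ W)
    (α := ⟪u, p'⟫_ℝ + (⟪u, o⟫_ℝ - ⟪u, p'⟫_ℝ) / 10) (β := ⟪u, p⟫_ℝ - (⟪u, p⟫_ℝ - ⟪u, o⟫_ℝ) / 10)
    (by linarith) (by
      intro s hs
      by_cases hso : ⟪u, o⟫_ℝ ≤ s
      · have hd : 0 < ⟪u, p⟫_ℝ - ⟪u, o⟫_ℝ := by linarith
        refine WW7_aux hD hc W huW hu ho hp (l := (s - ⟪u, o⟫_ℝ) / (⟪u, p⟫_ℝ - ⟪u, o⟫_ℝ))
          (div_nonneg (by linarith) hd.le) ?_ ?_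
        · rw [div_lt_iff₀ hd]
          linarith [hs.2]
        · field_simp
          ring
      · push Not at hso
        have hd : 0 < ⟪u, o⟫_ℝ - ⟪u, p'⟫_ℝ := by linarith
        refine WW7_aux hD hc W huW hu ho hp' (l := (⟪u, o⟫_ℝ - s) / (⟪u, o⟫_ℝ - ⟪u, p'⟫_ℝ))
          (div_nonneg (by linarith) hd.le) ?_ ?_
        · rw [div_lt_iff₀ hd]
          linarith [hs.1]
        · field_simp
          ring)
  rw [hpe, hpe']
  have h5 : ⟪u, p⟫_ℝ - (⟪u, p⟫_ℝ - ⟪u, o⟫_ℝ) / 10 -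
      (⟪u, p'⟫_ℝ + (⟪u, o⟫_ℝ - ⟪u, p'⟫_ℝ) / 10) = 9 / 10 * (⟪u, p⟫_ℝ + -⟪u, p'⟫_ℝ) := by ring
  rw [h5] at h4
  linarith

end general

end Pool.Agent.Sausage27
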