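import Pool.Agent.Sausage27.ChainDefs

/-!
# CD18: the chord lemma
-/

namespace Pool.Agent.Sausage27

open MeasureTheory Set Metric Filter Topology
open scoped InnerProductSpace Pointwise

section general

variable {E : Type*} [NormedAddCommGroup E] [InnerProductSpace ℝ E]

private lemma CD18_cross {D : Set E} (hconv : Convex ℝ D) {v m y p : E} (hy : y ∈ D) (hp : p ∈ D)
    (h1 : ⟪v, y - m⟫_ℝ ≤ 0) (h2 : 0 ≤ ⟪v, p - m⟫_ℝ) :
    ∃ l : ℝ, 0 ≤ l ∧ l ≤ 1 ∧ (y + l • (p - y)) ∈ D ∧ ⟪v, y + l • (p - y) - m⟫_ℝ = 0 := by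
  have key : ∀ l : ℝ, ⟪v, y + l • (p - y) - m⟫_ℝ =
      ⟪v, y - m⟫_ℝ + l * (⟪v, p - m⟫_ℝ - ⟪v, y - m⟫_ℝ) := by
    intro l
    have : y + l • (p - y) - m = (y - m) + l • ((p - m) - (y - m)) := by
      rw [sub_sub_sub_cancel_right]; abel
    rw [this, inner_add_right, inner_smul_right, inner_sub_right v (p - m)]
  rcases eq_or_lt_of_le (show ⟪v, y - m⟫_ℝ ≤ ⟪v, p - m⟫_ℝ from h1.trans h2) with h | h
  · refine ⟨1, zero_le_one, le_rfl, ?_, ?_⟩
    · simpa using hp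
    · rw [key]
      linarith
  · have hpos : 0 < ⟪v, p - m⟫_ℝ - ⟪v, y - m⟫_ℝ := by linarith
    refine ⟨-⟪v, y - m⟫_ℝ / (⟪v, p - m⟫_ℝ - ⟪v, y - m⟫_ℝ), ?_, ?_, ?_, ?_⟩
    · exact div_nonneg (by linarith) hpos.le
    · rw [div_le_one hpos]; linarith
    · refine hconv.add_smul_sub_mem hy hp ⟨div_nonneg (by linarith) hpos.le, ?_⟩
      rw [div_le_one hpos]; linarith
    · rw [key, div_mul_cancel₀ _ hpos.ne']
      ring

private lemma CD18_ortho {ζ v w : E} {a r s : ℝ} (ha : ‖v‖ = a) (ha0 : 0 < a)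
    (hvw : ⟪v, w⟫_ℝ = 0) (hw : ‖w‖ ≤ r) (hs : ‖ζ‖ ^ 2 = s) :
    ⟪ζ, w⟫_ℝ ≤ r * √(s - (⟪ζ, v⟫_ℝ / a) ^ 2) := by
  set z : E := ζ - (⟪ζ, v⟫_ℝ / a ^ 2) • v with hz
  have h1 : ⟪ζ, w⟫_ℝ = ⟪z, w⟫_ℝ := by
    rw [hz, inner_sub_left, inner_smul_left, hvw]; simp
  have h2 : ‖z‖ ^ 2 = s - (⟪ζ, v⟫_ℝ / a) ^ 2 := by
    rw [hz, norm_sub_sq_real, inner_smul_right, norm_smul, hs, Real.norm_eq_abs, mul_pow, sq_abs,
      ha]
    field_simp
    ring
  rw [h1, ← h2, Real.sqrt_sq (norm_nonneg _)]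
  calc ⟪z, w⟫_ℝ ≤ ‖z‖ * ‖w‖ := real_inner_le_norm _ _
    _ ≤ ‖z‖ * r := by gcongr
    _ = r * ‖z‖ := mul_comm _ _

/-- CD18. The chord lemma. -/
theorem Chain.chord {δ : ℝ} {N : ℕ} {D : Set E} {c : ℕ → E} {e : E} (hD : Body D)
    (h : Chain δ N D c e) (hδ : 0 < δ) (hδ1 : δ ≤ 1 / 100) (hN : 100 ≤ N) (hc : Centred c N)
    {θ : E} (hθ : ‖θ‖ = 1) (hθe : ⟪e, θ⟫_ℝ = 0) {x y p : E} (hx : x ∈ D) (hy : y ∈ D) (hp : p ∈ D)
    (hx' : -(1 / 2) ≤ ⟪e, x - c N⟫_ℝ) (hy' : ⟪e, y - c 0⟫_ℝ ≤ 1 / 2) {σ κ : ℝ}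
    (hxκ : ⟪θ, x⟫_ℝ - σ * ⟪e, x⟫_ℝ = κ) (hyκ : ⟪θ, y⟫_ℝ - σ * ⟪e, y⟫_ℝ = κ)
    (hp1 : ⟪e, y⟫_ℝ ≤ ⟪e, p⟫_ℝ) (hp2 : ⟪e, p⟫_ℝ ≤ ⟪e, x⟫_ℝ)
    (hpκ : 0 ≤ ⟪θ, p⟫_ℝ - σ * ⟪e, p⟫_ℝ - κ) :
    κ + (⟪θ, p⟫_ℝ - σ * ⟪e, p⟫_ℝ - κ) / 16 ≤
      (∑ j ∈ Finset.range N, ‖c (j + 1) - c j‖ * (rho c j *
        √(1 + σ ^ 2 - (⟪θ - σ • e, c (j + 1) - c j⟫_ℝ / ‖c (j + 1) - c j‖) ^ 2))) / bA c N := by
  have hee : ⟪e, e⟫_ℝ = 1 := by rw [real_inner_self_eq_norm_sq, h.norm_e]; norm_num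
  have hN' : (100 : ℝ) ≤ N := by exact_mod_cast hN
  have hδ2 : δ ^ 2 ≤ 1 / 10000 := by nlinarith
  -- coordinates
  set lt : E → E := fun z => z - c 0 - ⟪e, z - c 0⟫_ℝ • e with hlt
  set t : E → ℝ := fun z => ⟪e, z - c 0⟫_ℝ with ht
  have helt : ∀ z, ⟪e, lt z⟫_ℝ = 0 := by
    intro z
    simp only [hlt]
    rw [inner_sub_right, inner_smul_right, hee]; ring
  have hdec : ∀ z, z = c 0 + t z • e + lt z := by
    intro z
    simp only [hlt, ht]
    abel
  have htsub : ∀ z w, ⟪e, z - w⟫_ℝ = t z - t w := by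
    intro z w
    simp only [ht, inner_sub_right]; ring
  -- norms of the steps
  have ha_le : ∀ j < N, ‖c (j + 1) - c j‖ ≤ 2 := h.a_le
  have ha_ge : ∀ j < N, (1.99 : ℝ) ≤ ‖c (j + 1) - c j‖ := by
    intro j hj
    have h1 := h.rho_le j hj
    have h2 := norm_nonneg (c (j + 1) - c j)
    nlinarith
  have hl : ∀ j < N, ‖lt (c (j + 1)) - lt (c j)‖ ≤ 2 * δ := by
    intro j hj
    have h1 : ‖lt (c (j + 1))‖ ≤ δ := h.latc (j + 1) (by omega)
    have h2 : ‖lt (c j)‖ ≤ δ := h.latc j (by omega)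
    calc _ ≤ ‖lt (c (j + 1))‖ + ‖lt (c j)‖ := norm_sub_le _ _
      _ ≤ _ := by linarith
  have hvdec : ∀ j, c (j + 1) - c j = (t (c (j + 1)) - t (c j)) • e +
      (lt (c (j + 1)) - lt (c j)) := by
    intro j
    simp only [hlt, ht]
    rw [sub_smul]; abel
  have hvsq : ∀ j, ‖c (j + 1) - c j‖ ^ 2 = (t (c (j + 1)) - t (c j)) ^ 2 +
      ‖lt (c (j + 1)) - lt (c j)‖ ^ 2 := by
    intro j
    rw [hvdec j, norm_add_sq_real, inner_smul_left, inner_sub_right, helt, helt, norm_smul, h.norm_e]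
    simp
  have hb : ∀ j < N, (1.99 : ℝ) ≤ t (c (j + 1)) - t (c j) ∧ t (c (j + 1)) - t (c j) ≤ 2 := by
    intro j hj
    have h0 : 0 ≤ t (c (j + 1)) - t (c j) := by
      have := h.mono j hj
      rwa [htsub] at this
    have h1 := hvsq j
    have h2 := hl j hj
    have h3 := h.rho_le j hj
    have h4 := ha_le j hj
    have h5 := norm_nonneg (c (j + 1) - c j)
    have h6 := norm_nonneg (lt (c (j + 1)) - lt (c j))
    constructor
    · nlinarith
    · nlinarith [sq_nonneg ‖lt (c (j + 1)) - lt (c j)‖]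
  have ht0 : t (c 0) = 0 := by simp [ht]
  have hT1 : ∀ j ≤ N, (1.99 : ℝ) * j ≤ t (c j) ∧ t (c j) ≤ 2 * j := by
    intro j
    induction j with
    | zero => intro _; simp [ht0]
    | succ j ih =>
      intro hj
      have h1 := ih (by omega)
      have h2 := hb j (by omega)
      push_cast
      constructor <;> linarith [h1.1, h1.2, h2.1, h2.2]
  have hT2 : ∀ k, ∀ j, j + k = N → (1.99 : ℝ) * k ≤ t (c N) - t (c j) := by
    intro k
    induction k with
    | zero => intro j hj; simp at hj; subst hj; simp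
    | succ k ih =>
      intro j hj
      have h1 := ih (j + 1) (by omega)
      have h2 := hb j (by omega)
      push_cast
      linarith [h2.1]
  -- the caps
  have htx : t (c N) - 1 / 2 ≤ t x := by
    rw [htsub] at hx'; linarith
  have htx2 : t x ≤ t (c N) + 1 := by
    have h1 := h.right x hx hx'
    have h2 := real_inner_le_norm e (x - c N)
    rw [h.norm_e, htsub] at h2
    linarith
  have hty : t y ≤ 1 / 2 := hy'
  have hty2 : -1 ≤ t y := by
    have h1 := h.left y hy hy'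
    have h2 := (abs_le.mp (abs_real_inner_le_norm e (y - c 0))).1
    rw [h.norm_e] at h2
    simp only [ht]
    linarith
  have htp1 : t y ≤ t p := by
    have := htsub p y
    rw [inner_sub_right] at this
    linarith
  have htp2 : t p ≤ t x := by
    have := htsub x p
    rw [inner_sub_right] at this
    linarith
  -- inner product with a step
  have hmid : ∀ j, t (midpoint ℝ (c j) (c (j + 1))) = (t (c j) + t (c (j + 1))) / 2 := by
    intro j
    simp only [ht, midpoint_eq_smul_add, inner_sub_right, inner_smul_right, inner_add_right]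
    simp
    ring
  have hmidl : ∀ j < N, ‖lt (midpoint ℝ (c j) (c (j + 1)))‖ ≤ δ := by
    intro j hj
    have h1 : ‖lt (c (j + 1))‖ ≤ δ := h.latc (j + 1) (by omega)
    have h2 : ‖lt (c j)‖ ≤ δ := h.latc j (by omega)
    have h3 : lt (midpoint ℝ (c j) (c (j + 1))) =
        (1 / 2 : ℝ) • (lt (c j) + lt (c (j + 1))) := by
      have e1 := hmid j
      simp only [hlt]
      simp only [ht] at e1
      rw [e1, midpoint_eq_smul_add]
      simp only [smul_sub, smul_add, smul_smul, invOf_eq_inv]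
      module
    rw [h3, norm_smul]
    have h4 := norm_add_le (lt (c j)) (lt (c (j + 1)))
    norm_num
    linarith
  have hin : ∀ j < N, ∀ z, ‖lt z‖ ≤ δ →
      |⟪c (j + 1) - c j, z - midpoint ℝ (c j) (c (j + 1))⟫_ℝ -
        (t (c (j + 1)) - t (c j)) * (t z - (t (c j) + t (c (j + 1))) / 2)| ≤ 4 * δ ^ 2 := by
    intro j hj z hz
    have e1 : z - midpoint ℝ (c j) (c (j + 1)) =
        (t z - (t (c j) + t (c (j + 1))) / 2) • e +
          (lt z - lt (midpoint ℝ (c j) (c (j + 1)))) := by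
      conv_lhs => rw [hdec z, hdec (midpoint ℝ (c j) (c (j + 1)))]
      rw [hmid j]
      module
    rw [hvdec j, e1, inner_add_left, inner_add_right, inner_add_right, inner_smul_left,
      inner_smul_left, inner_smul_right, inner_smul_right, hee, inner_sub_right, helt, helt,
      real_inner_comm e, inner_sub_right e, helt, helt]
    have e2 := abs_real_inner_le_norm (lt (c (j + 1)) - lt (c j))
      (lt z - lt (midpoint ℝ (c j) (c (j + 1))))
    have e3 : ‖lt z - lt (midpoint ℝ (c j) (c (j + 1)))‖ ≤ 2 * δ := by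
      have := norm_sub_le (lt z) (lt (midpoint ℝ (c j) (c (j + 1))))
      have := hmidl j hj
      linarith
    have e4 := hl j hj
    have e5 : ‖lt (c (j + 1)) - lt (c j)‖ * ‖lt z - lt (midpoint ℝ (c j) (c (j + 1)))‖ ≤
        (2 * δ) * (2 * δ) := mul_le_mul e4 e3 (norm_nonneg _) (by linarith)
    refine le_trans (le_of_eq ?_) (e2.trans (e5.trans (le_of_eq (by ring))))
    congr 1
    simp
  -- the points `p_j`
  have hξ : ∀ z : E, ⟪θ - σ • e, z⟫_ℝ = ⟪θ, z⟫_ℝ - σ * ⟪e, z⟫_ℝ := by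
    intro z
    rw [inner_sub_left, inner_smul_left]; simp
  set F : ℝ := ⟪θ, p⟫_ℝ - σ * ⟪e, p⟫_ℝ - κ with hF
  have hpj : ∀ j < N, ∃ l : ℝ, ∃ q ∈ D, 0 ≤ l ∧
      ⟪c (j + 1) - c j, q - midpoint ℝ (c j) (c (j + 1))⟫_ℝ = 0 ∧
      ⟪θ - σ • e, q⟫_ℝ = κ + l * F ∧ (N ≤ 4 * j → 4 * j ≤ 3 * N → 0.23 ≤ l) := by
    intro j hj
    have hb' := hb j hj
    have hTj := hT1 j hj.le
    have hTj' := hT2 (N - j) j (by omega)
    have hcast : ((N - j : ℕ) : ℝ) = (N : ℝ) - j := by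
      rw [Nat.cast_sub hj.le]
    rw [hcast] at hTj'
    have hTN := hT1 N le_rfl
    have hj1 : (j : ℝ) + 1 ≤ N := by exact_mod_cast hj
    have hj0 : (0 : ℝ) ≤ j := by positivity
    have hxl : ‖lt x‖ ≤ δ := h.lat x hx
    have hyl : ‖lt y‖ ≤ δ := h.lat y hy
    have hpl : ‖lt p‖ ≤ δ := h.lat p hp
    have ex := abs_le.mp (hin j hj x hxl)
    have ey := abs_le.mp (hin j hj y hyl)
    have hTj2 : t (c N) - t (c (j + 1)) ≥ 0 := by
      have := hT2 (N - (j + 1)) (j + 1) (by omega)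
      have h0 : (0 : ℝ) ≤ ((N - (j + 1) : ℕ) : ℝ) := by positivity
      nlinarith
    have hxpos : 0 ≤ ⟪c (j + 1) - c j, x - midpoint ℝ (c j) (c (j + 1))⟫_ℝ := by
      have h1 : (0.4 : ℝ) ≤ t x - (t (c j) + t (c (j + 1))) / 2 := by
        linarith [hb'.1]
      nlinarith [ex.1, hb'.1, h1]
    have hyneg : ⟪c (j + 1) - c j, y - midpoint ℝ (c j) (c (j + 1))⟫_ℝ ≤ 0 := by
      have h1 : (0.4 : ℝ) ≤ (t (c j) + t (c (j + 1))) / 2 - t y := by
        linarith [hb'.1, hTj.1]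
      nlinarith [ey.2, hb'.1, h1]
    -- position of a point on the bisector
    have hpos : ∀ q ∈ D, ⟪c (j + 1) - c j, q - midpoint ℝ (c j) (c (j + 1))⟫_ℝ = 0 →
        |t q - (t (c j) + t (c (j + 1))) / 2| ≤ 0.001 := by
      intro q hq hq0
      have h1 := hin j hj q (h.lat q hq)
      rw [hq0, zero_sub, abs_neg, abs_mul, abs_of_nonneg (by linarith [hb'.1] : (0 : ℝ) ≤
        t (c (j + 1)) - t (c j))] at h1
      have h2 := abs_nonneg (t q - (t (c j) + t (c (j + 1))) / 2)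
      nlinarith [hb'.1]
    rcases le_total 0 ⟪c (j + 1) - c j, p - midpoint ℝ (c j) (c (j + 1))⟫_ℝ with hp0 | hp0
    · obtain ⟨l, hl0, hl1, hmem, hzero⟩ := CD18_cross hD.conv hy hp hyneg hp0
      refine ⟨l, _, hmem, hl0, hzero, ?_, ?_⟩
      · rw [inner_add_right, inner_smul_right, inner_sub_right, hξ y, hξ p, hyκ, hF]
      · intro hj3 hj4
        have h1 := abs_le.mp (hpos _ hmem hzero)
        have h2 : t (y + l • (p - y)) = t y + l * (t p - t y) := by
          simp only [ht, inner_sub_right, inner_add_right, inner_smul_right]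
          ring
        rw [h2] at h1
        have hj3' : (N : ℝ) ≤ 4 * j := by exact_mod_cast hj3
        by_contra hcon
        push Not at hcon
        have h3 : l * (t p - t y) ≤ 0.23 * (2 * N + 2) := by
          exact mul_le_mul hcon.le (by linarith [hTN.2]) (by linarith) (by norm_num)
        linarith [h1.1, hTj.1, hb'.1]
    · obtain ⟨l, hl0, hl1, hmem, hzero⟩ := CD18_cross (v := -(c (j + 1) - c j)) hD.conv hx hp
        (by rw [inner_neg_left]; linarith) (by rw [inner_neg_left]; linarith)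
      rw [inner_neg_left, neg_eq_zero] at hzero
      refine ⟨l, _, hmem, hl0, hzero, ?_, ?_⟩
      · rw [inner_add_right, inner_smul_right, inner_sub_right, hξ x, hξ p, hxκ, hF]
      · intro hj3 hj4
        have h1 := abs_le.mp (hpos _ hmem hzero)
        have h2 : t (x + l • (p - x)) = t x - l * (t x - t p) := by
          simp only [ht, inner_sub_right, inner_add_right, inner_smul_right]
          ring
        rw [h2] at h1
        have hj4' : 4 * (j : ℝ) ≤ 3 * N := by exact_mod_cast hj4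
        by_contra hcon
        push Not at hcon
        have h3 : l * (t x - t p) ≤ 0.23 * (2 * N + 2) := by
          exact mul_le_mul hcon.le (by linarith [hTN.2]) (by linarith) (by norm_num)
        linarith [h1.2, hTj.2, hb'.2]
  choose! l q hqD hl0 hq0 hqξ hl23 using hpj
  -- the sums
  have hA0 : 0 < bA c N := by
    unfold bA
    apply Finset.sum_pos
    · intro j hj
      have := ha_ge j (Finset.mem_range.mp hj)
      linarith
    · exact ⟨0, Finset.mem_range.mpr (by omega)⟩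
  have hA2 : bA c N ≤ 2 * N := by
    unfold bA
    calc _ ≤ ∑ j ∈ Finset.range N, (2 : ℝ) :=
          Finset.sum_le_sum fun j hj => ha_le j (Finset.mem_range.mp hj)
      _ = 2 * N := by simp [mul_comm]
  have hsum0 : ∑ j ∈ Finset.range N, ‖c (j + 1) - c j‖ *
      ⟪θ - σ • e, midpoint ℝ (c j) (c (j + 1))⟫_ℝ = 0 := by
    have h1 : ⟪θ - σ • e, ∑ j ∈ Finset.range N, ‖c (j + 1) - c j‖ • (c j + c (j + 1))⟫_ℝ = 0 := by
      rw [hc, inner_zero_right]
    rw [inner_sum] at h1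
    have h2 : ∀ j ∈ Finset.range N, ‖c (j + 1) - c j‖ *
        ⟪θ - σ • e, midpoint ℝ (c j) (c (j + 1))⟫_ℝ =
        (1 / 2) * ⟪θ - σ • e, ‖c (j + 1) - c j‖ • (c j + c (j + 1))⟫_ℝ := by
      intro j _
      rw [midpoint_eq_smul_add, inner_smul_right, inner_smul_right]
      simp
      ring
    rw [Finset.sum_congr rfl h2, ← Finset.mul_sum, h1, mul_zero]
  have hsumq : ∑ j ∈ Finset.range N, ‖c (j + 1) - c j‖ *
      ⟪θ - σ • e, q j - midpoint ℝ (c j) (c (j + 1))⟫_ℝ =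
      κ * bA c N + F * ∑ j ∈ Finset.range N, ‖c (j + 1) - c j‖ * l j := by
    have h1 : ∀ j ∈ Finset.range N, ‖c (j + 1) - c j‖ *
        ⟪θ - σ • e, q j - midpoint ℝ (c j) (c (j + 1))⟫_ℝ =
        κ * ‖c (j + 1) - c j‖ + F * (‖c (j + 1) - c j‖ * l j) - ‖c (j + 1) - c j‖ *
        ⟪θ - σ • e, midpoint ℝ (c j) (c (j + 1))⟫_ℝ := by
      intro j hj
      rw [inner_sub_right, hqξ j (Finset.mem_range.mp hj)]
      ring
    rw [Finset.sum_congr rfl h1, Finset.sum_sub_distrib, Finset.sum_add_distrib, hsum0, sub_zero,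
      ← Finset.mul_sum, ← Finset.mul_sum]
    rfl
  have hlam : bA c N / 16 ≤ ∑ j ∈ Finset.range N, ‖c (j + 1) - c j‖ * l j := by
    have hsub : Finset.Ico (N / 4 + 1) (3 * N / 4) ⊆ Finset.range N := by
      intro j hj
      rw [Finset.mem_Ico] at hj
      rw [Finset.mem_range]
      omega
    have h1 : ∑ j ∈ Finset.Ico (N / 4 + 1) (3 * N / 4), (0.4577 : ℝ) ≤
        ∑ j ∈ Finset.range N, ‖c (j + 1) - c j‖ * l j := by
      refine le_trans ?_ (Finset.sum_le_sum_of_subset_of_nonneg hsub ?_)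
      · refine Finset.sum_le_sum fun j hj => ?_
        rw [Finset.mem_Ico] at hj
        have h2 := hl23 j (by omega) (by omega) (by omega)
        have h3 := ha_ge j (by omega)
        nlinarith
      · intro j hj _
        exact mul_nonneg (norm_nonneg _) (hl0 j (Finset.mem_range.mp hj))
    rw [Finset.sum_const, Nat.card_Ico, nsmul_eq_mul] at h1
    have h2 : N ≤ 2 * (3 * N / 4 - (N / 4 + 1)) + 4 := by omega
    have h3 : (N : ℝ) ≤ 2 * ((3 * N / 4 - (N / 4 + 1) : ℕ) : ℝ) + 4 := by exact_mod_cast h2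
    nlinarith
  -- conclusion
  have hmain : ∑ j ∈ Finset.range N, ‖c (j + 1) - c j‖ *
      ⟪θ - σ • e, q j - midpoint ℝ (c j) (c (j + 1))⟫_ℝ ≤
      ∑ j ∈ Finset.range N, ‖c (j + 1) - c j‖ * (rho c j *
        √(1 + σ ^ 2 - (⟪θ - σ • e, c (j + 1) - c j⟫_ℝ / ‖c (j + 1) - c j‖) ^ 2)) := by
    refine Finset.sum_le_sum fun j hj => ?_
    have hj' := Finset.mem_range.mp hj
    refine mul_le_mul_of_nonneg_left ?_ (norm_nonneg _)
    refine CD18_ortho rfl (by have := ha_ge j hj'; linarith) (hq0 j hj') ?_ ?_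
    · unfold rho
      exact Real.le_sqrt_of_sq_le (h.slice j hj' _ (hqD j hj') (hq0 j hj'))
    · rw [norm_sub_sq_real, inner_smul_right, real_inner_comm, hθe, hθ, norm_smul, h.norm_e]
      simp
  rw [le_div_iff₀ hA0]
  calc (κ + F / 16) * bA c N = κ * bA c N + F * (bA c N / 16) := by ring
    _ ≤ κ * bA c N + F * ∑ j ∈ Finset.range N, ‖c (j + 1) - c j‖ * l j := by
        have := mul_le_mul_of_nonneg_left hlam hpκ
        linarith
    _ = _ := hsumq.symm
    _ ≤ _ := hmain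

end general

end Pool.Agent.Sausage27
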