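import Pool.Agent.Sausage27.ChainDefs

/-!
# Sausage27, package CH16: basic consequences of a chain
-/

namespace Pool.Agent.Sausage27

open MeasureTheory Set Metric Filter Topology
open scoped InnerProductSpace Pointwise

section general

variable {E : Type*} [NormedAddCommGroup E] [InnerProductSpace ℝ E]

theorem CH16_norm_sq {e : E} (he : ‖e‖ = 1) (v : E) :
    ‖v‖ ^ 2 = ⟪e, v⟫_ℝ ^ 2 + ‖v - ⟪e, v⟫_ℝ • e‖ ^ 2 := by
  have h1 : ‖v - ⟪e, v⟫_ℝ • e‖ ^ 2 = ‖v‖ ^ 2 - 2 * (⟪v, ⟪e, v⟫_ℝ • e⟫_ℝ) + ‖⟪e, v⟫_ℝ • e‖ ^ 2 :=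
    norm_sub_sq_real _ _
  rw [h1, inner_smul_right, real_inner_comm e v, norm_smul, he, mul_one, Real.norm_eq_abs, sq_abs,
    real_inner_comm v e]
  ring

theorem CH16_a_ge {δ : ℝ} {N : ℕ} {D : Set E} {c : ℕ → E} {e : E} (h : Chain δ N D c e)
    (hδ : 0 < δ) (hδ1 : δ ≤ 1 / 100) {j : ℕ} (hj : j < N) :
    2 - 2 * δ ^ 2 ≤ ‖c (j + 1) - c j‖ := by
  have h1 := h.rho_le j hj
  have h2 := norm_nonneg (c (j + 1) - c j)
  have h3 : δ ^ 2 ≤ 1 := by nlinarith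
  by_contra hlt
  push Not at hlt
  nlinarith

theorem CH16_lat {δ : ℝ} {N : ℕ} {D : Set E} {c : ℕ → E} {e : E} (h : Chain δ N D c e)
    {j : ℕ} (hj : j < N) :
    ‖(c (j + 1) - c j) - ⟪e, c (j + 1) - c j⟫_ℝ • e‖ ≤ 2 * δ := by
  have h1 := h.latc j hj.le
  have h2 := h.latc (j + 1) hj
  have h3 : (c (j + 1) - c j) - ⟪e, c (j + 1) - c j⟫_ℝ • e =
      (c (j + 1) - c 0 - ⟪e, c (j + 1) - c 0⟫_ℝ • e) - (c j - c 0 - ⟪e, c j - c 0⟫_ℝ • e) := by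
    simp only [inner_sub_right, sub_smul]
    abel
  rw [h3]
  calc _ ≤ ‖c (j + 1) - c 0 - ⟪e, c (j + 1) - c 0⟫_ℝ • e‖ + ‖c j - c 0 - ⟪e, c j - c 0⟫_ℝ • e‖ :=
        norm_sub_le _ _
    _ ≤ 2 * δ := by linarith

theorem CH16_def {δ : ℝ} {N : ℕ} {D : Set E} {c : ℕ → E} {e : E} (h : Chain δ N D c e)
    (hδ : 0 < δ) (hδ1 : δ ≤ 1 / 100) {j : ℕ} (hj : j < N) :
    ‖c (j + 1) - c j‖ - ⟪e, c (j + 1) - c j⟫_ℝ ≤ 3 * δ ^ 2 := by
  have h1 := CH16_a_ge h hδ hδ1 hj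
  have h2 := CH16_lat h hj
  have h3 := CH16_norm_sq h.norm_e (c (j + 1) - c j)
  have h4 := h.mono j hj
  have h5 := norm_nonneg ((c (j + 1) - c j) - ⟪e, c (j + 1) - c j⟫_ℝ • e)
  set a := ‖c (j + 1) - c j‖
  set b := ⟪e, c (j + 1) - c j⟫_ℝ
  set l := ‖(c (j + 1) - c j) - b • e‖
  have h6 : δ ^ 2 ≤ 1 / 10000 := by nlinarith
  have h7 : l ^ 2 ≤ 4 * δ ^ 2 := by nlinarith
  by_contra hlt
  push Not at hlt
  have h8 : (a - b) * (a + b) ≤ 4 * δ ^ 2 := by nlinarith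
  have h9 : (3 : ℝ) / 2 ≤ a + b := by nlinarith
  nlinarith [mul_pos (sub_pos.2 hlt) (by linarith : (0 : ℝ) < a + b), sq_nonneg δ]

theorem CH16_def_nonneg {δ : ℝ} {N : ℕ} {D : Set E} {c : ℕ → E} {e : E} (h : Chain δ N D c e)
    (j : ℕ) : 0 ≤ ‖c (j + 1) - c j‖ - ⟪e, c (j + 1) - c j⟫_ℝ := by
  have := real_inner_le_norm e (c (j + 1) - c j)
  rw [h.norm_e, one_mul] at this
  linarith

theorem CH16_Y {δ : ℝ} {N : ℕ} {D : Set E} {c : ℕ → E} {e : E} (h : Chain δ N D c e) :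
    ‖c N - c 0‖ = ⟪e, c N⟫_ℝ - ⟪e, c 0⟫_ℝ := by
  have h1 : ⟪e, c N - c 0⟫_ℝ = ‖c N - c 0‖ := by
    conv_lhs => rw [h.axis]
    rw [inner_smul_right, real_inner_self_eq_norm_sq, h.norm_e]
    ring
  rw [← h1, inner_sub_right]

theorem CH16_Ysum {δ : ℝ} {N : ℕ} {D : Set E} {c : ℕ → E} {e : E} (h : Chain δ N D c e) :
    ‖c N - c 0‖ = ∑ j ∈ Finset.range N, ⟪e, c (j + 1) - c j⟫_ℝ := by
  rw [CH16_Y h]
  simp only [inner_sub_right]
  rw [Finset.sum_range_sub (fun j => ⟪e, c j⟫_ℝ)]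

theorem CH16_bd {δ : ℝ} {N : ℕ} {D : Set E} {c : ℕ → E} {e : E} (h : Chain δ N D c e) :
    bd c N = ∑ j ∈ Finset.range N, (‖c (j + 1) - c j‖ - ⟪e, c (j + 1) - c j⟫_ℝ) := by
  rw [bd, bA, CH16_Ysum h, Finset.sum_sub_distrib]

/-- CH16. Basic consequences. -/
theorem Chain.basic {δ : ℝ} {N : ℕ} {D : Set E} {c : ℕ → E} {e : E} (h : Chain δ N D c e)
    (hδ : 0 < δ) (hδ1 : δ ≤ 1 / 100) (hN : 100 ≤ N) :
    (∀ j < N, 2 - 2 * δ ^ 2 ≤ ‖c (j + 1) - c j‖) ∧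
    (∀ j < N, 2 - 5 * δ ^ 2 ≤ ⟪e, c (j + 1) - c j⟫_ℝ) ∧
    (∀ j < N, ‖c (j + 1) - c j‖ - ⟪e, c (j + 1) - c j⟫_ℝ ≤ 3 * δ ^ 2) ∧
    (N : ℝ) * (2 - 5 * δ ^ 2) ≤ ‖c N - c 0‖ ∧ bA c N ≤ 2 * N ∧ 0 ≤ bd c N ∧
    bd c N ≤ 3 * δ ^ 2 * N ∧ 0 ≤ rhob c N ∧ rhob c N ≤ 3 / 2 * δ ∧
    bd c N = ∑ j ∈ Finset.range N, (‖c (j + 1) - c j‖ - ⟪e, c (j + 1) - c j⟫_ℝ) := by
  have ha : ∀ j < N, 2 - 2 * δ ^ 2 ≤ ‖c (j + 1) - c j‖ := fun j hj => CH16_a_ge h hδ hδ1 hj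
  have hd : ∀ j < N, ‖c (j + 1) - c j‖ - ⟪e, c (j + 1) - c j⟫_ℝ ≤ 3 * δ ^ 2 :=
    fun j hj => CH16_def h hδ hδ1 hj
  have hb : ∀ j < N, 2 - 5 * δ ^ 2 ≤ ⟪e, c (j + 1) - c j⟫_ℝ := by
    intro j hj
    have h1 := ha j hj
    have h2 := hd j hj
    linarith
  have hNpos : (0 : ℝ) < N := by
    have : (100 : ℝ) ≤ N := by exact_mod_cast hN
    linarith
  have hA : (N : ℝ) * (2 - 2 * δ ^ 2) ≤ bA c N := by
    have h1 : ∑ _j ∈ Finset.range N, (2 - 2 * δ ^ 2) ≤ bA c N :=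
      Finset.sum_le_sum fun j hj => ha j (Finset.mem_range.1 hj)
    simp only [Finset.sum_const, Finset.card_range, nsmul_eq_mul] at h1
    exact h1
  refine ⟨ha, hb, hd, ?_, ?_, ?_, ?_, Real.sqrt_nonneg _, ?_, CH16_bd h⟩
  · rw [CH16_Ysum h]
    have h1 : ∑ _j ∈ Finset.range N, (2 - 5 * δ ^ 2) ≤
        ∑ j ∈ Finset.range N, ⟪e, c (j + 1) - c j⟫_ℝ :=
      Finset.sum_le_sum fun j hj => hb j (Finset.mem_range.1 hj)
    simp only [Finset.sum_const, Finset.card_range, nsmul_eq_mul] at h1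
    exact h1
  · have h1 : bA c N ≤ ∑ _j ∈ Finset.range N, (2 : ℝ) :=
      Finset.sum_le_sum fun j hj => h.a_le j (Finset.mem_range.1 hj)
    simp only [Finset.sum_const, Finset.card_range, nsmul_eq_mul] at h1
    linarith
  · rw [CH16_bd h]
    exact Finset.sum_nonneg fun j _ => CH16_def_nonneg h j
  · rw [CH16_bd h]
    have h1 : ∑ j ∈ Finset.range N, (‖c (j + 1) - c j‖ - ⟪e, c (j + 1) - c j⟫_ℝ) ≤
        ∑ _j ∈ Finset.range N, (3 * δ ^ 2) :=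
      Finset.sum_le_sum fun j hj => hd j (Finset.mem_range.1 hj)
    simp only [Finset.sum_const, Finset.card_range, nsmul_eq_mul] at h1
    linarith
  · have h1 : 2 - 2 * δ ^ 2 ≤ bA c N / N := by
      rw [le_div_iff₀ hNpos]
      linarith
    have h6 : δ ^ 2 ≤ 1 / 10000 := by nlinarith
    unfold rhob
    rw [Real.sqrt_le_left (by positivity)]
    nlinarith [sq_nonneg (δ ^ 2)]

/-- CH16b. Consequences for a centred chain. -/
theorem Chain.centred {δ : ℝ} {N : ℕ} {D : Set E} {c : ℕ → E} {e : E} (h : Chain δ N D c e)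
    (hδ : 0 < δ) (hδ1 : δ ≤ 1 / 100) (hN : 100 ≤ N) (hc : Centred c N) :
    |(⟪e, c 0⟫_ℝ + ⟪e, c N⟫_ℝ) / 2| ≤ bd c N ∧
    ‖c 0 - ⟪e, c 0⟫_ℝ • e‖ ≤ δ ∧
    (∀ x ∈ D, ‖x - ⟪e, x⟫_ℝ • e‖ ≤ 2 * δ) := by
  obtain ⟨ha, hb, hd, hY, hA2, hbd0, hbd1, hr0, hr1, hbd⟩ := h.basic hδ hδ1 hN
  have hNR : (100 : ℝ) ≤ N := by exact_mod_cast hN
  have h6 : δ ^ 2 ≤ 1 / 10000 := by nlinarith
  have hYpos : 0 < ‖c N - c 0‖ := by nlinarith
  have hapos : ∀ j < N, 0 < ‖c (j + 1) - c j‖ := fun j hj => by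
    have := ha j hj
    linarith
  -- the e-coordinates
  have hmono : ∀ j < N, ⟪e, c j⟫_ℝ ≤ ⟪e, c (j + 1)⟫_ℝ := fun j hj => by
    have := h.mono j hj
    rw [inner_sub_right] at this
    linarith
  have hmono' : ∀ i j, i ≤ j → j ≤ N → ⟪e, c i⟫_ℝ ≤ ⟪e, c j⟫_ℝ := by
    intro i j hij
    induction j, hij using Nat.le_induction with
    | base => intro _; exact le_refl _
    | succ j _ ih => intro hj; exact (ih (by omega)).trans (hmono j (by omega))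
  have hce : ∑ j ∈ Finset.range N, ‖c (j + 1) - c j‖ * (⟪e, c j⟫_ℝ + ⟪e, c (j + 1)⟫_ℝ) = 0 := by
    have h1 : ⟪e, ∑ j ∈ Finset.range N, ‖c (j + 1) - c j‖ • (c j + c (j + 1))⟫_ℝ = 0 := by
      rw [show ∑ j ∈ Finset.range N, ‖c (j + 1) - c j‖ • (c j + c (j + 1)) = 0 from hc,
        inner_zero_right]
    rw [inner_sum] at h1
    rw [← h1]
    refine Finset.sum_congr rfl fun j _ => ?_
    rw [inner_smul_right, inner_add_right]
  have hNpos : 0 < N := by omega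
  have hτ0 : ⟪e, c 0⟫_ℝ ≤ 0 := by
    by_contra hlt
    push Not at hlt
    have : 0 < ∑ j ∈ Finset.range N, ‖c (j + 1) - c j‖ * (⟪e, c j⟫_ℝ + ⟪e, c (j + 1)⟫_ℝ) := by
      refine Finset.sum_pos (fun j hj => ?_) ⟨0, Finset.mem_range.2 hNpos⟩
      have hj := Finset.mem_range.1 hj
      have h1 := hmono' 0 j (Nat.zero_le _) hj.le
      have h2 := hmono' 0 (j + 1) (Nat.zero_le _) hj
      exact mul_pos (hapos j hj) (by linarith)
    linarith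
  have hτN : 0 ≤ ⟪e, c N⟫_ℝ := by
    by_contra hlt
    push Not at hlt
    have : 0 < ∑ j ∈ Finset.range N, -(‖c (j + 1) - c j‖ * (⟪e, c j⟫_ℝ + ⟪e, c (j + 1)⟫_ℝ)) := by
      refine Finset.sum_pos (fun j hj => ?_) ⟨0, Finset.mem_range.2 hNpos⟩
      have hj := Finset.mem_range.1 hj
      have h1 := hmono' j N hj.le le_rfl
      have h2 := hmono' (j + 1) N hj le_rfl
      have := mul_pos (hapos j hj) (by linarith : 0 < -(⟪e, c j⟫_ℝ + ⟪e, c (j + 1)⟫_ℝ))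
      linarith
    rw [Finset.sum_neg_distrib] at this
    linarith
  have hYe := CH16_Y h
  have hτabs : ∀ j ≤ N, |⟪e, c j⟫_ℝ| ≤ ‖c N - c 0‖ := by
    intro j hj
    have h1 := hmono' 0 j (Nat.zero_le _) hj
    have h2 := hmono' j N hj le_rfl
    rw [abs_le]
    constructor <;> linarith
  refine ⟨?_, ?_⟩
  · -- Y (τ0 + τN) = - Σ (a-b)(τ_j + τ_{j+1})
    have hsum : ∑ j ∈ Finset.range N, ⟪e, c (j + 1) - c j⟫_ℝ * (⟪e, c j⟫_ℝ + ⟪e, c (j + 1)⟫_ℝ) =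
        ‖c N - c 0‖ * (⟪e, c 0⟫_ℝ + ⟪e, c N⟫_ℝ) := by
      have h1 : ∀ j ∈ Finset.range N,
          ⟪e, c (j + 1) - c j⟫_ℝ * (⟪e, c j⟫_ℝ + ⟪e, c (j + 1)⟫_ℝ) =
            ⟪e, c (j + 1)⟫_ℝ ^ 2 - ⟪e, c j⟫_ℝ ^ 2 := by
        intro j _
        rw [inner_sub_right]
        ring
      rw [Finset.sum_congr rfl h1, Finset.sum_range_sub (fun j => ⟪e, c j⟫_ℝ ^ 2), hYe]
      ring
    have hkey : ‖c N - c 0‖ * (⟪e, c 0⟫_ℝ + ⟪e, c N⟫_ℝ) =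
        -∑ j ∈ Finset.range N, (‖c (j + 1) - c j‖ - ⟪e, c (j + 1) - c j⟫_ℝ) *
          (⟪e, c j⟫_ℝ + ⟪e, c (j + 1)⟫_ℝ) := by
      simp only [sub_mul]
      rw [Finset.sum_sub_distrib, hce, hsum]
      ring
    have hbound : |‖c N - c 0‖ * (⟪e, c 0⟫_ℝ + ⟪e, c N⟫_ℝ)| ≤
        bd c N * (2 * ‖c N - c 0‖) := by
      rw [hkey, abs_neg, hbd, Finset.sum_mul]
      refine (Finset.abs_sum_le_sum_abs _ _).trans (Finset.sum_le_sum fun j hj => ?_)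
      have hj := Finset.mem_range.1 hj
      rw [abs_mul, abs_of_nonneg (CH16_def_nonneg h j)]
      refine mul_le_mul_of_nonneg_left ?_ (CH16_def_nonneg h j)
      have h1 := hτabs j hj.le
      have h2 := hτabs (j + 1) hj
      exact (abs_add_le _ _).trans (by linarith)
    rw [abs_mul, abs_of_pos hYpos] at hbound
    have h2 : |⟪e, c 0⟫_ℝ + ⟪e, c N⟫_ℝ| ≤ 2 * bd c N := by
      by_contra hlt
      push Not at hlt
      nlinarith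
    rw [abs_div, abs_two]
    linarith
  · -- lateral part
    have hApos : 0 < bA c N := by
      refine Finset.sum_pos (fun j hj => hapos j (Finset.mem_range.1 hj))
        ⟨0, Finset.mem_range.2 hNpos⟩
    have hlat0 : ‖c 0 - ⟪e, c 0⟫_ℝ • e‖ ≤ δ := by
      have h1 : ∑ j ∈ Finset.range N, ‖c (j + 1) - c j‖ •
          ((c j - c 0 - ⟪e, c j - c 0⟫_ℝ • e) + (c (j + 1) - c 0 - ⟪e, c (j + 1) - c 0⟫_ℝ • e)) =
          -((2 * bA c N) • (c 0 - ⟪e, c 0⟫_ℝ • e)) := by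
        have h2 : ∀ j ∈ Finset.range N, ‖c (j + 1) - c j‖ •
            ((c j - c 0 - ⟪e, c j - c 0⟫_ℝ • e) +
              (c (j + 1) - c 0 - ⟪e, c (j + 1) - c 0⟫_ℝ • e)) =
            (‖c (j + 1) - c j‖ • (c j + c (j + 1)) -
              (‖c (j + 1) - c j‖ * (⟪e, c j⟫_ℝ + ⟪e, c (j + 1)⟫_ℝ)) • e) -
            ‖c (j + 1) - c j‖ • ((2 : ℝ) • (c 0 - ⟪e, c 0⟫_ℝ • e)) := by
          intro j _
          simp only [inner_sub_right]
          module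
        rw [Finset.sum_congr rfl h2, Finset.sum_sub_distrib, Finset.sum_sub_distrib,
          ← Finset.sum_smul, ← Finset.sum_smul, hce,
          show ∑ j ∈ Finset.range N, ‖c (j + 1) - c j‖ • (c j + c (j + 1)) = 0 from hc]
        rw [show ∑ j ∈ Finset.range N, ‖c (j + 1) - c j‖ = bA c N from rfl]
        module
      have h3 : ‖∑ j ∈ Finset.range N, ‖c (j + 1) - c j‖ •
          ((c j - c 0 - ⟪e, c j - c 0⟫_ℝ • e) +
            (c (j + 1) - c 0 - ⟪e, c (j + 1) - c 0⟫_ℝ • e))‖ ≤ bA c N * (2 * δ) := by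
        rw [bA, Finset.sum_mul]
        refine (norm_sum_le _ _).trans (Finset.sum_le_sum fun j hj => ?_)
        have hj := Finset.mem_range.1 hj
        rw [norm_smul, Real.norm_of_nonneg (norm_nonneg _)]
        refine mul_le_mul_of_nonneg_left ?_ (norm_nonneg _)
        have h4 := h.latc j hj.le
        have h5 := h.latc (j + 1) hj
        exact (norm_add_le _ _).trans (by linarith)
      rw [h1, norm_neg, norm_smul, Real.norm_of_nonneg (by linarith)] at h3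
      by_contra hlt
      push Not at hlt
      nlinarith
    refine ⟨hlat0, fun x hx => ?_⟩
    have h1 : x - ⟪e, x⟫_ℝ • e = (x - c 0 - ⟪e, x - c 0⟫_ℝ • e) + (c 0 - ⟪e, c 0⟫_ℝ • e) := by
      simp only [inner_sub_right]
      module
    rw [h1]
    have h2 := h.lat x hx
    exact (norm_add_le _ _).trans (by linarith)

end general

end Pool.Agent.Sausage27
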