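import Pool.Agent.Sausage27.Basic

/-!
# Sausage27, package GF8: Gaussian facts
-/

namespace Pool.Agent.Sausage27

open MeasureTheory Set Metric Filter Topology
open scoped InnerProductSpace Pointwise

section gauss

theorem GF8_int0 : ∫ t : ℝ, Real.exp (-t ^ 2 / 2) = √(2 * Real.pi) := by
  have h := integral_gaussian (1 / 2)
  have e1 : (fun t : ℝ => Real.exp (-(1 / 2) * t ^ 2)) = fun t => Real.exp (-t ^ 2 / 2) := by
    funext t; congr 1; ring
  rw [e1] at h
  rw [h]; congr 1; ring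

theorem GF8_int1 : ∫ t : ℝ, |t| * Real.exp (-t ^ 2 / 2) = 2 := by
  have h := integral_comp_abs (f := fun t : ℝ => t * Real.exp (-t ^ 2 / 2))
  simp only [sq_abs] at h
  rw [h]
  have h2 := integral_rpow_mul_exp_neg_mul_rpow (p := 2) (q := 1) (b := 1 / 2) (by norm_num)
    (by norm_num) (by norm_num)
  have e1 : ∫ t in Ioi (0 : ℝ), t * Real.exp (-t ^ 2 / 2) = 1 := by
    rw [show (∫ t in Ioi (0 : ℝ), t * Real.exp (-t ^ 2 / 2)) =
      ∫ t in Ioi (0 : ℝ), t ^ (1 : ℝ) * Real.exp (-(1 / 2) * t ^ (2 : ℝ)) from ?_, h2]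
    · norm_num
    · congr 1; funext t
      rw [Real.rpow_one, Real.rpow_two]; congr 2; ring
  rw [e1]; norm_num

theorem GF8_int2 : ∫ t : ℝ, t ^ 2 * Real.exp (-t ^ 2 / 2) = √(2 * Real.pi) := by
  have h := integral_comp_abs (f := fun t : ℝ => t ^ 2 * Real.exp (-t ^ 2 / 2))
  simp only [sq_abs] at h
  rw [h]
  have h2 := integral_rpow_mul_exp_neg_mul_rpow (p := 2) (q := 2) (b := 1 / 2) (by norm_num)
    (by norm_num) (by norm_num)
  rw [show (∫ t in Ioi (0 : ℝ), t ^ 2 * Real.exp (-t ^ 2 / 2)) =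
      ∫ t in Ioi (0 : ℝ), t ^ (2 : ℝ) * Real.exp (-(1 / 2) * t ^ (2 : ℝ)) from ?_, h2]
  · have hG : Real.Gamma ((2 + 1) / 2) = √Real.pi / 2 := by
      rw [show ((2 : ℝ) + 1) / 2 = 1 / 2 + 1 by norm_num, Real.Gamma_add_one (by norm_num),
        Real.Gamma_one_half_eq]
      ring
    rw [hG]
    have hp : ((1 : ℝ) / 2) ^ (-((2 : ℝ) + 1) / 2) = 2 * √2 := by
      rw [one_div, Real.inv_rpow (by norm_num), ← Real.rpow_neg (by norm_num),
        show (-(-((2 : ℝ) + 1) / 2)) = 1 + 1 / 2 by norm_num, Real.rpow_add (by norm_num),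
        Real.rpow_one, ← Real.sqrt_eq_rpow]
    rw [hp, Real.sqrt_mul (by norm_num)]
    ring
  · congr 1; funext t
    rw [Real.rpow_two]; congr 2; ring

variable {E : Type*} [NormedAddCommGroup E] [InnerProductSpace ℝ E] [FiniteDimensional ℝ E]
  [MeasurableSpace E] [BorelSpace E]

/-- Product formula. -/
theorem GF8_prod {ι : Type*} [Fintype ι] (b : OrthonormalBasis ι ℝ E) (f : ι → ℝ → ℝ) :
    ∫ x : E, ∏ i, f i ⟪b i, x⟫_ℝ = ∏ i, ∫ t : ℝ, f i t := by
  rw [← integral_fintype_prod_volume_eq_prod]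
  have h1 : MeasurePreserving (fun x : E => (WithLp.ofLp (b.repr x) : ι → ℝ)) volume volume :=
    (PiLp.volume_preserving_ofLp ι).comp b.measurePreserving_repr
  have hemb : MeasurableEmbedding (fun x : E => (WithLp.ofLp (b.repr x) : ι → ℝ)) :=
    (MeasurableEquiv.toLp 2 (ι → ℝ)).symm.measurableEmbedding.comp
      b.repr.toHomeomorph.measurableEmbedding
  rw [← h1.integral_comp hemb]
  congr 1; funext x
  congr 1; funext i
  rw [OrthonormalBasis.repr_apply_apply]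

theorem GF8_norm_sq {ι : Type*} [Fintype ι] (b : OrthonormalBasis ι ℝ E) (x : E) :
    ‖x‖ ^ 2 = ∑ i, ⟪b i, x⟫_ℝ ^ 2 := by
  rw [← b.sum_sq_norm_inner_right x]
  simp

theorem GF8_exp {ι : Type*} [Fintype ι] (b : OrthonormalBasis ι ℝ E) (x : E) :
    Real.exp (-‖x‖ ^ 2 / 2) = ∏ i, Real.exp (-⟪b i, x⟫_ℝ ^ 2 / 2) := by
  rw [← Real.exp_sum, GF8_norm_sq b x]
  congr 1
  rw [neg_div, Finset.sum_div, ← Finset.sum_neg_distrib]
  exact Finset.sum_congr rfl fun i _ => by ring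

theorem GF8_Zg {ι : Type*} [Fintype ι] (b : OrthonormalBasis ι ℝ E) :
    Zg E = √(2 * Real.pi) ^ Fintype.card ι := by
  unfold Zg
  simp_rw [GF8_exp b]
  rw [GF8_prod b (fun _ t => Real.exp (-t ^ 2 / 2))]
  simp [GF8_int0]

theorem GF8_one {ι : Type*} [Fintype ι] [DecidableEq ι] (b : OrthonormalBasis ι ℝ E) (i₀ : ι)
    (g : ℝ → ℝ) :
    ∫ x : E, g ⟪b i₀, x⟫_ℝ * Real.exp (-‖x‖ ^ 2 / 2) =
      (∫ t : ℝ, g t * Real.exp (-t ^ 2 / 2)) * √(2 * Real.pi) ^ (Fintype.card ι - 1) := by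
  have h := GF8_prod b (fun i t => (if i = i₀ then g t else 1) * Real.exp (-t ^ 2 / 2))
  have e1 : ∀ x : E, ∏ i, ((if i = i₀ then g ⟪b i, x⟫_ℝ else 1) * Real.exp (-⟪b i, x⟫_ℝ ^ 2 / 2))
      = g ⟪b i₀, x⟫_ℝ * Real.exp (-‖x‖ ^ 2 / 2) := by
    intro x
    rw [Finset.prod_mul_distrib, ← GF8_exp b x]
    congr 1
    rw [Finset.prod_ite_eq' Finset.univ i₀ (fun i => g ⟪b i, x⟫_ℝ)]
    simp
  simp_rw [e1] at h
  rw [h, ← Finset.mul_prod_erase Finset.univ _ (Finset.mem_univ i₀)]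
  congr 1
  · simp
  · rw [Finset.prod_congr rfl (g := fun _ => √(2 * Real.pi))]
    · simp [Finset.card_erase_of_mem]
    · intro i hi
      simp only [if_neg (Finset.ne_of_mem_erase hi), one_mul]
      exact GF8_int0

theorem GF8_basis {e : E} (he : ‖e‖ = 1) :
    ∃ (b : OrthonormalBasis (Fin (Module.finrank ℝ E)) ℝ E) (i₀ : Fin (Module.finrank ℝ E)),
      b i₀ = e := by
  have hne : Nontrivial E := ⟨e, 0, fun h => by rw [h, norm_zero] at he; norm_num at he⟩
  have hpos : 0 < Module.finrank ℝ E := Module.finrank_pos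
  obtain ⟨b, hb⟩ := Orthonormal.exists_orthonormalBasis_extension_of_card_eq (𝕜 := ℝ) (E := E)
    (ι := Fin (Module.finrank ℝ E)) (by simp) (v := fun _ => e) (s := {⟨0, hpos⟩}) (by
      constructor
      · rintro ⟨i, hi⟩; simpa using he
      · rintro ⟨i, hi⟩ ⟨j, hj⟩ hij
        exact absurd (Subtype.ext ((mem_singleton_iff.mp hi).trans (mem_singleton_iff.mp hj).symm)) hij)
  exact ⟨b, ⟨0, hpos⟩, hb _ rfl⟩

/-- GF8a. -/
theorem gauss_abs {e : E} (he : ‖e‖ = 1) :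
    ∫ x : E, |⟪e, x⟫_ℝ| * Real.exp (-‖x‖ ^ 2 / 2) = √(2 / Real.pi) * Zg E := by
  obtain ⟨b, i₀, rfl⟩ := GF8_basis he
  rw [GF8_one b i₀ (fun t => |t|), GF8_int1, GF8_Zg b]
  have hc : Fintype.card (Fin (Module.finrank ℝ E)) =
      (Fintype.card (Fin (Module.finrank ℝ E)) - 1) + 1 := by
    have : 0 < Fintype.card (Fin (Module.finrank ℝ E)) := Fintype.card_pos_iff.mpr ⟨i₀⟩
    omega
  conv_rhs => rw [hc, pow_succ]
  have h2 : √(2 / Real.pi) * √(2 * Real.pi) = 2 := by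
    rw [← Real.sqrt_mul (by positivity), show 2 / Real.pi * (2 * Real.pi) = 2 ^ 2 by
      field_simp]
    exact Real.sqrt_sq (by norm_num)
  calc _ = (√(2 / Real.pi) * √(2 * Real.pi)) *
      √(2 * Real.pi) ^ (Fintype.card (Fin (Module.finrank ℝ E)) - 1) := by rw [h2]
    _ = _ := by ring

/-- GF8b. -/
theorem gauss_sq {e : E} (he : ‖e‖ = 1) :
    ∫ x : E, ⟪e, x⟫_ℝ ^ 2 * Real.exp (-‖x‖ ^ 2 / 2) = Zg E := by
  obtain ⟨b, i₀, rfl⟩ := GF8_basis he
  rw [GF8_one b i₀ (fun t => t ^ 2), GF8_int2, GF8_Zg b]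
  have hc : Fintype.card (Fin (Module.finrank ℝ E)) =
      (Fintype.card (Fin (Module.finrank ℝ E)) - 1) + 1 := by
    have : 0 < Fintype.card (Fin (Module.finrank ℝ E)) := Fintype.card_pos_iff.mpr ⟨i₀⟩
    omega
  conv_rhs => rw [hc, pow_succ]
  ring

theorem Zg_pos : 0 < Zg E := by
  rw [GF8_Zg (stdOrthonormalBasis ℝ E)]
  positivity

theorem GF8_integrable_exp : Integrable (fun x : E => Real.exp (-‖x‖ ^ 2 / 2)) := by
  by_contra h
  have : Zg E = 0 := integral_undef h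
  exact (Zg_pos (E := E)).ne' this

theorem GF8_integrable_sq {e : E} (he : ‖e‖ = 1) :
    Integrable (fun x : E => ⟪e, x⟫_ℝ ^ 2 * Real.exp (-‖x‖ ^ 2 / 2)) := by
  by_contra h
  have h1 := integral_undef h
  rw [gauss_sq he] at h1
  exact (Zg_pos (E := E)).ne' h1

/-- GP8c. -/
theorem gauss_proj (W : Submodule ℝ E) :
    ∫ x : E, ‖W.starProjection x‖ * Real.exp (-‖x‖ ^ 2 / 2) ≤
      √(Module.finrank ℝ W) * Zg E := by
  set b := stdOrthonormalBasis ℝ W with hb
  set k := Module.finrank ℝ W with hk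
  have hsq : ∀ x : E, ‖W.starProjection x‖ ^ 2 = ∑ i, ⟪((b i : W) : E), x⟫_ℝ ^ 2 := by
    intro x
    have h1 : ‖W.starProjection x‖ = ‖W.orthogonalProjectionOnto x‖ := rfl
    rw [h1, GF8_norm_sq b]
    refine Finset.sum_congr rfl fun i _ => ?_
    congr 1
    rw [Submodule.coe_inner]
    exact Submodule.inner_starProjection_left_eq_right W _ _ |>.symm.trans (by simp)
  rcases Nat.eq_zero_or_pos k with h0 | hpos
  · have hz : ∀ x : E, ‖W.starProjection x‖ = 0 := by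
      intro x
      have h2 := hsq x
      have : IsEmpty (Fin k) := by rw [h0]; infer_instance
      rw [Finset.univ_eq_empty, Finset.sum_empty] at h2
      exact pow_eq_zero_iff (two_ne_zero) |>.mp h2
    simp_rw [hz]
    simp [h0]
  · have hkr : (0 : ℝ) < k := Nat.cast_pos.mpr hpos
    have hs : 0 < √(k : ℝ) := Real.sqrt_pos.mpr hkr
    have hunit : ∀ i, ‖((b i : W) : E)‖ = 1 := fun i => b.orthonormal.1 i
    have hint2 : Integrable (fun x : E => ‖W.starProjection x‖ ^ 2 * Real.exp (-‖x‖ ^ 2 / 2)) := by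
      have := integrable_finsetSum Finset.univ
        (fun i (_ : i ∈ Finset.univ) => GF8_integrable_sq (hunit i))
      refine this.congr (Eventually.of_forall fun x => ?_)
      simp only []
      rw [hsq x, Finset.sum_mul]
    have hval2 : ∫ x : E, ‖W.starProjection x‖ ^ 2 * Real.exp (-‖x‖ ^ 2 / 2) = k * Zg E := by
      simp_rw [hsq, Finset.sum_mul]
      rw [integral_finsetSum Finset.univ (fun i _ => GF8_integrable_sq (hunit i))]
      rw [Finset.sum_congr rfl (fun i _ => gauss_sq (hunit i))]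
      simp [← hk]
    have hbound : ∀ x : E, ‖W.starProjection x‖ * Real.exp (-‖x‖ ^ 2 / 2) ≤
        (1 / (2 * √(k : ℝ))) * (‖W.starProjection x‖ ^ 2 * Real.exp (-‖x‖ ^ 2 / 2)) +
          (√(k : ℝ) / 2) * Real.exp (-‖x‖ ^ 2 / 2) := by
      intro x
      have he := Real.exp_pos (-‖x‖ ^ 2 / 2)
      have key : ‖W.starProjection x‖ ≤
          (1 / (2 * √(k : ℝ))) * ‖W.starProjection x‖ ^ 2 + √(k : ℝ) / 2 := by
        have h3 : 0 ≤ (‖W.starProjection x‖ - √(k : ℝ)) ^ 2 := sq_nonneg _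
        rw [← sub_nonneg]
        have : (1 / (2 * √(k : ℝ))) * ‖W.starProjection x‖ ^ 2 + √(k : ℝ) / 2 -
            ‖W.starProjection x‖ = (‖W.starProjection x‖ - √(k : ℝ)) ^ 2 / (2 * √(k : ℝ)) := by
          field_simp; ring
        rw [this]; positivity
      nlinarith [mul_le_mul_of_nonneg_right key he.le]
    have hI : Integrable (fun x : E =>
        (1 / (2 * √(k : ℝ))) * (‖W.starProjection x‖ ^ 2 * Real.exp (-‖x‖ ^ 2 / 2)) +
          (√(k : ℝ) / 2) * Real.exp (-‖x‖ ^ 2 / 2)) :=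
      (hint2.const_mul _).add (GF8_integrable_exp.const_mul _)
    calc ∫ x : E, ‖W.starProjection x‖ * Real.exp (-‖x‖ ^ 2 / 2)
        ≤ ∫ x : E, ((1 / (2 * √(k : ℝ))) * (‖W.starProjection x‖ ^ 2 * Real.exp (-‖x‖ ^ 2 / 2)) +
          (√(k : ℝ) / 2) * Real.exp (-‖x‖ ^ 2 / 2)) :=
          integral_mono_of_nonneg (Eventually.of_forall fun x => by positivity) hI
            (Eventually.of_forall hbound)
      _ = (1 / (2 * √(k : ℝ))) * (k * Zg E) + (√(k : ℝ) / 2) * Zg E := by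
          rw [integral_add (hint2.const_mul _) (GF8_integrable_exp.const_mul _),
            integral_const_mul, integral_const_mul, hval2]
          rfl
      _ = √(k : ℝ) * Zg E := by
          have : (k : ℝ) = √(k : ℝ) * √(k : ℝ) := (Real.mul_self_sqrt hkr.le).symm
          rw [show (1 / (2 * √(k : ℝ))) * ((k : ℝ) * Zg E) = (√(k : ℝ) / 2) * Zg E from ?_]
          · ring
          · nth_rewrite 2 [this]
            field_simp

/-- GP8d. -/
theorem gauss_norm : ∫ x : E, ‖x‖ * Real.exp (-‖x‖ ^ 2 / 2) ≤ √(Module.finrank ℝ E) * Zg E := by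
  have h := gauss_proj (⊤ : Submodule ℝ E)
  have h1 : ∀ x : E, (⊤ : Submodule ℝ E).starProjection x = x := fun x =>
    Submodule.starProjection_eq_self_iff.mpr Submodule.mem_top
  simp_rw [h1] at h
  rwa [finrank_top] at h

end gauss

end Pool.Agent.Sausage27
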