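import Pool.Agent.Sausage27.WS5
import Pool.Agent.Sausage27.WW7
import Pool.Agent.Sausage27.GF8

/-!
# Sausage27, CO9 and DA10: the coarse structure of near-extremal bodies
-/

namespace Pool.Agent.Sausage27

open MeasureTheory Set Metric Filter Topology
open scoped InnerProductSpace Pointwise

section gauss

variable {E : Type*} [NormedAddCommGroup E] [InnerProductSpace ℝ E] [FiniteDimensional ℝ E]
  [MeasurableSpace E] [BorelSpace E]

theorem CO9_int_exp {b : ℝ} (hb : 0 < b) :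
    Integrable (fun x : E => Real.exp (-b * ‖x‖ ^ 2)) := by
  have h := GaussianFourier.integrable_cexp_neg_mul_sq_norm_add (V := E) (b := (b : ℂ))
    (by simpa using hb) 0 0
  refine h.norm.congr (ae_of_all _ fun x => ?_)
  simp only [Complex.norm_exp]
  congr 1
  simp [← Complex.ofReal_pow]

theorem CO9_int_of_le {f : E → ℝ} (hf : Continuous f) {R : ℝ} (hR : ∀ x, |f x| ≤ R * ‖x‖) :
    Integrable (fun x : E => f x * Real.exp (-‖x‖ ^ 2 / 2)) := by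
  refine Integrable.mono' ((CO9_int_exp (E := E) (b := 1 / 4) (by norm_num)).const_mul |R|) ?_
    (ae_of_all _ fun x => ?_)
  · exact (hf.mul (by fun_prop)).aestronglyMeasurable
  · rw [norm_mul, Real.norm_eq_abs, Real.norm_eq_abs, abs_of_pos (Real.exp_pos _)]
    have h1 : |f x| ≤ |R| * ‖x‖ :=
      (hR x).trans (mul_le_mul_of_nonneg_right (le_abs_self R) (norm_nonneg _))
    have h2 : ‖x‖ * Real.exp (-‖x‖ ^ 2 / 2) ≤ Real.exp (-(1 / 4) * ‖x‖ ^ 2) := by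
      have h3 : ‖x‖ ≤ Real.exp (‖x‖ ^ 2 / 4) := by
        have := Real.add_one_le_exp (‖x‖ ^ 2 / 4)
        nlinarith [sq_nonneg (‖x‖ - 2)]
      calc ‖x‖ * Real.exp (-‖x‖ ^ 2 / 2)
          ≤ Real.exp (‖x‖ ^ 2 / 4) * Real.exp (-‖x‖ ^ 2 / 2) :=
            mul_le_mul_of_nonneg_right h3 (Real.exp_pos _).le
        _ = Real.exp (-(1 / 4) * ‖x‖ ^ 2) := by
            rw [← Real.exp_add]; congr 1; ring
    calc |f x| * Real.exp (-‖x‖ ^ 2 / 2)
        ≤ |R| * ‖x‖ * Real.exp (-‖x‖ ^ 2 / 2) :=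
          mul_le_mul_of_nonneg_right h1 (Real.exp_pos _).le
      _ = |R| * (‖x‖ * Real.exp (-‖x‖ ^ 2 / 2)) := by ring
      _ ≤ |R| * Real.exp (-(1 / 4) * ‖x‖ ^ 2) :=
          mul_le_mul_of_nonneg_left h2 (abs_nonneg _)

theorem CO9_int_norm : Integrable (fun x : E => ‖x‖ * Real.exp (-‖x‖ ^ 2 / 2)) :=
  CO9_int_of_le (f := fun x => ‖x‖) continuous_norm (R := 1) (fun x => by simp)

theorem CO9_int_hS {D : Set E} (hD : Body D) :
    Integrable (fun x : E => hS D x * Real.exp (-‖x‖ ^ 2 / 2)) := by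
  obtain ⟨R, hR, -, hb, -⟩ := hD.exists_bound
  exact CO9_int_of_le hD.continuous_hS hb

theorem CO9_two_G {D : Set E} (hD : Body D) :
    2 * G D = ∫ x : E, (hS D x + hS D (-x)) * Real.exp (-‖x‖ ^ 2 / 2) := by
  have h1 : ∫ x : E, hS D (-x) * Real.exp (-‖x‖ ^ 2 / 2) = G D := by
    have := integral_neg_eq_self (fun x : E => hS D x * Real.exp (-‖x‖ ^ 2 / 2)) volume
    simpa [G] using this
  have h2 : Integrable (fun x : E => hS D (-x) * Real.exp (-‖x‖ ^ 2 / 2)) := by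
    have := (CO9_int_hS hD).comp_neg
    simpa using this
  have h3 : (fun x : E => (hS D x + hS D (-x)) * Real.exp (-‖x‖ ^ 2 / 2)) =
      fun x => hS D x * Real.exp (-‖x‖ ^ 2 / 2) + hS D (-x) * Real.exp (-‖x‖ ^ 2 / 2) := by
    funext x; ring
  rw [h3, integral_add (CO9_int_hS hD) h2, h1]
  unfold G
  ring

/-- Bound for the Gaussian functional by widths. -/
theorem CO9_G_le {D : Set E} (hD : Body D) (W : Submodule ℝ E) {A B : ℝ} (hA : 0 ≤ A)
    (hB : 0 ≤ B)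
    (h : ∀ x, hS D x + hS D (-x) ≤ A * ‖W.starProjection x‖ + B * ‖x‖) :
    2 * G D ≤ A * (√(Module.finrank ℝ W) * Zg E) + B * (√(Module.finrank ℝ E) * Zg E) := by
  rw [CO9_two_G hD]
  have hP : Integrable (fun x : E => ‖W.starProjection x‖ * Real.exp (-‖x‖ ^ 2 / 2)) := by
    refine CO9_int_of_le (f := fun x => ‖W.starProjection x‖) (by fun_prop) (R := 1) fun x => ?_
    rw [abs_of_nonneg (norm_nonneg _), one_mul]
    exact W.norm_starProjection_apply_le x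
  have hS1 : Integrable (fun x : E => (hS D x + hS D (-x)) * Real.exp (-‖x‖ ^ 2 / 2)) := by
    have h2 : Integrable (fun x : E => hS D (-x) * Real.exp (-‖x‖ ^ 2 / 2)) := by
      have := (CO9_int_hS hD).comp_neg
      simpa using this
    refine ((CO9_int_hS hD).add h2).congr (ae_of_all _ fun x => ?_)
    simp only [Pi.add_apply]; ring
  calc ∫ x : E, (hS D x + hS D (-x)) * Real.exp (-‖x‖ ^ 2 / 2)
      ≤ ∫ x : E, (A * (‖W.starProjection x‖ * Real.exp (-‖x‖ ^ 2 / 2)) +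
          B * (‖x‖ * Real.exp (-‖x‖ ^ 2 / 2))) := by
        refine integral_mono hS1 ((hP.const_mul A).add (CO9_int_norm.const_mul B)) fun x => ?_
        have := mul_le_mul_of_nonneg_right (h x) (Real.exp_pos (-‖x‖ ^ 2 / 2)).le
        simp only
        linarith
    _ = A * (∫ x : E, ‖W.starProjection x‖ * Real.exp (-‖x‖ ^ 2 / 2)) +
          B * ∫ x : E, ‖x‖ * Real.exp (-‖x‖ ^ 2 / 2) := by
        rw [integral_add (hP.const_mul A) (CO9_int_norm.const_mul B), integral_const_mul,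
          integral_const_mul]
    _ ≤ _ := add_le_add (mul_le_mul_of_nonneg_left (gauss_proj W) hA)
          (mul_le_mul_of_nonneg_left gauss_norm hB)

end gauss

theorem CO9_wide_bound {E : Type*} [NormedAddCommGroup E] [InnerProductSpace ℝ E]
    [FiniteDimensional ℝ E] {D : Set E} (hD : Body D) (W : Submodule ℝ E) {A B : ℝ}
    (h1 : ∀ u ∈ W, ‖u‖ = 1 → hS D u + hS D (-u) ≤ A)
    (h2 : ∀ x ∈ D, ∀ y ∈ D, ∀ v ∈ Wᗮ, ‖v‖ ≤ 1 → ⟪v, x - y⟫_ℝ ≤ B) (hB : 0 ≤ B) (x : E) :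
    hS D x + hS D (-x) ≤ A * ‖W.starProjection x‖ + B * ‖x‖ := by
  obtain ⟨p, hp, hpe⟩ := hD.exists_eq x
  obtain ⟨q, hq, hqe⟩ := hD.exists_eq (-x)
  have h3 : hS D x + hS D (-x) = ⟪x, p - q⟫_ℝ := by
    rw [hpe, hqe, inner_neg_right, inner_sub_right, real_inner_comm p x, real_inner_comm q x]
    ring
  rw [h3]
  set a := W.starProjection x with ha
  have haW : a ∈ W := W.starProjection_apply_mem x
  have hb : x - a ∈ Wᗮ := W.sub_starProjection_mem_orthogonal x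
  have h4 : ⟪x, p - q⟫_ℝ = ⟪a, p - q⟫_ℝ + ⟪x - a, p - q⟫_ℝ := by
    rw [← inner_add_left]; congr 1; abel
  rw [h4]
  refine add_le_add ?_ ?_
  · -- the part in W
    by_cases h0 : a = 0
    · simp [h0]
    · have hn : 0 < ‖a‖ := norm_pos_iff.mpr h0
      set u := (‖a‖⁻¹ : ℝ) • a with hu
      have hun : ‖u‖ = 1 := by
        rw [hu, norm_smul, norm_inv, norm_norm, inv_mul_cancel₀ hn.ne']
      have huW : u ∈ W := W.smul_mem _ haW
      have h5 := h1 u huW hun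
      have h6 := hD.inner_le hp u
      have h7 := hD.inner_le hq (-u)
      have h8 : ⟪u, p - q⟫_ℝ ≤ A := by
        rw [inner_sub_right, real_inner_comm p u, real_inner_comm q u]
        rw [inner_neg_right] at h7
        linarith
      have h9 : a = ‖a‖ • u := by
        rw [hu, smul_smul, mul_inv_cancel₀ hn.ne', one_smul]
      calc ⟪a, p - q⟫_ℝ = ‖a‖ * ⟪u, p - q⟫_ℝ := by
            conv_lhs => rw [h9]
            rw [real_inner_smul_left]
        _ ≤ ‖a‖ * A := mul_le_mul_of_nonneg_left h8 hn.le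
        _ = A * ‖a‖ := mul_comm _ _
  · by_cases h0 : x - a = 0
    · rw [h0, inner_zero_left]; positivity
    · have hn : 0 < ‖x - a‖ := norm_pos_iff.mpr h0
      set u := (‖x - a‖⁻¹ : ℝ) • (x - a) with hu
      have hun : ‖u‖ = 1 := by
        rw [hu, norm_smul, norm_inv, norm_norm, inv_mul_cancel₀ hn.ne']
      have huW : u ∈ Wᗮ := Wᗮ.smul_mem _ hb
      have h5 := h2 p hp q hq u huW hun.le
      have h9 : x - a = ‖x - a‖ • u := by
        rw [hu, smul_smul, mul_inv_cancel₀ hn.ne', one_smul]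
      have h10 : ‖x - a‖ ≤ ‖x‖ := by
        have : x - a = Wᗮ.starProjection x := by
          rw [Submodule.starProjection_orthogonal_val]
        rw [this]
        exact Wᗮ.norm_starProjection_apply_le x
      calc ⟪x - a, p - q⟫_ℝ = ‖x - a‖ * ⟪u, p - q⟫_ℝ := by
            conv_lhs => rw [h9]
            rw [real_inner_smul_left]
        _ ≤ ‖x - a‖ * B := mul_le_mul_of_nonneg_left h5 hn.le
        _ ≤ ‖x‖ * B := mul_le_mul_of_nonneg_right h10 hB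
        _ = B * ‖x‖ := mul_comm _ _

/-- CO9. -/
theorem coarse (d : ℕ) (hd : 1 ≤ d) : ∃ (H₁ : ℝ) (N₀ : ℕ), 0 < H₁ ∧ ∀ n ≥ N₀, ∀ (D : Set (Eu d))
    (c : Fin n → Eu d), Body D → SliceCov D c → (n : ℝ) * √(2 / Real.pi) * Zg (Eu d) ≤ G D →
    ∃ w : Eu d, ‖w‖ = 1 ∧ ∀ x ∈ D, ∀ y ∈ D, ‖x - y - ⟪w, x - y⟫_ℝ • w‖ ≤ H₁ := by
  have hd' : (1 : ℝ) ≤ d := by exact_mod_cast hd
  set H : ℝ := 10 * ((d : ℝ) + 1) with hH
  have hH0 : 0 < H := by positivity
  obtain ⟨N₀, hN₀⟩ := exists_nat_gt (H * d * √d / 2 / (11 / 1000))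
  refine ⟨H * d, N₀, by positivity, ?_⟩
  intro n hn D c hD hc hG
  have hfin : Module.finrank ℝ (Eu d) = d := by simp
  obtain ⟨W, hW1, hW2⟩ := exists_wide_subspace hD hH0
  rw [hfin] at hW2
  have hkd : Module.finrank ℝ W ≤ d := by
    have := Submodule.finrank_le W
    rwa [hfin] at this
  have hkd' : (Module.finrank ℝ W : ℝ) ≤ d := by exact_mod_cast hkd
  rcases Nat.lt_or_ge (Module.finrank ℝ W) 2 with hk | hk
  · -- k ≤ 1
    obtain ⟨w, hw, hWw⟩ : ∃ w : Eu d, ‖w‖ = 1 ∧ ∀ v ∈ W, ∃ a : ℝ, v = a • w := by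
      rcases Nat.eq_zero_or_pos (Module.finrank ℝ W) with h0 | h0
      · have hne : Nontrivial (Eu d) := by
          have : 0 < Module.finrank ℝ (Eu d) := by rw [hfin]; omega
          exact Module.finrank_pos_iff.mp this
        obtain ⟨w, hw⟩ := exists_norm_eq (Eu d) (zero_le_one (α := ℝ))
        refine ⟨w, hw, fun v hv => ⟨0, ?_⟩⟩
        rw [Submodule.finrank_eq_zero] at h0
        rw [h0] at hv
        simpa using hv
      · have h1 : Module.finrank ℝ W = 1 := by omega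
        obtain ⟨v, hv0, hv⟩ := finrank_eq_one_iff'.mp h1
        have hv0' : (v : Eu d) ≠ 0 := by simpa using hv0
        have hvn : 0 < ‖(v : Eu d)‖ := norm_pos_iff.mpr hv0'
        refine ⟨(‖(v : Eu d)‖⁻¹ : ℝ) • (v : Eu d), ?_, ?_⟩
        · rw [norm_smul, norm_inv, norm_norm, inv_mul_cancel₀ hvn.ne']
        · intro z hz
          obtain ⟨a, ha⟩ := hv ⟨z, hz⟩
          refine ⟨a * ‖(v : Eu d)‖, ?_⟩
          rw [smul_smul, mul_assoc, mul_inv_cancel₀ hvn.ne', mul_one]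
          have := congrArg Subtype.val ha
          simpa using this.symm
    refine ⟨w, hw, fun x hx y hy => ?_⟩
    set z := x - y - ⟪w, x - y⟫_ℝ • w with hz
    by_cases h0 : z = 0
    · rw [h0, norm_zero]; positivity
    · have hn0 : 0 < ‖z‖ := norm_pos_iff.mpr h0
      have hzw : ⟪w, z⟫_ℝ = 0 := by
        rw [hz, inner_sub_right, real_inner_smul_right, real_inner_self_eq_norm_sq, hw]
        ring
      have hzW : z ∈ Wᗮ := by
        rw [Submodule.mem_orthogonal]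
        intro v hv
        obtain ⟨a, rfl⟩ := hWw v hv
        rw [real_inner_smul_left, hzw, mul_zero]
      have h5 := hW2 x hx y hy ((‖z‖⁻¹ : ℝ) • z) (Wᗮ.smul_mem _ hzW) (by
        rw [norm_smul, norm_inv, norm_norm, inv_mul_cancel₀ hn0.ne'])
      have h6 : ⟪z, x - y⟫_ℝ = ‖z‖ ^ 2 := by
        have h7 : x - y = z + ⟪w, x - y⟫_ℝ • w := by rw [hz]; abel
        rw [h7, inner_add_right, real_inner_smul_right, real_inner_comm w z, hzw,
          real_inner_self_eq_norm_sq]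
        ring
      rw [real_inner_smul_left, h6] at h5
      have h8 : ‖z‖⁻¹ * ‖z‖ ^ 2 = ‖z‖ := by field_simp
      linarith
  · -- k ≥ 2: contradiction
    exfalso
    set k := Module.finrank ℝ W with hkdef
    have hk' : (2 : ℝ) ≤ k := by exact_mod_cast hk
    have h1 : ∀ u ∈ W, ‖u‖ = 1 → hS D u + hS D (-u) ≤ 2 * n / (k * (9 / 10)) := by
      intro u hu hu1
      have := width_wide hD hc W (fun w hw hw1 => by
        have := hW1 w hw hw1
        rw [← hkdef]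
        have h9 : 10 * ((k : ℝ) + 1) ≤ H := by rw [hH]; linarith
        linarith) hu hu1
      rw [← hkdef] at this
      rw [le_div_iff₀ (by positivity)]
      linarith
    have h2 := CO9_G_le hD W (A := 2 * n / (k * (9 / 10))) (B := H * d) (by positivity)
      (by positivity) (CO9_wide_bound hD W h1 hW2 (by positivity))
    rw [← hkdef, hfin] at h2
    have hZ : 0 < Zg (Eu d) := Zg_pos
    have h3 : 2 * ((n : ℝ) * √(2 / Real.pi)) ≤ 2 * n / (k * (9 / 10)) * √k + H * d * √d := by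
      have : 2 * ((n : ℝ) * √(2 / Real.pi)) * Zg (Eu d) ≤
          (2 * n / (k * (9 / 10)) * √k + H * d * √d) * Zg (Eu d) := by
        nlinarith
      exact le_of_mul_le_mul_right this hZ
    have h4 : (797 / 1000 : ℝ) ≤ √(2 / Real.pi) := by
      apply Real.le_sqrt_of_sq_le
      rw [le_div_iff₀ Real.pi_pos]
      have := Real.pi_lt_d4
      nlinarith
    have h5 : 1 / (k * (9 / 10)) * √k ≤ (786 / 1000 : ℝ) := by
      have hs : √(k : ℝ) * √(k : ℝ) = k := Real.mul_self_sqrt (by positivity)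
      have hs2 : (1.4142 : ℝ) ≤ √(k : ℝ) := by
        apply Real.le_sqrt_of_sq_le; norm_num; linarith
      have hs0 : 0 < √(k : ℝ) := by linarith
      have : 1 / ((k : ℝ) * (9 / 10)) * √k = 1 / (√k * (9 / 10)) := by
        rw [eq_div_iff (by positivity)]
        field_simp
        nlinarith
      rw [this, div_le_iff₀ (by positivity)]
      nlinarith
    have hn' : H * d * √d / 2 / (11 / 1000) < n := lt_of_lt_of_le hN₀ (by exact_mod_cast hn)
    rw [div_lt_iff₀ (by norm_num)] at hn'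
    have hn0 : (0 : ℝ) ≤ n := by positivity
    have h6 : 2 * (n : ℝ) / (k * (9 / 10)) * √k = 2 * n * (1 / (k * (9 / 10)) * √k) := by ring
    rw [h6] at h3
    have h7 : 2 * (n : ℝ) * (1 / (k * (9 / 10)) * √k) ≤ 2 * n * (786 / 1000) :=
      mul_le_mul_of_nonneg_left h5 (by positivity)
    have h8 : 2 * ((n : ℝ) * (797 / 1000)) ≤ 2 * ((n : ℝ) * √(2 / Real.pi)) :=
      mul_le_mul_of_nonneg_left (mul_le_mul_of_nonneg_left h4 hn0) (by norm_num)
    linarith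

theorem CO9_proj_le {E : Type*} [NormedAddCommGroup E] [InnerProductSpace ℝ E] {e : E}
    (hen : ‖e‖ = 1) (t : ℝ) (z : E) : ‖z - ⟪e, z⟫_ℝ • e‖ ≤ ‖z - t • e‖ := by
  have h1 : ‖z - t • e‖ ^ 2 = ‖z - ⟪e, z⟫_ℝ • e‖ ^ 2 + (⟪e, z⟫_ℝ - t) ^ 2 := by
    rw [@norm_sub_sq_real, @norm_sub_sq_real, real_inner_smul_right, real_inner_smul_right,
      norm_smul, norm_smul, hen, real_inner_comm e z, Real.norm_eq_abs, Real.norm_eq_abs,
      mul_one, mul_one, sq_abs, sq_abs]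
    ring
  refine le_of_sq_le_sq ?_ (norm_nonneg _)
  nlinarith [sq_nonneg (⟪e, z⟫_ℝ - t)]

theorem CO9_axis {E : Type*} [NormedAddCommGroup E] [InnerProductSpace ℝ E] {D : Set E}
    {x0 x1 w : E} {H₁ : ℝ} (hx0 : x0 ∈ D) (hx1 : x1 ∈ D)
    (hdia : ∀ x ∈ D, ∀ y ∈ D, ‖y - x‖ ≤ ‖x1 - x0‖) (hw : ‖w‖ = 1)
    (hlat : ∀ x ∈ D, ∀ y ∈ D, ‖x - y - ⟪w, x - y⟫_ℝ • w‖ ≤ H₁) (hH₁ : 0 < H₁)
    (hℓ2 : 2 * H₁ < ‖x1 - x0‖) :
    ∃ (x0 e : E) (ℓ : ℝ), ‖e‖ = 1 ∧ 0 < ℓ ∧ x0 ∈ D ∧ x0 + ℓ • e ∈ D ∧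
      (∀ x ∈ D, 0 ≤ ⟪e, x - x0⟫_ℝ ∧ ⟪e, x - x0⟫_ℝ ≤ ℓ) ∧
      ∀ x ∈ D, ‖x - x0 - ⟪e, x - x0⟫_ℝ • e‖ ≤ 3 * H₁ := by
  obtain ⟨ℓ, hℓ⟩ : ∃ ℓ, ℓ = ‖x1 - x0‖ := ⟨_, rfl⟩
  rw [← hℓ] at hdia hℓ2
  have hℓ0 : 0 < ℓ := by linarith
  obtain ⟨e, he⟩ : ∃ e, e = (ℓ⁻¹ : ℝ) • (x1 - x0) := ⟨_, rfl⟩
  have hen : ‖e‖ = 1 := by
    rw [he, norm_smul, norm_inv, Real.norm_eq_abs, abs_of_pos hℓ0, ← hℓ,
      inv_mul_cancel₀ hℓ0.ne']
  have hℓe : ℓ • e = x1 - x0 := by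
    rw [he, smul_smul, mul_inv_cancel₀ hℓ0.ne', one_smul]
  refine ⟨x0, e, ℓ, hen, hℓ0, hx0, ?_, ?_, ?_⟩
  · rw [hℓe, add_sub_cancel]; exact hx1
  · intro x hx
    constructor
    · have h1 : x - x0 = (x1 - x0) - (x1 - x) := by abel
      have h2 : ⟪e, x1 - x0⟫_ℝ = ℓ := by
        rw [← hℓe, real_inner_smul_right, real_inner_self_eq_norm_sq, hen]; ring
      rw [h1, inner_sub_right, h2]
      have h3 := real_inner_le_norm e (x1 - x)
      rw [hen, one_mul] at h3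
      have h4 := hdia x hx x1 hx1
      linarith
    · have h3 := real_inner_le_norm e (x - x0)
      rw [hen, one_mul] at h3
      exact h3.trans (hdia x0 hx0 x hx)
  · intro x hx
    obtain ⟨α, hα⟩ : ∃ α, α = ⟪w, x - x0⟫_ℝ := ⟨_, rfl⟩
    obtain ⟨α₁, hα₁⟩ : ∃ α₁, α₁ = ⟪w, x1 - x0⟫_ℝ := ⟨_, rfl⟩
    have hb := hlat x hx x0 hx0
    have hb1 := hlat x1 hx1 x0 hx0
    rw [← hα] at hb
    rw [← hα₁] at hb1
    have hαℓ : |α| ≤ ℓ := by
      have := abs_real_inner_le_norm w (x - x0)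
      rw [hw, one_mul, ← hα] at this
      exact this.trans (hdia x0 hx0 x hx)
    have hα₁ℓ : ℓ / 2 ≤ |α₁| := by
      have h1 : ℓ ≤ ‖x1 - x0 - α₁ • w‖ + ‖α₁ • w‖ := by
        have := norm_add_le (x1 - x0 - α₁ • w) (α₁ • w)
        rw [sub_add_cancel, ← hℓ] at this
        exact this
      rw [norm_smul, hw, mul_one, Real.norm_eq_abs] at h1
      linarith
    have hα₁0 : α₁ ≠ 0 := by
      intro h0
      rw [h0, abs_zero] at hα₁ℓ
      linarith
    have hs : |α / α₁| ≤ 2 := by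
      rw [abs_div, div_le_iff₀ (abs_pos.mpr hα₁0)]
      linarith
    refine (CO9_proj_le hen (α / α₁ * ℓ) _).trans ?_
    have h1 : x - x0 - (α / α₁ * ℓ) • e = (x - x0 - α • w) - (α / α₁) • (x1 - x0 - α₁ • w) := by
      rw [mul_smul, hℓe, smul_sub (α / α₁) (x1 - x0), smul_smul, div_mul_cancel₀ _ hα₁0]
      abel
    rw [h1]
    refine (norm_sub_le _ _).trans ?_
    rw [norm_smul, Real.norm_eq_abs]
    have h2 : |α / α₁| * ‖x1 - x0 - α₁ • w‖ ≤ 2 * H₁ :=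
      mul_le_mul hs hb1 (norm_nonneg _) (by norm_num)
    linarith

theorem CO9_G_le_diam {E : Type*} [NormedAddCommGroup E] [InnerProductSpace ℝ E]
    [FiniteDimensional ℝ E] [MeasurableSpace E] [BorelSpace E] {D : Set E} (hD : Body D)
    {x0 : E} {ℓ : ℝ} (hℓ : 0 ≤ ℓ) (h : ∀ y ∈ D, ‖y - x0‖ ≤ ℓ) :
    2 * G D ≤ 2 * (ℓ * (√(Module.finrank ℝ E) * Zg E)) := by
  have h := CO9_G_le hD (⊥ : Submodule ℝ E) (A := 0) (B := 2 * ℓ) le_rfl
    (by positivity) (fun x => by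
      have h1 : hS D x ≤ ⟪x0, x⟫_ℝ + ℓ * ‖x‖ := hD.hS_le fun y hy => by
        have h2 : ⟪y, x⟫_ℝ = ⟪x0, x⟫_ℝ + ⟪y - x0, x⟫_ℝ := by
          rw [← inner_add_left]; congr 1; abel
        rw [h2]
        have h3 := real_inner_le_norm (y - x0) x
        have h4 := mul_le_mul_of_nonneg_right (h y hy) (norm_nonneg x)
        linarith
      have h1' : hS D (-x) ≤ -⟪x0, x⟫_ℝ + ℓ * ‖x‖ := hD.hS_le fun y hy => by
        have h2 : ⟪y, -x⟫_ℝ = -⟪x0, x⟫_ℝ + ⟪y - x0, -x⟫_ℝ := by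
          rw [← inner_neg_right, ← inner_add_left]; congr 1; abel
        rw [h2]
        have h3 := real_inner_le_norm (y - x0) (-x)
        rw [norm_neg] at h3
        have h4 := mul_le_mul_of_nonneg_right (h y hy) (norm_nonneg x)
        linarith
      linarith)
  linarith

theorem CO9_exists_diam {E : Type*} [NormedAddCommGroup E] [InnerProductSpace ℝ E]
    {D : Set E} (hD : Body D) :
    ∃ x0 ∈ D, ∃ x1 ∈ D, ∀ x ∈ D, ∀ y ∈ D, ‖y - x‖ ≤ ‖x1 - x0‖ := by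
  obtain ⟨z, hz, hmax⟩ := (hD.comp.prod hD.comp).exists_isMaxOn
    (hD.ne.prod hD.ne) (f := fun z : E × E => ‖z.2 - z.1‖)
    (continuous_snd.sub continuous_fst).norm.continuousOn
  refine ⟨z.1, hz.1, z.2, hz.2, fun x hx y hy => ?_⟩
  exact hmax (mk_mem_prod hx hy)

/-- DA10. -/
theorem diam_axis (d : ℕ) (hd : 1 ≤ d) : ∃ (H₂ : ℝ) (N₀ : ℕ), 0 < H₂ ∧ ∀ n ≥ N₀,
    ∀ (D : Set (Eu d)) (c : Fin n → Eu d), Body D → SliceCov D c →
    (n : ℝ) * √(2 / Real.pi) * Zg (Eu d) ≤ G D →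
    ∃ (x0 e : Eu d) (ℓ : ℝ), ‖e‖ = 1 ∧ 0 < ℓ ∧ x0 ∈ D ∧ x0 + ℓ • e ∈ D ∧
      (∀ x ∈ D, 0 ≤ ⟪e, x - x0⟫_ℝ ∧ ⟪e, x - x0⟫_ℝ ≤ ℓ) ∧
      ∀ x ∈ D, ‖x - x0 - ⟪e, x - x0⟫_ℝ • e‖ ≤ H₂ := by
  obtain ⟨H₁, N₁, hH₁, hcoarse⟩ := coarse d hd
  have hd' : (1 : ℝ) ≤ d := by exact_mod_cast hd
  obtain ⟨N₂, hN₂⟩ := exists_nat_gt (2 * H₁ * √d / √(2 / Real.pi))
  refine ⟨3 * H₁, max N₁ N₂, by positivity, ?_⟩
  intro n hn D c hD hc hG
  have hn1 : N₁ ≤ n := (le_max_left _ _).trans hn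
  have hn2 : N₂ ≤ n := (le_max_right _ _).trans hn
  obtain ⟨w, hw, hlat⟩ := hcoarse n hn1 D c hD hc hG
  obtain ⟨x0, hx0, x1, hx1, hdia⟩ := CO9_exists_diam hD
  refine CO9_axis hx0 hx1 hdia hw hlat hH₁ ?_
  have hGl := CO9_G_le_diam hD (norm_nonneg (x1 - x0)) (fun y hy => hdia x0 hx0 y hy)
  have hfin : Module.finrank ℝ (Eu d) = d := by simp
  rw [hfin] at hGl
  have hZ : 0 < Zg (Eu d) := Zg_pos
  have hsd : 0 < √(d : ℝ) := Real.sqrt_pos.mpr (by linarith)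
  have hsp : 0 < √(2 / Real.pi) := Real.sqrt_pos.mpr (by positivity)
  have hℓ1 : (n : ℝ) * √(2 / Real.pi) ≤ ‖x1 - x0‖ * √d := by
    have h1 : (n : ℝ) * √(2 / Real.pi) * Zg (Eu d) ≤ ‖x1 - x0‖ * √d * Zg (Eu d) := by
      linarith
    exact le_of_mul_le_mul_right h1 hZ
  have hn' : 2 * H₁ * √d / √(2 / Real.pi) < n := lt_of_lt_of_le hN₂ (by exact_mod_cast hn2)
  rw [div_lt_iff₀ hsp] at hn'
  have h3 : 2 * H₁ * √d < ‖x1 - x0‖ * √d := lt_of_lt_of_le hn' hℓ1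
  exact lt_of_mul_lt_mul_right h3 hsd.le

end Pool.Agent.Sausage27
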