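import Pool.Agent.Sausage27.CH16

/-!
# Sausage27, package CP19: the numerical cap inequality
-/

namespace Pool.Agent.Sausage27

open MeasureTheory Set Metric Filter Topology
open scoped InnerProductSpace Pointwise

/-- CP19. The numerical cap inequality. -/
theorem cap_numeric {q σ s X Y₁ xt yt tm : ℝ} (hq : 0 ≤ q) (hσ : 2 * |σ| ≤ q) (hs : |s| ≤ 1 / 10)
    (hX : xt ^ 2 + (s + σ * X) ^ 2 ≤ 1) (hY : yt ^ 2 + (s + σ * Y₁) ^ 2 ≤ 1)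
    (hsum : X + Y₁ = 2 * tm + xt - yt) (hΛ : 1 ≤ X - Y₁) :
    (q + σ) * xt + (q - σ) * yt ≤ 2 * q * √(1 - s ^ 2) + q * |σ| * |tm|
      + 2 * |s| * σ ^ 2 * (X - Y₁) - q / 16 * σ ^ 2 * (X - Y₁) ^ 2 := by
  have hs2 : s ^ 2 ≤ 1 / 100 := by
    have := sq_le_sq' (by linarith [abs_nonneg s]) hs
    rw [sq_abs] at this
    linarith
  set Φ : ℝ := √(1 - s ^ 2) with hΦ
  have hΦ2 : Φ ^ 2 = 1 - s ^ 2 := Real.sq_sqrt (by linarith)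
  have hΦ0 : 0 ≤ Φ := Real.sqrt_nonneg _
  have hΦ1 : Φ ≤ 1 := by nlinarith [sq_nonneg s]
  have hΦl : 99 / 100 ≤ Φ := by
    rw [hΦ]; apply Real.le_sqrt_of_sq_le; linarith
  obtain ⟨hσ1, hσ2⟩ := abs_le.1 (show |σ| ≤ q / 2 by linarith)
  have hqp : q / 2 ≤ q + σ := by linarith
  have hqm : q / 2 ≤ q - σ := by linarith
  have h1 : Φ * xt ≤ Φ ^ 2 - s * σ * X - 1 / 2 * σ ^ 2 * X ^ 2 - 1 / 2 * (xt - Φ) ^ 2 := by
    nlinarith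
  have h2 : Φ * yt ≤ Φ ^ 2 - s * σ * Y₁ - 1 / 2 * σ ^ 2 * Y₁ ^ 2 - 1 / 2 * (yt - Φ) ^ 2 := by
    nlinarith
  have h3 := mul_le_mul_of_nonneg_left h1 (show 0 ≤ q + σ by linarith)
  have h4 := mul_le_mul_of_nonneg_left h2 (show 0 ≤ q - σ by linarith)
  have key : ∀ a b : ℝ, q / 4 * (a - b) ^ 2 ≤ (q + σ) * a ^ 2 + (q - σ) * b ^ 2 := by
    intro a b
    have e1 := mul_le_mul_of_nonneg_right hqp (sq_nonneg a)
    have e2 := mul_le_mul_of_nonneg_right hqm (sq_nonneg b)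
    have e3 : 0 ≤ q / 4 * (a + b) ^ 2 := by positivity
    linarith
  have h5 := mul_le_mul_of_nonneg_left (key X Y₁) (show 0 ≤ 1 / 2 * σ ^ 2 by positivity)
  have h6 := key (xt - Φ) (yt - Φ)
  have h7 : 0 ≤ q / 8 * (xt - yt + 4 * (s * σ)) ^ 2 := by positivity
  have h8 : -(2 * (s * σ) * q * tm) ≤ 2 * (|s| * |σ|) * q * |tm| := by
    have : -((s * σ) * tm) ≤ |s| * |σ| * |tm| := by
      rw [← abs_mul, ← abs_mul]; exact neg_le_abs _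
    have := mul_le_mul_of_nonneg_left this (show 0 ≤ 2 * q by linarith)
    linarith
  have h9 : -(s * σ ^ 2 * (X - Y₁)) ≤ |s| * σ ^ 2 * (X - Y₁) := by
    have h : 0 ≤ σ ^ 2 * (X - Y₁) := mul_nonneg (sq_nonneg _) (by linarith)
    have := mul_le_mul_of_nonneg_right (neg_le_abs s) h
    linarith
  have hsX : (q + σ) * X + (q - σ) * Y₁ = q * (2 * tm + xt - yt) + σ * (X - Y₁) := by
    rw [← hsum]; ring
  have hmain : Φ * ((q + σ) * xt + (q - σ) * yt) ≤ 2 * q * Φ ^ 2 + 2 * (|s| * |σ|) * q * |tm|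
      + |s| * σ ^ 2 * (X - Y₁) + 2 * q * s ^ 2 * σ ^ 2 - q / 8 * σ ^ 2 * (X - Y₁) ^ 2 := by
    have hc : Φ * ((q + σ) * xt + (q - σ) * yt) ≤ 2 * q * Φ ^ 2
        - s * σ * ((q + σ) * X + (q - σ) * Y₁)
        - 1 / 2 * σ ^ 2 * (q / 4 * (X - Y₁) ^ 2)
        - 1 / 2 * (q / 4 * (xt - Φ - (yt - Φ)) ^ 2) := by
      linarith
    rw [hsX] at hc
    linarith
  have h10 : 2 * (|s| * |σ|) * q * |tm| ≤ Φ * (q * |σ| * |tm|) := by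
    have h : 0 ≤ q * |σ| * |tm| := by positivity
    have h' : 2 * |s| ≤ Φ := by linarith
    linarith [mul_le_mul_of_nonneg_right h' h]
  have h11 : |s| * σ ^ 2 * (X - Y₁) ≤ Φ * (2 * |s| * σ ^ 2 * (X - Y₁)) := by
    have h : 0 ≤ |s| * σ ^ 2 * (X - Y₁) :=
      mul_nonneg (by positivity) (by linarith)
    have h' : 1 ≤ 2 * Φ := by linarith
    linarith [mul_le_mul_of_nonneg_right h' h]
  have h12 : 2 * q * s ^ 2 * σ ^ 2 - q / 8 * σ ^ 2 * (X - Y₁) ^ 2 ≤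
      -(Φ * (q / 16 * σ ^ 2 * (X - Y₁) ^ 2)) := by
    have ha : 0 ≤ q * σ ^ 2 := by positivity
    have hb : 1 ≤ (X - Y₁) ^ 2 := one_le_pow₀ hΛ
    have hc : 0 ≤ q / 16 * σ ^ 2 * (X - Y₁) ^ 2 := by positivity
    have hd : Φ * (q / 16 * σ ^ 2 * (X - Y₁) ^ 2) ≤ q / 16 * σ ^ 2 * (X - Y₁) ^ 2 :=
      mul_le_of_le_one_left hc hΦ1
    have he : 2 * q * s ^ 2 * σ ^ 2 ≤ q / 16 * σ ^ 2 * (X - Y₁) ^ 2 := by
      have : 2 * s ^ 2 ≤ 1 / 16 * (X - Y₁) ^ 2 := by linarith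
      linarith [mul_le_mul_of_nonneg_left this ha]
    linarith
  have hfin : Φ * ((q + σ) * xt + (q - σ) * yt) ≤ Φ * (2 * q * Φ + q * |σ| * |tm|
      + 2 * |s| * σ ^ 2 * (X - Y₁) - q / 16 * σ ^ 2 * (X - Y₁) ^ 2) := by
    linarith
  exact le_of_mul_le_mul_left hfin (by linarith)

section general

variable {E : Type*} [NormedAddCommGroup E] [InnerProductSpace ℝ E]

/-- Bessel's inequality for two orthonormal vectors. -/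
theorem CP19_bessel {e θ : E} (he : ‖e‖ = 1) (hθ : ‖θ‖ = 1) (hθe : ⟪e, θ⟫_ℝ = 0) (v : E) :
    ⟪e, v⟫_ℝ ^ 2 + ⟪θ, v⟫_ℝ ^ 2 ≤ ‖v‖ ^ 2 := by
  have hee : ⟪e, e⟫_ℝ = 1 := by rw [real_inner_self_eq_norm_sq, he]; norm_num
  have htt : ⟪θ, θ⟫_ℝ = 1 := by rw [real_inner_self_eq_norm_sq, hθ]; norm_num
  have hte : ⟪θ, e⟫_ℝ = 0 := by rw [real_inner_comm]; exact hθe
  have h0 : 0 ≤ ⟪v - ⟪e, v⟫_ℝ • e - ⟪θ, v⟫_ℝ • θ, v - ⟪e, v⟫_ℝ • e - ⟪θ, v⟫_ℝ • θ⟫_ℝ :=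
    real_inner_self_nonneg
  have h1 : ⟪v - ⟪e, v⟫_ℝ • e - ⟪θ, v⟫_ℝ • θ, v - ⟪e, v⟫_ℝ • e - ⟪θ, v⟫_ℝ • θ⟫_ℝ =
      ‖v‖ ^ 2 - ⟪e, v⟫_ℝ ^ 2 - ⟪θ, v⟫_ℝ ^ 2 := by
    simp only [inner_sub_left, inner_sub_right, real_inner_smul_left, real_inner_smul_right,
      hee, htt, hte, hθe, real_inner_comm e v, real_inner_comm θ v]
    rw [real_inner_self_eq_norm_sq v]
    ring
  linarith

/-- A lateral component in the direction `θ` orthogonal to `e`. -/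
theorem CP19_abs_lat {e θ : E} (hθ : ‖θ‖ = 1) (hθe : ⟪e, θ⟫_ℝ = 0) (v : E) (t : ℝ) :
    |⟪θ, v⟫_ℝ| ≤ ‖v - t • e‖ := by
  have hte : ⟪θ, e⟫_ℝ = 0 := by rw [real_inner_comm]; exact hθe
  have h1 : ⟪θ, v - t • e⟫_ℝ = ⟪θ, v⟫_ℝ := by
    rw [inner_sub_right, real_inner_smul_right, hte]; ring
  have h2 := abs_real_inner_le_norm θ (v - t • e)
  rw [h1, hθ, one_mul] at h2
  exact h2

/-- PR20. Bound for a pair of points in the two caps. -/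
theorem Chain.pair {δ : ℝ} {N : ℕ} {D : Set E} {c : ℕ → E} {e : E} (hD : Body D)
    (h : Chain δ N D c e) (hδ : 0 < δ) (hδ1 : δ ≤ 1 / 100) (hN : 100 ≤ N) (hc : Centred c N)
    {θ : E} (hθ : ‖θ‖ = 1) (hθe : ⟪e, θ⟫_ℝ = 0) {x y : E} (hx : x ∈ D) (hy : y ∈ D)
    (hx' : -(1 / 2) ≤ ⟪e, x - c N⟫_ℝ) (hy' : ⟪e, y - c 0⟫_ℝ ≤ 1 / 2) {σ κ : ℝ}
    (hxκ : ⟪θ, x⟫_ℝ - σ * ⟪e, x⟫_ℝ = κ) (hyκ : ⟪θ, y⟫_ℝ - σ * ⟪e, y⟫_ℝ = κ) :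
    |σ| ≤ 2 * δ / N ∧ 1.9 * N ≤ ⟪e, x⟫_ℝ - ⟪e, y⟫_ℝ ∧ ⟪e, x⟫_ℝ - ⟪e, y⟫_ℝ ≤ 2.1 * N ∧
    |κ| ≤ 4 * δ ∧ |⟪e, x⟫_ℝ| ≤ 1.1 * N ∧ |⟪e, y⟫_ℝ| ≤ 1.1 * N ∧
    ⟪e, x⟫_ℝ - ⟪e, y⟫_ℝ ≤ ‖c N - c 0‖ + 2 ∧
    ∀ q : ℝ, 0 ≤ q → 2 * |σ| ≤ q →
      q * (⟪e, x⟫_ℝ - ⟪e, y⟫_ℝ) + ⟪θ, x⟫_ℝ + ⟪θ, y⟫_ℝ ≤
        q * ‖c N - c 0‖ + 2 * (q * √(1 - (κ - ⟪θ, c 0⟫_ℝ) ^ 2) + κ) + (2 + q) * |σ| * bd c N
          + 10 * δ * σ ^ 2 * (⟪e, x⟫_ℝ - ⟪e, y⟫_ℝ)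
          - q / 16 * σ ^ 2 * (⟪e, x⟫_ℝ - ⟪e, y⟫_ℝ) ^ 2 := by
  have he := h.norm_e
  have hee : ⟪e, e⟫_ℝ = 1 := by rw [real_inner_self_eq_norm_sq, he]; norm_num
  have hte : ⟪θ, e⟫_ℝ = 0 := by rw [real_inner_comm]; exact hθe
  obtain ⟨-, -, -, hY1, hA, hbd0, hbd1, -, -, -⟩ := h.basic hδ hδ1 hN
  obtain ⟨htm, hlat0, hlat⟩ := h.centred hδ hδ1 hN hc
  have hNr : (100 : ℝ) ≤ N := by exact_mod_cast hN
  have hδ2 : δ ^ 2 ≤ 1 / 10000 := by nlinarith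
  set Y : ℝ := ‖c N - c 0‖ with hYdef
  have hY2 : Y ≤ 2 * N := by
    have : bd c N = bA c N - Y := rfl
    linarith
  have hY3 : 1.9995 * (N : ℝ) ≤ Y := by nlinarith
  -- coordinates
  have hτ : ⟪e, c N⟫_ℝ = ⟪e, c 0⟫_ℝ + Y := by
    have h1 : ⟪e, c N - c 0⟫_ℝ = Y := by
      rw [h.axis, real_inner_smul_right, hee, mul_one]
    rw [inner_sub_right] at h1
    linarith
  have hz : ⟪θ, c N⟫_ℝ = ⟪θ, c 0⟫_ℝ := by
    have h1 : ⟪θ, c N - c 0⟫_ℝ = 0 := by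
      rw [h.axis, real_inner_smul_right, hte, mul_zero]
    rw [inner_sub_right] at h1
    linarith
  set X : ℝ := ⟪e, x⟫_ℝ with hX
  set Y₁ : ℝ := ⟪e, y⟫_ℝ with hY₁
  set z : ℝ := ⟪θ, c 0⟫_ℝ with hzdef
  set τ : ℝ := ⟪e, c 0⟫_ℝ with hτdef
  have hxn := h.right x hx hx'
  have hyn := h.left y hy hy'
  have hbx := (CP19_bessel he hθ hθe (x - c N)).trans (pow_le_one₀ (norm_nonneg _) hxn)
  have hby := (CP19_bessel he hθ hθe (y - c 0)).trans (pow_le_one₀ (norm_nonneg _) hyn)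
  have hex : ⟪e, x - c N⟫_ℝ = X - τ - Y := by rw [inner_sub_right, hτ]; ring
  have hey : ⟪e, y - c 0⟫_ℝ = Y₁ - τ := by rw [inner_sub_right]
  have htx : ⟪θ, x - c N⟫_ℝ = (κ - z) + σ * X := by rw [inner_sub_right, hz]; linarith
  have hty : ⟪θ, y - c 0⟫_ℝ = (κ - z) + σ * Y₁ := by rw [inner_sub_right]; linarith
  rw [hex, htx] at hbx
  rw [hey, hty] at hby
  rw [hex] at hx'
  rw [hey] at hy'
  set xt : ℝ := X - τ - Y with hxt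
  have hxt1 : xt ≤ 1 := by
    have h1 : xt ^ 2 ≤ 1 := by linarith [sq_nonneg ((κ - z) + σ * X)]
    exact (abs_le_one_iff_mul_self_le_one.2 (by rw [← sq]; exact h1) |> abs_le.1).2
  set yt : ℝ := τ - Y₁ with hyt
  have hby' : yt ^ 2 + ((κ - z) + σ * Y₁) ^ 2 ≤ 1 := by
    have : yt ^ 2 = (Y₁ - τ) ^ 2 := by rw [hyt]; ring
    rw [this]; exact hby
  have hyt1 : yt ≤ 1 := by
    have h1 : yt ^ 2 ≤ 1 := by linarith [sq_nonneg ((κ - z) + σ * Y₁)]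
    exact (abs_le_one_iff_mul_self_le_one.2 (by rw [← sq]; exact h1) |> abs_le.1).2
  have hyt0 : -(1 / 2) ≤ yt := by rw [hyt]; linarith
  have hΛ : X - Y₁ = Y + xt + yt := by rw [hxt, hyt]; ring
  have hΛ1 : 1.98 * (N : ℝ) ≤ X - Y₁ := by rw [hΛ]; linarith
  have hΛ2 : X - Y₁ ≤ 2.02 * N := by rw [hΛ]; linarith
  -- the lateral components
  have hlx : |⟪θ, x⟫_ℝ - z| ≤ δ := by
    have h1 := (CP19_abs_lat hθ hθe (x - c 0) ⟪e, x - c 0⟫_ℝ).trans (h.lat x hx)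
    rwa [inner_sub_right θ x] at h1
  have hly : |⟪θ, y⟫_ℝ - z| ≤ δ := by
    have h1 := (CP19_abs_lat hθ hθe (y - c 0) ⟪e, y - c 0⟫_ℝ).trans (h.lat y hy)
    rwa [inner_sub_right θ y] at h1
  have hzl : |z| ≤ δ := (CP19_abs_lat hθ hθe (c 0) τ).trans hlat0
  have hxl : |⟪θ, x⟫_ℝ| ≤ 2 * δ := (CP19_abs_lat hθ hθe x X).trans (hlat x hx)
  obtain ⟨hlx1, hlx2⟩ := abs_le.1 hlx
  obtain ⟨hly1, hly2⟩ := abs_le.1 hly
  obtain ⟨hz1, hz2⟩ := abs_le.1 hzl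
  obtain ⟨hx1, hx2⟩ := abs_le.1 hxl
  obtain ⟨ht1, ht2⟩ := abs_le.1 htm
  rw [hτ] at ht1 ht2
  have hσΛ : σ * (X - Y₁) = ⟪θ, x⟫_ℝ - ⟪θ, y⟫_ℝ := by linarith
  have hσΛ' : |σ| * (X - Y₁) ≤ 2 * δ := by
    have h1 : |σ| * (X - Y₁) = |σ * (X - Y₁)| := by
      rw [abs_mul, abs_of_nonneg (show 0 ≤ X - Y₁ by linarith)]
    rw [h1, hσΛ, abs_le]
    constructor <;> linarith
  have hσ0 := abs_nonneg σ
  have hσN : |σ| * (1.98 * N) ≤ 2 * δ :=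
    (mul_le_mul_of_nonneg_left hΛ1 hσ0).trans hσΛ'
  have hNδ : 3 * δ ^ 2 * N ≤ 3 / 10000 * N := by
    have := mul_le_mul_of_nonneg_right hδ2 (show (0 : ℝ) ≤ N by linarith)
    linarith
  have hX1 : |X| ≤ 1.02 * N := by
    rw [abs_le]; constructor <;> linarith
  have hY₁1 : |Y₁| ≤ 1.02 * N := by
    rw [abs_le]; constructor <;> linarith
  have hκ : |κ| ≤ 4 * δ := by
    have h1 : |σ * X| ≤ 1.04 * δ := by
      rw [abs_mul]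
      have := mul_le_mul_of_nonneg_left hX1 hσ0
      linarith
    obtain ⟨h2, h3⟩ := abs_le.1 h1
    rw [abs_le]; constructor <;> linarith
  obtain ⟨hκ1, hκ2⟩ := abs_le.1 hκ
  have hs : |κ - z| ≤ 5 * δ := by
    rw [abs_le]; constructor <;> linarith
  have hN0 : (0 : ℝ) < N := by linarith
  refine ⟨?_, by linarith, by linarith, hκ, by linarith, by linarith, by linarith, ?_⟩
  · rw [le_div_iff₀ hN0]
    have := mul_nonneg hσ0 hN0.le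
    linarith
  · intro q hq hσq
    have hcap := cap_numeric (xt := xt) (yt := yt) (tm := (τ + (τ + Y)) / 2) hq hσq
      (hs.trans (by linarith)) hbx hby' (by rw [hxt, hyt]; ring)
      (show 1 ≤ X - Y₁ by linarith)
    rw [hτ] at htm
    have h1 : σ * ((τ + (τ + Y)) / 2) ≤ |σ| * bd c N :=
      (le_abs_self _).trans (by
        rw [abs_mul]; exact mul_le_mul_of_nonneg_left htm hσ0)
    have h2 : q * |σ| * |(τ + (τ + Y)) / 2| ≤ q * |σ| * bd c N :=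
      mul_le_mul_of_nonneg_left htm (mul_nonneg hq hσ0)
    have h3 : 2 * |κ - z| * σ ^ 2 * (X - Y₁) ≤ 10 * δ * σ ^ 2 * (X - Y₁) := by
      have h4 : 0 ≤ σ ^ 2 * (X - Y₁) := mul_nonneg (sq_nonneg _) (by linarith)
      have := mul_le_mul_of_nonneg_right hs h4
      linarith
    have hid : q * (X - Y₁) + ⟪θ, x⟫_ℝ + ⟪θ, y⟫_ℝ =
        q * Y + 2 * κ + 2 * (σ * ((τ + (τ + Y)) / 2)) + ((q + σ) * xt + (q - σ) * yt) := by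
      have h5 : ⟪θ, x⟫_ℝ = κ + σ * X := by linarith
      have h6 : ⟪θ, y⟫_ℝ = κ + σ * Y₁ := by linarith
      rw [h5, h6, hxt, hyt]; ring
    rw [hid]
    linarith

end general

end Pool.Agent.Sausage27
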