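import Pool.Agent.Sausage27.Basic

/-!
# Chains of balls: definitions
-/

namespace Pool.Agent.Sausage27

open MeasureTheory Set Metric Filter Topology
open scoped InnerProductSpace Pointwise

section general

variable {E : Type*} [NormedAddCommGroup E] [InnerProductSpace ℝ E]

/-- Situation relative to the old axis (the diameter line of `D`); balls `c 0, ..., c N`. -/
structure OldAx (η : ℝ) (N : ℕ) (D : Set E) (c : ℕ → E) (x0 e : E) (ℓ : ℝ) : Prop where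
  norm_e : ‖e‖ = 1
  x0_mem : x0 ∈ D
  x1_mem : x0 + ℓ • e ∈ D
  slab : ∀ x ∈ D, 0 ≤ ⟪e, x - x0⟫_ℝ ∧ ⟪e, x - x0⟫_ℝ ≤ ℓ
  lat : ∀ x ∈ D, ‖x - x0 - ⟪e, x - x0⟫_ℝ • e‖ ≤ η
  len : 2 * ((N : ℝ) + 1) - η ≤ ℓ
  len' : ℓ ≤ 2 * ((N : ℝ) + 1)
  pos : ∀ j ≤ N, 2 * (j : ℝ) + 1 - η ≤ ⟪e, c j - x0⟫_ℝ ∧ ⟪e, c j - x0⟫_ℝ ≤ 2 * (j : ℝ) + 1
  cov : ∀ (u : E) (t : ℝ), u ≠ 0 →
    (D ∩ {x | ⟪u, x⟫_ℝ = t}).extremePoints ℝ ⊆ ⋃ j ∈ {j : ℕ | j ≤ N}, closedBall (c j) 1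

/-- A chain: balls `c 0, ..., c N` in nearly aligned position along the unit vector `e`, which is
the direction of `c N - c 0`; `δ` is small. -/
structure Chain (δ : ℝ) (N : ℕ) (D : Set E) (c : ℕ → E) (e : E) : Prop where
  norm_e : ‖e‖ = 1
  axis : c N - c 0 = ‖c N - c 0‖ • e
  a_le : ∀ j < N, ‖c (j + 1) - c j‖ ≤ 2
  rho_le : ∀ j < N, 1 - ‖c (j + 1) - c j‖ ^ 2 / 4 ≤ δ ^ 2
  mono : ∀ j < N, 0 ≤ ⟪e, c (j + 1) - c j⟫_ℝ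
  slice : ∀ j < N, ∀ x ∈ D,
    ⟪c (j + 1) - c j, x - midpoint ℝ (c j) (c (j + 1))⟫_ℝ = 0 →
      ‖x - midpoint ℝ (c j) (c (j + 1))‖ ^ 2 ≤ 1 - ‖c (j + 1) - c j‖ ^ 2 / 4
  right : ∀ x ∈ D, -(1 / 2) ≤ ⟪e, x - c N⟫_ℝ → ‖x - c N‖ ≤ 1
  left : ∀ x ∈ D, ⟪e, x - c 0⟫_ℝ ≤ 1 / 2 → ‖x - c 0‖ ≤ 1
  lat : ∀ x ∈ D, ‖x - c 0 - ⟪e, x - c 0⟫_ℝ • e‖ ≤ δ
  latc : ∀ j ≤ N, ‖c j - c 0 - ⟪e, c j - c 0⟫_ℝ • e‖ ≤ δ
  right_pt : ∃ x ∈ D, 3 / 4 ≤ ⟪e, x - c N⟫_ℝ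
  left_pt : ∃ x ∈ D, ⟪e, x - c 0⟫_ℝ ≤ -(3 / 4)

/-! ### Quantities of a chain -/

/-- total length of the chain of centres -/
noncomputable def bA (c : ℕ → E) (N : ℕ) : ℝ := ∑ j ∈ Finset.range N, ‖c (j + 1) - c j‖

/-- bending defect -/
noncomputable def bd (c : ℕ → E) (N : ℕ) : ℝ := bA c N - ‖c N - c 0‖

/-- the notch radii -/
noncomputable def rho (c : ℕ → E) (j : ℕ) : ℝ := √(1 - ‖c (j + 1) - c j‖ ^ 2 / 4)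

/-- the notch radius for the mean spacing -/
noncomputable def rhob (c : ℕ → E) (N : ℕ) : ℝ := √(1 - (bA c N / N) ^ 2 / 4)

/-- weighted mean of the notch radii -/
noncomputable def rhoW (c : ℕ → E) (N : ℕ) : ℝ :=
  (∑ j ∈ Finset.range N, ‖c (j + 1) - c j‖ * rho c j) / bA c N

/-- weighted variance of the notch radii -/
noncomputable def vr (c : ℕ → E) (N : ℕ) : ℝ :=
  (∑ j ∈ Finset.range N, ‖c (j + 1) - c j‖ * (rho c j - rhoW c N) ^ 2) / bA c N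

/-- the weighted centroid of the midpoints is the origin -/
def Centred (c : ℕ → E) (N : ℕ) : Prop :=
  ∑ j ∈ Finset.range N, ‖c (j + 1) - c j‖ • (c j + c (j + 1)) = 0

/-- The sum of the four support values. -/
noncomputable def S4 (D : Set E) (e θ : E) (q : ℝ) : ℝ :=
  hS D (q • e + θ) + hS D (-(q • e) + θ) + hS D (q • e - θ) + hS D (-(q • e) - θ)

/-- The sausage with axis `e`: half-length `L` (of the segment of centres), radius `ρ`. -/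
def Kset (e : E) (L ρ : ℝ) : Set E :=
  {x | ‖x - ⟪e, x⟫_ℝ • e‖ ≤ ρ ∧ |⟪e, x⟫_ℝ| ≤ L + √(1 - ‖x - ⟪e, x⟫_ℝ • e‖ ^ 2)}

end general

/-- The weight `(1+q²)^(-(d+1)/2)`. -/
noncomputable def wt (d : ℕ) (q : ℝ) : ℝ := (1 + q ^ 2) ^ (-((d : ℝ) + 1) / 2)

end Pool.Agent.Sausage27
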