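import Pool.Agent.Sausage27.ChainDefs

/-!
# Sausage27 DB21: real inequalities
-/

namespace Pool.Agent.Sausage27

open MeasureTheory Set Metric Filter Topology
open scoped InnerProductSpace Pointwise

lemma DB21_sqrt_concave {t t' : ℝ} (ht : |t| ≤ 1) (ht' : |t'| ≤ 1) :
    √(1 - t ^ 2) + √(1 - t' ^ 2) ≤ 2 * √(1 - ((t + t') / 2) ^ 2) := by
  have h1 : t ^ 2 ≤ 1 := by rw [← sq_abs]; nlinarith [abs_nonneg t]
  have h2 : t' ^ 2 ≤ 1 := by rw [← sq_abs]; nlinarith [abs_nonneg t']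
  have h3 : ((t + t') / 2) ^ 2 ≤ 1 := by nlinarith [sq_nonneg (t - t')]
  set a := √(1 - t ^ 2)
  set b := √(1 - t' ^ 2)
  set c := √(1 - ((t + t') / 2) ^ 2)
  have ha : a ^ 2 = 1 - t ^ 2 := Real.sq_sqrt (by linarith)
  have hb : b ^ 2 = 1 - t' ^ 2 := Real.sq_sqrt (by linarith)
  have hc : c ^ 2 = 1 - ((t + t') / 2) ^ 2 := Real.sq_sqrt (by linarith)
  have ha0 : 0 ≤ a := Real.sqrt_nonneg _
  have hb0 : 0 ≤ b := Real.sqrt_nonneg _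
  have hc0 : 0 ≤ c := Real.sqrt_nonneg _
  have h4 : (a + b) ^ 2 ≤ (2 * c) ^ 2 := by
    nlinarith [sq_nonneg (a - b), sq_nonneg (t - t')]
  exact abs_le_of_sq_le_sq' h4 (by positivity) |>.2

lemma DB21_sqrt_mono {s t : ℝ} (hs : 0 ≤ s) (hst : s ≤ t) : √(1 - t ^ 2) ≤ √(1 - s ^ 2) :=
  Real.sqrt_le_sqrt (by nlinarith)

/-- For `q ≤ 2`: `Ψ(κ) ≤ Ψ(ρ) - G/2 + ε`. -/
lemma DB21_psi {q κ ρ G ε : ℝ} (hq : 0 ≤ q) (hq2 : q ≤ 2) (hκ : |κ| ≤ 1 / 25) (hρ : 0 ≤ ρ)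
    (hρ1 : ρ ≤ 3 / 200) (hG : 0 ≤ G) (hε : 0 ≤ ε) (h : κ ≤ ρ - G + ε) :
    q * √(1 - κ ^ 2) + κ ≤ q * √(1 - ρ ^ 2) + ρ - G / 2 + ε := by
  obtain ⟨hκ1, hκ2⟩ := abs_le.mp hκ
  rcases le_or_gt ρ κ with hc | hc
  · have h1 := mul_le_mul_of_nonneg_left (DB21_sqrt_mono hρ hc) hq
    linarith
  · set a := √(1 - κ ^ 2)
    set b := √(1 - ρ ^ 2)
    have ha : a ^ 2 = 1 - κ ^ 2 := Real.sq_sqrt (by nlinarith)
    have hb : b ^ 2 = 1 - ρ ^ 2 := Real.sq_sqrt (by nlinarith)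
    have ha0 : 0 ≤ a := Real.sqrt_nonneg _
    have hb0 : 0 ≤ b := Real.sqrt_nonneg _
    have ha1 : 95 / 100 ≤ a := by
      by_contra hh
      push Not at hh
      nlinarith
    have hb1 : 95 / 100 ≤ b := by
      by_contra hh
      push Not at hh
      nlinarith
    -- (a - b) (a + b) = ρ² - κ²
    have h1 : (a - b) * (a + b) = (ρ - κ) * (ρ + κ) := by nlinarith
    have h2 : a - b ≤ (ρ - κ) * (3 / 100) := by
      by_contra hh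
      push Not at hh
      have h3 : 0 < ρ - κ := by linarith
      have h4 : (ρ - κ) * (3 / 100) * (a + b) < (a - b) * (a + b) :=
        mul_lt_mul_of_pos_right hh (by linarith)
      have h5 : (ρ - κ) * (ρ + κ) ≤ (ρ - κ) * (55 / 1000) :=
        mul_le_mul_of_nonneg_left (by linarith) h3.le
      have h6 : (ρ - κ) * (3 / 100) * (19 / 10) ≤ (ρ - κ) * (3 / 100) * (a + b) :=
        mul_le_mul_of_nonneg_left (by linarith) (by positivity)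
      linarith
    have h3 : q * (a - b) ≤ 2 * ((ρ - κ) * (3 / 100)) := by
      have h4 : 0 ≤ (ρ - κ) * (3 / 100) := by
        have : 0 < ρ - κ := by linarith
        positivity
      calc q * (a - b) ≤ q * ((ρ - κ) * (3 / 100)) := mul_le_mul_of_nonneg_left h2 hq
        _ ≤ 2 * ((ρ - κ) * (3 / 100)) := mul_le_mul_of_nonneg_right hq2 h4
    nlinarith

/-- For all `q`: clamping. -/
lemma DB21_clamp {q κ ρ ε : ℝ} (hq : 0 ≤ q) (hρ : 0 ≤ ρ) (hε : 0 ≤ ε) (h : κ ≤ ρ + ε) :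
    ∃ k, 0 ≤ k ∧ k ≤ ρ ∧ q * √(1 - κ ^ 2) + κ ≤ q * √(1 - k ^ 2) + k + ε := by
  rcases le_or_gt κ 0 with h0 | h0
  · refine ⟨0, le_refl _, hρ, ?_⟩
    have h1 : √(1 - κ ^ 2) ≤ √(1 - (0 : ℝ) ^ 2) := Real.sqrt_le_sqrt (by nlinarith)
    have h2 := mul_le_mul_of_nonneg_left h1 hq
    linarith
  · rcases le_or_gt κ ρ with h1 | h1
    · exact ⟨κ, h0.le, h1, by linarith⟩
    · refine ⟨ρ, hρ, le_refl _, ?_⟩
      have h2 := mul_le_mul_of_nonneg_left (DB21_sqrt_mono hρ h1.le) hq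
      linarith

lemma DB21_terms {q δ N : ℝ} (hq : 0 ≤ q) (hδ : 0 < δ) (hN : 0 < N) (s L : ℝ)
    (h1 : 1.9 * N ≤ L) (h2 : L ≤ 2.1 * N) :
    10 * δ * s ^ 2 * L ≤ 21 * (δ * N * s ^ 2) ∧ q * (22 / 100) * (N ^ 2 * s ^ 2) ≤
      q / 16 * s ^ 2 * L ^ 2 := by
  constructor
  · have h3 : 0 ≤ 10 * δ * s ^ 2 := by positivity
    have h4 := mul_le_mul_of_nonneg_left h2 h3
    have h5 : 10 * δ * s ^ 2 * (2.1 * N) = 21 * (δ * N * s ^ 2) := by ring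
    linarith
  · have h3 : 361 / 100 * N ^ 2 ≤ L ^ 2 := by nlinarith
    have h4 : 0 ≤ q / 16 * s ^ 2 := by positivity
    have h5 := mul_le_mul_of_nonneg_left h3 h4
    have h6 : 0 ≤ q * (N ^ 2 * s ^ 2) := by positivity
    have h7 : q / 16 * s ^ 2 * (361 / 100 * N ^ 2) = 361 / 1600 * (q * (N ^ 2 * s ^ 2)) := by ring
    have h8 : q * (22 / 100) * (N ^ 2 * s ^ 2) = 22 / 100 * (q * (N ^ 2 * s ^ 2)) := by ring
    linarith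

lemma DB21_terms' {δ N : ℝ} (hδ1 : δ ≤ 1 / 100) (hN : 100 ≤ N) (s : ℝ) :
    δ * N * s ^ 2 ≤ 1 / 10000 * (N ^ 2 * s ^ 2) := by
  have h0 : (0 : ℝ) ≤ N := by linarith
  have h1 : δ * N ≤ 1 / 100 * N := mul_le_mul_of_nonneg_right hδ1 h0
  have h2 : 1 / 100 * N ≤ 1 / 10000 * N ^ 2 := by nlinarith
  have h3 := mul_le_mul_of_nonneg_right (h1.trans h2) (sq_nonneg s)
  linarith

/-- DB21. Numerical consequences at a given `q`. -/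
theorem delta_bounds {q δ N bd vr A Y ρb z σ κ E₁ Λ S σ' κ' E₂ Λ' S' B : ℝ} (hq : 0 ≤ q)
    (hδ : 0 < δ) (hδ1 : δ ≤ 1 / 100) (hN : 100 ≤ N) (hbd : 0 ≤ bd) (hvr : 0 ≤ vr)
    (hAY : A - Y = bd) (hρ0 : 0 ≤ ρb) (hρ1 : ρb ≤ 3 / 2 * δ) (hz : |z| ≤ δ)
    (hκ : |κ| ≤ 4 * δ) (hκ' : |κ'| ≤ 4 * δ) (hσ : |σ| ≤ 2 * δ / N) (hσ' : |σ'| ≤ 2 * δ / N)
    (hΛ1 : 1.9 * N ≤ Λ) (hΛ2 : Λ ≤ 2.1 * N) (hΛ1' : 1.9 * N ≤ Λ') (hΛ2' : Λ' ≤ 2.1 * N)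
    (hE₁ : 0 ≤ E₁) (hE₂ : 0 ≤ E₂)
    (hK : κ + E₁ / 16 ≤ ρb - vr / 4 + δ / N * bd) (hK' : κ' + E₂ / 16 ≤ ρb - vr / 4 + δ / N * bd)
    (hS : S ≤ q * Y + 2 * (q * √(1 - (κ - z) ^ 2) + κ) + (2 + q) * |σ| * bd
      + 10 * δ * σ ^ 2 * Λ - q / 16 * σ ^ 2 * Λ ^ 2)
    (hS' : S' ≤ q * Y + 2 * (q * √(1 - (κ' + z) ^ 2) + κ') + (2 + q) * |σ'| * bd
      + 10 * δ * σ' ^ 2 * Λ' - q / 16 * σ' ^ 2 * Λ' ^ 2)
    (hB : ∀ k, 0 ≤ k → k ≤ ρb → 2 * q * A + 4 * (q * √(1 - k ^ 2) + k) ≤ B) :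
    (1 ≤ q → q ≤ 2 → bd + vr / 2 + (E₁ + E₂) / 16 + N ^ 2 / 10 * (σ ^ 2 + σ' ^ 2) ≤
      B - (S + S')) ∧
    (q ≤ 2 → -(20 * δ / N * bd) - 22 * δ * N * (σ ^ 2 + σ' ^ 2) ≤ B - (S + S')) ∧
    (1 ≤ q → 0 ≤ B - (S + S')) := by
  obtain ⟨hz1, hz2⟩ := abs_le.mp hz
  obtain ⟨hκ1, hκ2⟩ := abs_le.mp hκ
  obtain ⟨hκ'1, hκ'2⟩ := abs_le.mp hκ'
  have hN0 : 0 < N := by linarith
  -- the number `ε = δ / N * bd`
  obtain ⟨r, hr⟩ : ∃ r, r = δ / N := ⟨_, rfl⟩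
  have hr0 : 0 ≤ r := by rw [hr]; positivity
  have hr1 : r ≤ 1 / 10000 := by
    rw [hr, div_le_div_iff₀ hN0 (by norm_num)]
    linarith
  have hσr : |σ| ≤ 2 * r := by rw [hr]; rw [mul_div_assoc] at hσ; exact hσ
  have hσr' : |σ'| ≤ 2 * r := by rw [hr]; rw [mul_div_assoc] at hσ'; exact hσ'
  have h20 : 20 * δ / N * bd = 20 * (r * bd) := by rw [hr]; ring
  rw [← hr] at hK hK'
  have hε : 0 ≤ r * bd := mul_nonneg hr0 hbd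
  have hεb : r * bd ≤ 1 / 10000 * bd := mul_le_mul_of_nonneg_right hr1 hbd
  -- concavity
  have hconc := DB21_sqrt_concave (t := κ - z) (t' := κ' + z)
    (by rw [abs_le]; constructor <;> linarith) (by rw [abs_le]; constructor <;> linarith)
  have hmid : (κ - z + (κ' + z)) / 2 = (κ + κ') / 2 := by ring
  rw [hmid] at hconc
  have hconc' := mul_le_mul_of_nonneg_left hconc hq
  obtain ⟨P, hP⟩ : ∃ P, P = √(1 - ((κ + κ') / 2) ^ 2) := ⟨_, rfl⟩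
  rw [← hP] at hconc'
  -- the `σ`-terms
  have hb1 : (2 + q) * |σ| * bd ≤ (2 + q) * (2 * (r * bd)) := by
    have h1 : |σ| * bd ≤ 2 * r * bd := mul_le_mul_of_nonneg_right hσr hbd
    calc (2 + q) * |σ| * bd = (2 + q) * (|σ| * bd) := by ring
      _ ≤ (2 + q) * (2 * r * bd) := mul_le_mul_of_nonneg_left h1 (by linarith)
      _ = _ := by ring
  have hb1' : (2 + q) * |σ'| * bd ≤ (2 + q) * (2 * (r * bd)) := by
    have h1 : |σ'| * bd ≤ 2 * r * bd := mul_le_mul_of_nonneg_right hσr' hbd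
    calc (2 + q) * |σ'| * bd = (2 + q) * (|σ'| * bd) := by ring
      _ ≤ (2 + q) * (2 * r * bd) := mul_le_mul_of_nonneg_left h1 (by linarith)
      _ = _ := by ring
  obtain ⟨hs1, hs2⟩ := DB21_terms hq hδ hN0 σ Λ hΛ1 hΛ2
  obtain ⟨hs1', hs2'⟩ := DB21_terms hq hδ hN0 σ' Λ' hΛ1' hΛ2'
  have hd1 := DB21_terms' hδ1 hN σ
  have hd2 := DB21_terms' hδ1 hN σ'
  have hn1 : 0 ≤ N ^ 2 * σ ^ 2 := by positivity
  have hn2 : 0 ≤ N ^ 2 * σ' ^ 2 := by positivity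
  have hm1 : 0 ≤ δ * N * σ ^ 2 := by positivity
  have hm2 : 0 ≤ δ * N * σ' ^ 2 := by positivity
  -- the basic estimate
  have hbase : ∀ k, 0 ≤ k → k ≤ ρb → 2 * q * bd + 4 * (q * √(1 - k ^ 2) + k)
      - 4 * (q * P + (κ + κ') / 2) - (2 + q) * (4 * (r * bd))
      - 21 * (δ * N * σ ^ 2) - 21 * (δ * N * σ' ^ 2)
      + q * (22 / 100) * (N ^ 2 * σ ^ 2) + q * (22 / 100) * (N ^ 2 * σ' ^ 2) ≤ B - (S + S') := by
    intro k hk0 hk1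
    have h1 := hB k hk0 hk1
    have h2 : 2 * q * A = 2 * q * Y + 2 * q * bd := by rw [← hAY]; ring
    linarith
  have hhat : |(κ + κ') / 2| ≤ 1 / 25 := by
    rw [abs_le]; constructor <;> linarith
  have hG : (κ + κ') / 2 ≤ ρb - (vr / 4 + (E₁ + E₂) / 32) + r * bd := by linarith
  refine ⟨fun hq1 hq2 => ?_, fun hq2 => ?_, fun hq1 => ?_⟩
  · have h1 := DB21_psi hq hq2 hhat hρ0 (by linarith) (by positivity) hε hG
    rw [← hP] at h1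
    have h2 := hbase ρb hρ0 (le_refl _)
    have h3 : 1 * bd ≤ q * bd := mul_le_mul_of_nonneg_right hq1 hbd
    have h4 : (2 + q) * (4 * (r * bd)) ≤ 4 * (4 * (r * bd)) :=
      mul_le_mul_of_nonneg_right (by linarith) (by positivity)
    have h5 : 1 * (22 / 100) * (N ^ 2 * σ ^ 2) ≤ q * (22 / 100) * (N ^ 2 * σ ^ 2) :=
      mul_le_mul_of_nonneg_right (by linarith) hn1
    have h6 : 1 * (22 / 100) * (N ^ 2 * σ' ^ 2) ≤ q * (22 / 100) * (N ^ 2 * σ' ^ 2) :=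
      mul_le_mul_of_nonneg_right (by linarith) hn2
    linarith
  · have h1 := DB21_psi hq hq2 hhat hρ0 (by linarith) (by positivity) hε hG
    rw [← hP] at h1
    have h2 := hbase ρb hρ0 (le_refl _)
    have h3 : 0 ≤ q * bd := mul_nonneg hq hbd
    have h4 : (2 + q) * (4 * (r * bd)) ≤ 4 * (4 * (r * bd)) :=
      mul_le_mul_of_nonneg_right (by linarith) (by positivity)
    have h5 : 0 ≤ q * (22 / 100) * (N ^ 2 * σ ^ 2) := by positivity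
    have h6 : 0 ≤ q * (22 / 100) * (N ^ 2 * σ' ^ 2) := by positivity
    rw [h20]
    linarith
  · obtain ⟨k, hk0, hk1, h1⟩ := DB21_clamp (κ := (κ + κ') / 2) hq hρ0 hε (by linarith)
    rw [← hP] at h1
    have h2 := hbase k hk0 hk1
    have h3 : 1 * bd ≤ q * bd := mul_le_mul_of_nonneg_right hq1 hbd
    have h4 : q * (r * bd) ≤ q * (1 / 10000 * bd) := mul_le_mul_of_nonneg_left hεb hq
    have h5 : 1 * (22 / 100) * (N ^ 2 * σ ^ 2) ≤ q * (22 / 100) * (N ^ 2 * σ ^ 2) :=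
      mul_le_mul_of_nonneg_right (by linarith) hn1
    have h6 : 1 * (22 / 100) * (N ^ 2 * σ' ^ 2) ≤ q * (22 / 100) * (N ^ 2 * σ' ^ 2) :=
      mul_le_mul_of_nonneg_right (by linarith) hn2
    linarith

/-- CR22. Crude bound at small `q`. -/
theorem crude_bound {q δ N bd A Y ρb σ κ E₁ S σ' κ' E₂ S' B : ℝ} (hq : 0 ≤ q)
    (hδ : 0 < δ) (hδ1 : δ ≤ 1 / 100) (hN : 100 ≤ N) (hbd : 0 ≤ bd)
    (hAY : A - Y = bd) (hρ0 : 0 ≤ ρb) (hρ1 : ρb ≤ 3 / 2 * δ)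
    (hK : κ ≤ ρb + δ / N * bd) (hK' : κ' ≤ ρb + δ / N * bd)
    (hS : S ≤ q * (Y + 2) + 2 * κ + 2.2 * N * |σ| + 2 * E₁)
    (hS' : S' ≤ q * (Y + 2) + 2 * κ' + 2.2 * N * |σ'| + 2 * E₂)
    (hB : ∀ k, 0 ≤ k → k ≤ ρb → 2 * q * A + 4 * (q * √(1 - k ^ 2) + k) ≤ B) :
    -(9 * q * δ ^ 2 + 4 * δ / N * bd + 2.2 * N * (|σ| + |σ'|) + 2 * (E₁ + E₂)) ≤
      B - (S + S') := by
  have h1 := hB ρb hρ0 (le_refl _)
  have h2 : ρb ^ 2 ≤ 9 / 4 * δ ^ 2 := by nlinarith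
  have h3 : 1 - ρb ^ 2 ≤ √(1 - ρb ^ 2) := by
    have h4 : 0 ≤ 1 - ρb ^ 2 := by nlinarith
    have h5 := Real.sq_sqrt h4
    have h6 : √(1 - ρb ^ 2) ≤ 1 := by
      rw [Real.sqrt_le_one]
      nlinarith
    nlinarith [Real.sqrt_nonneg (1 - ρb ^ 2)]
  have h4 : q * (1 - 9 / 4 * δ ^ 2) ≤ q * √(1 - ρb ^ 2) :=
    mul_le_mul_of_nonneg_left (by linarith) hq
  have h5 : 2 * q * A = 2 * q * Y + 2 * q * bd := by rw [← hAY]; ring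
  have h6 : 0 ≤ q * bd := mul_nonneg hq hbd
  have h7 : 4 * δ / N * bd = 4 * (δ / N * bd) := by ring
  rw [h7]
  linarith

end Pool.Agent.Sausage27
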