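import Pool.Agent.Sausage27.SD

/-!
# The largest disc in the extremal bodies

For every dimension `d ≥ 2` there is `N₀` such that for every `n ≥ N₀` and every extremal set `D`
(a compact convex set of maximal first intrinsic volume among all compact convex sets whose
`1`-skeleton is covered by `n` unit balls), with `β = 2 √π Γ(d/2) / Γ((d-1)/2)`, the first intrinsic
volume of the `(d-1)`-dimensional unit ball, the largest radius `r₂(D)` of a circular disc in `D`
satisfies `|n r₂(D) - β / 2| ≤ 3 (β + β²) / √n`; in particular `n r₂(D_n) → β / 2`.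
-/

namespace Pool.Agent.Sausage27.DiscRadiusKept

open Pool.Agent.Sausage27 Metric Set

theorem result (d : ℕ) (hd : 2 ≤ d) :
    ∃ N₀ : ℕ, ∀ n ≥ N₀, ∀ D : Set (Eu d), Extremal n D →
      |(n : ℝ) * discRadius D - betaV d / 2| ≤ 3 * (betaV d + betaV d ^ 2) / √n :=
  SD_disc d hd

end Pool.Agent.Sausage27.DiscRadiusKept
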