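import Pool.Agent.Sausage27.OA15

/-!
# Sausage27, OA15d: a chain from the old axis
-/

set_option autoImplicit false

namespace Pool.Agent.Sausage27

open MeasureTheory Set Metric Filter Topology
open scoped InnerProductSpace Pointwise

variable {E : Type*} [NormedAddCommGroup E] [InnerProductSpace ℝ E]

/-- The distance to the line is attained at the orthogonal projection. -/
theorem oa15d_proj_le {e : E} (he : ‖e‖ = 1) (w : E) (s : ℝ) :
    ‖w - ⟪e, w⟫_ℝ • e‖ ≤ ‖w - s • e‖ := by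
  have hee : ⟪e, e⟫_ℝ = 1 := by rw [real_inner_self_eq_norm_sq, he, one_pow]
  have h1 : w - s • e = (w - ⟪e, w⟫_ℝ • e) + (⟪e, w⟫_ℝ - s) • e := by
    rw [sub_smul]; abel
  have h2 : ⟪w - ⟪e, w⟫_ℝ • e, (⟪e, w⟫_ℝ - s) • e⟫_ℝ = 0 := by
    rw [inner_smul_right, inner_sub_left, inner_smul_left, hee, real_inner_comm]
    simp
  have h3 : ‖w - s • e‖ ^ 2 = ‖w - ⟪e, w⟫_ℝ • e‖ ^ 2 + ‖(⟪e, w⟫_ℝ - s) • e‖ ^ 2 := by
    rw [h1, ← real_inner_self_eq_norm_sq, real_inner_add_add_self, h2,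
      real_inner_self_eq_norm_sq, real_inner_self_eq_norm_sq]
    ring
  have h4 : ‖w - ⟪e, w⟫_ℝ • e‖ ^ 2 ≤ ‖w - s • e‖ ^ 2 := by
    rw [h3]; linarith [sq_nonneg ‖(⟪e, w⟫_ℝ - s) • e‖]
  exact le_of_sq_le_sq h4 (norm_nonneg _) 

theorem oa15d_lat_inner {e : E} (he : ‖e‖ = 1) (w : E) : ⟪e, w - ⟪e, w⟫_ℝ • e⟫_ℝ = 0 := by
  rw [inner_sub_right, inner_smul_right, real_inner_self_eq_norm_sq, he]
  ring

theorem oa15d_norm_ge {e M : E} (he : ‖e‖ = 1) (hM : ⟪e, M⟫_ℝ = 0) {T : ℝ} (hT : 0 ≤ T) :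
    T ≤ ‖T • e + M‖ ∧ ‖T • e + M‖ ≤ T + ‖M‖ := by
  have h1 : ‖T • e‖ = T := by rw [norm_smul, he, mul_one, Real.norm_of_nonneg hT]
  constructor
  · have h2 : ⟪e, T • e + M⟫_ℝ = T := by
      rw [inner_add_right, inner_smul_right, real_inner_self_eq_norm_sq, he, hM]
      ring
    have h3 := real_inner_le_norm e (T • e + M)
    rw [h2, he, one_mul] at h3
    exact h3
  · have h2 := norm_add_le (T • e) M
    rwa [h1] at h2

theorem oa15d_inner {e M m : E} (he : ‖e‖ = 1) (hM : ⟪e, M⟫_ℝ = 0) (hm : ⟪e, m⟫_ℝ = 0)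
    (T a Y : ℝ) : ⟪Y⁻¹ • (T • e + M), a • e + m⟫_ℝ = (a * T + ⟪M, m⟫_ℝ) / Y := by
  have hee : ⟪e, e⟫_ℝ = 1 := by rw [real_inner_self_eq_norm_sq, he, one_pow]
  have hM' : ⟪M, e⟫_ℝ = 0 := by rw [real_inner_comm]; exact hM
  rw [inner_smul_left, inner_add_left, inner_add_right, inner_add_right, inner_smul_left,
    inner_smul_right, inner_smul_left, inner_smul_right, hee, hm, hM']
  simp only [conj_trivial]
  ring

theorem oa15d_lat {e M m : E} {T a Y : ℝ} (hT : 0 < T) (hY : 0 < Y)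
    (he' : ‖Y⁻¹ • (T • e + M)‖ = 1) :
    ‖(a • e + m) - ⟪Y⁻¹ • (T • e + M), a • e + m⟫_ℝ • (Y⁻¹ • (T • e + M))‖ ≤
      ‖m‖ + |a| / T * ‖M‖ := by
  refine (oa15d_proj_le he' (a • e + m) (a * Y / T)).trans ?_
  have h1 : (a • e + m) - (a * Y / T) • (Y⁻¹ • (T • e + M)) = m - (a / T) • M := by
    have e1 : a * Y / T * Y⁻¹ = a / T := by field_simp
    have e2 : a / T * T = a := by field_simp
    rw [smul_smul, e1, smul_add, smul_smul, e2]
    abel
  rw [h1]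
  refine (norm_sub_le _ _).trans ?_
  rw [norm_smul, Real.norm_eq_abs, abs_div, abs_of_pos hT]

/-- OA15d. -/
theorem chain_of_oldAx [FiniteDimensional ℝ E] {δ : ℝ} (hδ : 0 < δ) (hδ1 : δ ≤ 1 / 100) :
    ∃ η > 0, ∀ (N : ℕ), 1 ≤ N → ∀ (D : Set E) (c : ℕ → E) (x0 e : E) (ℓ : ℝ), Body D →
      OldAx η N D c x0 e ℓ → ∃ e' : E, Chain δ N D c e' := by
  refine ⟨δ ^ 2 / 200, by positivity, fun N hN D c x0 e ℓ hD h => ?_⟩
  set η : ℝ := δ ^ 2 / 200 with hη
  have hη0 : 0 < η := by positivity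
  have hηδ : η ≤ δ / 20000 := by rw [hη]; nlinarith
  have hη1 : η ≤ 1 / 2000000 := by linarith
  have he := h.norm_e
  have hN' : (1 : ℝ) ≤ N := by exact_mod_cast hN
  -- lateral parts
  set t : E → ℝ := fun x => ⟪e, x - x0⟫_ℝ with ht
  set L : E → E := fun x => x - x0 - t x • e with hL
  have hLe : ∀ x, ⟪e, L x⟫_ℝ = 0 := fun x => oa15d_lat_inner he (x - x0)
  have hdec : ∀ x y, x - y = (t x - t y) • e + (L x - L y) := by
    intro x y
    simp only [hL, sub_smul]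
    abel
  have hLL : ∀ x y, ⟪e, L x - L y⟫_ℝ = 0 := fun x y => by
    rw [inner_sub_right, hLe, hLe, sub_zero]
  have hLc : ∀ j ≤ N, ‖L (c j)‖ ≤ δ / 10 := by
    intro j hj
    have h1 := h.latc hD hη0 (by linarith) hj
    have h2 : ‖L (c j)‖ ^ 2 ≤ (δ / 10) ^ 2 := by
      refine h1.trans (le_of_eq ?_)
      rw [hη]; ring
    exact le_of_sq_le_sq h2 (by positivity)
  have hLD : ∀ x ∈ D, ‖L x‖ ≤ δ / 20000 := fun x hx => (h.lat x hx).trans hηδ
  have htc : ∀ j ≤ N, 2 * (j : ℝ) + 1 - η ≤ t (c j) ∧ t (c j) ≤ 2 * (j : ℝ) + 1 := h.pos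
  have htN := htc N le_rfl
  have ht0 := htc 0 (Nat.zero_le _)
  simp only [Nat.cast_zero, mul_zero, zero_add] at ht0
  set T : ℝ := t (c N) - t (c 0) with hT
  set M : E := L (c N) - L (c 0) with hM
  have hMe : ⟪e, M⟫_ℝ = 0 := hLL _ _
  have hT1 : 2 * (N : ℝ) - η ≤ T := by rw [hT]; linarith
  have hT2 : T ≤ 2 * (N : ℝ) + η := by rw [hT]; linarith
  have hT0 : 0 < T := by linarith
  have hMn : ‖M‖ ≤ δ / 5 := by
    refine (norm_sub_le _ _).trans ?_
    have h1 := hLc N le_rfl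
    have h2 := hLc 0 (Nat.zero_le _)
    linarith
  have hv : c N - c 0 = T • e + M := hdec _ _
  obtain ⟨hY1, hY2⟩ := oa15d_norm_ge he hMe hT0.le
  set Y : ℝ := ‖T • e + M‖ with hY
  have hY0 : 0 < Y := lt_of_lt_of_le hT0 hY1
  have he' : ‖Y⁻¹ • (T • e + M)‖ = 1 := by
    rw [norm_smul, norm_inv, Real.norm_of_nonneg hY0.le, ← hY]
    exact inv_mul_cancel₀ hY0.ne'
  have hin : ∀ x y, ⟪Y⁻¹ • (T • e + M), x - y⟫_ℝ = ((t x - t y) * T + ⟪M, L x - L y⟫_ℝ) / Y := by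
    intro x y
    rw [hdec x y]
    exact oa15d_inner he hMe (hLL x y) _ _ _
  have hlat : ∀ x y, ‖x - y - ⟪Y⁻¹ • (T • e + M), x - y⟫_ℝ • (Y⁻¹ • (T • e + M))‖ ≤
      ‖L x - L y‖ + |t x - t y| / T * ‖M‖ := by
    intro x y
    have h1 := oa15d_lat (m := L x - L y) (a := t x - t y) hT0 hY0 he'
    rwa [← hdec x y] at h1
  have hMm : ∀ m : E, ∀ b : ℝ, ‖m‖ ≤ b → |⟪M, m⟫_ℝ| ≤ δ / 5 * b := by
    intro m b hb
    refine (abs_real_inner_le_norm M m).trans ?_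
    exact mul_le_mul hMn hb (norm_nonneg _) (by positivity)
  have hLxc : ∀ x ∈ D, ∀ j ≤ N, ‖L x - L (c j)‖ ≤ δ / 5 := by
    intro x hx j hj
    refine (norm_sub_le _ _).trans ?_
    have h1 := hLD x hx
    have h2 := hLc j hj
    linarith
  have hLcc : ∀ i ≤ N, ∀ j ≤ N, ‖L (c i) - L (c j)‖ ≤ δ / 5 := by
    intro i hi j hj
    refine (norm_sub_le _ _).trans ?_
    have h1 := hLc i hi
    have h2 := hLc j hj
    linarith
  have hδ2 : δ / 5 * (δ / 5) ≤ 1 / 1000 := by nlinarith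
  refine ⟨Y⁻¹ • (T • e + M), ?_⟩
  have hlen : ∀ j < N, 2 - η ≤ ‖c (j + 1) - c j‖ := by
    intro j hj
    have h1 := real_inner_le_norm e (c (j + 1) - c j)
    rw [he, one_mul, hdec, inner_add_right, inner_smul_right, real_inner_self_eq_norm_sq, he,
      hLL] at h1
    rw [hdec]
    have h2 := htc (j + 1) hj
    have h3 := htc j hj.le
    push_cast at h2
    linarith
  refine ⟨he', ?_, ?_, ?_, ?_, ?_, ?_, ?_, ?_, ?_, ?_, ?_⟩
  · rw [hv, smul_smul, mul_inv_cancel₀ hY0.ne', one_smul]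
  · intro j hj
    exact (h.slices hD hη0 (by linarith) hj).1
  · intro j hj
    have h1 := hlen j hj
    have h2 : (2 - η) ^ 2 ≤ ‖c (j + 1) - c j‖ ^ 2 := pow_le_pow_left₀ (by linarith) h1 2
    have h3 : η ≤ δ ^ 2 := by rw [hη]; nlinarith
    nlinarith
  · intro j hj
    rw [hin]
    refine div_nonneg ?_ hY0.le
    have h1 := abs_le.1 (hMm (L (c (j + 1)) - L (c j)) (δ / 5) (hLcc _ hj _ hj.le))
    have h2 := htc (j + 1) hj
    have h3 := htc j hj.le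
    push_cast at h2
    have h4 : (1 : ℝ) * 1 ≤ (t (c (j + 1)) - t (c j)) * T :=
      mul_le_mul (by linarith) (by linarith) (by norm_num) (by linarith)
    linarith
  · intro j hj
    exact (h.slices hD hη0 (by linarith) hj).2
  · intro x hx hxN
    refine (h.ends hD hη0 (by linarith)).1 x hx ?_
    by_contra hlt
    rw [not_lt] at hlt
    have hlt' : t x ≤ 2 * (N : ℝ) := hlt
    rw [hin, le_div_iff₀ hY0] at hxN
    have h1 := abs_le.1 (hMm (L x - L (c N)) (δ / 5) (hLxc x hx N le_rfl))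
    have h2 : (t x - t (c N)) * T ≤ (-1 + η) * T :=
      mul_le_mul_of_nonneg_right (by linarith) hT0.le
    nlinarith
  · intro x hx hx0
    refine (h.ends hD hη0 (by linarith)).2 x hx ?_
    by_contra hlt
    rw [not_lt] at hlt
    have hlt' : 2 - η ≤ t x := hlt
    rw [hin, div_le_iff₀ hY0] at hx0
    have h1 := abs_le.1 (hMm (L x - L (c 0)) (δ / 5) (hLxc x hx 0 (Nat.zero_le _)))
    have h2 : (1 - η) * T ≤ (t x - t (c 0)) * T :=
      mul_le_mul_of_nonneg_right (by linarith) hT0.le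
    nlinarith
  · intro x hx
    refine (hlat x (c 0)).trans ?_
    have h1 : ‖L x - L (c 0)‖ ≤ δ / 5 := hLxc x hx 0 (Nat.zero_le _)
    have h2 := h.slab x hx
    have h2' : 0 ≤ t x ∧ t x ≤ ℓ := h2
    have h3 := h.len'
    have h4 : |t x - t (c 0)| ≤ 2 * T := by
      rw [abs_le]
      constructor <;> linarith
    have h5 : |t x - t (c 0)| / T ≤ 2 := by rwa [div_le_iff₀ hT0]
    have h6 : |t x - t (c 0)| / T * ‖M‖ ≤ 2 * (δ / 5) :=
      mul_le_mul h5 hMn (norm_nonneg _) (by norm_num)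
    linarith
  · intro j hj
    refine (hlat (c j) (c 0)).trans ?_
    have h1 : ‖L (c j) - L (c 0)‖ ≤ δ / 5 := hLcc j hj 0 (Nat.zero_le _)
    have h2 := htc j hj
    have hj' : (j : ℝ) ≤ N := by exact_mod_cast hj
    have hj0 : (0 : ℝ) ≤ j := Nat.cast_nonneg j
    have h4 : |t (c j) - t (c 0)| ≤ 2 * T := by
      rw [abs_le]
      constructor <;> linarith
    have h5 : |t (c j) - t (c 0)| / T ≤ 2 := by rwa [div_le_iff₀ hT0]
    have h6 : |t (c j) - t (c 0)| / T * ‖M‖ ≤ 2 * (δ / 5) :=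
      mul_le_mul h5 hMn (norm_nonneg _) (by norm_num)
    linarith
  · refine ⟨x0 + ℓ • e, h.x1_mem, ?_⟩
    rw [hin, le_div_iff₀ hY0]
    have h1 := abs_le.1 (hMm (L (x0 + ℓ • e) - L (c N)) (δ / 5)
      (hLxc _ h.x1_mem N le_rfl))
    have h2 : t (x0 + ℓ • e) = ℓ := by
      simp only [ht]
      rw [add_sub_cancel_left, inner_smul_right, real_inner_self_eq_norm_sq, he]
      ring
    have h3 := h.len
    have h4 : (1 - η) * T ≤ (t (x0 + ℓ • e) - t (c N)) * T :=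
      mul_le_mul_of_nonneg_right (by rw [h2]; linarith) hT0.le
    nlinarith
  · refine ⟨x0, h.x0_mem, ?_⟩
    rw [hin, div_le_iff₀ hY0]
    have h1 := abs_le.1 (hMm (L x0 - L (c 0)) (δ / 5) (hLxc _ h.x0_mem 0 (Nat.zero_le _)))
    have h2 : t x0 = 0 := by
      simp only [ht]
      rw [sub_self, inner_zero_right]
    have h4 : (t x0 - t (c 0)) * T ≤ (-1 + η) * T :=
      mul_le_mul_of_nonneg_right (by rw [h2]; linarith) hT0.le
    nlinarith

end Pool.Agent.Sausage27
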