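import Pool.Agent.Sausage27.TH13
import Pool.Agent.Sausage27.OA15d
import Pool.Agent.Sausage27.CT3

/-!
# Sausage27: existence of the chain
-/

namespace Pool.Agent.Sausage27

open MeasureTheory Set Metric Filter Topology
open scoped InnerProductSpace Pointwise

theorem EC_cov {E : Type*} [NormedAddCommGroup E] [InnerProductSpace ℝ E] {n : ℕ} {D : Set E}
    (hD : Body D) {c : Fin n → E} (hc : SliceCov D c) {e x0 : E} (he : ‖e‖ = 1) {ℓ : ℝ}
    (hx0 : x0 ∈ D) (hx1 : x0 + ℓ • e ∈ D) {s : ℝ} (hs : s ∈ Icc 0 ℓ) :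
    ∃ j, |⟪e, c j - x0⟫_ℝ - s| ≤ 1 := by
  have he0 : e ≠ 0 := by
    rintro rfl; simp at he
  have hmem : x0 + s • e ∈ D := by
    rcases eq_or_lt_of_le (hs.1.trans hs.2) with hℓ | hℓ
    · have : s = 0 := le_antisymm (hs.2.trans hℓ.ge) hs.1
      simpa [this] using hx0
    · have h := hD.conv hx0 hx1 (a := 1 - s / ℓ) (b := s / ℓ)
        (by rw [sub_nonneg, div_le_one hℓ]; exact hs.2) (div_nonneg hs.1 hℓ.le) (by ring)
      convert h using 1
      rw [smul_add, smul_smul, div_mul_cancel₀ _ hℓ.ne', ← add_assoc, ← add_smul]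
      simp
  have hee : ⟪e, e⟫_ℝ = 1 := by rw [real_inner_self_eq_norm_sq, he]; norm_num
  have hcl : IsClosed {x : E | ⟪e, x⟫_ℝ = ⟪e, x0⟫_ℝ + s} :=
    isClosed_eq (by fun_prop) continuous_const
  have hcomp : IsCompact (D ∩ {x | ⟪e, x⟫_ℝ = ⟪e, x0⟫_ℝ + s}) := hD.comp.inter_right hcl
  obtain ⟨z, hz⟩ := hcomp.extremePoints_nonempty (E := E)
    ⟨x0 + s • e, hmem, by
      show ⟪e, x0 + s • e⟫_ℝ = ⟪e, x0⟫_ℝ + s
      rw [inner_add_right, real_inner_smul_right, hee, mul_one]⟩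
  have hz2 : ⟪e, z⟫_ℝ = ⟪e, x0⟫_ℝ + s := hz.1.2
  obtain ⟨j, hj⟩ := mem_iUnion.1 (hc e _ he0 hz)
  refine ⟨j, ?_⟩
  rw [mem_closedBall, dist_eq_norm] at hj
  have h1 : ⟪e, c j - x0⟫_ℝ - s = ⟪e, c j - z⟫_ℝ := by
    rw [inner_sub_right, inner_sub_right, hz2]; ring
  rw [h1]
  calc _ ≤ ‖e‖ * ‖c j - z‖ := abs_real_inner_le_norm _ _
    _ ≤ 1 := by rw [he, one_mul, norm_sub_rev]; exact hj

theorem exists_chain (d : ℕ) (hd : 1 ≤ d) {δ : ℝ} (hδ : 0 < δ) (hδ1 : δ ≤ 1 / 100) :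
    ∃ N₀ : ℕ, ∀ N ≥ N₀, ∀ (D : Set (Eu d)) (c : Fin (N + 1) → Eu d), Body D → SliceCov D c →
      ((N + 1 : ℕ) : ℝ) * √(2 / Real.pi) * Zg (Eu d) ≤ G D →
      ∃ (σ : Equiv.Perm (Fin (N + 1))) (e : Eu d),
        Chain δ N D (fun j => c (σ (Fin.ofNat (N + 1) j))) e := by
  obtain ⟨η, hη, H⟩ := chain_of_oldAx (E := Eu d) hδ hδ1
  obtain ⟨C, N1, hC, hT⟩ := thin d hd
  obtain ⟨M, hM⟩ := exists_nat_gt (C / min η 1)
  refine ⟨max N1 (max M 1), fun N hN D c hD hc hG => ?_⟩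
  have hN1 : N1 ≤ N := (le_max_left _ _).trans hN
  have hNM : M ≤ N := ((le_max_left _ _).trans (le_max_right _ _)).trans hN
  have hN0 : 1 ≤ N := ((le_max_right _ _).trans (le_max_right _ _)).trans hN
  obtain ⟨x0, e, ℓ, he, hx0, hx1, hslab, hlat, hℓ, hℓ'⟩ := hT (N + 1) (by omega) D c hD hc hG
  have hmin : 0 < min η 1 := lt_min hη one_pos
  have hCn : C / ((N + 1 : ℕ) : ℝ) ≤ min η 1 := by
    rw [div_le_iff₀ (by positivity)]
    rw [div_lt_iff₀ hmin] at hM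
    have : (M : ℝ) ≤ ((N + 1 : ℕ) : ℝ) := by exact_mod_cast hNM.trans (Nat.le_succ N)
    have h2 := mul_le_mul_of_nonneg_right this hmin.le
    linarith
  have hCη := hCn.trans (min_le_left _ _)
  have hC1 := hCn.trans (min_le_right _ _)
  set t : Fin (N + 1) → ℝ := fun j => ⟪e, c j - x0⟫_ℝ with ht
  have hmono : Monotone (t ∘ Tuple.sort t) := Tuple.monotone_sort t
  have hcov : ∀ s ∈ Icc 0 ℓ, ∃ j, |(t ∘ Tuple.sort t) j - s| ≤ 1 := by
    intro s hs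
    obtain ⟨j, hj⟩ := EC_cov hD hc he hx0 hx1 hs
    exact ⟨(Tuple.sort t).symm j, by simpa [ht] using hj⟩
  have hpos := sorted_pos (t ∘ Tuple.sort t) hmono (η := C / ((N + 1 : ℕ) : ℝ)) (by linarith) hcov
    hℓ hℓ'
  refine ⟨Tuple.sort t, ?_⟩
  have hval : ∀ j : ℕ, j ≤ N → ((Fin.ofNat (N + 1) j : Fin (N + 1)) : ℕ) = j := by
    intro j hj
    simp [Fin.ofNat, Nat.mod_eq_of_lt (Nat.lt_succ_of_le hj)]
  push_cast at hℓ hℓ' hCη
  refine H N hN0 D _ x0 e ℓ hD ⟨he, hx0, hx1, hslab, ?_, ?_, ?_, ?_, ?_⟩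
  · intro x hx
    have := hlat x hx
    push_cast at this
    linarith
  · linarith
  · linarith
  · intro j hj
    have h1 := hpos (Fin.ofNat (N + 1) j)
    rw [hval j hj] at h1
    push_cast at h1
    simp only [ht, Function.comp] at h1
    constructor
    · linarith [h1.1]
    · exact h1.2
  · intro u s hu z hz
    obtain ⟨i, hi⟩ := mem_iUnion.1 (hc u s hu hz)
    simp only [mem_iUnion]
    refine ⟨((Tuple.sort t).symm i : Fin (N + 1)), ?_, ?_⟩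
    · show (((Tuple.sort t).symm i : Fin (N + 1)) : ℕ) ≤ N
      exact Nat.lt_succ_iff.1 (Fin.is_lt _)
    · have : Fin.ofNat (N + 1) (((Tuple.sort t).symm i : Fin (N + 1)) : ℕ) =
          (Tuple.sort t).symm i := by
        ext
        rw [hval _ (Nat.lt_succ_iff.1 (Fin.is_lt _))]
      rw [this, Equiv.apply_symm_apply]
      exact hi

end Pool.Agent.Sausage27
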