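import Pool.Agent.Sausage27.ChainDefs
import Pool.Agent.Sausage27.GF8

/-!
# Sausage27, package FB27: slices and the Gaussian functional
-/

namespace Pool.Agent.Sausage27

open MeasureTheory Set Metric Filter Topology
open scoped InnerProductSpace Pointwise

section weight

theorem FB27_wt_pos (d : ℕ) (q : ℝ) : 0 < wt d q := by unfold wt; positivity

theorem FB27_wt_cont (d : ℕ) : Continuous (wt d) := by
  unfold wt
  exact Continuous.rpow_const (by fun_prop) (fun q => Or.inl (by positivity))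

theorem FB27_wt_neg (d : ℕ) (q : ℝ) : wt d (-q) = wt d q := by
  unfold wt; rw [neg_sq]

theorem FB27_wt_le {d : ℕ} (hd : 2 ≤ d) (q : ℝ) : (1 + |q|) * wt d q ≤ 2 * (1 + q ^ 2)⁻¹ := by
  have h1 : (1 : ℝ) ≤ 1 + q ^ 2 := by nlinarith [sq_nonneg q]
  have h0 : (0 : ℝ) < 1 + q ^ 2 := by positivity
  have h2 : wt d q ≤ (1 + q ^ 2) ^ (-(3 : ℝ) / 2) := by
    unfold wt
    apply Real.rpow_le_rpow_of_exponent_le h1
    have : (2 : ℝ) ≤ d := by exact_mod_cast hd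
    linarith
  have h3 : (1 + |q|) ≤ 2 * (1 + q ^ 2) ^ ((1 : ℝ) / 2) := by
    rw [← Real.sqrt_eq_rpow]
    have h4 : 1 ≤ √(1 + q ^ 2) := by
      rw [Real.one_le_sqrt]; exact h1
    have h5 : |q| ≤ √(1 + q ^ 2) := Real.abs_le_sqrt (by linarith)
    linarith
  calc (1 + |q|) * wt d q ≤ (2 * (1 + q ^ 2) ^ ((1 : ℝ) / 2)) * (1 + q ^ 2) ^ (-(3 : ℝ) / 2) := by
        apply mul_le_mul h3 h2 (FB27_wt_pos d q).le (by positivity)
    _ = 2 * (1 + q ^ 2)⁻¹ := by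
        rw [mul_assoc, ← Real.rpow_add h0, ← Real.rpow_neg_one]
        norm_num

theorem FB27_wt_int {d : ℕ} (hd : 2 ≤ d) : Integrable (fun q : ℝ => (1 + |q|) * wt d q) := by
  refine (integrable_inv_one_add_sq.const_mul 2).mono' ?_ ?_
  · exact ((by fun_prop : Continuous fun q : ℝ => 1 + |q|).mul
      (FB27_wt_cont d)).aestronglyMeasurable
  · filter_upwards with q
    rw [Real.norm_of_nonneg (mul_nonneg (by positivity) (FB27_wt_pos d q).le)]
    exact FB27_wt_le hd q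

theorem FB27_wt_scale (m : ℕ) (q : ℝ) : wt (m + 1) q * √(1 + q ^ 2) ^ (m + 2) = 1 := by
  have h0 : (0 : ℝ) < 1 + q ^ 2 := by positivity
  unfold wt
  rw [Real.sqrt_eq_rpow, ← Real.rpow_natCast ((1 + q ^ 2) ^ ((1 : ℝ) / 2)), ← Real.rpow_mul h0.le,
    ← Real.rpow_add h0]
  push_cast
  rw [show (-((m : ℝ) + 1 + 1) / 2 + 1 / 2 * ((m : ℝ) + 2)) = 0 by ring, Real.rpow_zero]

end weight

section core

variable {F : Type*} [NormedAddCommGroup F] [InnerProductSpace ℝ F] [FiniteDimensional ℝ F]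
  [MeasurableSpace F] [BorelSpace F]

theorem FB27_int_gauss : Integrable (fun x : F => (1 + ‖x‖ ^ 2) * Real.exp (-‖x‖ ^ 2 / 2)) := by
  have h1 : Integrable (fun x : F => Real.exp (-‖x‖ ^ 2 / 4)) := by
    have h2 := (integrable_comp_smul_iff (volume : Measure F)
      (fun x : F => Real.exp (-‖x‖ ^ 2 / 2)) (R := (√2)⁻¹) (by positivity)).2 GF8_integrable_exp
    convert h2 using 2 with x
    rw [norm_smul, Real.norm_of_nonneg (by positivity), mul_pow, inv_pow, Real.sq_sqrt (by norm_num)]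
    ring_nf
  refine (h1.const_mul 5).mono' (by fun_prop) ?_
  filter_upwards with x
  rw [Real.norm_of_nonneg (by positivity)]
  have h3 : Real.exp (-‖x‖ ^ 2 / 2) = Real.exp (-‖x‖ ^ 2 / 4) * Real.exp (-‖x‖ ^ 2 / 4) := by
    rw [← Real.exp_add]; ring_nf
  have h4 : 1 + ‖x‖ ^ 2 ≤ 5 * Real.exp (‖x‖ ^ 2 / 4) := by
    have := Real.add_one_le_exp (‖x‖ ^ 2 / 4)
    nlinarith [sq_nonneg ‖x‖]
  have h5 : Real.exp (‖x‖ ^ 2 / 4) * Real.exp (-‖x‖ ^ 2 / 4) = 1 := by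
    rw [← Real.exp_add]; ring_nf; simp
  rw [h3]
  calc (1 + ‖x‖ ^ 2) * (Real.exp (-‖x‖ ^ 2 / 4) * Real.exp (-‖x‖ ^ 2 / 4))
      ≤ (5 * Real.exp (‖x‖ ^ 2 / 4)) * (Real.exp (-‖x‖ ^ 2 / 4) * Real.exp (-‖x‖ ^ 2 / 4)) :=
        mul_le_mul_of_nonneg_right h4 (by positivity)
    _ = 5 * Real.exp (-‖x‖ ^ 2 / 4) := by
        rw [show (5 * Real.exp (‖x‖ ^ 2 / 4)) * (Real.exp (-‖x‖ ^ 2 / 4) * Real.exp (-‖x‖ ^ 2 / 4))
          = 5 * (Real.exp (‖x‖ ^ 2 / 4) * Real.exp (-‖x‖ ^ 2 / 4)) * Real.exp (-‖x‖ ^ 2 / 4) by ring,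
          h5, mul_one]

theorem FB27_core (hF : 1 ≤ Module.finrank ℝ F) (Φ : ℝ × F → ℝ) (hc : Continuous Φ) {C : ℝ}
    (hC : 0 ≤ C) (hb : ∀ p, |Φ p| ≤ C * (|p.1| + ‖p.2‖))
    (hh : ∀ r : ℝ, 0 < r → ∀ p, Φ (r • p) = r * Φ p)
    (hpos : ∀ θ : F, ‖θ‖ = 1 → 0 < ∫ q : ℝ, wt (Module.finrank ℝ F + 1) q * Φ (q, θ)) :
    Integrable (fun p : ℝ × F => Φ p * Real.exp (-(p.1 ^ 2 + ‖p.2‖ ^ 2) / 2)) ∧
    0 < ∫ p : ℝ × F, Φ p * Real.exp (-(p.1 ^ 2 + ‖p.2‖ ^ 2) / 2) := by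
  set m := Module.finrank ℝ F with hm
  have : Nontrivial F := Module.finrank_pos_iff (R := ℝ).1 hF
  -- the function Ψ
  set Ψ : ℝ × F → ℝ := fun p => Φ p * Real.exp (-(p.1 ^ 2 + ‖p.2‖ ^ 2) / 2) with hΨ
  have hΨc : Continuous Ψ := by rw [hΨ]; fun_prop
  have hΨi : Integrable Ψ := by
    have h1 : Integrable (fun p : ℝ × F => ((1 + ‖p.1‖ ^ 2) * Real.exp (-‖p.1‖ ^ 2 / 2)) *
        ((1 + ‖p.2‖ ^ 2) * Real.exp (-‖p.2‖ ^ 2 / 2))) :=
      (FB27_int_gauss (F := ℝ)).mul_prod (FB27_int_gauss (F := F))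
    refine (h1.const_mul (2 * C)).mono' hΨc.aestronglyMeasurable ?_
    filter_upwards with p
    rw [hΨ]
    simp only [norm_mul, Real.norm_eq_abs, Real.abs_exp, sq_abs]
    have e1 : Real.exp (-(p.1 ^ 2 + ‖p.2‖ ^ 2) / 2) =
        Real.exp (-p.1 ^ 2 / 2) * Real.exp (-‖p.2‖ ^ 2 / 2) := by
      rw [← Real.exp_add]; ring_nf
    rw [e1]
    have e2 : |p.1| + ‖p.2‖ ≤ 2 * ((1 + p.1 ^ 2) * (1 + ‖p.2‖ ^ 2)) := by
      have a1 : |p.1| ≤ 1 + p.1 ^ 2 := by
        rw [abs_le]; constructor <;> nlinarith [sq_nonneg (p.1 + 1), sq_nonneg (p.1 - 1)]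
      have a2 : ‖p.2‖ ≤ 1 + ‖p.2‖ ^ 2 := by nlinarith [sq_nonneg (‖p.2‖ - 1)]
      nlinarith [sq_nonneg p.1, sq_nonneg ‖p.2‖, mul_nonneg (sq_nonneg p.1) (sq_nonneg ‖p.2‖)]
    have e3 : 0 < Real.exp (-p.1 ^ 2 / 2) * Real.exp (-‖p.2‖ ^ 2 / 2) := by positivity
    calc |Φ p| * (Real.exp (-p.1 ^ 2 / 2) * Real.exp (-‖p.2‖ ^ 2 / 2))
        ≤ (C * (2 * ((1 + p.1 ^ 2) * (1 + ‖p.2‖ ^ 2)))) *
          (Real.exp (-p.1 ^ 2 / 2) * Real.exp (-‖p.2‖ ^ 2 / 2)) := by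
          apply mul_le_mul_of_nonneg_right _ e3.le
          exact (hb p).trans (mul_le_mul_of_nonneg_left e2 hC)
      _ = _ := by ring
  refine ⟨hΨi, ?_⟩
  -- the functions P and Q
  set u : F → F := fun y => ‖y‖⁻¹ • y with hu
  have hum : Measurable u := by
    rw [hu]; exact (measurable_norm.inv).smul measurable_id
  have hun : ∀ y, ‖u y‖ ≤ 1 := by
    intro y
    simp only [hu, norm_smul, norm_inv, norm_norm]
    by_cases hy : ‖y‖ = 0
    · simp [hy]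
    · rw [inv_mul_cancel₀ hy]
  set P : ℝ × F → ℝ := fun p =>
    wt (m + 1) p.1 * (‖p.2‖ ^ 2 * Φ (p.1, u p.2) * Real.exp (-‖p.2‖ ^ 2 / 2)) with hP
  set Q : ℝ × F → ℝ := fun p =>
    ‖p.2‖ ^ 2 * Φ (p.1, u p.2) * Real.exp (-((1 + p.1 ^ 2) * ‖p.2‖ ^ 2) / 2) with hQ
  have hΦm : Measurable fun p : ℝ × F => Φ (p.1, u p.2) :=
    hc.measurable.comp (measurable_fst.prodMk (hum.comp measurable_snd))
  have hwm : Measurable fun p : ℝ × F => wt (m + 1) p.1 :=
    (FB27_wt_cont _).measurable.comp measurable_fst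
  have hPm : Measurable P := by
    rw [hP]
    exact hwm.mul ((by fun_prop : Measurable fun p : ℝ × F => ‖p.2‖ ^ 2).mul hΦm |>.mul
      (by fun_prop))
  have hQm : Measurable Q := by
    rw [hQ]
    exact ((by fun_prop : Measurable fun p : ℝ × F => ‖p.2‖ ^ 2).mul hΦm |>.mul
      (by fun_prop))
  have hPi : Integrable P (volume.prod volume) := by
    have h1 : Integrable (fun p : ℝ × F => ((1 + |p.1|) * wt (m + 1) p.1) *
        ((1 + ‖p.2‖ ^ 2) * Real.exp (-‖p.2‖ ^ 2 / 2))) (volume.prod volume) :=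
      (FB27_wt_int (d := m + 1) (by omega)).mul_prod (FB27_int_gauss (F := F))
    refine (h1.const_mul C).mono' hPm.aestronglyMeasurable ?_
    filter_upwards with p
    rw [hP]
    have e0 := (FB27_wt_pos (m + 1) p.1)
    simp only [norm_mul, Real.norm_eq_abs, Real.abs_exp, abs_of_pos e0, norm_pow, abs_norm]
    have e1 : |Φ (p.1, u p.2)| ≤ C * (1 + |p.1|) := by
      refine (hb _).trans (mul_le_mul_of_nonneg_left ?_ hC)
      have := hun p.2
      simp only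
      linarith
    calc wt (m + 1) p.1 * (‖p.2‖ ^ 2 * |Φ (p.1, u p.2)| * Real.exp (-‖p.2‖ ^ 2 / 2))
        ≤ wt (m + 1) p.1 * ((1 + ‖p.2‖ ^ 2) * (C * (1 + |p.1|)) * Real.exp (-‖p.2‖ ^ 2 / 2)) := by
          gcongr
          linarith
      _ = _ := by ring
  -- scaling relation
  have hs0 : ∀ q : ℝ, 0 < √(1 + q ^ 2) := fun q => Real.sqrt_pos.2 (by positivity)
  have hus : ∀ (s : ℝ) (z : F), 0 < s → u (s • z) = u z := by
    intro s z hs
    simp only [hu, norm_smul, Real.norm_of_nonneg hs.le, mul_inv, smul_smul]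
    congr 1
    field_simp
  have hQP : ∀ (q : ℝ) (z : F), Q (q, z) = √(1 + q ^ 2) ^ m * P (q, √(1 + q ^ 2) • z) := by
    intro q z
    simp only [hQ, hP]
    rw [hus _ _ (hs0 q), norm_smul, Real.norm_of_nonneg (hs0 q).le, mul_pow,
      Real.sq_sqrt (by positivity : (0 : ℝ) ≤ 1 + q ^ 2)]
    have h1 := FB27_wt_scale m q
    have h2 : √(1 + q ^ 2) ^ (m + 2) = √(1 + q ^ 2) ^ m * (1 + q ^ 2) := by
      rw [pow_add, Real.sq_sqrt (by positivity)]
    rw [h2] at h1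
    have h3 : -((1 + q ^ 2) * ‖z‖ ^ 2) / 2 = -((1 + q ^ 2) * ‖z‖ ^ 2) / 2 := rfl
    calc ‖z‖ ^ 2 * Φ (q, u z) * Real.exp (-((1 + q ^ 2) * ‖z‖ ^ 2) / 2)
        = (wt (m + 1) q * (√(1 + q ^ 2) ^ m * (1 + q ^ 2))) *
          (‖z‖ ^ 2 * Φ (q, u z) * Real.exp (-((1 + q ^ 2) * ‖z‖ ^ 2) / 2)) := by
          rw [h1, one_mul]
      _ = _ := by ring
  have hint : ∀ (q : ℝ) (g : F → ℝ), √(1 + q ^ 2) ^ m * ∫ z, g (√(1 + q ^ 2) • z) = ∫ y, g y := by
    intro q g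
    rw [Measure.integral_comp_smul, smul_eq_mul, ← mul_assoc,
      abs_of_pos (inv_pos.2 (pow_pos (hs0 q) _)), mul_inv_cancel₀ (pow_pos (hs0 q) _).ne', one_mul]
  have hPq : ∀ᵐ q : ℝ, Integrable fun y => P (q, y) := hPi.prod_right_ae
  have hQi : Integrable Q (volume.prod volume) := by
    rw [integrable_prod_iff hQm.aestronglyMeasurable]
    constructor
    · filter_upwards [hPq] with q hq
      have h1 : (fun z => Q (q, z)) = fun z => √(1 + q ^ 2) ^ m * P (q, √(1 + q ^ 2) • z) :=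
        funext fun z => hQP q z
      rw [h1]
      exact (((integrable_comp_smul_iff (volume : Measure F) (fun y => P (q, y))
        (hs0 q).ne').2 hq)).const_mul _
    · have h2 := hPi.norm.integral_prod_left
      refine h2.congr ?_
      filter_upwards with q
      have h1 : (fun z => ‖Q (q, z)‖) =
          fun z => √(1 + q ^ 2) ^ m * ‖P (q, √(1 + q ^ 2) • z)‖ := by
        funext z
        rw [hQP, norm_mul, Real.norm_of_nonneg (pow_nonneg (hs0 q).le _)]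
      simp only [h1]
      rw [integral_const_mul, hint q (fun y => ‖P (q, y)‖)]
  have hPQ : ∫ p, Q p ∂(volume.prod volume) = ∫ p, P p ∂(volume.prod volume) := by
    rw [integral_prod _ hQi, integral_prod _ hPi]
    congr 1
    funext q
    have h1 : (fun z => Q (q, z)) = fun z => √(1 + q ^ 2) ^ m * P (q, √(1 + q ^ 2) • z) :=
      funext fun z => hQP q z
    rw [h1, integral_const_mul, hint q (fun y => P (q, y))]
  have hQΨ : ∫ p, Q p ∂(volume.prod volume) = ∫ p, Ψ p ∂(volume.prod volume) := by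
    rw [integral_prod_symm _ hQi, integral_prod_symm _ hΨi]
    have hne : ∀ᵐ z : F, z ≠ 0 := by
      have : (volume : Measure F) {0} = 0 := measure_singleton 0
      rw [ae_iff]; simpa using this
    refine integral_congr_ae ?_
    filter_upwards [hne] with z hz
    have hz' : 0 < ‖z‖ := norm_pos_iff.2 hz
    have h1 : (fun q => Q (q, z)) = fun q : ℝ => ‖z‖ * Ψ (q * ‖z‖, z) := by
      funext q
      simp only [hQ, hΨ]
      have h2 : ((q * ‖z‖, z) : ℝ × F) = ‖z‖ • (q, u z) := by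
        simp only [hu, Prod.smul_mk, smul_eq_mul, smul_smul, mul_inv_cancel₀ hz'.ne', one_smul]
        rw [mul_comm]
      have h3 : Φ (q * ‖z‖, z) = ‖z‖ * Φ (q, u z) := by rw [h2, hh _ hz']
      rw [h3]
      have h4 : -((q * ‖z‖) ^ 2 + ‖z‖ ^ 2) / 2 = -((1 + q ^ 2) * ‖z‖ ^ 2) / 2 := by ring
      rw [h4]; ring
    have h5 := Measure.integral_comp_mul_right (fun t : ℝ => Ψ (t, z)) ‖z‖
    simp only [h1]
    rw [integral_const_mul, h5, abs_of_pos (inv_pos.2 hz'), smul_eq_mul, ← mul_assoc,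
      mul_inv_cancel₀ hz'.ne', one_mul]
  have hfin : 0 < ∫ p, P p ∂(volume.prod volume) := by
    rw [integral_prod_symm _ hPi]
    have hJi : Integrable (fun y : F => ∫ q : ℝ, P (q, y)) := hPi.integral_prod_right
    have hJ : ∀ y : F, ∫ q : ℝ, P (q, y) =
        ‖y‖ ^ 2 * Real.exp (-‖y‖ ^ 2 / 2) * ∫ q : ℝ, wt (m + 1) q * Φ (q, u y) := by
      intro y
      rw [← integral_const_mul]
      congr 1
      funext q
      simp only [hP]; ring
    have hJpos : ∀ y : F, y ≠ 0 → 0 < ∫ q : ℝ, P (q, y) := by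
      intro y hy
      rw [hJ]
      have hy' : 0 < ‖y‖ := norm_pos_iff.2 hy
      apply mul_pos (by positivity)
      apply hpos
      simp only [hu, norm_smul, norm_inv, norm_norm, inv_mul_cancel₀ hy'.ne']
    have hJ0 : 0 ≤ fun y : F => ∫ q : ℝ, P (q, y) := by
      intro y
      by_cases hy : y = 0
      · simp only [Pi.zero_apply]
        rw [hJ, hy]; simp
      · exact (hJpos y hy).le
    rw [integral_pos_iff_support_of_nonneg hJ0 hJi]
    have hsub : ({0}ᶜ : Set F) ⊆ Function.support fun y : F => ∫ q : ℝ, P (q, y) := by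
      intro y hy
      exact (hJpos y (by simpa using hy)).ne'
    refine lt_of_lt_of_le ?_ (measure_mono hsub)
    exact (isOpen_compl_singleton.measure_pos _ (by
      obtain ⟨y, hy⟩ := exists_ne (0 : F)
      exact ⟨y, hy⟩))
  have h9 : ∫ p : ℝ × F, Ψ p = ∫ p, Ψ p ∂(volume.prod volume) := rfl
  rw [h9, ← hQΨ, hPQ]
  exact hfin

end core

section slices

variable {E : Type*} [NormedAddCommGroup E] [InnerProductSpace ℝ E]

theorem FB27_S4_bound {D : Set E} (hD : Body D) : ∃ C : ℝ, 0 ≤ C ∧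
    ∀ (e θ : E) (q : ℝ), |S4 D e θ q| ≤ C * (|q| * ‖e‖ + ‖θ‖) := by
  obtain ⟨R, hR, -, hb, -⟩ := hD.exists_bound
  refine ⟨4 * R, by positivity, ?_⟩
  intro e θ q
  have h1 := hb (q • e + θ)
  have h2 := hb (-(q • e) + θ)
  have h3 := hb (q • e - θ)
  have h4 := hb (-(q • e) - θ)
  have hq : ‖q • e‖ = |q| * ‖e‖ := by rw [norm_smul, Real.norm_eq_abs]
  have n1 : ‖q • e + θ‖ ≤ |q| * ‖e‖ + ‖θ‖ := by rw [← hq]; exact norm_add_le _ _
  have n2 : ‖-(q • e) + θ‖ ≤ |q| * ‖e‖ + ‖θ‖ := by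
    rw [← hq, ← norm_neg (q • e)]; exact norm_add_le _ _
  have n3 : ‖q • e - θ‖ ≤ |q| * ‖e‖ + ‖θ‖ := by rw [← hq]; exact norm_sub_le _ _
  have n4 : ‖-(q • e) - θ‖ ≤ |q| * ‖e‖ + ‖θ‖ := by
    rw [← hq, ← norm_neg (q • e)]; exact norm_sub_le _ _
  have m1 := h1.trans (mul_le_mul_of_nonneg_left n1 hR.le)
  have m2 := h2.trans (mul_le_mul_of_nonneg_left n2 hR.le)
  have m3 := h3.trans (mul_le_mul_of_nonneg_left n3 hR.le)
  have m4 := h4.trans (mul_le_mul_of_nonneg_left n4 hR.le)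
  rw [abs_le] at m1 m2 m3 m4 ⊢
  unfold S4
  constructor <;> nlinarith [m1.1, m1.2, m2.1, m2.2, m3.1, m3.2, m4.1, m4.2]

theorem FB27_S4_cont {D : Set E} (hD : Body D) (e : E) :
    Continuous fun p : ℝ × E => S4 D e p.2 p.1 := by
  have h := hD.continuous_hS
  unfold S4
  fun_prop

theorem FB27_S4_smul {D : Set E} (hD : Body D) {r : ℝ} (hr : 0 < r) (e θ : E) (q : ℝ) :
    S4 D e (r • θ) (r * q) = r * S4 D e θ q := by
  unfold S4
  have e1 : (r * q) • e + r • θ = r • (q • e + θ) := by rw [smul_add, smul_smul]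
  have e2 : -((r * q) • e) + r • θ = r • (-(q • e) + θ) := by
    rw [smul_add, smul_neg, smul_smul]
  have e3 : (r * q) • e - r • θ = r • (q • e - θ) := by rw [smul_sub, smul_smul]
  have e4 : -((r * q) • e) - r • θ = r • (-(q • e) - θ) := by
    rw [smul_sub, smul_neg, smul_smul]
  rw [e1, e2, e3, e4, hD.hS_smul hr.le, hD.hS_smul hr.le, hD.hS_smul hr.le, hD.hS_smul hr.le]
  ring

theorem FB27_S4_neg (D : Set E) (e θ : E) (q : ℝ) : S4 D e θ (-q) = S4 D e θ q := by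
  unfold S4
  simp only [neg_smul, neg_neg]
  ring

theorem FB27_S4_abs (D : Set E) (e θ : E) (q : ℝ) : S4 D e θ |q| = S4 D e θ q := by
  rcases abs_choice q with h | h
  · rw [h]
  · rw [h, FB27_S4_neg]

/-- The isometry `(t, y) ↦ (a t) e + b y`. -/
noncomputable def FB27_iso {e : E} (he : ‖e‖ = 1) (a b : ℝ) (ha : |a| = 1) (hb : |b| = 1) :
    WithLp 2 (ℝ × (ℝ ∙ e)ᗮ) →ₗᵢ[ℝ] E where
  toFun p := (a * p.fst) • e + b • (p.snd : E)
  map_add' p q := by
    simp only [WithLp.add_fst, WithLp.add_snd, Submodule.coe_add, mul_add, add_smul, smul_add]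
    abel
  map_smul' c p := by
    simp only [WithLp.smul_fst, WithLp.smul_snd, Submodule.coe_smul, smul_eq_mul, RingHom.id_apply,
      smul_add, smul_smul]
    congr 2 <;> ring
  norm_map' p := by
    have h0 : ⟪e, (p.snd : E)⟫_ℝ = 0 :=
      (Submodule.mem_orthogonal_singleton_iff_inner_right).1 p.snd.2
    have ha2 : a ^ 2 = 1 := by rw [← sq_abs, ha]; norm_num
    have hb2 : b ^ 2 = 1 := by rw [← sq_abs, hb]; norm_num
    have h1 : ‖(a * p.fst) • e + b • (p.snd : E)‖ ^ 2 = p.fst ^ 2 + ‖p.snd‖ ^ 2 := by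
      rw [norm_add_sq_real, inner_smul_left, inner_smul_right, h0]
      simp only [norm_smul, Real.norm_eq_abs, mul_pow, sq_abs, abs_mul, he, ha2, hb2,
        Submodule.coe_norm]
      simp
    have h2 : ‖p‖ ^ 2 = p.fst ^ 2 + ‖p.snd‖ ^ 2 := by
      rw [WithLp.prod_norm_sq_eq_of_L2]
      simp
    have h3 : ‖(a * p.fst) • e + b • (p.snd : E)‖ ^ 2 = ‖p‖ ^ 2 := by rw [h1, h2]
    exact (pow_left_inj₀ (norm_nonneg _) (norm_nonneg _) two_ne_zero).1 h3

theorem FB27_finrank [FiniteDimensional ℝ E] {e : E} (he : ‖e‖ = 1) :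
    Module.finrank ℝ ((ℝ ∙ e)ᗮ : Submodule ℝ E) + 1 = Module.finrank ℝ E := by
  have h := Submodule.finrank_add_finrank_orthogonal (ℝ ∙ e)
  have h1 : Module.finrank ℝ (ℝ ∙ e) = 1 := finrank_span_singleton (by
    intro h0; rw [h0] at he; simp at he)
  rw [h1] at h
  omega

theorem FB27_mp_aux {F : Type*} [NormedAddCommGroup F] [InnerProductSpace ℝ F]
    [FiniteDimensional ℝ F] [MeasurableSpace F] [BorelSpace F] [FiniteDimensional ℝ E]
    [MeasurableSpace E] [BorelSpace E] (L : WithLp 2 (ℝ × F) ≃ₗᵢ[ℝ] E) :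
    MeasurePreserving (fun p : ℝ × F => L (WithLp.toLp 2 p)) (volume.prod volume) volume :=
  L.measurePreserving.comp (WithLp.volume_preserving_toLp ℝ F)

theorem FB27_mp [FiniteDimensional ℝ E] [MeasurableSpace E] [BorelSpace E] {e : E}
    (he : ‖e‖ = 1) (a b : ℝ) (ha : |a| = 1) (hb : |b| = 1) :
    MeasurePreserving (fun p : ℝ × (ℝ ∙ e)ᗮ => (a * p.1) • e + b • (p.2 : E))
      (volume.prod volume) volume := by
  have hf : Module.finrank ℝ (WithLp 2 (ℝ × (ℝ ∙ e)ᗮ)) = Module.finrank ℝ E := by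
    rw [← FB27_finrank he, (WithLp.linearEquiv 2 ℝ (ℝ × (ℝ ∙ e)ᗮ)).finrank_eq,
      Module.finrank_prod, Module.finrank_self, add_comm]
  exact FB27_mp_aux ((FB27_iso he a b ha hb).toLinearIsometryEquiv hf)

theorem FB27_add4 {X : Type*} [MeasurableSpace X] {μ : Measure X} {f1 f2 f3 f4 : X → ℝ}
    (h1 : Integrable f1 μ) (h2 : Integrable f2 μ) (h3 : Integrable f3 μ) (h4 : Integrable f4 μ) :
    Integrable (fun x => f1 x + f2 x + f3 x + f4 x) μ ∧
    ∫ x, (f1 x + f2 x + f3 x + f4 x) ∂μ =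
      ∫ x, f1 x ∂μ + ∫ x, f2 x ∂μ + ∫ x, f3 x ∂μ + ∫ x, f4 x ∂μ := by
  refine ⟨((h1.add h2).add h3).add h4, ?_⟩
  have a1 := integral_add h1 h2
  have a2 := integral_add (h1.add h2) h3
  have a3 := integral_add ((h1.add h2).add h3) h4
  simp only [Pi.add_apply] at a1 a2 a3
  rw [a3, a2, a1]

end slices

/-- FB27a. Integrability of the slices. -/
theorem integrableOn_S4 {d : ℕ} (hd : 2 ≤ d) {D : Set (Eu d)} (hD : Body D) (e θ : Eu d) :
    IntegrableOn (fun q => S4 D e θ q * wt d q) (Ioi 0) := by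
  obtain ⟨C, hC, hb⟩ := FB27_S4_bound hD
  refine Integrable.integrableOn ?_
  refine ((FB27_wt_int hd).const_mul (C * (‖e‖ + ‖θ‖))).mono' ?_ ?_
  · refine Continuous.aestronglyMeasurable ?_
    refine Continuous.mul ?_ (FB27_wt_cont d)
    have h := hD.continuous_hS
    unfold S4
    fun_prop
  · filter_upwards with q
    rw [norm_mul, Real.norm_eq_abs, Real.norm_of_nonneg (FB27_wt_pos d q).le]
    have h1 : |S4 D e θ q| ≤ C * (‖e‖ + ‖θ‖) * (1 + |q|) := by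
      refine (hb e θ q).trans ?_
      rw [mul_assoc]
      apply mul_le_mul_of_nonneg_left _ hC
      nlinarith [abs_nonneg q, norm_nonneg e, norm_nonneg θ, mul_nonneg (abs_nonneg q) (norm_nonneg θ)]
    calc |S4 D e θ q| * wt d q ≤ (C * (‖e‖ + ‖θ‖) * (1 + |q|)) * wt d q :=
          mul_le_mul_of_nonneg_right h1 (FB27_wt_pos d q).le
      _ = _ := by ring

theorem FB27_G {d : ℕ} {D : Set (Eu d)} (hD : Body D) {e : Eu d} (he : ‖e‖ = 1) :
    Integrable (fun p : ℝ × (ℝ ∙ e)ᗮ =>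
      S4 D e p.2 p.1 * Real.exp (-(p.1 ^ 2 + ‖p.2‖ ^ 2) / 2)) (volume.prod volume) ∧
    ∫ p : ℝ × (ℝ ∙ e)ᗮ, S4 D e p.2 p.1 * Real.exp (-(p.1 ^ 2 + ‖p.2‖ ^ 2) / 2)
      ∂(volume.prod volume) = 4 * G D := by
  have hi : Integrable (fun x : Eu d => hS D x * Real.exp (-‖x‖ ^ 2 / 2)) := by
    obtain ⟨R, hR, -, hb, -⟩ := hD.exists_bound
    refine ((FB27_int_gauss (F := Eu d)).const_mul R).mono'
      (hD.continuous_hS.mul (by fun_prop)).aestronglyMeasurable ?_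
    filter_upwards with x
    rw [norm_mul, Real.norm_eq_abs, Real.norm_of_nonneg (Real.exp_pos _).le, ← mul_assoc]
    apply mul_le_mul_of_nonneg_right _ (Real.exp_pos _).le
    refine (hb x).trans (mul_le_mul_of_nonneg_left ?_ hR.le)
    nlinarith [sq_nonneg (‖x‖ - 1), norm_nonneg x]
  have key : ∀ (a b : ℝ) (ha : |a| = 1) (hb : |b| = 1),
      Integrable (fun p : ℝ × (ℝ ∙ e)ᗮ => hS D ((a * p.1) • e + b • (p.2 : Eu d)) *
        Real.exp (-(p.1 ^ 2 + ‖p.2‖ ^ 2) / 2)) (volume.prod volume) ∧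
      ∫ p : ℝ × (ℝ ∙ e)ᗮ, hS D ((a * p.1) • e + b • (p.2 : Eu d)) *
        Real.exp (-(p.1 ^ 2 + ‖p.2‖ ^ 2) / 2) ∂(volume.prod volume) = G D := by
    intro a b ha hb
    have hmp := FB27_mp he a b ha hb
    have hn : ∀ p : ℝ × (ℝ ∙ e)ᗮ, ‖(a * p.1) • e + b • (p.2 : Eu d)‖ ^ 2 = p.1 ^ 2 + ‖p.2‖ ^ 2 := by
      intro p
      have h0 : ⟪e, (p.2 : Eu d)⟫_ℝ = 0 :=
        (Submodule.mem_orthogonal_singleton_iff_inner_right).1 p.2.2
      have ha2 : a ^ 2 = 1 := by rw [← sq_abs, ha]; norm_num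
      have hb2 : b ^ 2 = 1 := by rw [← sq_abs, hb]; norm_num
      rw [norm_add_sq_real, inner_smul_left, inner_smul_right, h0]
      simp only [norm_smul, Real.norm_eq_abs, mul_pow, sq_abs, abs_mul, he, ha2, hb2,
        Submodule.coe_norm]
      simp
    constructor
    · have h1 := hmp.integrable_comp_of_integrable hi
      refine h1.congr ?_
      filter_upwards with p
      simp only [Function.comp_apply, hn]
      
    · have h1 : ∫ p : ℝ × (ℝ ∙ e)ᗮ, (fun x : Eu d => hS D x * Real.exp (-‖x‖ ^ 2 / 2))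
          ((a * p.1) • e + b • (p.2 : Eu d)) ∂(volume.prod volume) =
          ∫ x : Eu d, hS D x * Real.exp (-‖x‖ ^ 2 / 2) := by
        rw [← hmp.map_eq]
        rw [integral_map hmp.measurable.aemeasurable]
        rw [hmp.map_eq]; exact hi.aestronglyMeasurable
      unfold G
      rw [← h1]
      congr 1
      funext p
      simp only [hn]
  have k1 := key 1 1 (by norm_num) (by norm_num)
  have k2 := key (-1) 1 (by norm_num) (by norm_num)
  have k3 := key 1 (-1) (by norm_num) (by norm_num)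
  have k4 := key (-1) (-1) (by norm_num) (by norm_num)
  have heq : (fun p : ℝ × (ℝ ∙ e)ᗮ => S4 D e p.2 p.1 * Real.exp (-(p.1 ^ 2 + ‖p.2‖ ^ 2) / 2)) =
      fun p : ℝ × (ℝ ∙ e)ᗮ => ((hS D ((1 * p.1) • e + (1 : ℝ) • (p.2 : Eu d)) *
        Real.exp (-(p.1 ^ 2 + ‖p.2‖ ^ 2) / 2) +
        hS D ((-1 * p.1) • e + (1 : ℝ) • (p.2 : Eu d)) *
        Real.exp (-(p.1 ^ 2 + ‖p.2‖ ^ 2) / 2)) +
        hS D ((1 * p.1) • e + (-1 : ℝ) • (p.2 : Eu d)) *
        Real.exp (-(p.1 ^ 2 + ‖p.2‖ ^ 2) / 2)) +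
        hS D ((-1 * p.1) • e + (-1 : ℝ) • (p.2 : Eu d)) *
        Real.exp (-(p.1 ^ 2 + ‖p.2‖ ^ 2) / 2) := by
    funext p
    unfold S4
    simp only [one_mul, one_smul, neg_mul, neg_smul, sub_eq_add_neg]
    ring
  rw [heq]
  have hadd := FB27_add4 k1.1 k2.1 k3.1 k4.1
  refine ⟨hadd.1, ?_⟩
  rw [hadd.2, k1.2, k2.2, k3.2, k4.2]
  ring

/-- FB27b. Strict monotonicity of the Gaussian functional with respect to slices. -/
theorem G_lt_of_slices {d : ℕ} (hd : 2 ≤ d) {D K : Set (Eu d)} (hD : Body D) (hK : Body K)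
    {e : Eu d} (he : ‖e‖ = 1)
    (h : ∀ θ : Eu d, ‖θ‖ = 1 → ⟪e, θ⟫_ℝ = 0 →
      ∫ q in Ioi 0, S4 D e θ q * wt d q < ∫ q in Ioi 0, S4 K e θ q * wt d q) :
    G D < G K := by
  obtain ⟨iD, gD⟩ := FB27_G hD he
  obtain ⟨iK, gK⟩ := FB27_G hK he
  obtain ⟨C1, hC1, hb1⟩ := FB27_S4_bound hD
  obtain ⟨C2, hC2, hb2⟩ := FB27_S4_bound hK
  have hfr := FB27_finrank he
  rw [finrank_euclideanSpace_fin] at hfr
  have hcore := FB27_core (F := (ℝ ∙ e)ᗮ) (by omega)
    (fun p => S4 K e p.2 p.1 - S4 D e p.2 p.1) ?_ (C := C1 + C2) (by positivity) ?_ ?_ ?_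
  · have h2 := hcore.2
    have h3 : ∫ p : ℝ × (ℝ ∙ e)ᗮ, (S4 K e p.2 p.1 - S4 D e p.2 p.1) *
        Real.exp (-(p.1 ^ 2 + ‖p.2‖ ^ 2) / 2) = 4 * G K - 4 * G D := by
      rw [← gK, ← gD, ← integral_sub iK iD]
      congr 1
      funext p
      ring
    rw [h3] at h2
    linarith
  · have c1 := hK.continuous_hS
    have c2 := hD.continuous_hS
    unfold S4
    fun_prop
  · intro p
    have b1 := hb1 e (p.2 : Eu d) p.1
    have b2 := hb2 e (p.2 : Eu d) p.1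
    rw [he, mul_one] at b1 b2
    have h5 : |S4 K e p.2 p.1 - S4 D e p.2 p.1| ≤ |S4 K e p.2 p.1| + |S4 D e p.2 p.1| :=
      abs_sub _ _
    rw [Submodule.coe_norm]
    linarith
  · intro r hr p
    simp only [Prod.smul_fst, Prod.smul_snd, Submodule.coe_smul, smul_eq_mul]
    rw [FB27_S4_smul hK hr, FB27_S4_smul hD hr]
    ring
  · intro θ hθ
    have hθ1 : ‖(θ : Eu d)‖ = 1 := by rw [← Submodule.coe_norm]; exact hθ
    have hθ0 : ⟪e, (θ : Eu d)⟫_ℝ = 0 :=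
      (Submodule.mem_orthogonal_singleton_iff_inner_right).1 θ.2
    have h6 := h θ hθ1 hθ0
    rw [hfr]
    have h7 := integral_comp_abs (f := fun q : ℝ => wt d q * (S4 K e θ q - S4 D e θ q))
    have h8 : (fun q : ℝ => wt d |q| * (S4 K e θ |q| - S4 D e θ |q|)) =
        fun q : ℝ => wt d q * (S4 K e θ q - S4 D e θ q) := by
      funext q
      rw [FB27_S4_abs, FB27_S4_abs]
      congr 1
      unfold wt; rw [sq_abs]
    rw [h8] at h7
    rw [h7]
    have h9 : ∫ q in Ioi (0 : ℝ), wt d q * (S4 K e θ q - S4 D e θ q) =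
        (∫ q in Ioi 0, S4 K e θ q * wt d q) - ∫ q in Ioi 0, S4 D e θ q * wt d q := by
      rw [← integral_sub (integrableOn_S4 hd hK e θ) (integrableOn_S4 hd hD e θ)]
      congr 1
      funext q
      ring
    rw [h9]
    linarith

end Pool.Agent.Sausage27
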