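import Pool.Agent.Sausage27.FB27

/-!
# Sausage27: comparison of the Gaussian functional by slices, with the equality case
-/

namespace Pool.Agent.Sausage27

open MeasureTheory Set Metric Filter Topology
open scoped InnerProductSpace Pointwise

section core

variable {F : Type*} [NormedAddCommGroup F] [InnerProductSpace ℝ F] [FiniteDimensional ℝ F]
  [MeasurableSpace F] [BorelSpace F]

theorem FBE_core (hF : 1 ≤ Module.finrank ℝ F) (Φ : ℝ × F → ℝ) (hc : Continuous Φ) {C : ℝ}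
    (hC : 0 ≤ C) (hb : ∀ p, |Φ p| ≤ C * (|p.1| + ‖p.2‖))
    (hh : ∀ r : ℝ, 0 < r → ∀ p, Φ (r • p) = r * Φ p)
    (hpos : ∀ θ : F, ‖θ‖ = 1 → 0 ≤ ∫ q : ℝ, wt (Module.finrank ℝ F + 1) q * Φ (q, θ)) :
    Integrable (fun p : ℝ × F => Φ p * Real.exp (-(p.1 ^ 2 + ‖p.2‖ ^ 2) / 2)) ∧
    0 ≤ ∫ p : ℝ × F, Φ p * Real.exp (-(p.1 ^ 2 + ‖p.2‖ ^ 2) / 2) ∧
    ((∃ θ : F, ‖θ‖ = 1 ∧ 0 < ∫ q : ℝ, wt (Module.finrank ℝ F + 1) q * Φ (q, θ)) →
      0 < ∫ p : ℝ × F, Φ p * Real.exp (-(p.1 ^ 2 + ‖p.2‖ ^ 2) / 2)) := by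
  set m := Module.finrank ℝ F with hm
  have : Nontrivial F := Module.finrank_pos_iff (R := ℝ).1 hF
  -- the function Ψ
  set Ψ : ℝ × F → ℝ := fun p => Φ p * Real.exp (-(p.1 ^ 2 + ‖p.2‖ ^ 2) / 2) with hΨ
  have hΨc : Continuous Ψ := by rw [hΨ]; fun_prop
  have hΨi : Integrable Ψ := by
    have h1 : Integrable (fun p : ℝ × F => ((1 + ‖p.1‖ ^ 2) * Real.exp (-‖p.1‖ ^ 2 / 2)) *
        ((1 + ‖p.2‖ ^ 2) * Real.exp (-‖p.2‖ ^ 2 / 2))) :=
      (FB27_int_gauss (F := ℝ)).mul_prod (FB27_int_gauss (F := F))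
    refine (h1.const_mul (2 * C)).mono' hΨc.aestronglyMeasurable ?_
    filter_upwards with p
    rw [hΨ]
    simp only [norm_mul, Real.norm_eq_abs, Real.abs_exp, sq_abs]
    have e1 : Real.exp (-(p.1 ^ 2 + ‖p.2‖ ^ 2) / 2) =
        Real.exp (-p.1 ^ 2 / 2) * Real.exp (-‖p.2‖ ^ 2 / 2) := by
      rw [← Real.exp_add]; ring_nf
    rw [e1]
    have e2 : |p.1| + ‖p.2‖ ≤ 2 * ((1 + p.1 ^ 2) * (1 + ‖p.2‖ ^ 2)) := by
      have a1 : |p.1| ≤ 1 + p.1 ^ 2 := by
        rw [abs_le]; constructor <;> nlinarith [sq_nonneg (p.1 + 1), sq_nonneg (p.1 - 1)]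
      have a2 : ‖p.2‖ ≤ 1 + ‖p.2‖ ^ 2 := by nlinarith [sq_nonneg (‖p.2‖ - 1)]
      nlinarith [sq_nonneg p.1, sq_nonneg ‖p.2‖, mul_nonneg (sq_nonneg p.1) (sq_nonneg ‖p.2‖)]
    have e3 : 0 < Real.exp (-p.1 ^ 2 / 2) * Real.exp (-‖p.2‖ ^ 2 / 2) := by positivity
    calc |Φ p| * (Real.exp (-p.1 ^ 2 / 2) * Real.exp (-‖p.2‖ ^ 2 / 2))
        ≤ (C * (2 * ((1 + p.1 ^ 2) * (1 + ‖p.2‖ ^ 2)))) *
          (Real.exp (-p.1 ^ 2 / 2) * Real.exp (-‖p.2‖ ^ 2 / 2)) := by
          apply mul_le_mul_of_nonneg_right _ e3.le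
          exact (hb p).trans (mul_le_mul_of_nonneg_left e2 hC)
      _ = _ := by ring
  refine ⟨hΨi, ?_⟩
  -- the functions P and Q
  set u : F → F := fun y => ‖y‖⁻¹ • y with hu
  have hum : Measurable u := by
    rw [hu]; exact (measurable_norm.inv).smul measurable_id
  have hun : ∀ y, ‖u y‖ ≤ 1 := by
    intro y
    simp only [hu, norm_smul, norm_inv, norm_norm]
    by_cases hy : ‖y‖ = 0
    · simp [hy]
    · rw [inv_mul_cancel₀ hy]
  set P : ℝ × F → ℝ := fun p =>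
    wt (m + 1) p.1 * (‖p.2‖ ^ 2 * Φ (p.1, u p.2) * Real.exp (-‖p.2‖ ^ 2 / 2)) with hP
  set Q : ℝ × F → ℝ := fun p =>
    ‖p.2‖ ^ 2 * Φ (p.1, u p.2) * Real.exp (-((1 + p.1 ^ 2) * ‖p.2‖ ^ 2) / 2) with hQ
  have hΦm : Measurable fun p : ℝ × F => Φ (p.1, u p.2) :=
    hc.measurable.comp (measurable_fst.prodMk (hum.comp measurable_snd))
  have hwm : Measurable fun p : ℝ × F => wt (m + 1) p.1 :=
    (FB27_wt_cont _).measurable.comp measurable_fst
  have hPm : Measurable P := by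
    rw [hP]
    exact hwm.mul ((by fun_prop : Measurable fun p : ℝ × F => ‖p.2‖ ^ 2).mul hΦm |>.mul
      (by fun_prop))
  have hQm : Measurable Q := by
    rw [hQ]
    exact ((by fun_prop : Measurable fun p : ℝ × F => ‖p.2‖ ^ 2).mul hΦm |>.mul
      (by fun_prop))
  have hPi : Integrable P (volume.prod volume) := by
    have h1 : Integrable (fun p : ℝ × F => ((1 + |p.1|) * wt (m + 1) p.1) *
        ((1 + ‖p.2‖ ^ 2) * Real.exp (-‖p.2‖ ^ 2 / 2))) (volume.prod volume) :=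
      (FB27_wt_int (d := m + 1) (by omega)).mul_prod (FB27_int_gauss (F := F))
    refine (h1.const_mul C).mono' hPm.aestronglyMeasurable ?_
    filter_upwards with p
    rw [hP]
    have e0 := (FB27_wt_pos (m + 1) p.1)
    simp only [norm_mul, Real.norm_eq_abs, Real.abs_exp, abs_of_pos e0, norm_pow, abs_norm]
    have e1 : |Φ (p.1, u p.2)| ≤ C * (1 + |p.1|) := by
      refine (hb _).trans (mul_le_mul_of_nonneg_left ?_ hC)
      have := hun p.2
      simp only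
      linarith
    calc wt (m + 1) p.1 * (‖p.2‖ ^ 2 * |Φ (p.1, u p.2)| * Real.exp (-‖p.2‖ ^ 2 / 2))
        ≤ wt (m + 1) p.1 * ((1 + ‖p.2‖ ^ 2) * (C * (1 + |p.1|)) * Real.exp (-‖p.2‖ ^ 2 / 2)) := by
          gcongr
          linarith
      _ = _ := by ring
  -- scaling relation
  have hs0 : ∀ q : ℝ, 0 < √(1 + q ^ 2) := fun q => Real.sqrt_pos.2 (by positivity)
  have hus : ∀ (s : ℝ) (z : F), 0 < s → u (s • z) = u z := by
    intro s z hs
    simp only [hu, norm_smul, Real.norm_of_nonneg hs.le, mul_inv, smul_smul]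
    congr 1
    field_simp
  have hQP : ∀ (q : ℝ) (z : F), Q (q, z) = √(1 + q ^ 2) ^ m * P (q, √(1 + q ^ 2) • z) := by
    intro q z
    simp only [hQ, hP]
    rw [hus _ _ (hs0 q), norm_smul, Real.norm_of_nonneg (hs0 q).le, mul_pow,
      Real.sq_sqrt (by positivity : (0 : ℝ) ≤ 1 + q ^ 2)]
    have h1 := FB27_wt_scale m q
    have h2 : √(1 + q ^ 2) ^ (m + 2) = √(1 + q ^ 2) ^ m * (1 + q ^ 2) := by
      rw [pow_add, Real.sq_sqrt (by positivity)]
    rw [h2] at h1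
    have h3 : -((1 + q ^ 2) * ‖z‖ ^ 2) / 2 = -((1 + q ^ 2) * ‖z‖ ^ 2) / 2 := rfl
    calc ‖z‖ ^ 2 * Φ (q, u z) * Real.exp (-((1 + q ^ 2) * ‖z‖ ^ 2) / 2)
        = (wt (m + 1) q * (√(1 + q ^ 2) ^ m * (1 + q ^ 2))) *
          (‖z‖ ^ 2 * Φ (q, u z) * Real.exp (-((1 + q ^ 2) * ‖z‖ ^ 2) / 2)) := by
          rw [h1, one_mul]
      _ = _ := by ring
  have hint : ∀ (q : ℝ) (g : F → ℝ), √(1 + q ^ 2) ^ m * ∫ z, g (√(1 + q ^ 2) • z) = ∫ y, g y := by
    intro q g
    rw [Measure.integral_comp_smul, smul_eq_mul, ← mul_assoc,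
      abs_of_pos (inv_pos.2 (pow_pos (hs0 q) _)), mul_inv_cancel₀ (pow_pos (hs0 q) _).ne', one_mul]
  have hPq : ∀ᵐ q : ℝ, Integrable fun y => P (q, y) := hPi.prod_right_ae
  have hQi : Integrable Q (volume.prod volume) := by
    rw [integrable_prod_iff hQm.aestronglyMeasurable]
    constructor
    · filter_upwards [hPq] with q hq
      have h1 : (fun z => Q (q, z)) = fun z => √(1 + q ^ 2) ^ m * P (q, √(1 + q ^ 2) • z) :=
        funext fun z => hQP q z
      rw [h1]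
      exact (((integrable_comp_smul_iff (volume : Measure F) (fun y => P (q, y))
        (hs0 q).ne').2 hq)).const_mul _
    · have h2 := hPi.norm.integral_prod_left
      refine h2.congr ?_
      filter_upwards with q
      have h1 : (fun z => ‖Q (q, z)‖) =
          fun z => √(1 + q ^ 2) ^ m * ‖P (q, √(1 + q ^ 2) • z)‖ := by
        funext z
        rw [hQP, norm_mul, Real.norm_of_nonneg (pow_nonneg (hs0 q).le _)]
      simp only [h1]
      rw [integral_const_mul, hint q (fun y => ‖P (q, y)‖)]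
  have hPQ : ∫ p, Q p ∂(volume.prod volume) = ∫ p, P p ∂(volume.prod volume) := by
    rw [integral_prod _ hQi, integral_prod _ hPi]
    congr 1
    funext q
    have h1 : (fun z => Q (q, z)) = fun z => √(1 + q ^ 2) ^ m * P (q, √(1 + q ^ 2) • z) :=
      funext fun z => hQP q z
    rw [h1, integral_const_mul, hint q (fun y => P (q, y))]
  have hQΨ : ∫ p, Q p ∂(volume.prod volume) = ∫ p, Ψ p ∂(volume.prod volume) := by
    rw [integral_prod_symm _ hQi, integral_prod_symm _ hΨi]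
    have hne : ∀ᵐ z : F, z ≠ 0 := by
      have : (volume : Measure F) {0} = 0 := measure_singleton 0
      rw [ae_iff]; simpa using this
    refine integral_congr_ae ?_
    filter_upwards [hne] with z hz
    have hz' : 0 < ‖z‖ := norm_pos_iff.2 hz
    have h1 : (fun q => Q (q, z)) = fun q : ℝ => ‖z‖ * Ψ (q * ‖z‖, z) := by
      funext q
      simp only [hQ, hΨ]
      have h2 : ((q * ‖z‖, z) : ℝ × F) = ‖z‖ • (q, u z) := by
        simp only [hu, Prod.smul_mk, smul_eq_mul, smul_smul, mul_inv_cancel₀ hz'.ne', one_smul]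
        rw [mul_comm]
      have h3 : Φ (q * ‖z‖, z) = ‖z‖ * Φ (q, u z) := by rw [h2, hh _ hz']
      rw [h3]
      have h4 : -((q * ‖z‖) ^ 2 + ‖z‖ ^ 2) / 2 = -((1 + q ^ 2) * ‖z‖ ^ 2) / 2 := by ring
      rw [h4]; ring
    have h5 := Measure.integral_comp_mul_right (fun t : ℝ => Ψ (t, z)) ‖z‖
    simp only [h1]
    rw [integral_const_mul, h5, abs_of_pos (inv_pos.2 hz'), smul_eq_mul, ← mul_assoc,
      mul_inv_cancel₀ hz'.ne', one_mul]
  have hJi : Integrable (fun y : F => ∫ q : ℝ, P (q, y)) := hPi.integral_prod_right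
  have hJ : ∀ y : F, ∫ q : ℝ, P (q, y) =
      ‖y‖ ^ 2 * Real.exp (-‖y‖ ^ 2 / 2) * ∫ q : ℝ, wt (m + 1) q * Φ (q, u y) := by
    intro y
    rw [← integral_const_mul]
    congr 1
    funext q
    simp only [hP]; ring
  have hun1 : ∀ y : F, y ≠ 0 → ‖u y‖ = 1 := by
    intro y hy
    have hy' : 0 < ‖y‖ := norm_pos_iff.2 hy
    simp only [hu, norm_smul, norm_inv, norm_norm, inv_mul_cancel₀ hy'.ne']
  have hJ0 : 0 ≤ fun y : F => ∫ q : ℝ, P (q, y) := by
    intro y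
    by_cases hy : y = 0
    · simp only [Pi.zero_apply]
      rw [hJ, hy]; simp
    · simp only [Pi.zero_apply]
      rw [hJ]
      exact mul_nonneg (by positivity) (hpos _ (hun1 y hy))
  have h9 : ∫ p : ℝ × F, Ψ p = ∫ p, Ψ p ∂(volume.prod volume) := rfl
  have h10 : ∫ p : ℝ × F, Ψ p = ∫ y : F, ∫ q : ℝ, P (q, y) := by
    rw [h9, ← hQΨ, hPQ, integral_prod_symm _ hPi]
  refine ⟨?_, ?_⟩
  · rw [h10]
    exact integral_nonneg hJ0
  · rintro ⟨θ0, hθ0, hθ0p⟩
    rw [h10, integral_pos_iff_support_of_nonneg hJ0 hJi]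
    -- continuity of the slice integral
    have hI : Continuous fun θ : F => ∫ q : ℝ, wt (m + 1) q * Φ (q, θ) := by
      rw [continuous_iff_continuousAt]
      intro θ1
      have hnb : ∀ᶠ θ in 𝓝 θ1, ‖θ‖ < ‖θ1‖ + 1 :=
        (continuous_norm.tendsto θ1).eventually_lt_const (by linarith)
      refine continuousAt_of_dominated (F := fun θ q => wt (m + 1) q * Φ (q, θ))
        (bound := fun q => (C * (‖θ1‖ + 1)) * ((1 + |q|) * wt (m + 1) q)) ?_ ?_ ?_ ?_
      · refine Eventually.of_forall fun θ => ?_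
        exact ((FB27_wt_cont (m + 1)).mul
          (hc.comp (Continuous.prodMk continuous_id continuous_const))).aestronglyMeasurable
      · filter_upwards [hnb] with θ hθ
        refine Eventually.of_forall fun q => ?_
        have e0 := (FB27_wt_pos (m + 1) q)
        rw [norm_mul, Real.norm_of_nonneg e0.le, Real.norm_eq_abs]
        have e1 := hb (q, θ)
        simp only at e1
        have e2 : |q| + ‖θ‖ ≤ (‖θ1‖ + 1) * (1 + |q|) := by
          nlinarith [abs_nonneg q, norm_nonneg θ1, norm_nonneg θ]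
        have e3 : C * (|q| + ‖θ‖) ≤ C * ((‖θ1‖ + 1) * (1 + |q|)) :=
          mul_le_mul_of_nonneg_left e2 hC
        calc wt (m + 1) q * |Φ (q, θ)| ≤ wt (m + 1) q * (C * ((‖θ1‖ + 1) * (1 + |q|))) :=
              mul_le_mul_of_nonneg_left (e1.trans e3) e0.le
          _ = _ := by ring
      · exact (FB27_wt_int (d := m + 1) (by omega)).const_mul _
      · refine Eventually.of_forall fun q => ?_
        exact (continuous_const.mul
          (hc.comp (Continuous.prodMk continuous_const continuous_id))).continuousAt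
    -- an open set in the support
    have hθ00 : θ0 ≠ 0 := by
      intro h
      rw [h, norm_zero] at hθ0
      exact zero_ne_one hθ0
    have huc : ContinuousAt u θ0 := by
      simp only [hu]
      exact (continuousAt_id.norm.inv₀ (norm_ne_zero_iff.2 hθ00)).smul continuousAt_id
    have huθ0 : u θ0 = θ0 := by simp [hu, hθ0]
    have hcomp : ContinuousAt (fun y : F => ∫ q : ℝ, wt (m + 1) q * Φ (q, u y)) θ0 := by
      have := (hI.continuousAt (x := u θ0)).comp huc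
      exact this
    have hev : ∀ᶠ y in 𝓝 θ0, 0 < ∫ q : ℝ, wt (m + 1) q * Φ (q, u y) := by
      apply hcomp.eventually_const_lt
      show 0 < ∫ q : ℝ, wt (m + 1) q * Φ (q, u θ0)
      rw [huθ0]
      exact hθ0p
    have hev2 : ∀ᶠ y : F in 𝓝 θ0, y ≠ 0 := isOpen_compl_singleton.mem_nhds hθ00
    obtain ⟨V, hV, hVo, hVθ⟩ := _root_.eventually_nhds_iff.1 (hev.and hev2)
    have hsub : V ⊆ Function.support fun y : F => ∫ q : ℝ, P (q, y) := by
      intro y hy
      obtain ⟨h1, h2⟩ := hV y hy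
      have hy' : 0 < ‖y‖ := norm_pos_iff.2 h2
      rw [Function.mem_support, hJ]
      exact (mul_pos (by positivity) h1).ne'
    exact lt_of_lt_of_le (hVo.measure_pos _ ⟨θ0, hVθ⟩) (measure_mono hsub)

end core

/-- Monotonicity of the Gaussian functional with respect to slices, and strictness as soon as one
slice is strict. -/
theorem G_le_of_slices {d : ℕ} (hd : 2 ≤ d) {D K : Set (Eu d)} (hD : Body D) (hK : Body K)
    {e : Eu d} (he : ‖e‖ = 1)
    (h : ∀ θ : Eu d, ‖θ‖ = 1 → ⟪e, θ⟫_ℝ = 0 →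
      ∫ q in Ioi 0, S4 D e θ q * wt d q ≤ ∫ q in Ioi 0, S4 K e θ q * wt d q) :
    G D ≤ G K ∧ ((∃ θ : Eu d, ‖θ‖ = 1 ∧ ⟪e, θ⟫_ℝ = 0 ∧
      ∫ q in Ioi 0, S4 D e θ q * wt d q < ∫ q in Ioi 0, S4 K e θ q * wt d q) → G D < G K) := by
  obtain ⟨iD, gD⟩ := FB27_G hD he
  obtain ⟨iK, gK⟩ := FB27_G hK he
  obtain ⟨C1, hC1, hb1⟩ := FB27_S4_bound hD
  obtain ⟨C2, hC2, hb2⟩ := FB27_S4_bound hK
  have hfr := FB27_finrank he
  rw [finrank_euclideanSpace_fin] at hfr
  have h9 : ∀ θ : Eu d, ∫ q : ℝ, wt d q * (S4 K e θ q - S4 D e θ q) =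
      2 * ((∫ q in Ioi 0, S4 K e θ q * wt d q) - ∫ q in Ioi 0, S4 D e θ q * wt d q) := by
    intro θ
    have h7 := integral_comp_abs (f := fun q : ℝ => wt d q * (S4 K e θ q - S4 D e θ q))
    have h8 : (fun q : ℝ => wt d |q| * (S4 K e θ |q| - S4 D e θ |q|)) =
        fun q : ℝ => wt d q * (S4 K e θ q - S4 D e θ q) := by
      funext q
      rw [FB27_S4_abs, FB27_S4_abs]
      congr 1
      unfold wt; rw [sq_abs]
    rw [h8] at h7
    rw [h7, ← integral_sub (integrableOn_S4 hd hK e θ) (integrableOn_S4 hd hD e θ)]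
    congr 2
    funext q
    ring
  have hcore := FBE_core (F := (ℝ ∙ e)ᗮ) (by omega)
    (fun p => S4 K e p.2 p.1 - S4 D e p.2 p.1) ?_ (C := C1 + C2) (by positivity) ?_ ?_ ?_
  · obtain ⟨-, h2, h2'⟩ := hcore
    have h3 : ∫ p : ℝ × (ℝ ∙ e)ᗮ, (S4 K e p.2 p.1 - S4 D e p.2 p.1) *
        Real.exp (-(p.1 ^ 2 + ‖p.2‖ ^ 2) / 2) = 4 * G K - 4 * G D := by
      rw [← gK, ← gD, ← integral_sub iK iD]
      congr 1
      funext p
      ring
    rw [h3] at h2 h2'
    refine ⟨by linarith, ?_⟩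
    rintro ⟨θ, hθ, hθe, hlt⟩
    have h4 := h2' ⟨⟨θ, (Submodule.mem_orthogonal_singleton_iff_inner_right).2 hθe⟩,
      by rw [Submodule.coe_norm]; exact hθ, by
        simp only [hfr]
        rw [h9]
        linarith⟩
    linarith
  · have c1 := hK.continuous_hS
    have c2 := hD.continuous_hS
    unfold S4
    fun_prop
  · intro p
    have b1 := hb1 e (p.2 : Eu d) p.1
    have b2 := hb2 e (p.2 : Eu d) p.1
    rw [he, mul_one] at b1 b2
    have h5 : |S4 K e p.2 p.1 - S4 D e p.2 p.1| ≤ |S4 K e p.2 p.1| + |S4 D e p.2 p.1| :=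
      abs_sub _ _
    rw [Submodule.coe_norm]
    linarith
  · intro r hr p
    simp only [Prod.smul_fst, Prod.smul_snd, Submodule.coe_smul, smul_eq_mul]
    rw [FB27_S4_smul hK hr, FB27_S4_smul hD hr]
    ring
  · intro θ hθ
    have hθ1 : ‖(θ : Eu d)‖ = 1 := by rw [← Submodule.coe_norm]; exact hθ
    have hθ0 : ⟪e, (θ : Eu d)⟫_ℝ = 0 :=
      (Submodule.mem_orthogonal_singleton_iff_inner_right).1 θ.2
    have h6 := h θ hθ1 hθ0
    simp only [hfr]
    rw [h9]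
    linarith

end Pool.Agent.Sausage27
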