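import Pool.Agent.Sausage27.GF8

/-!
# VB12: the Gaussian functional of a body contained in a tube
-/

namespace Pool.Agent.Sausage27

open MeasureTheory Set Metric Filter Topology
open scoped InnerProductSpace Pointwise

section gauss

variable {E : Type*} [NormedAddCommGroup E] [InnerProductSpace ℝ E] [FiniteDimensional ℝ E]
  [MeasurableSpace E] [BorelSpace E]

theorem VB12_integrable_exp {b : ℝ} (hb : 0 < b) :
    Integrable (fun x : E => Real.exp (-b * ‖x‖ ^ 2)) := by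
  have h := (GaussianFourier.integrable_cexp_neg_mul_sq_norm_add (V := E) (b := (b : ℂ))
    (by simpa using hb) 0 0).norm
  refine h.congr (Eventually.of_forall fun x => ?_)
  simp only [zero_mul, add_zero]
  rw [Complex.norm_exp]
  congr 1
  norm_cast

/-- A continuous function of linear growth is integrable against the Gaussian weight. -/
theorem VB12_integrable {f : E → ℝ} (hf : Continuous f) {R : ℝ} (hR : ∀ x, |f x| ≤ R * ‖x‖) :
    Integrable (fun x : E => f x * Real.exp (-‖x‖ ^ 2 / 2)) := by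
  have h1 := (VB12_integrable_exp (E := E) (b := 1 / 4) (by norm_num)).const_mul |R|
  refine h1.mono' (by fun_prop) (Eventually.of_forall fun x => ?_)
  rw [norm_mul, Real.norm_eq_abs, Real.norm_eq_abs, abs_of_pos (Real.exp_pos _)]
  have h2 : |f x| ≤ |R| * ‖x‖ :=
    (hR x).trans (mul_le_mul_of_nonneg_right (le_abs_self R) (norm_nonneg x))
  have h3 : ‖x‖ ≤ Real.exp (1 / 4 * ‖x‖ ^ 2) := by
    have h4 := Real.add_one_le_exp (1 / 4 * ‖x‖ ^ 2)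
    nlinarith [sq_nonneg (‖x‖ - 2)]
  calc |f x| * Real.exp (-‖x‖ ^ 2 / 2)
      ≤ (|R| * ‖x‖) * Real.exp (-‖x‖ ^ 2 / 2) :=
        mul_le_mul_of_nonneg_right h2 (Real.exp_pos _).le
    _ ≤ (|R| * Real.exp (1 / 4 * ‖x‖ ^ 2)) * Real.exp (-‖x‖ ^ 2 / 2) :=
        mul_le_mul_of_nonneg_right (mul_le_mul_of_nonneg_left h3 (abs_nonneg _))
          (Real.exp_pos _).le
    _ = |R| * Real.exp (-(1 / 4) * ‖x‖ ^ 2) := by
        rw [mul_assoc, ← Real.exp_add]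
        congr 2
        ring

private lemma odd_integral (a : E) :
    ∫ x : E, ⟪a, x⟫_ℝ * Real.exp (-‖x‖ ^ 2 / 2) = 0 := by
  have h := integral_neg_eq_self (fun x : E => ⟪a, x⟫_ℝ * Real.exp (-‖x‖ ^ 2 / 2)) volume
  simp only [inner_neg_right, norm_neg, neg_mul] at h
  rw [integral_neg] at h
  linarith

/-- VB12. -/
theorem G_le_of_tube {D : Set E} (hD : Body D) {e x0 : E} (he : ‖e‖ = 1) {ℓ r : ℝ} (hℓ : 0 ≤ ℓ)
    (hr : 0 ≤ r) (hslab : ∀ x ∈ D, 0 ≤ ⟪e, x - x0⟫_ℝ ∧ ⟪e, x - x0⟫_ℝ ≤ ℓ)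
    (hlat : ∀ x ∈ D, ‖x - x0 - ⟪e, x - x0⟫_ℝ • e‖ ≤ r) :
    G D ≤ (ℓ / 2 * √(2 / Real.pi) + r * √(Module.finrank ℝ E)) * Zg E := by
  have hpt : ∀ x : E, hS D x ≤
      ⟪x0, x⟫_ℝ + (ℓ / 2 * ⟪e, x⟫_ℝ + (ℓ / 2 * |⟪e, x⟫_ℝ| + r * ‖x‖)) := by
    intro x
    refine hD.hS_le fun y hy => ?_
    have h1 : ⟪y, x⟫_ℝ = ⟪x0, x⟫_ℝ + (⟪e, y - x0⟫_ℝ * ⟪e, x⟫_ℝ +
        ⟪y - x0 - ⟪e, y - x0⟫_ℝ • e, x⟫_ℝ) := by
      rw [inner_sub_left (y - x0), inner_smul_left, inner_sub_left y x0 x]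
      simp only [conj_trivial]
      ring
    have h2 : ⟪y - x0 - ⟪e, y - x0⟫_ℝ • e, x⟫_ℝ ≤ r * ‖x‖ :=
      (real_inner_le_norm _ _).trans (mul_le_mul_of_nonneg_right (hlat y hy) (norm_nonneg _))
    have h3 : ⟪e, y - x0⟫_ℝ * ⟪e, x⟫_ℝ ≤ ℓ / 2 * ⟪e, x⟫_ℝ + ℓ / 2 * |⟪e, x⟫_ℝ| := by
      obtain ⟨h4, h5⟩ := hslab y hy
      rcases le_total 0 (⟪e, x⟫_ℝ) with h6 | h6
      · rw [abs_of_nonneg h6]
        nlinarith
      · rw [abs_of_nonpos h6]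
        nlinarith
    rw [h1]
    linarith
  obtain ⟨R, hR0, -, hR, -⟩ := hD.exists_bound
  have i0 : Integrable (fun x : E => hS D x * Real.exp (-‖x‖ ^ 2 / 2)) :=
    VB12_integrable hD.continuous_hS hR
  have i1 : Integrable (fun x : E => ⟪x0, x⟫_ℝ * Real.exp (-‖x‖ ^ 2 / 2)) :=
    VB12_integrable (by fun_prop) (R := ‖x0‖) fun x => abs_real_inner_le_norm _ _
  have i2 : Integrable (fun x : E => ⟪e, x⟫_ℝ * Real.exp (-‖x‖ ^ 2 / 2)) :=
    VB12_integrable (by fun_prop) (R := ‖e‖) fun x => abs_real_inner_le_norm _ _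
  have i3 : Integrable (fun x : E => |⟪e, x⟫_ℝ| * Real.exp (-‖x‖ ^ 2 / 2)) :=
    VB12_integrable (by fun_prop) (R := ‖e‖) fun x => by
      rw [abs_abs]
      exact abs_real_inner_le_norm _ _
  have i4 : Integrable (fun x : E => ‖x‖ * Real.exp (-‖x‖ ^ 2 / 2)) :=
    VB12_integrable continuous_norm (R := 1) fun x => by
      rw [abs_of_nonneg (norm_nonneg _), one_mul]
  have j3 : Integrable (fun x : E => ℓ / 2 * (|⟪e, x⟫_ℝ| * Real.exp (-‖x‖ ^ 2 / 2)) +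
      r * (‖x‖ * Real.exp (-‖x‖ ^ 2 / 2))) := (i3.const_mul _).add (i4.const_mul _)
  have j2 : Integrable (fun x : E => ℓ / 2 * (⟪e, x⟫_ℝ * Real.exp (-‖x‖ ^ 2 / 2)) +
      (ℓ / 2 * (|⟪e, x⟫_ℝ| * Real.exp (-‖x‖ ^ 2 / 2)) +
      r * (‖x‖ * Real.exp (-‖x‖ ^ 2 / 2)))) := (i2.const_mul _).add j3
  have hmono : G D ≤ ∫ x : E, (⟪x0, x⟫_ℝ * Real.exp (-‖x‖ ^ 2 / 2) +
      (ℓ / 2 * (⟪e, x⟫_ℝ * Real.exp (-‖x‖ ^ 2 / 2)) +
      (ℓ / 2 * (|⟪e, x⟫_ℝ| * Real.exp (-‖x‖ ^ 2 / 2)) +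
        r * (‖x‖ * Real.exp (-‖x‖ ^ 2 / 2))))) := by
    unfold G
    refine integral_mono i0 (i1.add j2) fun x => ?_
    have h := mul_le_mul_of_nonneg_right (hpt x) (Real.exp_pos (-‖x‖ ^ 2 / 2)).le
    refine h.trans (le_of_eq ?_)
    ring
  refine hmono.trans ?_
  rw [integral_add i1 j2, integral_add (i2.const_mul _) j3,
    integral_add (i3.const_mul _) (i4.const_mul _), integral_const_mul, integral_const_mul,
    integral_const_mul, odd_integral, odd_integral, gauss_abs he]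
  have h5 := mul_le_mul_of_nonneg_left (gauss_norm (E := E)) hr
  have h6 : (ℓ / 2 * √(2 / Real.pi) + r * √(Module.finrank ℝ E)) * Zg E =
      0 + (ℓ / 2 * 0 + (ℓ / 2 * (√(2 / Real.pi) * Zg E) +
        r * (√(Module.finrank ℝ E) * Zg E))) := by ring
  rw [h6]
  linarith

end gauss

end Pool.Agent.Sausage27
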