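import Pool.Agent.Sausage27.ChainDefs
import Pool.Agent.Sausage27.VB12

/-!
# Sausage27: translation, centring, and the equality case
-/

namespace Pool.Agent.Sausage27

open MeasureTheory Set Metric Filter Topology
open scoped InnerProductSpace Pointwise

section general

variable {E : Type*} [NormedAddCommGroup E] [InnerProductSpace ℝ E]

theorem FN_bA (c : ℕ → E) (N : ℕ) (a : E) : bA (fun j => c j + a) N = bA c N := by
  unfold bA; simp

theorem FN_bd (c : ℕ → E) (N : ℕ) (a : E) : bd (fun j => c j + a) N = bd c N := by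
  unfold bd; rw [FN_bA]; simp

theorem FN_rho (c : ℕ → E) (j : ℕ) (a : E) : rho (fun j => c j + a) j = rho c j := by
  unfold rho; simp

theorem FN_rhob (c : ℕ → E) (N : ℕ) (a : E) : rhob (fun j => c j + a) N = rhob c N := by
  unfold rhob; rw [FN_bA]

theorem FN_rhoW (c : ℕ → E) (N : ℕ) (a : E) : rhoW (fun j => c j + a) N = rhoW c N := by
  unfold rhoW; rw [FN_bA]; simp [FN_rho]

theorem FN_vr (c : ℕ → E) (N : ℕ) (a : E) : vr (fun j => c j + a) N = vr c N := by
  unfold vr; rw [FN_bA, FN_rhoW]; simp [FN_rho]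

theorem Chain.translate {δ : ℝ} {N : ℕ} {D : Set E} {c : ℕ → E} {e : E} (h : Chain δ N D c e)
    (a : E) : Chain δ N ((fun x => x + a) '' D) (fun j => c j + a) e := by
  have hmid : ∀ i j : ℕ, midpoint ℝ (c i + a) (c j + a) = midpoint ℝ (c i) (c j) + a := by
    intro i j
    simp only [midpoint_eq_smul_add]
    have : c i + a + (c j + a) = c i + c j + (2 : ℝ) • a := by rw [two_smul]; abel
    rw [this, smul_add, smul_smul]; simp
  refine ⟨h.norm_e, by simpa using h.axis, by simpa using h.a_le, by simpa using h.rho_le,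
    by simpa using h.mono, ?_, ?_, ?_, ?_, ?_, ?_, ?_⟩
  · rintro j hj _ ⟨x, hx, rfl⟩ h0
    simp only [hmid, add_sub_add_right_eq_sub] at h0 ⊢
    exact h.slice j hj x hx h0
  · rintro _ ⟨x, hx, rfl⟩ h0
    simp only [add_sub_add_right_eq_sub] at h0 ⊢
    exact h.right x hx h0
  · rintro _ ⟨x, hx, rfl⟩ h0
    simp only [add_sub_add_right_eq_sub] at h0 ⊢
    exact h.left x hx h0
  · rintro _ ⟨x, hx, rfl⟩
    simp only [add_sub_add_right_eq_sub]
    exact h.lat x hx
  · intro j hj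
    simp only [add_sub_add_right_eq_sub]
    exact h.latc j hj
  · obtain ⟨x, hx, h1⟩ := h.right_pt
    exact ⟨x + a, mem_image_of_mem _ hx, by simpa using h1⟩
  · obtain ⟨x, hx, h1⟩ := h.left_pt
    exact ⟨x + a, mem_image_of_mem _ hx, by simpa using h1⟩

theorem FN_centre (c : ℕ → E) (N : ℕ) (hA : bA c N ≠ 0) : ∃ a : E, Centred (fun j => c j + a) N := by
  refine ⟨-(1 / (2 * bA c N)) • ∑ j ∈ Finset.range N, ‖c (j + 1) - c j‖ • (c j + c (j + 1)), ?_⟩
  unfold Centred
  set S := ∑ j ∈ Finset.range N, ‖c (j + 1) - c j‖ • (c j + c (j + 1)) with hS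
  have h1 : ∀ j ∈ Finset.range N,
      ‖(c (j + 1) + -(1 / (2 * bA c N)) • S) - (c j + -(1 / (2 * bA c N)) • S)‖ •
        ((c j + -(1 / (2 * bA c N)) • S) + (c (j + 1) + -(1 / (2 * bA c N)) • S)) =
      ‖c (j + 1) - c j‖ • (c j + c (j + 1)) +
        ‖c (j + 1) - c j‖ • (-(1 / bA c N) • S) := by
    intro j _
    rw [add_sub_add_right_eq_sub, ← smul_add]
    congr 1
    have : -(1 / bA c N) • S = -(1 / (2 * bA c N)) • S + -(1 / (2 * bA c N)) • S := by
      rw [← add_smul]; congr 1; field_simp; ring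
    rw [this]; abel
  rw [Finset.sum_congr rfl h1, Finset.sum_add_distrib, ← hS, ← Finset.sum_smul]
  have h2 : ∑ j ∈ Finset.range N, ‖c (j + 1) - c j‖ = bA c N := rfl
  rw [h2, smul_smul]
  have h3 : bA c N * -(1 / bA c N) = -1 := by field_simp
  rw [h3]; simp

/-- The equality case: no bending and no variance. -/
theorem FN_aligned {δ : ℝ} {N : ℕ} {D : Set E} {c : ℕ → E} {e : E} (h : Chain δ N D c e)
    (hpos : ∀ j < N, 0 < ‖c (j + 1) - c j‖)
    (hsum : bd c N = ∑ j ∈ Finset.range N, (‖c (j + 1) - c j‖ - ⟪e, c (j + 1) - c j⟫_ℝ))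
    (hbd : bd c N ≤ 0) (hvr : vr c N ≤ 0) : ∃ v : E, ∀ j ≤ N, c j = c 0 + (j : ℝ) • v := by
  rcases Nat.eq_zero_or_pos N with hN | hN
  · subst hN
    exact ⟨0, fun j hj => by simp [Nat.le_zero.1 hj]⟩
  -- no bending
  have h1 : ∀ j < N, c (j + 1) - c j = ‖c (j + 1) - c j‖ • e := by
    intro j hj
    have hnn : ∀ i ∈ Finset.range N, 0 ≤ ‖c (i + 1) - c i‖ - ⟪e, c (i + 1) - c i⟫_ℝ := by
      intro i _
      have := real_inner_le_norm e (c (i + 1) - c i)
      rw [h.norm_e, one_mul] at this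
      linarith
    have h2 : ∑ i ∈ Finset.range N, (‖c (i + 1) - c i‖ - ⟪e, c (i + 1) - c i⟫_ℝ) = 0 :=
      le_antisymm (hsum ▸ hbd) (Finset.sum_nonneg hnn)
    have h3 := (Finset.sum_eq_zero_iff_of_nonneg hnn).1 h2 j (Finset.mem_range.2 hj)
    have h4 : ⟪e, c (j + 1) - c j⟫_ℝ = ‖e‖ * ‖c (j + 1) - c j‖ := by
      rw [h.norm_e, one_mul]; linarith
    rw [inner_eq_norm_mul_iff_real] at h4
    rw [h.norm_e, one_smul] at h4
    exact h4.symm
  -- no variance
  have hAp : 0 < bA c N := by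
    unfold bA
    apply Finset.sum_pos (fun i hi => hpos i (Finset.mem_range.1 hi))
    exact ⟨0, Finset.mem_range.2 hN⟩
  have h5 : ∀ j < N, rho c j = rhoW c N := by
    intro j hj
    have hnn : ∀ i ∈ Finset.range N, 0 ≤ ‖c (i + 1) - c i‖ * (rho c i - rhoW c N) ^ 2 :=
      fun i _ => mul_nonneg (norm_nonneg _) (sq_nonneg _)
    have h6 : ∑ i ∈ Finset.range N, ‖c (i + 1) - c i‖ * (rho c i - rhoW c N) ^ 2 = 0 := by
      apply le_antisymm _ (Finset.sum_nonneg hnn)
      have : vr c N * bA c N = ∑ i ∈ Finset.range N, ‖c (i + 1) - c i‖ *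
          (rho c i - rhoW c N) ^ 2 := by
        unfold vr; field_simp
      rw [← this]
      exact mul_nonpos_of_nonpos_of_nonneg hvr hAp.le
    have h7 := (Finset.sum_eq_zero_iff_of_nonneg hnn).1 h6 j (Finset.mem_range.2 hj)
    have h8 : (rho c j - rhoW c N) ^ 2 = 0 :=
      (mul_eq_zero.1 h7).resolve_left (hpos j hj).ne'
    have h9 := pow_eq_zero_iff (two_ne_zero) |>.1 h8
    linarith
  have h10 : ∀ j < N, ‖c (j + 1) - c j‖ = ‖c 1 - c 0‖ := by
    intro j hj
    have e1 : rho c j = rho c 0 := (h5 j hj).trans (h5 0 hN).symm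
    unfold rho at e1
    have p1 : 0 ≤ 1 - ‖c (j + 1) - c j‖ ^ 2 / 4 := by
      have := h.a_le j hj
      nlinarith [norm_nonneg (c (j + 1) - c j)]
    have p2 : 0 ≤ 1 - ‖c (0 + 1) - c 0‖ ^ 2 / 4 := by
      have := h.a_le 0 hN
      nlinarith [norm_nonneg (c (0 + 1) - c 0)]
    rw [Real.sqrt_inj p1 p2] at e1
    have e2 : ‖c (j + 1) - c j‖ ^ 2 = ‖c (0 + 1) - c 0‖ ^ 2 := by linarith
    have := (pow_left_inj₀ (norm_nonneg _) (norm_nonneg _) (two_ne_zero)).1 e2
    simpa using this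
  refine ⟨‖c 1 - c 0‖ • e, fun j => ?_⟩
  induction j with
  | zero => intro _; simp
  | succ j ih =>
    intro hj
    have e1 := ih (by omega)
    have e2 := h1 j (by omega)
    rw [h10 j (by omega)] at e2
    have : c (j + 1) = c j + ‖c 1 - c 0‖ • e := by rw [← e2]; abel
    rw [this, e1]
    push_cast
    rw [add_smul, one_smul]; abel

end general

section gauss

variable {E : Type*} [NormedAddCommGroup E] [InnerProductSpace ℝ E] [FiniteDimensional ℝ E]
  [MeasurableSpace E] [BorelSpace E]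

theorem FN_integrable_inner (a : E) :
    Integrable (fun x : E => ⟪a, x⟫_ℝ * Real.exp (-‖x‖ ^ 2 / 2)) :=
  VB12_integrable (by fun_prop) (R := ‖a‖) fun x => abs_real_inner_le_norm _ _

theorem FN_integrable_hS {D : Set E} (hD : Body D) :
    Integrable (fun x : E => hS D x * Real.exp (-‖x‖ ^ 2 / 2)) := by
  obtain ⟨R, hR, -, hb, -⟩ := hD.exists_bound
  exact VB12_integrable hD.continuous_hS hb

theorem FN_G_translate {D : Set E} (hD : Body D) (a : E) : G ((fun x => x + a) '' D) = G D := by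
  unfold G
  have h1 : ∀ x : E, hS ((fun x => x + a) '' D) x * Real.exp (-‖x‖ ^ 2 / 2) =
      hS D x * Real.exp (-‖x‖ ^ 2 / 2) + ⟪a, x⟫_ℝ * Real.exp (-‖x‖ ^ 2 / 2) := by
    intro x; rw [hD.hS_translate]; ring
  simp only [h1]
  rw [integral_add (FN_integrable_hS hD) (FN_integrable_inner a)]
  have h2 : ∫ x : E, ⟪a, x⟫_ℝ * Real.exp (-‖x‖ ^ 2 / 2) = 0 := by
    have h3 := integral_neg_eq_self (fun x : E => ⟪a, x⟫_ℝ * Real.exp (-‖x‖ ^ 2 / 2)) volume
    simp only [inner_neg_right, norm_neg, neg_mul, integral_neg] at h3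
    linarith
  rw [h2, add_zero]

end gauss

end Pool.Agent.Sausage27
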