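import Pool.Agent.Sausage27.ChainDefs

/-!
# Sausage27: the competitors (KS26)
-/

namespace Pool.Agent.Sausage27

open MeasureTheory Set Metric Filter Topology
open scoped InnerProductSpace Pointwise

section general

variable {E : Type*} [NormedAddCommGroup E] [InnerProductSpace ℝ E]

theorem KS26_norm_sq {e : E} (he : ‖e‖ = 1) (x : E) (s : ℝ) :
    ‖x - s • e‖ ^ 2 = ‖x - ⟪e, x⟫_ℝ • e‖ ^ 2 + (⟪e, x⟫_ℝ - s) ^ 2 := by
  have h1 : x - s • e = (x - ⟪e, x⟫_ℝ • e) + (⟪e, x⟫_ℝ - s) • e := by module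
  have h2 : ⟪x - ⟪e, x⟫_ℝ • e, (⟪e, x⟫_ℝ - s) • e⟫_ℝ = 0 := by
    rw [inner_smul_right, inner_sub_left, inner_smul_left, real_inner_self_eq_norm_sq, he,
      real_inner_comm]
    simp
  rw [h1, norm_add_sq_real, h2, norm_smul, he, Real.norm_eq_abs]
  rw [mul_one, sq_abs]; ring

theorem KS26_concave {a b p q : ℝ} (ha : 0 ≤ a) (hb : 0 ≤ b) (hab : a + b = 1)
    (hp : 0 ≤ p) (hp1 : p ≤ 1) (hq : 0 ≤ q) (hq1 : q ≤ 1) :
    a * √(1 - p ^ 2) + b * √(1 - q ^ 2) ≤ √(1 - (a * p + b * q) ^ 2) := by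
  apply Real.le_sqrt_of_sq_le
  have h1 : √(1 - p ^ 2) ^ 2 = 1 - p ^ 2 := Real.sq_sqrt (by nlinarith)
  have h2 : √(1 - q ^ 2) ^ 2 = 1 - q ^ 2 := Real.sq_sqrt (by nlinarith)
  have h3 : √(1 - p ^ 2) * √(1 - q ^ 2) ≤ 1 - p * q := by
    nlinarith [sq_nonneg (√(1 - p ^ 2) - √(1 - q ^ 2)), sq_nonneg (p - q)]
  have hab' : 0 ≤ a * b := mul_nonneg ha hb
  have h4 : a ^ 2 + 2 * (a * b) + b ^ 2 = 1 := by
    have : (a + b) ^ 2 = 1 := by rw [hab]; norm_num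
    linarith [this, (by ring : (a + b) ^ 2 = a ^ 2 + 2 * (a * b) + b ^ 2)]
  have h5 := mul_le_mul_of_nonneg_left h3 hab'
  calc (a * √(1 - p ^ 2) + b * √(1 - q ^ 2)) ^ 2
      = a ^ 2 * √(1 - p ^ 2) ^ 2 + b ^ 2 * √(1 - q ^ 2) ^ 2
        + 2 * (a * b * (√(1 - p ^ 2) * √(1 - q ^ 2))) := by ring
    _ = a ^ 2 * (1 - p ^ 2) + b ^ 2 * (1 - q ^ 2)
        + 2 * (a * b * (√(1 - p ^ 2) * √(1 - q ^ 2))) := by rw [h1, h2]
    _ ≤ a ^ 2 * (1 - p ^ 2) + b ^ 2 * (1 - q ^ 2) + 2 * (a * b * (1 - p * q)) := by linarith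
    _ = (a ^ 2 + 2 * (a * b) + b ^ 2) - (a * p + b * q) ^ 2 := by ring
    _ = 1 - (a * p + b * q) ^ 2 := by rw [h4]

/-- KS26a. -/
theorem Kset_body [FiniteDimensional ℝ E] {e : E} (he : ‖e‖ = 1) {L ρ : ℝ} (hL : 0 ≤ L)
    (hρ : 0 ≤ ρ) (hρ1 : ρ ≤ 1) : Body (Kset e L ρ) := by
  refine ⟨?_, ?_, ?_⟩
  · rintro x ⟨hx1, hx2⟩ y ⟨hy1, hy2⟩ a b ha hb hab
    have hP : (a • x + b • y) - ⟪e, a • x + b • y⟫_ℝ • e =
        a • (x - ⟪e, x⟫_ℝ • e) + b • (y - ⟪e, y⟫_ℝ • e) := by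
      rw [inner_add_right, inner_smul_right, inner_smul_right]; module
    have hn : ‖(a • x + b • y) - ⟪e, a • x + b • y⟫_ℝ • e‖ ≤
        a * ‖x - ⟪e, x⟫_ℝ • e‖ + b * ‖y - ⟪e, y⟫_ℝ • e‖ := by
      rw [hP]
      refine (norm_add_le _ _).trans ?_
      rw [norm_smul, norm_smul, Real.norm_of_nonneg ha, Real.norm_of_nonneg hb]
    have hm : a * ‖x - ⟪e, x⟫_ℝ • e‖ + b * ‖y - ⟪e, y⟫_ℝ • e‖ ≤ ρ := by
      calc _ ≤ a * ρ + b * ρ :=
            add_le_add (mul_le_mul_of_nonneg_left hx1 ha) (mul_le_mul_of_nonneg_left hy1 hb)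
        _ = ρ := by rw [← add_mul, hab, one_mul]
    refine ⟨hn.trans hm, ?_⟩
    have h1 : |⟪e, a • x + b • y⟫_ℝ| ≤ a * |⟪e, x⟫_ℝ| + b * |⟪e, y⟫_ℝ| := by
      rw [inner_add_right, inner_smul_right, inner_smul_right]
      refine (abs_add_le _ _).trans ?_
      rw [abs_mul, abs_mul, abs_of_nonneg ha, abs_of_nonneg hb]
    have h2 := KS26_concave ha hb hab (norm_nonneg (x - ⟪e, x⟫_ℝ • e)) (hx1.trans hρ1)
      (norm_nonneg (y - ⟪e, y⟫_ℝ • e)) (hy1.trans hρ1)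
    have h3 : √(1 - (a * ‖x - ⟪e, x⟫_ℝ • e‖ + b * ‖y - ⟪e, y⟫_ℝ • e‖) ^ 2) ≤
        √(1 - ‖(a • x + b • y) - ⟪e, a • x + b • y⟫_ℝ • e‖ ^ 2) := by
      apply Real.sqrt_le_sqrt
      have := pow_le_pow_left₀ (norm_nonneg _) hn 2
      linarith
    have h4 := mul_le_mul_of_nonneg_left hx2 ha
    have h5 := mul_le_mul_of_nonneg_left hy2 hb
    have h6 : a * L + b * L = L := by rw [← add_mul, hab, one_mul]
    linarith [h1, h2, h3, h4, h5, h6, mul_add a L (√(1 - ‖x - ⟪e, x⟫_ℝ • e‖ ^ 2)),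
      mul_add b L (√(1 - ‖y - ⟪e, y⟫_ℝ • e‖ ^ 2))]
  · apply Metric.isCompact_of_isClosed_isBounded
    · have h1 : IsClosed {x : E | ‖x - ⟪e, x⟫_ℝ • e‖ ≤ ρ} :=
        isClosed_le (by fun_prop) (by fun_prop)
      have h2 : IsClosed {x : E | |⟪e, x⟫_ℝ| ≤ L + √(1 - ‖x - ⟪e, x⟫_ℝ • e‖ ^ 2)} :=
        isClosed_le (by fun_prop) (by fun_prop)
      exact h1.inter h2
    · rw [isBounded_iff_forall_norm_le]
      refine ⟨ρ + (L + 1), ?_⟩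
      rintro x ⟨hx1, hx2⟩
      have h1 : x = (x - ⟪e, x⟫_ℝ • e) + ⟪e, x⟫_ℝ • e := by module
      have h2 : √(1 - ‖x - ⟪e, x⟫_ℝ • e‖ ^ 2) ≤ 1 := by
        apply Real.sqrt_le_one.mpr
        nlinarith [sq_nonneg ‖x - ⟪e, x⟫_ℝ • e‖]
      calc ‖x‖ = ‖(x - ⟪e, x⟫_ℝ • e) + ⟪e, x⟫_ℝ • e‖ := by rw [← h1]
        _ ≤ ‖x - ⟪e, x⟫_ℝ • e‖ + ‖⟪e, x⟫_ℝ • e‖ := norm_add_le _ _
        _ ≤ ρ + (L + 1) := by
            rw [norm_smul, he, mul_one, Real.norm_eq_abs]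
            linarith
  · refine ⟨0, ?_, ?_⟩
    · simpa using hρ
    · simp only [inner_zero_right, abs_zero]
      positivity

/-- A grid point near a given one. -/
theorem KS26_grid {a s : ℝ} (N : ℕ) (hs1 : -((N + 1) * a / 2) ≤ s)
    (hs2 : s ≤ (N + 1) * a / 2) : ∃ j : Fin (N + 1), |s - (-(N * a / 2) + j * a)| ≤ a / 2 := by
  classical
  have hex : ∃ j : ℕ, s ≤ -(N * a / 2) + j * a + a / 2 :=
    ⟨N, by linarith⟩
  have hspec := Nat.find_spec hex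
  have hle : Nat.find hex ≤ N := Nat.find_min' hex (by linarith)
  refine ⟨⟨Nat.find hex, Nat.lt_succ_of_le hle⟩, ?_⟩
  rw [abs_le]
  constructor
  · rcases Nat.eq_zero_or_pos (Nat.find hex) with h0 | hpos
    · simp only [h0]; push_cast; linarith
    · obtain ⟨m, hm⟩ := Nat.exists_eq_succ_of_ne_zero hpos.ne'
      have hmin := Nat.find_min hex (m := m) (by omega)
      push Not at hmin
      have hc : ((Nat.find hex : ℕ) : ℝ) = m + 1 := by rw [hm]; push_cast; ring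
      simp only [hc]
      linarith
  · simp only
    linarith

/-- KS26b. -/
theorem Kset_cov [FiniteDimensional ℝ E] (hE : 2 ≤ Module.finrank ℝ E) {e : E} (he : ‖e‖ = 1)
    {a : ℝ} (ha : 0 ≤ a) (ha2 : a ≤ 2) (N : ℕ) :
    skel 1 (Kset e (N * a / 2) (√(1 - a ^ 2 / 4))) ⊆
      ⋃ j : Fin (N + 1), closedBall ((-(N * a / 2) + j * a) • e) 1 := by
  rintro x ⟨hxK, hx⟩
  by_contra hcon
  have hout : ∀ j : Fin (N + 1), 1 < ‖x - (-(N * a / 2) + j * a) • e‖ := by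
    intro j
    by_contra hle
    push Not at hle
    exact hcon (mem_iUnion.mpr ⟨j, by rwa [mem_closedBall, dist_eq_norm]⟩)
  have hout2 : ∀ j : Fin (N + 1), 1 < ‖x - ⟪e, x⟫_ℝ • e‖ ^ 2 +
      (⟪e, x⟫_ℝ - (-(N * a / 2) + j * a)) ^ 2 := by
    intro j
    rw [← KS26_norm_sq he]
    exact one_lt_pow₀ (hout j) (by norm_num)
  obtain ⟨hx1, hx2⟩ := hxK
  have hρ0 : 0 ≤ 1 - a ^ 2 / 4 := by nlinarith
  have hρsq : √(1 - a ^ 2 / 4) ^ 2 = 1 - a ^ 2 / 4 := Real.sq_sqrt hρ0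
  set p : ℝ := ‖x - ⟪e, x⟫_ℝ • e‖ with hp
  have hp0 : 0 ≤ p := norm_nonneg _
  -- strict inequalities
  have hs1 : p < √(1 - a ^ 2 / 4) := by
    rcases lt_or_eq_of_le hx1 with h | h
    · exact h
    · exfalso
      have h1 : √(1 - p ^ 2) = a / 2 := by
        rw [h, hρsq, show 1 - (1 - a ^ 2 / 4) = (a / 2) ^ 2 by ring]
        exact Real.sqrt_sq (by linarith)
      rw [h1, abs_le] at hx2
      obtain ⟨j, hj⟩ := KS26_grid (a := a) (s := ⟪e, x⟫_ℝ) N (by linarith [hx2.1])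
        (by linarith [hx2.2])
      have h2 := hout2 j
      have h3 : (⟪e, x⟫_ℝ - (-(N * a / 2) + j * a)) ^ 2 ≤ (a / 2) ^ 2 := by
        rw [← sq_abs (⟪e, x⟫_ℝ - (-(N * a / 2) + j * a))]
        exact pow_le_pow_left₀ (abs_nonneg _) hj 2
      rw [h, hρsq] at h2
      linarith [h3, (by ring : (a / 2) ^ 2 = a ^ 2 / 4)]
  have hp1 : p ^ 2 ≤ 1 := by
    have : p ^ 2 ≤ √(1 - a ^ 2 / 4) ^ 2 := pow_le_pow_left₀ hp0 hs1.le 2
    rw [hρsq] at this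
    nlinarith [sq_nonneg a]
  have hsq1 : √(1 - p ^ 2) ^ 2 = 1 - p ^ 2 := Real.sq_sqrt (by linarith)
  have hs2 : |⟪e, x⟫_ℝ| < N * a / 2 + √(1 - p ^ 2) := by
    rcases lt_or_eq_of_le hx2 with h | h
    · exact h
    · exfalso
      rcases abs_choice ⟪e, x⟫_ℝ with h1 | h1
      · have h2 := hout2 ⟨N, Nat.lt_succ_self N⟩
        have h3 : ⟪e, x⟫_ℝ - (-(N * a / 2) + ((⟨N, Nat.lt_succ_self N⟩ : Fin (N + 1)) : ℕ) * a) =
            √(1 - p ^ 2) := by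
          simp only
          linarith
        rw [h3, hsq1] at h2
        linarith
      · have h2 := hout2 ⟨0, Nat.succ_pos N⟩
        have h3 : ⟪e, x⟫_ℝ - (-(N * a / 2) + ((⟨0, Nat.succ_pos N⟩ : Fin (N + 1)) : ℕ) * a) =
            -√(1 - p ^ 2) := by
          simp only [Nat.cast_zero]
          linarith
        rw [h3, neg_sq, hsq1] at h2
        linarith
  -- interior
  have hopen : IsOpen {y : E | ‖y - ⟪e, y⟫_ℝ • e‖ < √(1 - a ^ 2 / 4) ∧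
      |⟪e, y⟫_ℝ| < N * a / 2 + √(1 - ‖y - ⟪e, y⟫_ℝ • e‖ ^ 2)} := by
    have h1 : IsOpen {y : E | ‖y - ⟪e, y⟫_ℝ • e‖ < √(1 - a ^ 2 / 4)} :=
      isOpen_lt (by fun_prop) (by fun_prop)
    have h2 : IsOpen {y : E | |⟪e, y⟫_ℝ| < N * a / 2 + √(1 - ‖y - ⟪e, y⟫_ℝ • e‖ ^ 2)} :=
      isOpen_lt (by fun_prop) (by fun_prop)
    exact h1.inter h2
  obtain ⟨r, hr, hball⟩ := Metric.isOpen_iff.mp hopen x ⟨hs1, hs2⟩
  apply hx
  obtain ⟨f, hf⟩ := exists_linearIndependent_of_le_finrank hE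
  refine ⟨Submodule.span ℝ (range f), r / 2, ?_, by linarith, ?_⟩
  · rw [finrank_span_eq_card hf]; simp
  · intro v _ hv
    have h1 : x + v ∈ ball x r := by
      rw [mem_ball, dist_eq_norm, add_sub_cancel_left]; linarith
    have h2 := hball h1
    exact ⟨h2.1.le, h2.2.le⟩

/-- KS26c. -/
theorem Kset_S4 [FiniteDimensional ℝ E] {e : E} (he : ‖e‖ = 1) {L ρ : ℝ} (hL : 0 ≤ L)
    (hρ : 0 ≤ ρ) (hρ1 : ρ ≤ 1) {θ : E} (hθ : ‖θ‖ = 1) (hθe : ⟪e, θ⟫_ℝ = 0) {q k : ℝ} (hq : 0 ≤ q)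
    (hk : 0 ≤ k) (hkρ : k ≤ ρ) :
    2 * q * (2 * L) + 4 * (q * √(1 - k ^ 2) + k) ≤ S4 (Kset e L ρ) e θ q := by
  have hB := Kset_body he hL hρ hρ1
  have hee : ⟪e, e⟫_ℝ = 1 := by rw [real_inner_self_eq_norm_sq, he]; norm_num
  have htt : ⟪θ, θ⟫_ℝ = 1 := by rw [real_inner_self_eq_norm_sq, hθ]; norm_num
  have hte : ⟪θ, e⟫_ℝ = 0 := by rw [real_inner_comm]; exact hθe
  have hs0 : 0 ≤ √(1 - k ^ 2) := Real.sqrt_nonneg _
  have hmem : ∀ σ τ : ℝ, |σ| = 1 → |τ| = 1 →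
      (σ * (L + √(1 - k ^ 2))) • e + (τ * k) • θ ∈ Kset e L ρ := by
    intro σ τ hσ hτ
    have h1 : ⟪e, (σ * (L + √(1 - k ^ 2))) • e + (τ * k) • θ⟫_ℝ = σ * (L + √(1 - k ^ 2)) := by
      rw [inner_add_right, inner_smul_right, inner_smul_right, hee, hθe]; ring
    have h2 : ‖(σ * (L + √(1 - k ^ 2))) • e + (τ * k) • θ -
        ⟪e, (σ * (L + √(1 - k ^ 2))) • e + (τ * k) • θ⟫_ℝ • e‖ = k := by
      rw [h1, add_sub_cancel_left, norm_smul, hθ, mul_one, Real.norm_eq_abs, abs_mul, hτ, one_mul,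
        abs_of_nonneg hk]
    refine ⟨?_, ?_⟩
    · rw [h2]; exact hkρ
    · rw [h2, h1, abs_mul, hσ, one_mul, abs_of_nonneg (by positivity)]
  have hin : ∀ σ τ : ℝ, |σ| = 1 → |τ| = 1 → ∀ u : E, u = (σ * q) • e + τ • θ →
      q * (L + √(1 - k ^ 2)) + k ≤ hS (Kset e L ρ) u := by
    intro σ τ hσ hτ u hu
    have h1 := hB.inner_le (hmem σ τ hσ hτ) u
    have hσ2 : σ * σ = 1 := by rw [← abs_mul_abs_self, hσ]; norm_num
    have hτ2 : τ * τ = 1 := by rw [← abs_mul_abs_self, hτ]; norm_num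
    have h2 : ⟪(σ * (L + √(1 - k ^ 2))) • e + (τ * k) • θ, u⟫_ℝ = q * (L + √(1 - k ^ 2)) + k := by
      rw [hu]
      simp only [inner_add_left, inner_add_right, inner_smul_left, inner_smul_right, hee, htt, hte,
        hθe, RCLike.conj_to_real]
      linear_combination (q * (L + √(1 - k ^ 2))) * hσ2 + k * hτ2
    rw [h2] at h1
    exact h1
  have g1 := hin 1 1 (by norm_num) (by norm_num) (q • e + θ) (by module)
  have g2 := hin (-1) 1 (by norm_num) (by norm_num) (-(q • e) + θ) (by module)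
  have g3 := hin 1 (-1) (by norm_num) (by norm_num) (q • e - θ) (by module)
  have g4 := hin (-1) (-1) (by norm_num) (by norm_num) (-(q • e) - θ) (by module)
  unfold S4
  linarith

end general

end Pool.Agent.Sausage27
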