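import Pool.Agent.Sausage27.SG25
import Pool.Agent.Sausage27.EC
import Pool.Agent.Sausage27.FNa
import Pool.Agent.Sausage27.KS26
import Pool.Agent.Sausage27.SK1
import Pool.Agent.Sausage27.FB27
import Pool.Agent.Sausage27.VO28

/-!
# Sausage27: the main theorem
-/

namespace Pool.Agent.Sausage27

open MeasureTheory Set Metric Filter Topology
open scoped InnerProductSpace Pointwise

theorem FN_wt_pos (d : ℕ) (q : ℝ) : 0 < wt d q := by
  unfold wt; positivity

theorem FN_wt_anti (d : ℕ) {p q : ℝ} (hp : 0 ≤ p) (hpq : p ≤ q) : wt d q ≤ wt d p := by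
  unfold wt
  apply Real.rpow_le_rpow_of_nonpos (by positivity)
  · nlinarith
  · have : (0 : ℝ) ≤ d := Nat.cast_nonneg d
    linarith

theorem FN_wt_le_one (d : ℕ) (q : ℝ) : wt d q ≤ 1 := by
  unfold wt
  apply Real.rpow_le_one_of_one_le_of_nonpos
  · nlinarith [sq_nonneg q]
  · have : (0 : ℝ) ≤ d := Nat.cast_nonneg d
    linarith

theorem FN_wt_meas (d : ℕ) : Measurable (wt d) := by
  unfold wt; fun_prop

/-- The baseline: a segment of length `2(N+1)`. -/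
theorem FN_baseline (d : ℕ) (hd : 2 ≤ d) (N : ℕ) : ∃ K : Set (Eu d), Body K ∧
    (∃ c : Fin (N + 1) → Eu d, skel 1 K ⊆ ⋃ j, closedBall (c j) 1) ∧
    ((N + 1 : ℕ) : ℝ) * √(2 / Real.pi) * Zg (Eu d) ≤ G K := by
  obtain ⟨e, he⟩ : ∃ e : Eu d, ‖e‖ = 1 := by
    refine ⟨EuclideanSpace.single ⟨0, by omega⟩ 1, by simp⟩
  have hcov := Kset_cov (E := Eu d) (by simpa using hd) he (a := 2) (by norm_num) le_rfl N
  have h1 : (N : ℝ) * 2 / 2 = N := by ring
  have h2 : √(1 - (2 : ℝ) ^ 2 / 4) = 0 := by norm_num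
  rw [h1, h2] at hcov
  have hB : Body (Kset e (N : ℝ) 0) := Kset_body he (Nat.cast_nonneg N) le_rfl zero_le_one
  refine ⟨Kset e N 0, hB, ⟨_, hcov⟩, ?_⟩
  have hee : ⟪e, e⟫_ℝ = 1 := by rw [real_inner_self_eq_norm_sq, he]; norm_num
  have hmem : ∀ s : ℝ, |s| ≤ N + 1 → s • e ∈ Kset e (N : ℝ) 0 := by
    intro s hs
    have h3 : s • e - ⟪e, s • e⟫_ℝ • e = 0 := by
      rw [real_inner_smul_right, hee, mul_one, sub_self]
    refine ⟨by rw [h3]; simp, ?_⟩
    rw [h3, real_inner_smul_right, hee]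
    simpa using hs
  have hle : ∀ x : Eu d, ((N + 1 : ℕ) : ℝ) * |⟪e, x⟫_ℝ| ≤ hS (Kset e (N : ℝ) 0) x := by
    intro x
    have hN : (0 : ℝ) ≤ (N : ℝ) + 1 := by positivity
    have a1 := hB.inner_le (hmem (N + 1) (by rw [abs_of_nonneg hN])) x
    have a2 := hB.inner_le (hmem (-(N + 1)) (by rw [abs_neg, abs_of_nonneg hN])) x
    rw [real_inner_smul_left] at a1 a2
    push_cast
    rcases le_total 0 ⟪e, x⟫_ℝ with h | h
    · rw [abs_of_nonneg h]; exact a1
    · rw [abs_of_nonpos h]; linarith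
  rw [mul_assoc, ← gauss_abs he, ← integral_const_mul]
  unfold G
  apply integral_mono
  · have := VB12_integrable (E := Eu d) (f := fun x => |⟪e, x⟫_ℝ|) (by fun_prop) (R := 1)
      (fun x => by
        rw [abs_abs]
        exact (abs_real_inner_le_norm e x).trans (by rw [he]))
    exact this.const_mul _
  · exact FN_integrable_hS hB
  · intro x
    show ((N + 1 : ℕ) : ℝ) * (|⟪e, x⟫_ℝ| * Real.exp (-‖x‖ ^ 2 / 2)) ≤
      hS (Kset e (N : ℝ) 0) x * Real.exp (-‖x‖ ^ 2 / 2)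
    rw [← mul_assoc]
    exact mul_le_mul_of_nonneg_right (hle x) (Real.exp_pos _).le

/-- The local comparison: a chain with bending or variance is beaten by a sausage. -/
theorem FN_beat (d : ℕ) (hd : 2 ≤ d) {δ : ℝ} (hδ : 0 < δ) (hδw : δ ≤ wt d 2 / 5000) {N : ℕ}
    (hN : 1000 / wt d 2 ≤ N) {D : Set (Eu d)} {c : ℕ → Eu d} {e : Eu d} (hD : Body D)
    (h : Chain δ N D c e) (hpos : 0 < bd c N + vr c N / 2) :
    ∃ K : Set (Eu d), Body K ∧
      (∃ c : Fin (N + 1) → Eu d, skel 1 K ⊆ ⋃ j, closedBall (c j) 1) ∧ G D < G K := by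
  have hw0 := FN_wt_pos d 2
  have hw1 := FN_wt_le_one d 2
  have hδ1 : δ ≤ 1 / 100 := by linarith
  have hN1 : (1000 : ℝ) ≤ N := by
    have : (1000 : ℝ) ≤ 1000 / wt d 2 := by
      rw [le_div_iff₀ hw0]; linarith
    linarith
  have hN2 : 100 ≤ N := by
    have : (100 : ℝ) ≤ N := by linarith
    exact_mod_cast this
  obtain ⟨-, -, -, hY, hbA, hbd0, -, -, -, -⟩ := h.basic hδ hδ1 hN2
  have hbApos : 0 < bA c N := by
    have h1 : (N : ℝ) * 1 ≤ (N : ℝ) * (2 - 5 * δ ^ 2) := by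
      apply mul_le_mul_of_nonneg_left _ (by linarith)
      nlinarith
    unfold bd at hbd0
    linarith
  obtain ⟨a, ha⟩ := FN_centre c N hbApos.ne'
  have hN0 : (0 : ℝ) < N := by linarith
  -- the competitor
  set b : ℝ := bA c N / N with hb
  have hb0 : 0 ≤ b := by positivity
  have hb2 : b ≤ 2 := by rw [hb, div_le_iff₀ hN0]; linarith
  have hL : (N : ℝ) * b / 2 = bA c N / 2 := by rw [hb]; field_simp
  have hρ0 : 0 ≤ √(1 - b ^ 2 / 4) := Real.sqrt_nonneg _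
  have hρ1 : √(1 - b ^ 2 / 4) ≤ 1 := by
    rw [Real.sqrt_le_iff]
    have := sq_nonneg b
    constructor <;> linarith
  have hK : Body (Kset e ((N : ℝ) * b / 2) (√(1 - b ^ 2 / 4))) :=
    Kset_body h.norm_e (by positivity) hρ0 hρ1
  refine ⟨_, hK, ⟨_, Kset_cov (E := Eu d) (by simpa using hd) h.norm_e hb0 hb2 N⟩, ?_⟩
  set K := Kset e ((N : ℝ) * b / 2) (√(1 - b ^ 2 / 4)) with hKdef
  rw [← FN_G_translate hD a]
  apply G_lt_of_slices hd (hD.translate a) hK h.norm_e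
  intro θ hθ hθe
  have hi1 := integrableOn_S4 hd hK e θ
  have hi2 := integrableOn_S4 hd (hD.translate a) e θ
  have hint : IntegrableOn (fun q => (S4 K e θ q - S4 ((fun x => x + a) '' D) e θ q) * wt d q)
      (Ioi 0) := by
    have := hi1.sub hi2
    refine this.congr (Eventually.of_forall fun q => ?_)
    simp only [Pi.sub_apply]; ring
  have key := slice_gap (w := wt d) (hD.translate a) hK (h.translate a) ha hw0 hw1 hδ hδw hN
    (FN_wt_meas d) (fun q => (FN_wt_pos d q).le) (FN_wt_le_one d)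
    (fun q hq => FN_wt_anti d (by linarith [hq.1]) hq.2) hθ hθe hint
    (fun q k hq hk hkρ => by
      rw [FN_rhob] at hkρ
      have := Kset_S4 (E := Eu d) h.norm_e (L := (N : ℝ) * b / 2) (ρ := √(1 - b ^ 2 / 4))
        (by positivity) hρ0 hρ1 hθ hθe hq hk hkρ
      rw [FN_bA]
      have h2 : 2 * q * (2 * ((N : ℝ) * b / 2)) = 2 * q * bA c N := by rw [hL]; ring
      rw [h2] at this
      exact this)
  rw [FN_bd, FN_vr] at key
  have h3 : ∫ q in Ioi 0, (S4 K e θ q - S4 ((fun x => x + a) '' D) e θ q) * wt d q =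
      (∫ q in Ioi 0, S4 K e θ q * wt d q) -
        ∫ q in Ioi 0, S4 ((fun x => x + a) '' D) e θ q * wt d q := by
    rw [← integral_sub hi1 hi2]
    congr 1
    ext q; ring
  rw [h3] at key
  have h4 : 0 < wt d 2 / 2 * (bd c N + vr c N / 2) := by positivity
  linarith

/-- FN30. The main theorem. -/
theorem main (d : ℕ) (hd : 2 ≤ d) : ∃ N₀ : ℕ, ∀ n ≥ N₀, ∀ D : Set (Eu d), Extremal n D →
    (∃ p v : Eu d, skel 1 D ⊆ ⋃ j : Fin n, closedBall (p + (j : ℝ) • v) 1) ∧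
    ∀ c : Fin n → Eu d, skel 1 D ⊆ ⋃ j, closedBall (c j) 1 →
      ∃ (π : Equiv.Perm (Fin n)) (p v : Eu d), ∀ j : Fin n, c (π j) = p + (j : ℝ) • v := by
  have hw0 := FN_wt_pos d 2
  have hw1 := FN_wt_le_one d 2
  have hδ : 0 < wt d 2 / 5000 := by positivity
  have hδ1 : wt d 2 / 5000 ≤ 1 / 100 := by linarith
  obtain ⟨N1, hN1⟩ := exists_chain d (by omega) hδ hδ1
  obtain ⟨C, hC, hV⟩ := V1_eq d (by omega)
  have hV1 : ∀ D : Set (Eu d), Body D → V1 D = C * G D := fun D hD => (hV D hD).limUnder_eq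
  obtain ⟨M, hM⟩ := exists_nat_gt (1000 / wt d 2)
  refine ⟨max N1 M + 1, fun n hn D hext => ?_⟩
  obtain ⟨N, rfl⟩ : ∃ N, n = N + 1 := ⟨n - 1, by omega⟩
  have hNN : max N1 M ≤ N := by omega
  obtain ⟨hD, ⟨c0, hc0⟩, hmax⟩ := hext
  have hG : ((N + 1 : ℕ) : ℝ) * √(2 / Real.pi) * Zg (Eu d) ≤ G D := by
    obtain ⟨K, hK, hKc, hKG⟩ := FN_baseline d hd N
    have h1 := hmax K hK hKc
    rw [hV1 K hK, hV1 D hD] at h1
    exact hKG.trans (le_of_mul_le_mul_left h1 hC)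
  have hNM : 1000 / wt d 2 ≤ N := by
    have : (M : ℝ) ≤ N := by exact_mod_cast (le_max_right _ _).trans hNN
    linarith
  have hN2 : 100 ≤ N := by
    have : (1000 : ℝ) ≤ 1000 / wt d 2 := by
      rw [le_div_iff₀ hw0]; linarith
    have : (100 : ℝ) ≤ N := by linarith
    exact_mod_cast this
  have hall : ∀ c : Fin (N + 1) → Eu d, skel 1 D ⊆ ⋃ j, closedBall (c j) 1 →
      ∃ (π : Equiv.Perm (Fin (N + 1))) (p v : Eu d),
        ∀ j : Fin (N + 1), c (π j) = p + (j : ℝ) • v := by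
    intro c hc
    obtain ⟨σ, e, hch⟩ := hN1 N ((le_max_left _ _).trans hNN) D c hD (sliceCov_of_skel hc) hG
    set c' : ℕ → Eu d := fun j => c (σ (Fin.ofNat (N + 1) j)) with hc'
    obtain ⟨ha, -, -, hY, -, hbd0, -, -, -, hsum⟩ := hch.basic hδ hδ1 hN2
    have hvr0 : 0 ≤ vr c' N := by
      unfold vr
      apply div_nonneg _ (Finset.sum_nonneg fun _ _ => norm_nonneg _)
      exact Finset.sum_nonneg fun _ _ => mul_nonneg (norm_nonneg _) (sq_nonneg _)
    have hzero : bd c' N + vr c' N / 2 ≤ 0 := by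
      by_contra hpos
      push Not at hpos
      obtain ⟨K, hK, hKc, hKG⟩ := FN_beat d hd hδ le_rfl hNM hD hch hpos
      have h1 := hmax K hK hKc
      rw [hV1 K hK, hV1 D hD] at h1
      exact absurd (le_of_mul_le_mul_left h1 hC) (not_le.2 hKG)
    have hpos' : ∀ j < N, 0 < ‖c' (j + 1) - c' j‖ := by
      intro j hj
      have := ha j hj
      nlinarith
    obtain ⟨v, hv⟩ := FN_aligned hch hpos' hsum (by linarith) (by linarith)
    refine ⟨σ, c' 0, v, fun j => ?_⟩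
    have h2 := hv j (Nat.lt_succ_iff.1 j.is_lt)
    have h3 : c' (j : ℕ) = c (σ j) := by
      simp only [hc']
      congr 2
      ext
      simp [Fin.ofNat, Nat.mod_eq_of_lt j.is_lt]
    rw [← h3, h2]
  refine ⟨?_, hall⟩
  obtain ⟨π, p, v, hp⟩ := hall c0 hc0
  refine ⟨p, v, fun x hx => ?_⟩
  obtain ⟨j, hj⟩ := mem_iUnion.1 (hc0 hx)
  refine mem_iUnion.2 ⟨π.symm j, ?_⟩
  rw [← hp (π.symm j), Equiv.apply_symm_apply]
  exact hj

end Pool.Agent.Sausage27
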