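import Pool.Agent.Sausage27.Basic

/-!
# Sausage27, package SG-IN24: integration over `q`
-/

namespace Pool.Agent.Sausage27

open MeasureTheory Set Metric Filter Topology

theorem in24_indicator {a b c : ℝ} (ha : 0 ≤ a) (hab : a ≤ b) :
    IntegrableOn ((Ioc a b).indicator fun _ : ℝ => c) (Ioi 0) ∧
      ∫ q in Ioi 0, (Ioc a b).indicator (fun _ : ℝ => c) q = (b - a) * c := by
  have hsub : Ioc a b ⊆ Ioi (0 : ℝ) := fun x hx => lt_of_le_of_lt ha hx.1
  constructor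
  · refine (integrable_indicator_iff measurableSet_Ioc).2 ?_
    rw [IntegrableOn, Measure.restrict_restrict measurableSet_Ioc,
      Set.inter_eq_left.2 hsub]
    exact integrableOn_const (by simp)
  · rw [integral_indicator measurableSet_Ioc, Measure.restrict_restrict measurableSet_Ioc,
      Set.inter_eq_left.2 hsub, setIntegral_const, smul_eq_mul, Real.volume_real_Ioc_of_le hab]

theorem in24_num {w0 δ N bd vr s F m : ℝ} (hw0 : 0 < w0) (hw01 : w0 ≤ 1)
    (hδ : 0 < δ) (hδw : δ ≤ w0 / 5000) (hN : 1000 / w0 ≤ N) (hbd : 0 ≤ bd) (hvr : 0 ≤ vr)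
    (hs : 0 ≤ s) (hF : 0 ≤ F) (hs2 : s ≤ 4 * δ / N) (hF2 : F ≤ 17 * δ)
    (hm : bd + vr / 2 + F / 16 + N ^ 2 / 20 * s ^ 2 ≤ m) :
    (20 * δ / N * bd + 176 * δ * N * s ^ 2 + 44 * δ / N * F ^ 2) +
      (4 * s + 2 * F) * (9 * (4 * s + 2 * F) * δ ^ 2 + 4 * δ / N * bd + 2.2 * N * s + 2 * F) ≤
      w0 / 2 * m := by
  have hN0 : 0 < N := lt_of_lt_of_le (by positivity) hN
  have hNw : 1 / N ≤ w0 / 1000 := by
    rw [div_le_div_iff₀ hN0 (by norm_num)]
    rw [div_le_iff₀ hw0] at hN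
    linarith
  have hi0 : 0 < 1 / N := by positivity
  set i := 1 / N with hi
  have hiN : N * i = 1 := by rw [hi]; field_simp
  have hm0 : 0 ≤ N ^ 2 / 20 * s ^ 2 := by positivity
  have hbm : bd ≤ m := by linarith
  have hFm : F ≤ 16 * m := by linarith
  have hsm : N ^ 2 * s ^ 2 ≤ 20 * m := by linarith
  have hmm : 0 ≤ m := by linarith
  have hNs : N * s ≤ 4 * δ := by
    rw [le_div_iff₀ hN0] at hs2
    linarith
  have hNs0 : 0 ≤ N * s := by positivity
  have hδ5 : δ ≤ 1 / 5000 := by linarith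
  have hi1 : i ≤ 1 / 1000 := by linarith
  have hdm : 0 ≤ δ * m := mul_nonneg hδ.le hmm
  -- `N s^2 ≤ 20 m i`
  have e1 : N * s ^ 2 ≤ 20 * m * i := by
    have : N * s ^ 2 = (N ^ 2 * s ^ 2) * i := by
      calc N * s ^ 2 = N * s ^ 2 * (N * i) := by rw [hiN, mul_one]
        _ = _ := by ring
    rw [this]
    exact mul_le_mul_of_nonneg_right hsm hi0.le
  have e2 : s ≤ 4 * δ * i := by
    have : s = (N * s) * i := by
      calc s = s * (N * i) := by rw [hiN, mul_one]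
        _ = _ := by ring
    rw [this]
    exact mul_le_mul_of_nonneg_right hNs hi0.le
  have e3 : F ^ 2 ≤ 272 * δ * m := by
    calc F ^ 2 = F * F := by ring
      _ ≤ (17 * δ) * (16 * m) := mul_le_mul hF2 hFm hF (by positivity)
      _ = 272 * δ * m := by ring
  have e4 : N * s * F ≤ 64 * δ * m := by
    calc N * s * F ≤ (4 * δ) * (16 * m) := mul_le_mul hNs hFm hF (by positivity)
      _ = 64 * δ * m := by ring
  have e5 : s * F ≤ 64 * δ * i * m := by
    calc s * F ≤ (4 * δ * i) * (16 * m) := mul_le_mul e2 hFm hF (by positivity)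
      _ = 64 * δ * i * m := by ring
  have hq : 4 * s + 2 * F ≤ 35 * δ := by
    have : s ≤ 4 * δ * (1 / 1000) := e2.trans (by gcongr)
    linarith
  have hq0 : 0 ≤ 4 * s + 2 * F := by positivity
  have e6 : (4 * s + 2 * F) ^ 2 ≤ 1225 * δ ^ 2 := by
    calc (4 * s + 2 * F) ^ 2 ≤ (35 * δ) ^ 2 := by gcongr
      _ = 1225 * δ ^ 2 := by ring
  -- second bound of the square, linear in `m`
  have e7 : (4 * s + 2 * F) ^ 2 ≤ 3000 * δ * m + 640 * m * i ^ 2 := by
    have h1 : s ^ 2 ≤ 20 * m * i ^ 2 := by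
      have : s ^ 2 = (N ^ 2 * s ^ 2) * i ^ 2 := by
        calc s ^ 2 = s ^ 2 * (N * i) ^ 2 := by rw [hiN]; ring
          _ = _ := by ring
      rw [this]
      exact mul_le_mul_of_nonneg_right hsm (by positivity)
    have h2 : (4 * s + 2 * F) ^ 2 ≤ 32 * s ^ 2 + 8 * F ^ 2 := by
      nlinarith only [sq_nonneg (4 * s - 2 * F)]
    linarith only [h1, h2, e3, hdm]
  have d1 : δ / N = δ * i := by rw [hi]; ring
  have r1 : 20 * δ / N * bd = 20 * (δ * i) * bd := by rw [← d1]; ring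
  have r2 : 44 * δ / N * F ^ 2 = 44 * (δ * i) * F ^ 2 := by rw [← d1]; ring
  have r3 : 4 * δ / N * bd = 4 * (δ * i) * bd := by rw [← d1]; ring
  rw [r1, r2, r3]
  have hδi : 0 ≤ δ * i := by positivity
  have hδi1 : δ * i ≤ δ / 1000 := by
    have := mul_le_mul_of_nonneg_left hi1 hδ.le
    linarith
  -- the individual terms
  have t1 : 20 * (δ * i) * bd ≤ 20 * (δ / 1000) * m := by gcongr
  have t2 : 176 * δ * N * s ^ 2 ≤ 4 * δ * m := by
    have : 176 * δ * N * s ^ 2 = 176 * δ * (N * s ^ 2) := by ring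
    rw [this]
    calc 176 * δ * (N * s ^ 2) ≤ 176 * δ * (20 * m * i) := by gcongr
      _ ≤ 176 * δ * (20 * m * (1 / 1000)) := by gcongr
      _ = 3.52 * (δ * m) := by ring
      _ ≤ 4 * (δ * m) := by linarith only [hdm]
      _ = 4 * δ * m := by ring
  have t3 : 44 * (δ * i) * F ^ 2 ≤ 1 * δ * m := by
    calc 44 * (δ * i) * F ^ 2 ≤ 44 * (δ / 1000) * (272 * δ * m) := by gcongr
      _ ≤ 44 * (δ / 1000) * (272 * (1 / 5000) * m) := by gcongr
      _ = (44 / 1000 * 272 / 5000) * (δ * m) := by ring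
      _ ≤ 1 * (δ * m) := by linarith only [hdm]
      _ = 1 * δ * m := by ring
  have t4 : 9 * (4 * s + 2 * F) ^ 2 * δ ^ 2 ≤ 1 * δ * m := by
    have h1 : (4 * s + 2 * F) ^ 2 ≤ 3000 * (1 / 5000) * m + 640 * m * (1 / 1000) ^ 2 :=
      e7.trans (by gcongr)
    have h2 : (4 * s + 2 * F) ^ 2 ≤ m := by linarith
    calc 9 * (4 * s + 2 * F) ^ 2 * δ ^ 2 ≤ 9 * m * δ ^ 2 := by gcongr
      _ = (9 * δ) * (δ * m) := by ring
      _ ≤ 1 * (δ * m) := by
          apply mul_le_mul_of_nonneg_right _ (by positivity)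
          linarith
      _ = 1 * δ * m := by ring
  have t5 : (4 * s + 2 * F) * (4 * (δ * i) * bd) ≤ 1 * δ * m := by
    calc (4 * s + 2 * F) * (4 * (δ * i) * bd) ≤ (35 * δ) * (4 * (δ / 1000) * m) := by gcongr
      _ ≤ (35 * (1 / 5000)) * (4 * (δ / 1000) * m) := by gcongr
      _ = (35 / 5000 * 4 / 1000) * (δ * m) := by ring
      _ ≤ 1 * (δ * m) := by linarith only [hdm]
      _ = 1 * δ * m := by ring
  have t6 : (4 * s + 2 * F) * (2.2 * N * s) ≤ 176 * m * i + 281.6 * δ * m := by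
    have : (4 * s + 2 * F) * (2.2 * N * s) = 8.8 * (N * s ^ 2) + 4.4 * (N * s * F) := by ring
    rw [this]
    linarith only [e1, e4]
  have t7 : (4 * s + 2 * F) * (2 * F) ≤ 1089 * δ * m := by
    have h : (4 * s + 2 * F) * (2 * F) = 8 * (s * F) + 4 * F ^ 2 := by ring
    rw [h]
    have h8 : 64 * δ * i * m ≤ 64 * δ * (1 / 1000) * m := by gcongr
    linarith only [h8, e5, e3, hdm]
  have key : (20 * (δ * i) * bd + 176 * δ * N * s ^ 2 + 44 * (δ * i) * F ^ 2) +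
      (4 * s + 2 * F) * (9 * (4 * s + 2 * F) * δ ^ 2 + 4 * (δ * i) * bd + 2.2 * N * s + 2 * F) =
      20 * (δ * i) * bd + 176 * δ * N * s ^ 2 + 44 * (δ * i) * F ^ 2 +
      9 * (4 * s + 2 * F) ^ 2 * δ ^ 2 + (4 * s + 2 * F) * (4 * (δ * i) * bd) +
      (4 * s + 2 * F) * (2.2 * N * s) + (4 * s + 2 * F) * (2 * F) := by ring
  rw [key]
  have hfin : 176 * m * i + 1378 * δ * m ≤ w0 / 2 * m := by
    have h1 : 176 * m * i ≤ 176 * m * (w0 / 1000) := by gcongr
    have h2 : 1378 * δ * m ≤ 1378 * (w0 / 5000) * m := by gcongr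
    have h3 : 0 ≤ w0 * m := mul_nonneg hw0.le hmm
    linarith only [h1, h2, h3]
  linarith only [t1, t2, t3, t4, t5, t6, t7, hfin, hdm]

/-- IN24. Integration over `q`. -/
theorem integrate_gap {Δ w : ℝ → ℝ} {w0 δ N bd vr s F qr : ℝ} (hw0 : 0 < w0) (hw01 : w0 ≤ 1)
    (hδ : 0 < δ) (hδw : δ ≤ w0 / 5000) (hN : 1000 / w0 ≤ N) (hwm : Measurable w)
    (hw : ∀ q, 0 ≤ w q) (hw1 : ∀ q, w q ≤ 1) (hw2 : ∀ q ∈ Icc (1 : ℝ) 2, w0 ≤ w q)
    (hΔ : Continuous Δ) (hint : IntegrableOn (fun q => Δ q * w q) (Ioi 0)) (hqr : 1 ≤ qr)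
    (hqr2 : qr ≤ 2) (hmin : ∀ q ∈ Icc (1 : ℝ) 2, Δ qr ≤ Δ q) (hbd : 0 ≤ bd) (hvr : 0 ≤ vr)
    (hs : 0 ≤ s) (hF : 0 ≤ F) (hs2 : s ≤ 4 * δ / N) (hF2 : F ≤ 17 * δ)
    (hm : bd + vr / 2 + F / 16 + N ^ 2 / 20 * s ^ 2 ≤ Δ qr) (hcc : ∀ q, 1 ≤ q → 0 ≤ Δ q)
    (hb : ∀ q, 0 < q → 4 * s + 2 * F ≤ q → q ≤ 1 →
      -(20 * δ / N * bd) - 176 * δ * N * s ^ 2 - 44 * δ / N * F ^ 2 ≤ Δ q)
    (ha : ∀ q, 0 < q → q ≤ 1 → -(9 * q * δ ^ 2 + 4 * δ / N * bd + 2.2 * N * s + 2 * F) ≤ Δ q) :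
    w0 / 2 * (bd + vr / 2) ≤ ∫ q in Ioi 0, Δ q * w q := by
  have hN0 : 0 < N := lt_of_lt_of_le (by positivity) hN
  have hnum := in24_num hw0 hw01 hδ hδw hN hbd hvr hs hF hs2 hF2 hm
  set m := Δ qr with hmdef
  set q1 := 4 * s + 2 * F with hq1
  set c1 := 20 * δ / N * bd + 176 * δ * N * s ^ 2 + 44 * δ / N * F ^ 2 with hc1
  set c2 := 9 * q1 * δ ^ 2 + 4 * δ / N * bd + 2.2 * N * s + 2 * F with hc2
  have hq10 : 0 ≤ q1 := by positivity
  have hc10 : 0 ≤ c1 := by positivity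
  have hc20 : 0 ≤ c2 := by positivity
  have hq11 : q1 ≤ 1 := by
    have hN1 : 1 ≤ N := by
      refine le_trans ?_ hN
      rw [le_div_iff₀ hw0]
      linarith
    have : 4 * δ / N ≤ 4 * δ := div_le_self (by positivity) hN1
    have : δ ≤ 1 / 5000 := by linarith
    linarith
  have hm0 : 0 ≤ m := hcc qr hqr
  obtain ⟨i1, v1⟩ := in24_indicator (c := -c2) le_rfl hq10
  obtain ⟨i2, v2⟩ := in24_indicator (c := -c1) hq10 hq11
  obtain ⟨i3, v3⟩ := in24_indicator (a := 1) (b := 2) (c := w0 * m) zero_le_one one_le_two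
  have hle : ∫ q in Ioi 0, ((Ioc 0 q1).indicator (fun _ : ℝ => -c2) q +
      (Ioc q1 1).indicator (fun _ : ℝ => -c1) q + (Ioc 1 2).indicator (fun _ : ℝ => w0 * m) q) ≤
      ∫ q in Ioi 0, Δ q * w q := by
    refine setIntegral_mono_on ((i1.add i2).add i3) hint measurableSet_Ioi ?_
    intro q hq
    have hq' : (0 : ℝ) < q := hq
    by_cases h1 : q ≤ q1
    · have n2 : q ∉ Ioc q1 1 := fun h => absurd h.1 (not_lt.2 h1)
      have n3 : q ∉ Ioc (1 : ℝ) 2 := fun h => absurd h.1 (not_lt.2 (h1.trans hq11))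
      rw [indicator_of_mem (show q ∈ Ioc 0 q1 from ⟨hq', h1⟩), indicator_of_notMem n2,
        indicator_of_notMem n3, add_zero, add_zero]
      have h2 := ha q hq' (h1.trans hq11)
      have h3 : 9 * q * δ ^ 2 ≤ 9 * q1 * δ ^ 2 := by gcongr
      have h4 : -c2 ≤ Δ q := by linarith
      have h5 : -c2 ≤ -c2 * w q := by
        have := mul_le_mul_of_nonneg_left (hw1 q) hc20
        linarith
      exact h5.trans (mul_le_mul_of_nonneg_right h4 (hw q))
    · have h1' : q1 < q := not_le.1 h1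
      have n1 : q ∉ Ioc 0 q1 := fun h => absurd h.2 h1
      by_cases h2 : q ≤ 1
      · have n3 : q ∉ Ioc (1 : ℝ) 2 := fun h => absurd h.1 (not_lt.2 h2)
        rw [indicator_of_notMem n1, indicator_of_mem (show q ∈ Ioc q1 1 from ⟨h1', h2⟩),
          indicator_of_notMem n3, add_zero, zero_add]
        have h3 := hb q hq' h1'.le h2
        have h4 : -c1 ≤ Δ q := by linarith
        have h5 : -c1 ≤ -c1 * w q := by
          have := mul_le_mul_of_nonneg_left (hw1 q) hc10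
          linarith
        exact h5.trans (mul_le_mul_of_nonneg_right h4 (hw q))
      · have h2' : 1 < q := not_le.1 h2
        have n2 : q ∉ Ioc q1 1 := fun h => absurd h.2 h2
        by_cases h3 : q ≤ 2
        · rw [indicator_of_notMem n1, indicator_of_notMem n2,
            indicator_of_mem (show q ∈ Ioc (1 : ℝ) 2 from ⟨h2', h3⟩), zero_add, zero_add]
          have h4 := hmin q ⟨h2'.le, h3⟩
          have h5 := hw2 q ⟨h2'.le, h3⟩
          rw [mul_comm]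
          exact mul_le_mul h4 h5 hw0.le (hcc q h2'.le)
        · have n3 : q ∉ Ioc (1 : ℝ) 2 := fun h => absurd h.2 h3
          rw [indicator_of_notMem n1, indicator_of_notMem n2, indicator_of_notMem n3, zero_add,
            zero_add]
          exact mul_nonneg (hcc q h2'.le) (hw q)
  refine le_trans ?_ hle
  have i12 : IntegrableOn (fun q => (Ioc 0 q1).indicator (fun _ : ℝ => -c2) q +
      (Ioc q1 1).indicator (fun _ : ℝ => -c1) q) (Ioi 0) := i1.add i2
  rw [integral_add i12 i3, integral_add i1 i2, v1, v2, v3]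
  have h6 : bd + vr / 2 ≤ m := by
    have : 0 ≤ F / 16 + N ^ 2 / 20 * s ^ 2 := by positivity
    linarith
  have h7 : w0 / 2 * (bd + vr / 2) ≤ w0 / 2 * m := by gcongr
  have h8 : 0 ≤ q1 * c1 := by positivity
  linarith only [h6, h7, h8, hnum]

end Pool.Agent.Sausage27
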