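import Pool.Agent.Sausage27.ConstA
import Pool.Agent.Sausage27.ConstB
import Pool.Agent.Sausage27.KS26
import Pool.Agent.Sausage27.FNa

/-!
# Sausage27: two-sided bounds for the first intrinsic volume of the sausages
-/

namespace Pool.Agent.Sausage27

open MeasureTheory Set Metric Filter Topology
open scoped InnerProductSpace Pointwise

theorem KB_perp {E : Type*} [NormedAddCommGroup E] [InnerProductSpace ℝ E] {e : E} (he : ‖e‖ = 1)
    (x : E) : ⟪e, x - ⟪e, x⟫_ℝ • e⟫_ℝ = 0 := by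
  rw [inner_sub_right, real_inner_smul_right, real_inner_self_eq_norm_sq, he]; ring

theorem KB_split {E : Type*} [NormedAddCommGroup E] [InnerProductSpace ℝ E] {e : E} (he : ‖e‖ = 1)
    (x y : E) : ⟪y, x⟫_ℝ = ⟪e, y⟫_ℝ * ⟪e, x⟫_ℝ +
      ⟪y - ⟪e, y⟫_ℝ • e, x - ⟪e, x⟫_ℝ • e⟫_ℝ := by
  rw [inner_sub_left, inner_sub_right, real_inner_smul_left, KB_perp he, real_inner_smul_right,
    real_inner_comm e y]
  ring

/-- Upper bound of the support function. -/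
theorem KB_upper {E : Type*} [NormedAddCommGroup E] [InnerProductSpace ℝ E] {e : E} (he : ‖e‖ = 1)
    {L ρ : ℝ} (hK : Body (Kset e L ρ)) (x : E) :
    hS (Kset e L ρ) x ≤ (L + 1) * |⟪e, x⟫_ℝ| + ρ * ‖x - ⟪e, x⟫_ℝ • e‖ := by
  refine hK.hS_le fun y hy => ?_
  obtain ⟨h1, h2⟩ := hy
  rw [KB_split he x y]
  have h3 : √(1 - ‖y - ⟪e, y⟫_ℝ • e‖ ^ 2) ≤ 1 := by
    rw [Real.sqrt_le_iff]
    have := sq_nonneg ‖y - ⟪e, y⟫_ℝ • e‖
    constructor <;> linarith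
  have h4 : ⟪e, y⟫_ℝ * ⟪e, x⟫_ℝ ≤ (L + 1) * |⟪e, x⟫_ℝ| := by
    refine (le_abs_self _).trans ?_
    rw [abs_mul]
    exact mul_le_mul_of_nonneg_right (by linarith) (abs_nonneg _)
  have h5 : ⟪y - ⟪e, y⟫_ℝ • e, x - ⟪e, x⟫_ℝ • e⟫_ℝ ≤ ρ * ‖x - ⟪e, x⟫_ℝ • e‖ :=
    (real_inner_le_norm _ _).trans (mul_le_mul_of_nonneg_right h1 (norm_nonneg _))
  linarith

/-- Lower bound of the support function. -/
theorem KB_lower {E : Type*} [NormedAddCommGroup E] [InnerProductSpace ℝ E] {e : E} (he : ‖e‖ = 1)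
    {L ρ : ℝ} (hL : 0 ≤ L) (hρ : 0 ≤ ρ) (hK : Body (Kset e L ρ)) (x : E) :
    (L + √(1 - ρ ^ 2)) * |⟪e, x⟫_ℝ| + ρ * ‖x - ⟪e, x⟫_ℝ • e‖ ≤ hS (Kset e L ρ) x := by
  set z := x - ⟪e, x⟫_ℝ • e with hz
  have hez : ⟪e, z⟫_ℝ = 0 := KB_perp he x
  have hee : ⟪e, e⟫_ℝ = 1 := by rw [real_inner_self_eq_norm_sq, he]; norm_num
  set A := L + √(1 - ρ ^ 2) with hA
  have hA0 : 0 ≤ A := by positivity
  -- a unit (or zero) vector in the direction of `z`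
  obtain ⟨w, hw1, hw2, hw3⟩ : ∃ w : E, ‖w‖ ≤ 1 ∧ ⟪e, w⟫_ℝ = 0 ∧ ⟪w, z⟫_ℝ = ‖z‖ ∧
      (‖w‖ = 1 ∨ z = 0) := by
    rcases eq_or_ne z 0 with h | h
    · exact ⟨0, by simp, by simp, by simp [h], Or.inr h⟩
    · have hz0 : ‖z‖ ≠ 0 := norm_ne_zero_iff.2 h
      refine ⟨‖z‖⁻¹ • z, ?_, ?_, ?_, Or.inl ?_⟩
      · rw [norm_smul, norm_inv, norm_norm, inv_mul_cancel₀ hz0]
      · rw [real_inner_smul_right, hez, mul_zero]
      · rw [real_inner_smul_left, real_inner_self_eq_norm_sq]; field_simp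
      · rw [norm_smul, norm_inv, norm_norm, inv_mul_cancel₀ hz0]
  obtain ⟨hw3, -⟩ := hw3
  have hmem : ∀ s : ℝ, |s| ≤ A → s • e + ρ • w ∈ Kset e L ρ := by
    intro s hs
    have h1 : ⟪e, s • e + ρ • w⟫_ℝ = s := by
      rw [inner_add_right, real_inner_smul_right, real_inner_smul_right, hee, hw2]; ring
    have h2 : s • e + ρ • w - ⟪e, s • e + ρ • w⟫_ℝ • e = ρ • w := by rw [h1]; abel
    have h3 : ‖ρ • w‖ ≤ ρ := by
      rw [norm_smul, Real.norm_of_nonneg hρ]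
      exact mul_le_of_le_one_right hρ hw1
    refine ⟨by rw [h2]; exact h3, ?_⟩
    rw [h2, h1]
    have h4 : √(1 - ρ ^ 2) ≤ √(1 - ‖ρ • w‖ ^ 2) := by
      apply Real.sqrt_le_sqrt
      have := pow_le_pow_left₀ (norm_nonneg _) h3 2
      linarith
    linarith
  have key : ∀ s : ℝ, |s| ≤ A → s * ⟪e, x⟫_ℝ + ρ * ‖z‖ ≤ hS (Kset e L ρ) x := by
    intro s hs
    have h1 := hK.inner_le (hmem s hs) x
    have h2 : ⟪w, x⟫_ℝ = ‖z‖ := by
      rw [← hw3, hz, inner_sub_right, real_inner_smul_right, real_inner_comm e w, hw2]; ring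
    rw [inner_add_left, real_inner_smul_left, real_inner_smul_left, h2] at h1
    exact h1
  rcases le_total 0 ⟪e, x⟫_ℝ with h | h
  · rw [abs_of_nonneg h]; exact key A (by rw [abs_of_nonneg hA0])
  · rw [abs_of_nonpos h]
    have := key (-A) (by rw [abs_neg, abs_of_nonneg hA0])
    linarith

theorem KB_int1 {d : ℕ} {e : Eu d} (he : ‖e‖ = 1) :
    Integrable fun x : Eu d => |⟪e, x⟫_ℝ| * Real.exp (-‖x‖ ^ 2 / 2) :=
  VB12_integrable (E := Eu d) (f := fun x => |⟪e, x⟫_ℝ|) (by fun_prop) (R := 1)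
    (fun x => by
      rw [abs_abs]
      exact (abs_real_inner_le_norm e x).trans (by rw [he]))

theorem KB_int2 {d : ℕ} {e : Eu d} (he : ‖e‖ = 1) :
    Integrable fun x : Eu d => ‖x - ⟪e, x⟫_ℝ • e‖ * Real.exp (-‖x‖ ^ 2 / 2) :=
  VB12_integrable (E := Eu d) (f := fun x => ‖x - ⟪e, x⟫_ℝ • e‖) (by fun_prop) (R := 2)
    (fun x => by
      rw [abs_norm]
      calc ‖x - ⟪e, x⟫_ℝ • e‖ ≤ ‖x‖ + ‖⟪e, x⟫_ℝ • e‖ := norm_sub_le _ _
        _ ≤ ‖x‖ + ‖x‖ := by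
            rw [norm_smul, he, mul_one, Real.norm_eq_abs]
            have := abs_real_inner_le_norm e x
            rw [he, one_mul] at this
            linarith
        _ = 2 * ‖x‖ := by ring)

/-- The Gaussian functional of `A|⟨e,x⟩| + ρ|x_⊥|`. -/
theorem KB_value {d : ℕ} (hd : 2 ≤ d) {e : Eu d} (he : ‖e‖ = 1) (A ρ : ℝ) :
    √(2 * Real.pi) / Zg (Eu d) *
      ∫ x : Eu d, (A * |⟪e, x⟫_ℝ| + ρ * ‖x - ⟪e, x⟫_ℝ • e‖) * Real.exp (-‖x‖ ^ 2 / 2) =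
      2 * A + ρ * betaV d := by
  have hZ := Zg_pos (E := Eu d)
  have h1 : ∀ x : Eu d, (A * |⟪e, x⟫_ℝ| + ρ * ‖x - ⟪e, x⟫_ℝ • e‖) * Real.exp (-‖x‖ ^ 2 / 2) =
      A * (|⟪e, x⟫_ℝ| * Real.exp (-‖x‖ ^ 2 / 2)) +
        ρ * (‖x - ⟪e, x⟫_ℝ • e‖ * Real.exp (-‖x‖ ^ 2 / 2)) := by
    intro x; ring
  simp only [h1]
  rw [integral_add ((KB_int1 he).const_mul _) ((KB_int2 he).const_mul _), integral_const_mul,
    integral_const_mul, gauss_abs he, ← perp_int hd he]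
  have h2 : √(2 * Real.pi) * √(2 / Real.pi) = 2 := by
    rw [← Real.sqrt_mul (by positivity)]
    have : 2 * Real.pi * (2 / Real.pi) = 2 ^ 2 := by field_simp
    rw [this, Real.sqrt_sq (by norm_num)]
  field_simp
  linear_combination (A * Zg (Eu d)) * h2

/-- Two-sided bounds for the sausages. -/
theorem KB_bounds {d : ℕ} (hd : 2 ≤ d) {e : Eu d} (he : ‖e‖ = 1) {a : ℝ} (ha : 0 ≤ a)
    (ha2 : a ≤ 2) (N : ℕ) :
    ((N : ℝ) + 1) * a + √(1 - a ^ 2 / 4) * betaV d ≤ V1 (Kset e (N * a / 2) (√(1 - a ^ 2 / 4))) ∧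
    V1 (Kset e (N * a / 2) (√(1 - a ^ 2 / 4))) ≤ (N : ℝ) * a + 2 + √(1 - a ^ 2 / 4) * betaV d := by
  have hρ0 : 0 ≤ √(1 - a ^ 2 / 4) := Real.sqrt_nonneg _
  have hρ1 : √(1 - a ^ 2 / 4) ≤ 1 := by
    rw [Real.sqrt_le_iff]
    have := sq_nonneg a
    constructor <;> linarith
  have hL : 0 ≤ (N : ℝ) * a / 2 := by positivity
  have hK : Body (Kset e ((N : ℝ) * a / 2) (√(1 - a ^ 2 / 4))) := Kset_body he hL hρ0 hρ1
  have hZ := Zg_pos (E := Eu d)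
  have hc : 0 ≤ √(2 * Real.pi) / Zg (Eu d) := by positivity
  have hsq : √(1 - √(1 - a ^ 2 / 4) ^ 2) = a / 2 := by
    have h4 : 0 ≤ 1 - a ^ 2 / 4 := by nlinarith
    rw [Real.sq_sqrt h4]
    have : 1 - (1 - a ^ 2 / 4) = (a / 2) ^ 2 := by ring
    rw [this, Real.sqrt_sq (by positivity)]
  rw [V1_formula (by omega) hK]
  constructor
  · have h1 : ((N : ℝ) + 1) * a + √(1 - a ^ 2 / 4) * betaV d =
        2 * (N * a / 2 + √(1 - √(1 - a ^ 2 / 4) ^ 2)) + √(1 - a ^ 2 / 4) * betaV d := by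
      rw [hsq]; ring
    rw [h1, ← KB_value hd he]
    apply mul_le_mul_of_nonneg_left _ hc
    unfold G
    apply integral_mono
    · have := ((KB_int1 he).const_mul (N * a / 2 + √(1 - √(1 - a ^ 2 / 4) ^ 2))).add
        ((KB_int2 he).const_mul (√(1 - a ^ 2 / 4)))
      refine this.congr (Eventually.of_forall fun x => ?_)
      simp only [Pi.add_apply]; ring
    · exact FN_integrable_hS hK
    · intro x
      exact mul_le_mul_of_nonneg_right (KB_lower he hL hρ0 hK x) (Real.exp_pos _).le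
  · have h1 : (N : ℝ) * a + 2 + √(1 - a ^ 2 / 4) * betaV d =
        2 * (N * a / 2 + 1) + √(1 - a ^ 2 / 4) * betaV d := by ring
    rw [h1, ← KB_value hd he]
    apply mul_le_mul_of_nonneg_left _ hc
    unfold G
    apply integral_mono
    · exact FN_integrable_hS hK
    · have := ((KB_int1 he).const_mul ((N : ℝ) * a / 2 + 1)).add
        ((KB_int2 he).const_mul (√(1 - a ^ 2 / 4)))
      refine this.congr (Eventually.of_forall fun x => ?_)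
      simp only [Pi.add_apply]; ring
    · intro x
      exact mul_le_mul_of_nonneg_right (KB_upper he hK x) (Real.exp_pos _).le

/-- Elementary: the maximum of `n a + ρ β` over `a = 2 cos φ`, `ρ = sin φ`. -/
theorem KB_cs {m a β : ℝ} (ha2 : a ≤ 2) (ha : 0 ≤ a) :
    m * a + √(1 - a ^ 2 / 4) * β ≤ √(4 * m ^ 2 + β ^ 2) := by
  apply Real.le_sqrt_of_sq_le
  have h4 : 0 ≤ 1 - a ^ 2 / 4 := by nlinarith
  have h5 := Real.sq_sqrt h4
  set r := √(1 - a ^ 2 / 4)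
  nlinarith [sq_nonneg (2 * m * r - β * (a / 2))]

theorem KB_opt (m β : ℝ) (hm : 0 < m) :
    ∃ a : ℝ, 0 ≤ a ∧ a ≤ 2 ∧ (0 ≤ β → √(4 * m ^ 2 + β ^ 2) = m * a + √(1 - a ^ 2 / 4) * β) := by
  set S := √(4 * m ^ 2 + β ^ 2) with hS
  have hpos : 0 < 4 * m ^ 2 + β ^ 2 := by positivity
  have hSp : 0 < S := Real.sqrt_pos.2 hpos
  have hS2 : S ^ 2 = 4 * m ^ 2 + β ^ 2 := Real.sq_sqrt hpos.le
  refine ⟨4 * m / S, by positivity, ?_, ?_⟩
  · rw [div_le_iff₀ hSp]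
    have : 2 * m ≤ S := Real.le_sqrt_of_sq_le (by nlinarith [sq_nonneg β])
    linarith
  · intro hβ
    have h1 : 1 - (4 * m / S) ^ 2 / 4 = (β / S) ^ 2 := by
      rw [div_pow, div_pow, hS2]
      field_simp
      ring
    rw [h1, Real.sqrt_sq (by positivity)]
    field_simp
    rw [hS2]; ring

end Pool.Agent.Sausage27
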