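import Pool.Agent.Sausage27.ChainDefs

/-!
# KB17: the bound for the constants `K`
-/

namespace Pool.Agent.Sausage27

open MeasureTheory Set Metric Filter Topology
open scoped InnerProductSpace Pointwise

section general

variable {E : Type*} [NormedAddCommGroup E] [InnerProductSpace ℝ E]

theorem KB17_bessel {e θ v : E} (he : ‖e‖ = 1) (hθ : ‖θ‖ = 1) (hθe : ⟪e, θ⟫_ℝ = 0) :
    ⟪e, v⟫_ℝ ^ 2 + ⟪θ, v⟫_ℝ ^ 2 ≤ ‖v‖ ^ 2 := by
  have h0 : 0 ≤ ‖v - ⟪e, v⟫_ℝ • e - ⟪θ, v⟫_ℝ • θ‖ ^ 2 := sq_nonneg _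
  have h1 : ‖v - ⟪e, v⟫_ℝ • e - ⟪θ, v⟫_ℝ • θ‖ ^ 2 =
      ‖v‖ ^ 2 - ⟪e, v⟫_ℝ ^ 2 - ⟪θ, v⟫_ℝ ^ 2 := by
    have hee : ⟪e, e⟫_ℝ = 1 := by rw [real_inner_self_eq_norm_sq, he]; norm_num
    have hθθ : ⟪θ, θ⟫_ℝ = 1 := by rw [real_inner_self_eq_norm_sq, hθ]; norm_num
    have hθe' : ⟪θ, e⟫_ℝ = 0 := by rw [real_inner_comm]; exact hθe
    rw [← real_inner_self_eq_norm_sq, ← real_inner_self_eq_norm_sq]
    simp only [inner_sub_left, inner_sub_right, inner_smul_left, inner_smul_right, hee, hθθ,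
      hθe', real_inner_comm v e, real_inner_comm v θ, hθe, conj_trivial]
    ring
  linarith

theorem KB17_tele (c : ℕ → E) (N : ℕ) (u : E) :
    ∑ j ∈ Finset.range N, ⟪u, c (j + 1) - c j⟫_ℝ = ⟪u, c N - c 0⟫_ℝ := by
  rw [← inner_sum, Finset.sum_range_sub]

/-- Numerical bound for one term. -/
theorem KB17_term {σ s β ρ δ : ℝ} (hβ1 : β ≤ 1) (hs : s ^ 2 + β ^ 2 ≤ 1)
    (hρ0 : 0 ≤ ρ) (hρδ : ρ ≤ δ) :
    ρ * √(1 + σ ^ 2 - (s - σ * β) ^ 2) ≤ ρ + σ * (ρ * s) + (|σ| + σ ^ 2) * δ * (1 - β) := by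
  have hs1 : |s| ≤ 1 := by
    rw [abs_le_one_iff_mul_self_le_one]; nlinarith [sq_nonneg β]
  have hrad : 0 ≤ 1 + σ ^ 2 - (s - σ * β) ^ 2 := by
    nlinarith [sq_nonneg (s * σ + β)]
  have h1 : √(1 + σ ^ 2 - (s - σ * β) ^ 2) ≤ 1 + (σ ^ 2 - (s - σ * β) ^ 2) / 2 := by
    rw [Real.sqrt_le_left]
    · nlinarith [sq_nonneg (σ ^ 2 - (s - σ * β) ^ 2)]
    · nlinarith
  have h2 : σ ^ 2 - (s - σ * β) ^ 2 ≤ 2 * (σ * s) + 2 * (|σ| + σ ^ 2) * (1 - β) := by
    have e1 : σ ^ 2 - (s - σ * β) ^ 2 =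
        2 * (σ * s) - 2 * (σ * s) * (1 - β) + σ ^ 2 * ((1 + β) * (1 - β)) - s ^ 2 := by ring
    have e2 : -(σ * s) ≤ |σ| := by
      calc -(σ * s) ≤ |σ * s| := neg_le_abs _
        _ = |σ| * |s| := abs_mul _ _
        _ ≤ |σ| * 1 := mul_le_mul_of_nonneg_left hs1 (abs_nonneg _)
        _ = |σ| := mul_one _
    have e3 : -(σ * s) * (1 - β) ≤ |σ| * (1 - β) :=
      mul_le_mul_of_nonneg_right e2 (by linarith)
    have e4 : σ ^ 2 * ((1 + β) * (1 - β)) ≤ σ ^ 2 * (2 * (1 - β)) :=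
      mul_le_mul_of_nonneg_left (mul_le_mul_of_nonneg_right (by linarith) (by linarith))
        (sq_nonneg _)
    rw [e1]
    nlinarith [sq_nonneg s]
  have h3 : 0 ≤ (|σ| + σ ^ 2) * (1 - β) :=
    mul_nonneg (add_nonneg (abs_nonneg _) (sq_nonneg _)) (by linarith)
  calc ρ * √(1 + σ ^ 2 - (s - σ * β) ^ 2)
      ≤ ρ * (1 + σ * s + (|σ| + σ ^ 2) * (1 - β)) :=
        mul_le_mul_of_nonneg_left (by linarith) hρ0
    _ = ρ + σ * (ρ * s) + ρ * ((|σ| + σ ^ 2) * (1 - β)) := by ring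
    _ ≤ ρ + σ * (ρ * s) + δ * ((|σ| + σ ^ 2) * (1 - β)) := by
        have := mul_le_mul_of_nonneg_right hρδ h3
        linarith
    _ = _ := by ring

/-- Weighted Cauchy-Schwarz with the variance. -/
theorem KB17_cs {N : ℕ} {a ρ s : ℕ → ℝ} (ha : ∀ j < N, 0 ≤ a j) (m : ℝ) :
    (∑ j ∈ Finset.range N, a j * ((ρ j - m) * s j)) ^ 2 ≤
      (∑ j ∈ Finset.range N, a j * (ρ j - m) ^ 2) * ∑ j ∈ Finset.range N, a j * s j ^ 2 := by
  have h := Finset.sum_mul_sq_le_sq_mul_sq (Finset.range N) (fun j => √(a j) * (ρ j - m))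
    (fun j => √(a j) * s j)
  have h1 : ∀ j ∈ Finset.range N, √(a j) * (ρ j - m) * (√(a j) * s j) =
      a j * ((ρ j - m) * s j) := by
    intro j hj
    have := Real.mul_self_sqrt (ha j (Finset.mem_range.mp hj))
    calc √(a j) * (ρ j - m) * (√(a j) * s j) = (√(a j) * √(a j)) * ((ρ j - m) * s j) := by ring
      _ = _ := by rw [this]
  have h2 : ∀ j ∈ Finset.range N, (√(a j) * (ρ j - m)) ^ 2 = a j * (ρ j - m) ^ 2 := by
    intro j hj
    rw [mul_pow, Real.sq_sqrt (ha j (Finset.mem_range.mp hj))]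
  have h3 : ∀ j ∈ Finset.range N, (√(a j) * s j) ^ 2 = a j * s j ^ 2 := by
    intro j hj
    rw [mul_pow, Real.sq_sqrt (ha j (Finset.mem_range.mp hj))]
  rw [Finset.sum_congr rfl h1, Finset.sum_congr rfl h2, Finset.sum_congr rfl h3] at h
  exact h

/-- KB17. The bound for the constants `K`. -/
theorem Chain.K_bound {δ : ℝ} {N : ℕ} {D : Set E} {c : ℕ → E} {e : E} (h : Chain δ N D c e)
    (hδ : 0 < δ) (hδ1 : δ ≤ 1 / 100) (hN : 100 ≤ N) {θ : E} (hθ : ‖θ‖ = 1)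
    (hθe : ⟪e, θ⟫_ℝ = 0) {σ : ℝ} (hσ : |σ| ≤ 2 * δ / N) :
    (∑ j ∈ Finset.range N, ‖c (j + 1) - c j‖ * (rho c j *
      √(1 + σ ^ 2 - (⟪θ - σ • e, c (j + 1) - c j⟫_ℝ / ‖c (j + 1) - c j‖) ^ 2))) / bA c N ≤
      rhob c N - vr c N / 4 + δ / N * bd c N := by
  have hN' : (100 : ℝ) ≤ N := by exact_mod_cast hN
  have hN0 : (0 : ℝ) < N := by linarith
  -- the lengths
  set a : ℕ → ℝ := fun j => ‖c (j + 1) - c j‖ with ha_def
  have ha2 : ∀ j < N, a j ≤ 2 := h.a_le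
  have ha1 : ∀ j < N, 2 - 2 * δ ^ 2 ≤ a j := by
    intro j hj
    have h1 : 1 - a j ^ 2 / 4 ≤ δ ^ 2 := h.rho_le j hj
    have h2 : 0 ≤ a j := norm_nonneg _
    by_contra hlt
    push Not at hlt
    have h3 : 0 ≤ 2 - 2 * δ ^ 2 := by nlinarith
    have h4 : a j ^ 2 < (2 - 2 * δ ^ 2) ^ 2 := pow_lt_pow_left₀ hlt h2 two_ne_zero
    nlinarith [sq_nonneg δ, pow_pos hδ 2, pow_pos hδ 4]
  have hδ2 : δ ^ 2 ≤ 1 / 10000 := by nlinarith
  have ha19 : ∀ j < N, 1.9 ≤ a j := fun j hj => by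
    have := ha1 j hj
    nlinarith
  have ha0 : ∀ j < N, 0 < a j := fun j hj => by linarith [ha19 j hj]
  have hA : bA c N = ∑ j ∈ Finset.range N, a j := rfl
  have hA1 : 1.9 * N ≤ bA c N := by
    rw [hA]
    calc 1.9 * (N : ℝ) = ∑ j ∈ Finset.range N, (1.9 : ℝ) := by
          rw [Finset.sum_const, Finset.card_range, nsmul_eq_mul, mul_comm]
      _ ≤ _ := Finset.sum_le_sum fun j hj => ha19 j (Finset.mem_range.mp hj)
  have hA2 : bA c N ≤ 2 * N := by
    rw [hA]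
    calc ∑ j ∈ Finset.range N, a j ≤ ∑ j ∈ Finset.range N, (2 : ℝ) :=
          Finset.sum_le_sum fun j hj => ha2 j (Finset.mem_range.mp hj)
      _ = _ := by rw [Finset.sum_const, Finset.card_range, nsmul_eq_mul, mul_comm]
  have hA0 : 0 < bA c N := by nlinarith
  -- slopes
  set β : ℕ → ℝ := fun j => ⟪e, c (j + 1) - c j⟫_ℝ / a j with hβ_def
  set s : ℕ → ℝ := fun j => ⟪θ, c (j + 1) - c j⟫_ℝ / a j with hs_def
  have hβ0 : ∀ j < N, 0 ≤ β j := fun j hj => div_nonneg (h.mono j hj) (norm_nonneg _)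
  have hsβ : ∀ j < N, s j ^ 2 + β j ^ 2 ≤ 1 := by
    intro j hj
    have h1 := KB17_bessel (v := c (j + 1) - c j) h.norm_e hθ hθe
    simp only [hβ_def, hs_def]
    rw [div_pow, div_pow, ← add_div, div_le_one (pow_pos (ha0 j hj) 2)]
    have h2 : a j = ‖c (j + 1) - c j‖ := rfl
    rw [h2]
    linarith
  have hβ1 : ∀ j < N, β j ≤ 1 := by
    intro j hj
    have h1 := hsβ j hj
    nlinarith [sq_nonneg (s j), hβ0 j hj]
  have haβ : ∀ j < N, a j * β j = ⟪e, c (j + 1) - c j⟫_ℝ := by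
    intro j hj
    simp only [hβ_def]
    rw [mul_div_cancel₀ _ (ha0 j hj).ne']
  have has : ∀ j < N, a j * s j = ⟪θ, c (j + 1) - c j⟫_ℝ := by
    intro j hj
    simp only [hs_def]
    rw [mul_div_cancel₀ _ (ha0 j hj).ne']
  have hsum_s : ∑ j ∈ Finset.range N, a j * s j = 0 := by
    rw [Finset.sum_congr rfl fun j hj => has j (Finset.mem_range.mp hj), KB17_tele, h.axis,
      inner_smul_right, real_inner_comm, hθe, mul_zero]
  have hsum_β : ∑ j ∈ Finset.range N, a j * β j = ‖c N - c 0‖ := by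
    rw [Finset.sum_congr rfl fun j hj => haβ j (Finset.mem_range.mp hj), KB17_tele, h.axis,
      inner_smul_right, real_inner_self_eq_norm_sq, h.norm_e, norm_smul, norm_norm, h.norm_e]
    norm_num
  have hsum_η : ∑ j ∈ Finset.range N, a j * (1 - β j) = bd c N := by
    have : ∀ j ∈ Finset.range N, a j * (1 - β j) = a j - a j * β j := fun j _ => by ring
    rw [Finset.sum_congr rfl this, Finset.sum_sub_distrib, hsum_β]
    rfl
  have hbd0 : 0 ≤ bd c N := by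
    rw [← hsum_η]
    refine Finset.sum_nonneg fun j hj => ?_
    have hj' := Finset.mem_range.mp hj
    exact mul_nonneg (ha0 j hj').le (by linarith [hβ1 j hj'])
  -- radii
  have hρ0 : ∀ j, 0 ≤ rho c j := fun j => Real.sqrt_nonneg _
  have hρδ : ∀ j < N, rho c j ≤ δ := by
    intro j hj
    unfold rho
    rw [Real.sqrt_le_left hδ.le]
    exact h.rho_le j hj
  have hρsq : ∀ j < N, rho c j ^ 2 = 1 - a j ^ 2 / 4 := by
    intro j hj
    unfold rho
    rw [Real.sq_sqrt]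
    have h1 := ha2 j hj
    have h2 := (ha0 j hj).le
    have h3 : a j = ‖c (j + 1) - c j‖ := rfl
    rw [← h3]
    nlinarith
  set W := rhoW c N with hW_def
  have hW : ∑ j ∈ Finset.range N, a j * rho c j = W * bA c N := by
    rw [hW_def]
    unfold rhoW
    rw [div_mul_cancel₀ _ hA0.ne']
  have hW0 : 0 ≤ W := by
    have h1 : 0 ≤ ∑ j ∈ Finset.range N, a j * rho c j :=
      Finset.sum_nonneg fun j _ => mul_nonneg (norm_nonneg _) (hρ0 j)
    rw [hW] at h1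
    by_contra hlt
    push Not at hlt
    nlinarith
  have hV : ∑ j ∈ Finset.range N, a j * (rho c j - W) ^ 2 = vr c N * bA c N := by
    unfold vr
    rw [div_mul_cancel₀ _ hA0.ne']
  have hV0 : 0 ≤ vr c N := by
    unfold vr
    exact div_nonneg (Finset.sum_nonneg fun j _ => mul_nonneg (norm_nonneg _) (sq_nonneg _)) hA0.le
  -- second moment
  have hM : W ^ 2 + vr c N = (∑ j ∈ Finset.range N, a j * rho c j ^ 2) / bA c N := by
    rw [eq_div_iff hA0.ne']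
    have e1 : ∑ j ∈ Finset.range N, a j * (rho c j - W) ^ 2 =
        ∑ j ∈ Finset.range N, a j * rho c j ^ 2 - 2 * W * (∑ j ∈ Finset.range N, a j * rho c j)
          + W ^ 2 * ∑ j ∈ Finset.range N, a j := by
      rw [Finset.mul_sum, Finset.mul_sum, ← Finset.sum_sub_distrib, ← Finset.sum_add_distrib]
      exact Finset.sum_congr rfl fun j _ => by ring
    rw [hV, hW, ← hA] at e1
    linarith
  have hM2 : (∑ j ∈ Finset.range N, a j * rho c j ^ 2) / bA c N ≤ rhob c N ^ 2 := by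
    have e1 : ∑ j ∈ Finset.range N, a j * rho c j ^ 2 =
        bA c N - (∑ j ∈ Finset.range N, a j ^ 3) / 4 := by
      rw [hA, Finset.sum_div, ← Finset.sum_sub_distrib]
      exact Finset.sum_congr rfl fun j hj => by
        rw [hρsq j (Finset.mem_range.mp hj)]; ring
    have e2 : rhob c N ^ 2 = 1 - (bA c N / N) ^ 2 / 4 := by
      unfold rhob
      rw [Real.sq_sqrt]
      have h1 : bA c N / N ≤ 2 := by rw [div_le_iff₀ hN0]; exact hA2
      have h2 : 0 ≤ bA c N / N := div_nonneg hA0.le hN0.le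
      nlinarith
    have e3 := pow_sum_div_card_le_sum_pow (s := Finset.range N) (f := a)
      (fun j _ => norm_nonneg _) 2
    rw [Finset.card_range, ← hA] at e3
    rw [e1, e2, div_le_iff₀ hA0]
    have e4 : (bA c N / N) ^ 2 * bA c N = bA c N ^ (2 + 1) / (N : ℝ) ^ 2 := by
      rw [div_pow]; ring
    nlinarith
  have hMle : W ^ 2 + vr c N ≤ rhob c N ^ 2 := hM.le.trans hM2
  have hb0 : 0 ≤ rhob c N := Real.sqrt_nonneg _
  have hb1 : rhob c N ≤ 1 := by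
    unfold rhob
    rw [Real.sqrt_le_left zero_le_one]
    nlinarith [sq_nonneg (bA c N / N)]
  have hWle : W ≤ rhob c N := by
    by_contra hlt
    push Not at hlt
    nlinarith
  have hWle2 : W ≤ rhob c N - vr c N / 2 := by
    have hW1 : W ≤ 1 := hWle.trans hb1
    nlinarith
  -- the pointwise bound
  have hterm : ∀ j < N, a j * (rho c j *
      √(1 + σ ^ 2 - (⟪θ - σ • e, c (j + 1) - c j⟫_ℝ / a j) ^ 2)) ≤
      a j * rho c j + σ * (a j * (rho c j * s j)) + (|σ| + σ ^ 2) * δ * (a j * (1 - β j)) := by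
    intro j hj
    have e1 : ⟪θ - σ • e, c (j + 1) - c j⟫_ℝ / a j = s j - σ * β j := by
      simp only [hβ_def, hs_def]
      rw [inner_sub_left, inner_smul_left, conj_trivial]
      ring
    rw [e1]
    have h1 := KB17_term (σ := σ) (hβ1 j hj) (hsβ j hj) (hρ0 j) (hρδ j hj)
    have h2 := mul_le_mul_of_nonneg_left h1 (ha0 j hj).le
    nlinarith
  have hsum : ∑ j ∈ Finset.range N, a j * (rho c j *
      √(1 + σ ^ 2 - (⟪θ - σ • e, c (j + 1) - c j⟫_ℝ / a j) ^ 2)) ≤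
      W * bA c N + σ * (∑ j ∈ Finset.range N, a j * ((rho c j - W) * s j)) +
        (|σ| + σ ^ 2) * δ * bd c N := by
    have e1 : ∑ j ∈ Finset.range N, a j * ((rho c j - W) * s j) =
        ∑ j ∈ Finset.range N, a j * (rho c j * s j) := by
      have : ∀ j ∈ Finset.range N, a j * ((rho c j - W) * s j) =
          a j * (rho c j * s j) - W * (a j * s j) := fun j _ => by ring
      rw [Finset.sum_congr rfl this, Finset.sum_sub_distrib, ← Finset.mul_sum, hsum_s, mul_zero,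
        sub_zero]
    rw [e1, ← hW, ← hsum_η, Finset.mul_sum, Finset.mul_sum, ← Finset.sum_add_distrib,
      ← Finset.sum_add_distrib]
    exact Finset.sum_le_sum fun j hj => hterm j (Finset.mem_range.mp hj)
  -- Cauchy-Schwarz
  have hcs : (∑ j ∈ Finset.range N, a j * ((rho c j - W) * s j)) ^ 2 ≤
      vr c N * bA c N * (2 * bd c N) := by
    refine (KB17_cs (fun j hj => (ha0 j hj).le) W).trans ?_
    rw [hV]
    refine mul_le_mul_of_nonneg_left ?_ (mul_nonneg hV0 hA0.le)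
    rw [← hsum_η, Finset.mul_sum]
    refine Finset.sum_le_sum fun j hj => ?_
    have hj' := Finset.mem_range.mp hj
    have h1 := hsβ j hj'
    have h2 := hβ0 j hj'
    have h3 := hβ1 j hj'
    have h4 : s j ^ 2 ≤ 2 * (1 - β j) := by nlinarith
    have h5 := mul_le_mul_of_nonneg_left h4 (ha0 j hj').le
    linarith
  set T := ∑ j ∈ Finset.range N, a j * ((rho c j - W) * s j) with hT
  have hσT : σ * T ≤ vr c N / 4 * bA c N + 2 * σ ^ 2 * bd c N := by
    have h1 : (σ * T) ^ 2 ≤ (vr c N / 4 * bA c N + 2 * σ ^ 2 * bd c N) ^ 2 := by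
      have h2 : (σ * T) ^ 2 ≤ σ ^ 2 * (vr c N * bA c N * (2 * bd c N)) := by
        rw [mul_pow]
        exact mul_le_mul_of_nonneg_left hcs (sq_nonneg _)
      nlinarith [sq_nonneg (vr c N / 4 * bA c N - 2 * σ ^ 2 * bd c N)]
    have h3 : 0 ≤ vr c N / 4 * bA c N + 2 * σ ^ 2 * bd c N := by positivity
    exact (le_abs_self _).trans (abs_le_of_sq_le_sq h1 h3)
  have hfin : (2 * σ ^ 2 + (|σ| + σ ^ 2) * δ) * bd c N ≤ δ / N * bd c N * bA c N := by
    have h1 : |σ| ≤ 1 / 50 * δ := by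
      refine hσ.trans ?_
      rw [div_le_iff₀ hN0]
      nlinarith
    have h2 : σ ^ 2 ≤ 1 / 50 * δ * (1 / 50 * δ) := by
      rw [← sq_abs, pow_two]
      exact mul_le_mul h1 h1 (abs_nonneg _) (by positivity)
    have h3 : 2 * σ ^ 2 + (|σ| + σ ^ 2) * δ ≤ 1.9 * δ := by nlinarith [abs_nonneg σ]
    have h4 : 1.9 * δ ≤ δ / N * bA c N := by
      rw [div_mul_eq_mul_div, le_div_iff₀ hN0]
      nlinarith
    have h5 := mul_le_mul_of_nonneg_right (h3.trans h4) hbd0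
    linarith
  rw [div_le_iff₀ hA0]
  refine hsum.trans ?_
  have h6 := mul_le_mul_of_nonneg_right hWle2 hA0.le
  nlinarith

end general
end Pool.Agent.Sausage27
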