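import Pool.Agent.Sausage27.SK1

/-!
# Sausage27: multiple covering (MC11)
-/

namespace Pool.Agent.Sausage27

open MeasureTheory Set Metric Filter Topology
open scoped InnerProductSpace Pointwise

theorem MC11_int_le (α β : ℝ) {a b : ℝ} (hab : a ≤ b) :
    ∫ t in Ioo α β, (Icc a b).indicator (fun _ => (1 : ℝ)) t ≤ b - a := by
  rw [setIntegral_indicator measurableSet_Icc, setIntegral_const, smul_eq_mul, mul_one]
  calc (volume : Measure ℝ).real (Ioo α β ∩ Icc a b) ≤ (volume : Measure ℝ).real (Icc a b) :=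
        measureReal_mono inter_subset_right (by simp)
    _ = b - a := by simp [hab]

theorem MC11_int_eq {α β a b : ℝ} (hab : a ≤ b) (h : Ioo a b ⊆ Ioo α β) :
    ∫ t in Ioo α β, (Ioo a b).indicator (fun _ => (1 : ℝ)) t = b - a := by
  rw [setIntegral_indicator measurableSet_Ioo, setIntegral_const, smul_eq_mul, mul_one,
    inter_eq_right.mpr h]
  simp [hab]

theorem MC11_const (α β : ℝ) : IntegrableOn (fun _ : ℝ => (1 : ℝ)) (Ioo α β) :=
  integrableOn_const (by simp) (by simp)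

theorem MC11_integrable {α β : ℝ} {s : Set ℝ} (hs : MeasurableSet s) :
    IntegrableOn (fun t => s.indicator (fun _ => (1 : ℝ)) t) (Ioo α β) :=
  Integrable.indicator (MC11_const α β) hs

section general

variable {E : Type*} [NormedAddCommGroup E] [InnerProductSpace ℝ E]

theorem MC11_near {e x0 x c : E} (he : ‖e‖ = 1) {t : ℝ} (hx : ⟪e, x⟫_ℝ = ⟪e, x0⟫_ℝ + t)
    (hc : ‖x - c‖ ≤ 1) : |⟪e, c - x0⟫_ℝ - t| ≤ 1 := by
  have h1 : ⟪e, c - x0⟫_ℝ - t = ⟪e, c - x⟫_ℝ := by
    rw [inner_sub_right, inner_sub_right, hx]; ring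
  rw [h1]
  calc |⟪e, c - x⟫_ℝ| ≤ ‖e‖ * ‖c - x‖ := abs_real_inner_le_norm _ _
    _ ≤ 1 := by rw [he, one_mul, norm_sub_rev]; exact hc

/-- two points of a ball in a far slice are close -/
theorem MC11_close {e x y c : E} (he : ‖e‖ = 1) {s : ℝ} (hs : 0 ≤ s) (hs1 : s ≤ 1)
    (hx : ‖x - c‖ ≤ 1) (hy : ‖y - c‖ ≤ 1) (hxe : 1 - s < ⟪e, x - c⟫_ℝ)
    (hye : ⟪e, y⟫_ℝ = ⟪e, x⟫_ℝ) : ‖x - y‖ ^ 2 < 8 * s := by
  have h1 := parallelogram_law_with_norm ℝ (x - c) (y - c)
  have h2 : x - c - (y - c) = x - y := by abel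
  rw [h2] at h1
  have h3 : 2 * ⟪e, x - c⟫_ℝ ≤ ‖x - c + (y - c)‖ := by
    have h4 : ⟪e, x - c + (y - c)⟫_ℝ = 2 * ⟪e, x - c⟫_ℝ := by
      simp only [inner_add_right, inner_sub_right, hye]; ring
    calc 2 * ⟪e, x - c⟫_ℝ = ⟪e, x - c + (y - c)⟫_ℝ := h4.symm
      _ ≤ ‖e‖ * ‖x - c + (y - c)‖ := real_inner_le_norm _ _
      _ = ‖x - c + (y - c)‖ := by rw [he, one_mul]
  have h5 : (1 - s) ^ 2 < ⟪e, x - c⟫_ℝ ^ 2 := pow_lt_pow_left₀ hxe (by linarith) (by norm_num)
  have h6 : (2 * ⟪e, x - c⟫_ℝ) ^ 2 ≤ ‖x - c + (y - c)‖ ^ 2 :=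
    pow_le_pow_left₀ (by linarith) h3 2
  have h7 : ‖x - c‖ ^ 2 ≤ 1 := pow_le_one₀ (norm_nonneg _) hx
  have h8 : ‖y - c‖ ^ 2 ≤ 1 := pow_le_one₀ (norm_nonneg _) hy
  nlinarith

/-- MC11. -/
theorem multi_cover [FiniteDimensional ℝ E] {n : ℕ} {D : Set E} (hD : Body D) {c : Fin n → E}
    (hc : SliceCov D c) {e x0 : E} (he : ‖e‖ = 1) {ℓ : ℝ} (hℓ : 0 ≤ ℓ) (hx0 : x0 ∈ D)
    (hx1 : x0 + ℓ • e ∈ D) {q : E} (hq : q ∈ D) (hq0 : 0 ≤ ⟪e, q - x0⟫_ℝ)
    (hq1 : ⟪e, q - x0⟫_ℝ ≤ ℓ) :
    (1 / 2) * (ℓ / 4 - 3 / 2) * min (‖q - x0 - ⟪e, q - x0⟫_ℝ • e‖ ^ 2 / 128) 1 ≤ 2 * n - ℓ := by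
  classical
  have he0 : e ≠ 0 := by intro h; rw [h, norm_zero] at he; norm_num at he
  have hee : ⟪e, e⟫_ℝ = 1 := by rw [real_inner_self_eq_norm_sq, he]; norm_num
  set p : E := q - x0 - ⟪e, q - x0⟫_ℝ • e with hp
  set b : ℝ := ⟪e, q - x0⟫_ℝ with hb
  have hqp : q = x0 + b • e + p := by rw [hp]; module
  have hpe : ⟪e, p⟫_ℝ = 0 := by
    rw [hp, inner_sub_right, inner_smul_right, hee, mul_one, ← hb, sub_self]
  set s0 : ℝ := min (‖p‖ ^ 2 / 128) 1 with hs0
  have hs00 : 0 ≤ s0 := le_min (by positivity) zero_le_one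
  have hs01 : s0 ≤ 1 := min_le_right _ _
  have hs0r : s0 ≤ ‖p‖ ^ 2 / 128 := min_le_left _ _
  set τ : Fin n → ℝ := fun j => ⟪e, c j - x0⟫_ℝ with hτ
  -- points of the axis
  have hax : ∀ t, 0 ≤ t → t ≤ ℓ → x0 + t • e ∈ D := by
    intro t h0 h1
    rcases hℓ.eq_or_lt with h | h
    · have : t = 0 := by linarith
      rw [this, zero_smul, add_zero]; exact hx0
    · have h2 := hD.conv hx0 hx1 (a := 1 - t / ℓ) (b := t / ℓ)
        (by rw [sub_nonneg, div_le_one h]; exact h1) (by positivity) (by ring)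
      convert h2 using 1
      rw [smul_add, smul_smul, div_mul_cancel₀ _ h.ne']
      module
  have haxe : ∀ t, ⟪e, x0 + t • e⟫_ℝ = ⟪e, x0⟫_ℝ + t := by
    intro t; rw [inner_add_right, inner_smul_right, hee, mul_one]
  -- at least one ball meets each slice
  have hone : ∀ t, 0 ≤ t → t ≤ ℓ → ∃ j, |τ j - t| ≤ 1 := by
    intro t h0 h1
    by_contra hcon
    push Not at hcon
    have h2 : (D ∩ {x | ⟪e, x⟫_ℝ = ⟪e, x0⟫_ℝ + t}).extremePoints ℝ ⊆ ∅ := by
      intro x hx
      have h3 := hc e (⟪e, x0⟫_ℝ + t) he0 hx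
      obtain ⟨j, hj⟩ := mem_iUnion.mp h3
      rw [mem_closedBall, dist_eq_norm] at hj
      exact absurd (MC11_near he hx.1.2 hj) (not_le.mpr (hcon j))
    exact slice_subset hD convex_empty isClosed_empty h2 ⟨hax t h0 h1, haxe t⟩
  -- a far point in each middle slice
  have hfar : ∀ t, ℓ / 4 ≤ t → t ≤ 3 * ℓ / 4 → ∃ y ∈ D, ⟪e, y⟫_ℝ = ⟪e, x0⟫_ℝ + t ∧
      ‖p‖ / 4 ≤ ‖x0 + t • e - y‖ := by
    intro t h0 h1
    rcases hℓ.eq_or_lt with h | h
    · have hb0 : b = 0 := by linarith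
      refine ⟨q, hq, ?_, ?_⟩
      · rw [hqp, inner_add_right, haxe, hpe, hb0]
        have : t = 0 := by linarith
        rw [this]; ring
      · have ht : t = 0 := by linarith
        rw [hqp, hb0, ht]
        have : x0 + (0 : ℝ) • e - (x0 + (0 : ℝ) • e + p) = -p := by abel
        rw [this, norm_neg]
        linarith [norm_nonneg p]
    · rcases le_total b t with hbt | hbt
      · have hbl : 0 < ℓ - b := by linarith
        set lam : ℝ := (t - b) / (ℓ - b) with hlam
        have hl0 : 0 ≤ lam := by apply div_nonneg <;> linarith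
        have hl1 : lam * (ℓ - b) = t - b := div_mul_cancel₀ _ hbl.ne'
        have hl2 : 1 / 4 ≤ 1 - lam := by
          have : lam ≤ 3 / 4 := by
            rw [hlam, div_le_iff₀ hbl]; linarith
          linarith
        refine ⟨(1 - lam) • q + lam • (x0 + ℓ • e), hD.conv hq hx1 (by linarith) hl0 (by ring),
          ?_, ?_⟩
        · rw [inner_add_right, inner_smul_right, inner_smul_right, haxe, hqp, inner_add_right,
            haxe, hpe]
          linear_combination hl1
        · have : x0 + t • e - ((1 - lam) • q + lam • (x0 + ℓ • e)) = -((1 - lam) • p) := by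
            have ht : t = b + lam * (ℓ - b) := by linarith
            rw [hqp, ht]; module
          rw [this, norm_neg, norm_smul, Real.norm_of_nonneg (by linarith)]
          nlinarith [norm_nonneg p]
      · have hb0 : 0 < b := by linarith
        set lam : ℝ := t / b with hlam
        have hl1 : lam * b = t := div_mul_cancel₀ _ hb0.ne'
        have hl2 : 1 / 4 ≤ lam := by
          rw [hlam, le_div_iff₀ hb0]; linarith
        have hl3 : lam ≤ 1 := by rw [hlam, div_le_one hb0]; exact hbt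
        refine ⟨(1 - lam) • x0 + lam • q, hD.conv hx0 hq (by linarith) (by linarith) (by ring),
          ?_, ?_⟩
        · rw [inner_add_right, inner_smul_right, inner_smul_right, hqp, inner_add_right,
            haxe, hpe]
          linear_combination hl1
        · have : x0 + t • e - ((1 - lam) • x0 + lam • q) = -(lam • p) := by
            rw [hqp, ← hl1]; module
          rw [this, norm_neg, norm_smul, Real.norm_of_nonneg (by linarith)]
          nlinarith [norm_nonneg p]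
  -- two balls
  have htwo : ∀ t j, ℓ / 4 ≤ t → t ≤ 3 * ℓ / 4 → τ j + 1 - s0 < t →
      ∃ i, i ≠ j ∧ |τ i - t| ≤ 1 := by
    intro t j h0 h1 h2
    by_contra hcon
    push Not at hcon
    have h3 : (D ∩ {x | ⟪e, x⟫_ℝ = ⟪e, x0⟫_ℝ + t}).extremePoints ℝ ⊆ closedBall (c j) 1 := by
      intro x hx
      have h4 := hc e (⟪e, x0⟫_ℝ + t) he0 hx
      obtain ⟨i, hi⟩ := mem_iUnion.mp h4
      by_cases hij : i = j
      · rwa [hij] at hi
      · rw [mem_closedBall, dist_eq_norm] at hi
        exact absurd (MC11_near he hx.1.2 hi) (not_le.mpr (hcon i hij))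
    have h5 := slice_subset hD (convex_closedBall _ _) isClosed_closedBall h3
    obtain ⟨y, hyD, hye, hyf⟩ := hfar t h0 h1
    have h6 := h5 ⟨hax t (by linarith) (by linarith), haxe t⟩
    have h7 := h5 ⟨hyD, hye⟩
    rw [mem_closedBall, dist_eq_norm] at h6 h7
    have h8 : 1 - s0 < ⟪e, x0 + t • e - c j⟫_ℝ := by
      have : ⟪e, x0 + t • e - c j⟫_ℝ = t - τ j := by
        rw [hτ]; simp only [inner_sub_right, inner_add_right, inner_smul_right, hee]; ring
      rw [this]; linarith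
    have h9 := MC11_close he hs00 hs01 h6 h7 h8 (by rw [hye, haxe])
    have h10 : (‖p‖ / 4) ^ 2 ≤ ‖x0 + t • e - y‖ ^ 2 :=
      pow_le_pow_left₀ (by positivity) hyf 2
    nlinarith
  -- counting
  set J : Finset (Fin n) := Finset.univ.filter
    (fun j => ℓ / 4 + s0 < τ j + 1 ∧ τ j + 1 ≤ 3 * ℓ / 4) with hJ
  have hI1 : ∀ j t, (Icc (τ j - 1) (τ j + 1)).indicator (fun _ => (1 : ℝ)) t =
      if |τ j - t| ≤ 1 then 1 else 0 := by
    intro j t
    rw [indicator_apply]
    congr 1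
    rw [mem_Icc, abs_le, eq_iff_iff]
    constructor <;> rintro ⟨h1, h2⟩ <;> constructor <;> linarith
  have hI2 : ∀ j t, (Ioo (τ j + 1 - s0) (τ j + 1)).indicator (fun _ => (1 : ℝ)) t =
      if τ j + 1 - s0 < t ∧ t < τ j + 1 then 1 else 0 := by
    intro j t
    rw [indicator_apply]
    rfl
  have hpt : ∀ t ∈ Ioo (0 : ℝ) ℓ,
      1 + 1 / 2 * ∑ j ∈ J, (Ioo (τ j + 1 - s0) (τ j + 1)).indicator (fun _ => (1 : ℝ)) t ≤
      ∑ j, (Icc (τ j - 1) (τ j + 1)).indicator (fun _ => (1 : ℝ)) t := by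
    intro t ht
    simp only [hI1, hI2, Finset.sum_boole]
    set S := J.filter (fun j => τ j + 1 - s0 < t ∧ t < τ j + 1) with hS
    set A := Finset.univ.filter (fun j => |τ j - t| ≤ 1) with hA
    have hSA : S ⊆ A := by
      intro j hj
      rw [hS, Finset.mem_filter] at hj
      rw [hA, Finset.mem_filter]
      refine ⟨Finset.mem_univ _, ?_⟩
      rw [abs_le]; constructor <;> linarith [hj.2.1, hj.2.2]
    have hkey : 2 + S.card ≤ 2 * A.card := by
      rcases Nat.lt_or_ge S.card 2 with h2 | h2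
      · rcases Nat.eq_zero_or_pos S.card with h0 | h0
        · obtain ⟨j, hj⟩ := hone t ht.1.le ht.2.le
          have : 0 < A.card := Finset.card_pos.mpr ⟨j, by rw [hA, Finset.mem_filter]; exact ⟨Finset.mem_univ _, hj⟩⟩
          omega
        · have h1 : S.card = 1 := by omega
          obtain ⟨j, hj⟩ := Finset.card_eq_one.mp h1
          have hjS : j ∈ S := by rw [hj]; exact Finset.mem_singleton_self j
          have hjA := hSA hjS
          rw [hS, Finset.mem_filter, hJ, Finset.mem_filter] at hjS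
          obtain ⟨i, hij, hi⟩ := htwo t j (by linarith [hjS.1.2.1, hjS.2.1])
            (by linarith [hjS.1.2.2, hjS.2.2]) hjS.2.1
          have hiA : i ∈ A := by rw [hA, Finset.mem_filter]; exact ⟨Finset.mem_univ _, hi⟩
          have : 1 < A.card := Finset.one_lt_card.mpr ⟨i, hiA, j, hjA, hij⟩
          omega
      · have := Finset.card_le_card hSA
        omega
    have hkey' : (2 : ℝ) + S.card ≤ 2 * A.card := by exact_mod_cast hkey
    linarith
  have hpt2 : ∀ t ∈ Ioo (ℓ / 4 + s0) (3 * ℓ / 4 - 2),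
      1 ≤ ∑ j ∈ J, (Icc (τ j - 1) (τ j + 1)).indicator (fun _ => (1 : ℝ)) t := by
    intro t ht
    simp only [hI1]
    obtain ⟨j, hj⟩ := hone t (by linarith [ht.1]) (by linarith [ht.2])
    have hjJ : j ∈ J := by
      rw [hJ, Finset.mem_filter]
      rw [abs_le] at hj
      refine ⟨Finset.mem_univ _, ?_, ?_⟩ <;> linarith [hj.1, hj.2, ht.1, ht.2]
    have h1 := Finset.single_le_sum (f := fun j => if |τ j - t| ≤ 1 then (1 : ℝ) else 0)
      (fun i _ => by split_ifs <;> norm_num) hjJ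
    simp only [if_pos hj] at h1
    exact h1
  -- integrate
  have hint1 : ℓ + 1 / 2 * (s0 * J.card) ≤ 2 * n := by
    have h1 : ∫ t in Ioo (0 : ℝ) ℓ, (1 + 1 / 2 *
        ∑ j ∈ J, (Ioo (τ j + 1 - s0) (τ j + 1)).indicator (fun _ => (1 : ℝ)) t) ≤
        ∫ t in Ioo (0 : ℝ) ℓ, ∑ j, (Icc (τ j - 1) (τ j + 1)).indicator (fun _ => (1 : ℝ)) t := by
      apply setIntegral_mono_on _ _ measurableSet_Ioo hpt
      · apply Integrable.add
        · exact MC11_const _ _
        · apply Integrable.const_mul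
          exact integrable_finsetSum _ fun j _ => MC11_integrable measurableSet_Ioo
      · exact integrable_finsetSum _ fun j _ => MC11_integrable measurableSet_Icc
    have h2 : ∫ t in Ioo (0 : ℝ) ℓ, ∑ j, (Icc (τ j - 1) (τ j + 1)).indicator (fun _ => (1 : ℝ)) t
        ≤ 2 * n := by
      rw [integral_finsetSum _ fun j _ => MC11_integrable measurableSet_Icc]
      calc _ ≤ ∑ _j : Fin n, (2 : ℝ) := by
            apply Finset.sum_le_sum
            intro j _
            refine (MC11_int_le 0 ℓ (by linarith)).trans ?_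
            linarith
        _ = 2 * n := by simp [mul_comm]
    have h3 : ∫ t in Ioo (0 : ℝ) ℓ, (1 + 1 / 2 *
        ∑ j ∈ J, (Ioo (τ j + 1 - s0) (τ j + 1)).indicator (fun _ => (1 : ℝ)) t) =
        ℓ + 1 / 2 * (s0 * J.card) := by
      rw [integral_add, integral_const_mul,
        integral_finsetSum _ fun j _ => MC11_integrable measurableSet_Ioo]
      · congr 1
        · rw [setIntegral_const, smul_eq_mul, mul_one]
          simp [hℓ]
        · congr 1
          have : ∀ j ∈ J, ∫ t in Ioo (0 : ℝ) ℓ,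
              (Ioo (τ j + 1 - s0) (τ j + 1)).indicator (fun _ => (1 : ℝ)) t = s0 := by
            intro j hj
            rw [hJ, Finset.mem_filter] at hj
            rw [MC11_int_eq (by linarith)]
            · ring
            · apply Ioo_subset_Ioo <;> linarith [hj.2.1, hj.2.2]
          rw [Finset.sum_congr rfl this, Finset.sum_const, nsmul_eq_mul, mul_comm]
      · exact MC11_const _ _
      · apply Integrable.const_mul
        exact integrable_finsetSum _ fun j _ => MC11_integrable measurableSet_Ioo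
    linarith
  have hint2 : ℓ / 2 - 3 ≤ 2 * J.card := by
    rcases le_total (ℓ / 4 + s0) (3 * ℓ / 4 - 2) with hle | hle
    · have h1 : ∫ _t in Ioo (ℓ / 4 + s0) (3 * ℓ / 4 - 2), (1 : ℝ) ≤
          ∫ t in Ioo (ℓ / 4 + s0) (3 * ℓ / 4 - 2),
            ∑ j ∈ J, (Icc (τ j - 1) (τ j + 1)).indicator (fun _ => (1 : ℝ)) t := by
        apply setIntegral_mono_on _ _ measurableSet_Ioo hpt2
        · exact MC11_const _ _
        · exact integrable_finsetSum _ fun j _ => MC11_integrable measurableSet_Icc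
      have h2 : ∫ t in Ioo (ℓ / 4 + s0) (3 * ℓ / 4 - 2),
            ∑ j ∈ J, (Icc (τ j - 1) (τ j + 1)).indicator (fun _ => (1 : ℝ)) t ≤ 2 * J.card := by
        rw [integral_finsetSum _ fun j _ => MC11_integrable measurableSet_Icc]
        calc _ ≤ ∑ _j ∈ J, (2 : ℝ) := by
              apply Finset.sum_le_sum
              intro j _
              refine (MC11_int_le _ _ (by linarith)).trans ?_
              linarith
          _ = 2 * J.card := by simp [mul_comm]
      have h3 : ∫ _t in Ioo (ℓ / 4 + s0) (3 * ℓ / 4 - 2), (1 : ℝ) =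
          (3 * ℓ / 4 - 2) - (ℓ / 4 + s0) := by
        rw [setIntegral_const, smul_eq_mul, mul_one]
        simp [hle]
      linarith
    · have : (0 : ℝ) ≤ J.card := Nat.cast_nonneg _
      linarith
  have hJ0 : (0 : ℝ) ≤ J.card := Nat.cast_nonneg _
  have hfin : (ℓ / 4 - 3 / 2) * s0 ≤ J.card * s0 :=
    mul_le_mul_of_nonneg_right (by linarith) hs00
  linarith

end general

end Pool.Agent.Sausage27
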