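import Pool.Agent.Sausage27.ChainDefs

/-!
# Sausage27: package OA15 (the old axis)
-/

namespace Pool.Agent.Sausage27

open MeasureTheory Set Metric Filter Topology
open scoped InnerProductSpace Pointwise

section general

variable {E : Type*} [NormedAddCommGroup E] [InnerProductSpace ℝ E]

theorem OA15_inner {e : E} (he : ‖e‖ = 1) (a b : E) :
    ⟪a, b⟫_ℝ = ⟪e, a⟫_ℝ * ⟪e, b⟫_ℝ + ⟪a - ⟪e, a⟫_ℝ • e, b - ⟪e, b⟫_ℝ • e⟫_ℝ := by
  have h1 : ⟪e, e⟫_ℝ = 1 := by rw [real_inner_self_eq_norm_sq, he]; norm_num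
  rw [inner_sub_left, inner_sub_right, inner_sub_right, real_inner_smul_left,
    real_inner_smul_left, real_inner_smul_right, real_inner_smul_right, h1, real_inner_comm e a]
  ring

theorem OA15_norm_sq {e : E} (he : ‖e‖ = 1) (a : E) :
    ‖a‖ ^ 2 = ⟪e, a⟫_ℝ ^ 2 + ‖a - ⟪e, a⟫_ℝ • e‖ ^ 2 := by
  have h := OA15_inner he a a
  rw [real_inner_self_eq_norm_sq, real_inner_self_eq_norm_sq] at h
  rw [h]
  ring

theorem OA15_slice [FiniteDimensional ℝ E] {D : Set E} (hD : Body D) {u : E} {t : ℝ} {C : Set E}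
    (hC : Convex ℝ C) (hC' : IsClosed C)
    (h : (D ∩ {x | ⟪u, x⟫_ℝ = t}).extremePoints ℝ ⊆ C) : D ∩ {x | ⟪u, x⟫_ℝ = t} ⊆ C := by
  have hcomp : IsCompact (D ∩ {x | ⟪u, x⟫_ℝ = t}) :=
    hD.comp.inter_right (isClosed_eq (by fun_prop) continuous_const)
  have hconv : Convex ℝ (D ∩ {x | ⟪u, x⟫_ℝ = t}) := by
    refine hD.conv.inter (convex_hyperplane (𝕜 := ℝ) (f := fun x => ⟪u, x⟫_ℝ) ?_ t)
    constructor
    · intro x y
      exact inner_add_right _ _ _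
    · intro c x
      rw [real_inner_smul_right, smul_eq_mul]
  rw [← closure_convexHull_extremePoints hcomp hconv]
  exact closure_minimal (convexHull_min h hC) hC'

/-- if only ball `j` can meet the slice at height `s` then the slice is in ball `j` -/
theorem OldAx.OA15_only [FiniteDimensional ℝ E] {η : ℝ} {N : ℕ} {D : Set E} {c : ℕ → E} {x0 e : E}
    {ℓ : ℝ} (hD : Body D) (h : OldAx η N D c x0 e ℓ) {j : ℕ} {s : ℝ}
    (hs : ∀ i ≤ N, i ≠ j → 1 < |⟪e, c i - x0⟫_ℝ - s|) {x : E} (hx : x ∈ D)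
    (hxs : ⟪e, x - x0⟫_ℝ = s) : ‖x - c j‖ ≤ 1 := by
  have he0 : e ≠ 0 := by
    intro h0
    have := h.norm_e
    rw [h0, norm_zero] at this
    norm_num at this
  have hsub : D ∩ {y | ⟪e, y⟫_ℝ = ⟪e, x0⟫_ℝ + s} ⊆ closedBall (c j) 1 := by
    refine OA15_slice hD (convex_closedBall _ _) isClosed_closedBall ?_
    intro y hy
    have h1 := h.cov e _ he0 hy
    simp only [mem_iUnion, mem_setOf_eq, exists_prop] at h1
    obtain ⟨i, hi, hyi⟩ := h1
    by_cases hij : i = j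
    · rw [← hij]
      exact hyi
    · exfalso
      have h2 := hs i hi hij
      have h3 : ⟪e, y⟫_ℝ = ⟪e, x0⟫_ℝ + s := (extremePoints_subset hy).2
      have h4 : ⟪e, c i - x0⟫_ℝ - s = ⟪e, c i - y⟫_ℝ := by
        rw [inner_sub_right, inner_sub_right, h3]
        ring
      rw [h4] at h2
      have h5 : |⟪e, c i - y⟫_ℝ| ≤ ‖e‖ * ‖c i - y‖ := abs_real_inner_le_norm _ _
      rw [h.norm_e, one_mul] at h5
      rw [mem_closedBall, dist_comm, dist_eq_norm] at hyi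
      linarith
  have hmem : x ∈ D ∩ {y | ⟪e, y⟫_ℝ = ⟪e, x0⟫_ℝ + s} := by
    refine ⟨hx, ?_⟩
    rw [mem_setOf_eq, ← hxs, inner_sub_right]
    ring
  have := hsub hmem
  rwa [mem_closedBall, dist_eq_norm] at this

theorem OldAx.OA15_seg {η : ℝ} {N : ℕ} {D : Set E} {c : ℕ → E} {x0 e : E}
    {ℓ : ℝ} (hD : Body D) (h : OldAx η N D c x0 e ℓ) {s : ℝ} (h0 : 0 ≤ s) (h1 : s ≤ ℓ) :
    x0 + s • e ∈ D := by
  rcases eq_or_lt_of_le (h0.trans h1) with hl | hl
  · have : s = 0 := by linarith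
    rw [this, zero_smul, add_zero]
    exact h.x0_mem
  · have := hD.conv.add_smul_mem h.x0_mem h.x1_mem (t := s / ℓ)
      ⟨by positivity, by rw [div_le_one hl]; exact h1⟩
    rwa [smul_smul, div_mul_cancel₀ _ hl.ne'] at this

/-- OA15a. -/
theorem OldAx.latc [FiniteDimensional ℝ E] {η : ℝ} {N : ℕ} {D : Set E} {c : ℕ → E} {x0 e : E}
    {ℓ : ℝ} (hD : Body D) (h : OldAx η N D c x0 e ℓ) (hη : 0 < η) (hη1 : η ≤ 1 / 2) {j : ℕ}
    (hj : j ≤ N) :
    ‖c j - x0 - ⟪e, c j - x0⟫_ℝ • e‖ ^ 2 ≤ 2 * η := by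
  have hjN : (j : ℝ) ≤ N := by exact_mod_cast hj
  have hj0 : (0 : ℝ) ≤ j := Nat.cast_nonneg j
  have hee : ⟪e, e⟫_ℝ = 1 := by rw [real_inner_self_eq_norm_sq, h.norm_e]; norm_num
  refine le_of_forall_pos_le_add fun ε hε => ?_
  set ε' : ℝ := min (ε / 2) (1 / 4) with hε'
  have he1 : ε' ≤ ε / 2 := min_le_left _ _
  have he2 : ε' ≤ 1 / 4 := min_le_right _ _
  have he3 : 0 < ε' := lt_min (by linarith) (by norm_num)
  have hp := h.pos j hj
  have hlen := h.len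
  have hmem : x0 + (2 * (j : ℝ) + ε') • e ∈ D :=
    h.OA15_seg hD (by linarith) (by linarith)
  have hball : ‖x0 + (2 * (j : ℝ) + ε') • e - c j‖ ≤ 1 := by
    refine h.OA15_only hD (s := 2 * (j : ℝ) + ε') ?_ hmem ?_
    · intro i hi hij
      have hpi := h.pos i hi
      rcases lt_or_gt_of_ne hij with hlt | hgt
      · have : (i : ℝ) + 1 ≤ j := by exact_mod_cast hlt
        rw [lt_abs]
        right
        linarith
      · have : (j : ℝ) + 1 ≤ i := by exact_mod_cast hgt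
        rw [lt_abs]
        left
        linarith
    · rw [add_sub_cancel_left, real_inner_smul_right, hee, mul_one]
  have hsq : ‖c j - (x0 + (2 * (j : ℝ) + ε') • e)‖ ^ 2 ≤ 1 := by
    rw [norm_sub_rev]
    have := norm_nonneg (x0 + (2 * (j : ℝ) + ε') • e - c j)
    nlinarith
  have hin : ⟪e, c j - (x0 + (2 * (j : ℝ) + ε') • e)⟫_ℝ = ⟪e, c j - x0⟫_ℝ - (2 * (j : ℝ) + ε') := by
    rw [← sub_sub, inner_sub_right _ (c j - x0), real_inner_smul_right, hee, mul_one]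
  rw [OA15_norm_sq h.norm_e, hin] at hsq
  have hvec : c j - (x0 + (2 * (j : ℝ) + ε') • e) -
      (⟪e, c j - x0⟫_ℝ - (2 * (j : ℝ) + ε')) • e = c j - x0 - ⟪e, c j - x0⟫_ℝ • e := by
    rw [sub_smul]
    abel
  rw [hvec] at hsq
  nlinarith

/-- OA15b. -/
theorem OldAx.ends [FiniteDimensional ℝ E] {η : ℝ} {N : ℕ} {D : Set E} {c : ℕ → E} {x0 e : E}
    {ℓ : ℝ} (hD : Body D) (h : OldAx η N D c x0 e ℓ) (hη : 0 < η) (hη1 : η ≤ 1 / 2) :
    (∀ x ∈ D, 2 * (N : ℝ) < ⟪e, x - x0⟫_ℝ → ‖x - c N‖ ≤ 1) ∧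
    (∀ x ∈ D, ⟪e, x - x0⟫_ℝ < 2 - η → ‖x - c 0‖ ≤ 1) := by
  constructor
  · intro x hx hxs
    refine h.OA15_only hD (s := ⟪e, x - x0⟫_ℝ) ?_ hx rfl
    intro i hi hij
    have hpi := h.pos i hi
    have : (i : ℝ) + 1 ≤ N := by
      have : i < N := lt_of_le_of_ne hi hij
      exact_mod_cast this
    rw [lt_abs]
    right
    linarith
  · intro x hx hxs
    refine h.OA15_only hD (s := ⟪e, x - x0⟫_ℝ) ?_ hx rfl
    intro i hi hij
    have hpi := h.pos i hi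
    have : (1 : ℝ) ≤ i := by
      have : 1 ≤ i := Nat.one_le_iff_ne_zero.2 hij
      exact_mod_cast this
    rw [lt_abs]
    left
    linarith

/-- OA15c. -/
theorem OldAx.slices [FiniteDimensional ℝ E] {η : ℝ} {N : ℕ} {D : Set E} {c : ℕ → E} {x0 e : E}
    {ℓ : ℝ} (hD : Body D) (h : OldAx η N D c x0 e ℓ) (hη : 0 < η) (hη1 : η ≤ 1 / 1000) {j : ℕ}
    (hj : j < N) :
    ‖c (j + 1) - c j‖ ≤ 2 ∧ ∀ x ∈ D,
      ⟪c (j + 1) - c j, x - midpoint ℝ (c j) (c (j + 1))⟫_ℝ = 0 →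
        ‖x - midpoint ℝ (c j) (c (j + 1))‖ ^ 2 ≤ 1 - ‖c (j + 1) - c j‖ ^ 2 / 4 := by
  have hjN : (j : ℝ) + 1 ≤ N := by exact_mod_cast hj
  have hj0 : (0 : ℝ) ≤ j := Nat.cast_nonneg j
  have hee : ⟪e, e⟫_ℝ = 1 := by rw [real_inner_self_eq_norm_sq, h.norm_e]; norm_num
  have hp1 := h.pos j hj.le
  have hp2 := h.pos (j + 1) hj
  push_cast at hp2
  have hl1 := h.latc hD hη (by linarith) (j := j) hj.le
  have hl2 := h.latc hD hη (by linarith) (j := j + 1) hj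
  have hlen := h.len
  set t1 : ℝ := ⟪e, c j - x0⟫_ℝ with ht1
  set t2 : ℝ := ⟪e, c (j + 1) - x0⟫_ℝ with ht2
  set w1 : E := c j - x0 - t1 • e with hw1
  set w2 : E := c (j + 1) - x0 - t2 • e with hw2
  have hn1 : ‖w1‖ ≤ 9 / 200 := by
    refine abs_le_of_sq_le_sq' ?_ (by norm_num) |>.2
    nlinarith
  have hn2 : ‖w2‖ ≤ 9 / 200 := by
    refine abs_le_of_sq_le_sq' ?_ (by norm_num) |>.2
    nlinarith
  set v : E := c (j + 1) - c j with hv
  set m : E := midpoint ℝ (c j) (c (j + 1)) with hm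
  -- components of v
  have hve : ⟪e, v⟫_ℝ = t2 - t1 := by
    rw [hv, ht1, ht2, ← inner_sub_right]
    congr 1
    abel
  have hvl : v - ⟪e, v⟫_ℝ • e = w2 - w1 := by
    rw [hve, hv, hw1, hw2, sub_smul]
    abel
  -- components of m
  have hm2 : m = (1 / 2 : ℝ) • c j + (1 / 2 : ℝ) • c (j + 1) := by
    rw [hm, midpoint_eq_smul_add, invOf_eq_inv, smul_add]
    norm_num
  have hmx : m - x0 = (1 / 2 : ℝ) • (c j - x0) + (1 / 2 : ℝ) • (c (j + 1) - x0) := by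
    rw [hm2]
    module
  have hme : ⟪e, m - x0⟫_ℝ = (t1 + t2) / 2 := by
    rw [hmx, inner_add_right, real_inner_smul_right, real_inner_smul_right, ← ht1, ← ht2]
    ring
  have hml : m - x0 - ⟪e, m - x0⟫_ℝ • e = (1 / 2 : ℝ) • w1 + (1 / 2 : ℝ) • w2 := by
    rw [hme, hmx, hw1, hw2]
    module
  have hmln : ‖m - x0 - ⟪e, m - x0⟫_ℝ • e‖ ≤ 9 / 200 := by
    rw [hml]
    calc ‖(1 / 2 : ℝ) • w1 + (1 / 2 : ℝ) • w2‖ ≤ ‖(1 / 2 : ℝ) • w1‖ + ‖(1 / 2 : ℝ) • w2‖ :=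
          norm_add_le _ _
      _ = 1 / 2 * ‖w1‖ + 1 / 2 * ‖w2‖ := by
          rw [norm_smul, norm_smul]
          norm_num
      _ ≤ 9 / 200 := by linarith
  have hvln : ‖v - ⟪e, v⟫_ℝ • e‖ ≤ 9 / 100 := by
    rw [hvl]
    have := norm_sub_le w2 w1
    linarith
  -- the inner product with v
  have key : ∀ x : E, ‖x - x0 - ⟪e, x - x0⟫_ℝ • e‖ ≤ η →
      |⟪v, x - m⟫_ℝ - (t2 - t1) * (⟪e, x - x0⟫_ℝ - (t1 + t2) / 2)| ≤ 5 / 1000 := by
    intro x hx
    have h1 : x - m = (x - x0) - (m - x0) := by abel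
    have h2 := OA15_inner h.norm_e v (x - m)
    have h3 : ⟪e, x - m⟫_ℝ = ⟪e, x - x0⟫_ℝ - (t1 + t2) / 2 := by
      rw [h1, inner_sub_right, hme]
    have h4 : x - m - ⟪e, x - m⟫_ℝ • e =
        (x - x0 - ⟪e, x - x0⟫_ℝ • e) - (m - x0 - ⟪e, m - x0⟫_ℝ • e) := by
      rw [h3, hme]
      module
    have h5 : ‖x - m - ⟪e, x - m⟫_ℝ • e‖ ≤ 46 / 1000 := by
      rw [h4]
      have := norm_sub_le (x - x0 - ⟪e, x - x0⟫_ℝ • e) (m - x0 - ⟪e, m - x0⟫_ℝ • e)
      linarith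
    rw [h2, h3, hve]
    have h6 : (t2 - t1) * (⟪e, x - x0⟫_ℝ - (t1 + t2) / 2) +
        ⟪v - (t2 - t1) • e, x - m - (⟪e, x - x0⟫_ℝ - (t1 + t2) / 2) • e⟫_ℝ -
        (t2 - t1) * (⟪e, x - x0⟫_ℝ - (t1 + t2) / 2) =
        ⟪v - ⟪e, v⟫_ℝ • e, x - m - ⟪e, x - m⟫_ℝ • e⟫_ℝ := by
      rw [h3, hve]
      ring
    rw [h6]
    calc |⟪v - ⟪e, v⟫_ℝ • e, x - m - ⟪e, x - m⟫_ℝ • e⟫_ℝ|
        ≤ ‖v - ⟪e, v⟫_ℝ • e‖ * ‖x - m - ⟪e, x - m⟫_ℝ • e‖ := abs_real_inner_le_norm _ _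
      _ ≤ 9 / 100 * (46 / 1000) := by
          apply mul_le_mul hvln h5 (norm_nonneg _) (by norm_num)
      _ ≤ 5 / 1000 := by norm_num
  have hv0 : v ≠ 0 := by
    intro h0
    rw [h0, inner_zero_right] at hve
    linarith
  -- bisector identity
  have bis : ∀ x : E, ⟪v, x - m⟫_ℝ = 0 →
      ‖x - c j‖ ^ 2 = ‖x - m‖ ^ 2 + ‖v‖ ^ 2 / 4 ∧ ‖x - c (j + 1)‖ ^ 2 = ‖x - m‖ ^ 2 + ‖v‖ ^ 2 / 4 := by
    intro x hx
    have h1 : x - c j = (x - m) + (1 / 2 : ℝ) • v := by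
      rw [hm2, hv]
      module
    have h2 : x - c (j + 1) = (x - m) - (1 / 2 : ℝ) • v := by
      rw [hm2, hv]
      module
    have h3 : ⟪x - m, (1 / 2 : ℝ) • v⟫_ℝ = 0 := by
      rw [real_inner_smul_right, real_inner_comm, hx, mul_zero]
    have h4 : ‖(1 / 2 : ℝ) • v‖ ^ 2 = ‖v‖ ^ 2 / 4 := by
      rw [norm_smul, mul_pow]
      norm_num
      ring
    constructor
    · rw [h1, norm_add_sq_real, h3, h4]
      ring
    · rw [h2, norm_sub_sq_real (x - m), h3, h4]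
      ring
  -- the slice
  have hsub : D ∩ {y | ⟪v, y⟫_ℝ = ⟪v, m⟫_ℝ} ⊆ {x | ‖x - m‖ ^ 2 ≤ 1 - ‖v‖ ^ 2 / 4} := by
    refine OA15_slice hD ?_ ?_ ?_
    · have hcv : ConvexOn ℝ univ (fun x : E => ‖x - m‖ ^ 2) := by
        have h1 : ConvexOn ℝ univ (fun x : E => ‖x - m‖) := by
          have := (convexOn_dist m (convex_univ : Convex ℝ (univ : Set E)))
          simpa only [dist_eq_norm] using this
        exact h1.pow (fun x _ => norm_nonneg _) 2
      have := hcv.convex_le (1 - ‖v‖ ^ 2 / 4)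
      simpa using this
    · exact isClosed_le (by fun_prop) continuous_const
    · intro y hy
      have hyD := (extremePoints_subset hy).1
      have hyv : ⟪v, y⟫_ℝ = ⟪v, m⟫_ℝ := (extremePoints_subset hy).2
      have hyv' : ⟪v, y - m⟫_ℝ = 0 := by rw [inner_sub_right, hyv, sub_self]
      have h1 := h.cov v _ hv0 hy
      simp only [mem_iUnion, mem_setOf_eq, exists_prop] at h1
      obtain ⟨i, hi, hyi⟩ := h1
      rw [mem_closedBall, dist_eq_norm] at hyi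
      have hk := key y (h.lat y hyD)
      rw [hyv', abs_le] at hk
      have hpi := h.pos i hi
      have hin : |⟪e, c i - x0⟫_ℝ - ⟪e, y - x0⟫_ℝ| ≤ 1 := by
        rw [← inner_sub_right]
        have h2 : c i - x0 - (y - x0) = c i - y := by abel
        rw [h2]
        have h5 : |⟪e, c i - y⟫_ℝ| ≤ ‖e‖ * ‖c i - y‖ := abs_real_inner_le_norm _ _
        rw [h.norm_e, one_mul, norm_sub_rev] at h5
        linarith
      rw [abs_le] at hin
      have hty1 : ⟪e, y - x0⟫_ℝ - (t1 + t2) / 2 ≤ 1 / 100 := by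
        by_contra hcon
        push Not at hcon
        nlinarith
      have hty2 : -(1 / 100) ≤ ⟪e, y - x0⟫_ℝ - (t1 + t2) / 2 := by
        by_contra hcon
        push Not at hcon
        nlinarith
      have hij : i = j ∨ i = j + 1 := by
        by_contra hcon
        push Not at hcon
        rcases lt_or_ge i j with hlt | hge
        · have : (i : ℝ) + 1 ≤ j := by exact_mod_cast hlt
          linarith
        · have : j + 2 ≤ i := by omega
          have : (j : ℝ) + 2 ≤ i := by exact_mod_cast this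
          linarith
      have hb := bis y hyv'
      rw [mem_setOf_eq]
      rcases hij with rfl | rfl
      · have : ‖y - c i‖ ^ 2 ≤ 1 := by
          have := norm_nonneg (y - c i)
          nlinarith
        linarith [hb.1]
      · have : ‖y - c (j + 1)‖ ^ 2 ≤ 1 := by
          have := norm_nonneg (y - c (j + 1))
          nlinarith
        linarith [hb.2]
  constructor
  · -- a point of the slice
    have hpos : 0 < t2 - t1 := by linarith
    set s : ℝ := (t1 + t2) / 2 -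
      ⟪v, x0 + ((t1 + t2) / 2) • e - m⟫_ℝ / (t2 - t1) with hs
    have hx0l : ∀ r : ℝ, ‖x0 + r • e - x0 - ⟪e, x0 + r • e - x0⟫_ℝ • e‖ ≤ η := by
      intro r
      rw [add_sub_cancel_left, real_inner_smul_right, hee, mul_one, sub_self, norm_zero]
      exact hη.le
    have hxe : ∀ r : ℝ, ⟪e, x0 + r • e - x0⟫_ℝ = r := by
      intro r
      rw [add_sub_cancel_left, real_inner_smul_right, hee, mul_one]
    have hk := key _ (hx0l ((t1 + t2) / 2))
    rw [hxe, sub_self, mul_zero, sub_zero] at hk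
    have hsb : |⟪v, x0 + ((t1 + t2) / 2) • e - m⟫_ℝ / (t2 - t1)| ≤ 1 / 100 := by
      rw [abs_div, abs_of_pos hpos, div_le_iff₀ hpos]
      linarith
    rw [abs_le] at hsb
    have hsD : x0 + s • e ∈ D := by
      refine h.OA15_seg hD ?_ ?_
      · rw [hs]
        linarith
      · rw [hs]
        linarith
    have hsv : ⟪v, x0 + s • e - m⟫_ℝ = 0 := by
      have h1 : x0 + s • e - m = (x0 + ((t1 + t2) / 2) • e - m) -
          (⟪v, x0 + ((t1 + t2) / 2) • e - m⟫_ℝ / (t2 - t1)) • e := by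
        rw [hs]
        module
      rw [h1, inner_sub_right, real_inner_smul_right, real_inner_comm e v, hve,
        div_mul_cancel₀ _ hpos.ne', sub_self]
    have hmem : x0 + s • e ∈ D ∩ {y | ⟪v, y⟫_ℝ = ⟪v, m⟫_ℝ} := by
      refine ⟨hsD, ?_⟩
      rw [mem_setOf_eq]
      rw [inner_sub_right] at hsv
      linarith
    have h2 := hsub hmem
    rw [mem_setOf_eq] at h2
    have h3 := sq_nonneg ‖x0 + s • e - m‖
    have h4 := norm_nonneg v
    nlinarith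
  · intro x hx hxv
    have hmem : x ∈ D ∩ {y | ⟪v, y⟫_ℝ = ⟪v, m⟫_ℝ} := by
      refine ⟨hx, ?_⟩
      rw [mem_setOf_eq]
      rw [inner_sub_right] at hxv
      linarith
    exact hsub hmem

end general

end Pool.Agent.Sausage27
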