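import Pool.Agent.Sausage27.SGS
import Pool.Agent.Sausage27.FBE
import Pool.Agent.Sausage27.KB
import Pool.Agent.Sausage27.FN30

/-!
# Sausage27: sharp asymptotics and the determination of the extremal bodies
-/

namespace Pool.Agent.Sausage27

open MeasureTheory Set Metric Filter Topology
open scoped InnerProductSpace Pointwise

/-- The set `D` is compact and convex, and its `1`-skeleton is covered by `n` unit balls. -/
def Admissible {d : ℕ} (n : ℕ) (D : Set (Eu d)) : Prop :=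
  Body D ∧ ∃ c : Fin n → Eu d, skel 1 D ⊆ ⋃ j, closedBall (c j) 1

theorem SA_extremal_chain (d : ℕ) (hd : 2 ≤ d) : ∃ N₀ : ℕ, ∀ N ≥ N₀, ∀ D : Set (Eu d),
    Extremal (N + 1) D → ∃ (c : ℕ → Eu d) (e : Eu d), Chain (wt d 2 / 5000) N D c e ∧
      1000 / wt d 2 ≤ N ∧ bd c N = 0 ∧ vr c N = 0 ∧ ∃ v : Eu d, ∀ j ≤ N, c j = c 0 + (j : ℝ) • v := by
  have hw0 := FN_wt_pos d 2
  have hw1 := FN_wt_le_one d 2
  have hδ : 0 < wt d 2 / 5000 := by positivity
  have hδ1 : wt d 2 / 5000 ≤ 1 / 100 := by linarith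
  obtain ⟨N1, hN1⟩ := exists_chain d (by omega) hδ hδ1
  obtain ⟨C, hC, hV⟩ := V1_eq d (by omega)
  have hV1 : ∀ D : Set (Eu d), Body D → V1 D = C * G D := fun D hD => (hV D hD).limUnder_eq
  obtain ⟨M, hM⟩ := exists_nat_gt (1000 / wt d 2)
  refine ⟨max N1 M, fun N hNN D hext => ?_⟩
  obtain ⟨hD, ⟨c0, hc0⟩, hmax⟩ := hext
  have hG : ((N + 1 : ℕ) : ℝ) * √(2 / Real.pi) * Zg (Eu d) ≤ G D := by
    obtain ⟨K, hK, hKc, hKG⟩ := FN_baseline d hd N
    have h1 := hmax K hK hKc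
    rw [hV1 K hK, hV1 D hD] at h1
    exact hKG.trans (le_of_mul_le_mul_left h1 hC)
  have hNM : 1000 / wt d 2 ≤ N := by
    have : (M : ℝ) ≤ N := by exact_mod_cast (le_max_right _ _).trans hNN
    linarith
  have hN2 : 100 ≤ N := by
    have : (1000 : ℝ) ≤ 1000 / wt d 2 := by
      rw [le_div_iff₀ hw0]; linarith
    have : (100 : ℝ) ≤ N := by linarith
    exact_mod_cast this
  obtain ⟨σ, e, hch⟩ := hN1 N ((le_max_left _ _).trans hNN) D c0 hD (sliceCov_of_skel hc0) hG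
  set c' : ℕ → Eu d := fun j => c0 (σ (Fin.ofNat (N + 1) j)) with hc'
  obtain ⟨ha, -, -, hY, -, hbd0, -, -, -, hsum⟩ := hch.basic hδ hδ1 hN2
  have hvr0 : 0 ≤ vr c' N := by
    unfold vr
    apply div_nonneg _ (Finset.sum_nonneg fun _ _ => norm_nonneg _)
    exact Finset.sum_nonneg fun _ _ => mul_nonneg (norm_nonneg _) (sq_nonneg _)
  have hzero : bd c' N + vr c' N / 2 ≤ 0 := by
    by_contra hpos
    push Not at hpos
    obtain ⟨K, hK, hKc, hKG⟩ := FN_beat d hd hδ le_rfl hNM hD hch hpos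
    have h1 := hmax K hK hKc
    rw [hV1 K hK, hV1 D hD] at h1
    exact absurd (le_of_mul_le_mul_left h1 hC) (not_le.2 hKG)
  have hpos' : ∀ j < N, 0 < ‖c' (j + 1) - c' j‖ := by
    intro j hj
    have := ha j hj
    nlinarith
  obtain ⟨v, hv⟩ := FN_aligned hch hpos' hsum (by linarith) (by linarith)
  exact ⟨c', e, hch, hNM, by linarith, by linarith, v, hv⟩

/-- The slice comparison of a chain with the sausage of the same length. -/
theorem SA_slices (d : ℕ) (hd : 2 ≤ d) {δ : ℝ} (hδ : 0 < δ) (hδw : δ ≤ wt d 2 / 5000) {N : ℕ}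
    (hN : 1000 / wt d 2 ≤ N) {D : Set (Eu d)} {c : ℕ → Eu d} {e : Eu d} (hD : Body D)
    (h : Chain δ N D c e) : ∃ a : Eu d, Centred (fun j => c j + a) N ∧ 0 ≤ bA c N / N ∧
      bA c N / N ≤ 2 ∧
      Body (Kset e ((N : ℝ) * (bA c N / N) / 2) (√(1 - (bA c N / N) ^ 2 / 4))) ∧
      ∀ θ : Eu d, ‖θ‖ = 1 → ⟪e, θ⟫_ℝ = 0 →
      ∃ xr ∈ (fun x => x + a) '' D, ∃ yr ∈ (fun x => x + a) '' D, ∃ σ κ Er : ℝ,
      ⟪θ, xr⟫_ℝ - σ * ⟪e, xr⟫_ℝ = κ ∧ ⟪θ, yr⟫_ℝ - σ * ⟪e, yr⟫_ℝ = κ ∧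
      -(1 / 2) ≤ ⟪e, xr - (c N + a)⟫_ℝ ∧ ⟪e, yr - (c 0 + a)⟫_ℝ ≤ 1 / 2 ∧ 0 ≤ Er ∧
      (∀ p ∈ (fun x => x + a) '' D, ⟪e, yr⟫_ℝ ≤ ⟪e, p⟫_ℝ → ⟪e, p⟫_ℝ ≤ ⟪e, xr⟫_ℝ →
        ⟪θ, p⟫_ℝ - σ * ⟪e, p⟫_ℝ - κ ≤ Er) ∧
      κ + Er / 16 ≤ √(1 - (bA c N / N) ^ 2 / 4) - vr c N / 4 + δ / N * bd c N ∧
      wt d 2 / 2 * (bd c N + vr c N / 2 + Er / 16 + (N : ℝ) ^ 2 / 20 * σ ^ 2) ≤
        (∫ q in Ioi 0, S4 (Kset e ((N : ℝ) * (bA c N / N) / 2) (√(1 - (bA c N / N) ^ 2 / 4))) e θ q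
          * wt d q) - ∫ q in Ioi 0, S4 ((fun x => x + a) '' D) e θ q * wt d q := by
  have hw0 := FN_wt_pos d 2
  have hw1 := FN_wt_le_one d 2
  have hδ1 : δ ≤ 1 / 100 := by linarith
  have hN1 : (1000 : ℝ) ≤ N := by
    have : (1000 : ℝ) ≤ 1000 / wt d 2 := by
      rw [le_div_iff₀ hw0]; linarith
    linarith
  have hN2 : 100 ≤ N := by
    have : (100 : ℝ) ≤ N := by linarith
    exact_mod_cast this
  obtain ⟨-, -, -, hY, hbA, hbd0, -, -, -, -⟩ := h.basic hδ hδ1 hN2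
  have hbApos : 0 < bA c N := by
    have h1 : (N : ℝ) * 1 ≤ (N : ℝ) * (2 - 5 * δ ^ 2) := by
      apply mul_le_mul_of_nonneg_left _ (by linarith)
      nlinarith
    unfold bd at hbd0
    linarith
  obtain ⟨a, ha⟩ := FN_centre c N hbApos.ne'
  have hN0 : (0 : ℝ) < N := by linarith
  set b : ℝ := bA c N / N with hb
  have hb0 : 0 ≤ b := by positivity
  have hb2 : b ≤ 2 := by rw [hb, div_le_iff₀ hN0]; linarith
  have hL : (N : ℝ) * b / 2 = bA c N / 2 := by rw [hb]; field_simp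
  have hρ0 : 0 ≤ √(1 - b ^ 2 / 4) := Real.sqrt_nonneg _
  have hρ1 : √(1 - b ^ 2 / 4) ≤ 1 := by
    rw [Real.sqrt_le_iff]
    have := sq_nonneg b
    constructor <;> linarith
  have hK : Body (Kset e ((N : ℝ) * b / 2) (√(1 - b ^ 2 / 4))) :=
    Kset_body h.norm_e (by positivity) hρ0 hρ1
  refine ⟨a, ha, hb0, hb2, hK, ?_⟩
  set K := Kset e ((N : ℝ) * b / 2) (√(1 - b ^ 2 / 4)) with hKdef
  intro θ hθ hθe
  have hi1 := integrableOn_S4 hd hK e θ
  have hi2 := integrableOn_S4 hd (hD.translate a) e θ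
  have hint : IntegrableOn (fun q => (S4 K e θ q - S4 ((fun x => x + a) '' D) e θ q) * wt d q)
      (Ioi 0) := by
    have := hi1.sub hi2
    refine this.congr (Eventually.of_forall fun q => ?_)
    simp only [Pi.sub_apply]; ring
  have key := slice_gap_strong (w := wt d) (hD.translate a) hK (h.translate a) ha hw0 hw1 hδ hδw hN
    (FN_wt_meas d) (fun q => (FN_wt_pos d q).le) (FN_wt_le_one d)
    (fun q hq => FN_wt_anti d (by linarith [hq.1]) hq.2) hθ hθe hint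
    (fun q k hq hk hkρ => by
      rw [FN_rhob] at hkρ
      have := Kset_S4 (E := Eu d) h.norm_e (L := (N : ℝ) * b / 2) (ρ := √(1 - b ^ 2 / 4))
        (by positivity) hρ0 hρ1 hθ hθe hq hk hkρ
      rw [FN_bA]
      have h2 : 2 * q * (2 * ((N : ℝ) * b / 2)) = 2 * q * bA c N := by rw [hL]; ring
      rw [h2] at this
      exact this)
  have h3 : ∫ q in Ioi 0, (S4 K e θ q - S4 ((fun x => x + a) '' D) e θ q) * wt d q =
      (∫ q in Ioi 0, S4 K e θ q * wt d q) -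
        ∫ q in Ioi 0, S4 ((fun x => x + a) '' D) e θ q * wt d q := by
    rw [← integral_sub hi1 hi2]
    congr 1
    ext q; ring
  rw [FN_bd, FN_vr, h3, FN_rhob] at key
  exact key

theorem SA_betaV_nonneg {d : ℕ} (hd : 2 ≤ d) : 0 ≤ betaV d := by
  unfold betaV
  have hd' : (2 : ℝ) ≤ d := by exact_mod_cast hd
  have h1 : 0 < Real.Gamma ((d : ℝ) / 2) := Real.Gamma_pos_of_pos (by linarith)
  have h2 : 0 < Real.Gamma (((d : ℝ) - 1) / 2) := Real.Gamma_pos_of_pos (by linarith)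
  positivity

theorem SA_sqrt_le {b : ℝ} : 0 ≤ √(1 - b ^ 2 / 4) ∧ √(1 - b ^ 2 / 4) ≤ 1 := by
  refine ⟨Real.sqrt_nonneg _, ?_⟩
  rw [Real.sqrt_le_iff]
  have := sq_nonneg b
  constructor <;> linarith

/-- The sausage `K_b` with `N+1` balls is admissible. -/
theorem SA_admissible {d : ℕ} (hd : 2 ≤ d) {e : Eu d} (he : ‖e‖ = 1) {b : ℝ} (hb0 : 0 ≤ b)
    (hb2 : b ≤ 2) (N : ℕ) :
    Body (Kset e ((N : ℝ) * b / 2) (√(1 - b ^ 2 / 4))) ∧
    ∃ c : Fin (N + 1) → Eu d, skel 1 (Kset e ((N : ℝ) * b / 2) (√(1 - b ^ 2 / 4))) ⊆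
      ⋃ j, closedBall (c j) 1 :=
  ⟨Kset_body he (by positivity) SA_sqrt_le.1 SA_sqrt_le.2,
    ⟨_, Kset_cov (E := Eu d) (by simpa using hd) he hb0 hb2 N⟩⟩

/-- The lower bound, for all `n`. -/
theorem SA_lower {d : ℕ} (hd : 2 ≤ d) {n : ℕ} (hn : 1 ≤ n) {D : Set (Eu d)}
    (h : Extremal n D) : √(4 * (n : ℝ) ^ 2 + betaV d ^ 2) ≤ V1 D := by
  obtain ⟨N, rfl⟩ : ∃ N, n = N + 1 := ⟨n - 1, by omega⟩
  obtain ⟨e, he⟩ : ∃ e : Eu d, ‖e‖ = 1 := by
    refine ⟨EuclideanSpace.single ⟨0, by omega⟩ 1, by simp⟩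
  obtain ⟨a, ha0, ha2, hopt⟩ := KB_opt ((N + 1 : ℕ) : ℝ) (betaV d) (by positivity)
  rw [hopt (SA_betaV_nonneg hd)]
  obtain ⟨hK, hKc⟩ := SA_admissible hd he ha0 ha2 N
  have h1 := (KB_bounds hd he ha0 ha2 N).1
  have h2 := h.2.2 _ hK hKc
  push_cast
  linarith

/-- Two bodies, one inside the other, with the same Gaussian functional are equal. -/
theorem SA_eq_of_G {d : ℕ} {D K : Set (Eu d)} (hD : Body D) (hK : Body K) (hsub : D ⊆ K)
    (hG : G K ≤ G D) : D = K := by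
  have hle : ∀ u, hS D u ≤ hS K u := fun u => hD.hS_le fun x hx => hK.inner_le (hsub hx) u
  have hint : Integrable (fun x : Eu d => (hS K x - hS D x) * Real.exp (-‖x‖ ^ 2 / 2)) := by
    refine ((FN_integrable_hS hK).sub (FN_integrable_hS hD)).congr
      (Eventually.of_forall fun x => ?_)
    simp only [Pi.sub_apply]; ring
  have h0 : ∫ x : Eu d, (hS K x - hS D x) * Real.exp (-‖x‖ ^ 2 / 2) = G K - G D := by
    unfold G
    rw [← integral_sub (FN_integrable_hS hK) (FN_integrable_hS hD)]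
    congr 1
    funext x; ring
  have hnn : 0 ≤ fun x : Eu d => (hS K x - hS D x) * Real.exp (-‖x‖ ^ 2 / 2) :=
    fun x => mul_nonneg (sub_nonneg.2 (hle x)) (Real.exp_pos _).le
  have h1 : ∫ x : Eu d, (hS K x - hS D x) * Real.exp (-‖x‖ ^ 2 / 2) = 0 :=
    le_antisymm (by rw [h0]; linarith) (integral_nonneg hnn)
  have h2 := (integral_eq_zero_iff_of_nonneg hnn hint).1 h1
  have hc1 := hK.continuous_hS
  have hc2 := hD.continuous_hS
  have h3 : (fun x : Eu d => (hS K x - hS D x) * Real.exp (-‖x‖ ^ 2 / 2)) = fun _ => 0 := by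
    refine Continuous.ae_eq_iff_eq volume (by fun_prop) (by fun_prop) |>.1 ?_
    exact h2
  have h4 : ∀ x, hS K x = hS D x := by
    intro x
    have := congrFun h3 x
    rcases mul_eq_zero.1 this with h | h
    · linarith
    · exact absurd h (Real.exp_pos _).ne'
  refine Subset.antisymm hsub fun x hx => ?_
  by_contra hxD
  obtain ⟨f, u, hu1, hu2⟩ := geometric_hahn_banach_closed_point hD.conv hD.comp.isClosed hxD
  obtain ⟨z, hz⟩ := (InnerProductSpace.toDual ℝ (Eu d)).surjective f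
  have hf : ∀ y, f y = ⟪y, z⟫_ℝ := by
    intro y
    rw [← hz, InnerProductSpace.toDual_apply_apply, real_inner_comm]
  have h5 : hS D z ≤ u := hD.hS_le fun y hy => by rw [← hf]; exact (hu1 y hy).le
  have h6 := hK.inner_le hx z
  rw [h4, ← hf] at h6
  linarith

/-- The shape of the extremal bodies. -/
theorem SA_shape (d : ℕ) (hd : 2 ≤ d) : ∃ N₀ : ℕ, ∀ N ≥ N₀, ∀ D : Set (Eu d),
    Extremal (N + 1) D → ∃ (e a : Eu d) (b : ℝ), ‖e‖ = 1 ∧ 0 ≤ b ∧ b ≤ 2 ∧
      (fun x => x + a) '' D = Kset e ((N : ℝ) * b / 2) (√(1 - b ^ 2 / 4)) := by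
  obtain ⟨N₀, hN₀⟩ := SA_extremal_chain d hd
  refine ⟨N₀, fun N hN D hext => ?_⟩
  obtain ⟨c, e, hch, hNM, hbd, hvr, v, hv⟩ := hN₀ N hN D hext
  have hw0 := FN_wt_pos d 2
  have hw1 := FN_wt_le_one d 2
  have hδ : 0 < wt d 2 / 5000 := by positivity
  have hδ1 : wt d 2 / 5000 ≤ 1 / 100 := by linarith
  have hN1 : (1000 : ℝ) ≤ N := by
    have : (1000 : ℝ) ≤ 1000 / wt d 2 := by
      rw [le_div_iff₀ hw0]; linarith
    linarith
  have hN2 : 100 ≤ N := by
    have : (100 : ℝ) ≤ N := by linarith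
    exact_mod_cast this
  have hN0 : (0 : ℝ) < N := by linarith
  obtain ⟨hD, hcov, hmax⟩ := hext
  obtain ⟨C, hC, hV⟩ := V1_eq d (by omega)
  have hV1 : ∀ D : Set (Eu d), Body D → V1 D = C * G D := fun D hD => (hV D hD).limUnder_eq
  obtain ⟨a, hcen, hb0, hb2, hK, hsl⟩ := SA_slices d hd hδ le_rfl hNM hD hch
  have hbasic := hch.basic hδ hδ1 hN2
  -- the chain data
  have hY : ‖c N - c 0‖ = N * ‖v‖ := by
    rw [hv N le_rfl, add_sub_cancel_left, norm_smul, Real.norm_of_nonneg hN0.le]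
  have hstep : ∀ j < N, c (j + 1) - c j = v := by
    intro j hj
    rw [hv (j + 1) (by omega), hv j (by omega)]
    push_cast
    rw [add_smul, one_smul]; abel
  have hbA : bA c N = N * ‖v‖ := by
    unfold bA
    rw [Finset.sum_congr rfl fun j hj => by rw [hstep j (Finset.mem_range.1 hj)]]
    simp
  have hb : bA c N / N = ‖v‖ := by rw [hbA]; field_simp
  rw [hb] at hb0 hb2 hK hsl
  have hvpos : 0 < ‖v‖ := by
    have h1 := hbasic.2.2.2.1
    rw [hY] at h1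
    have h2 : (N : ℝ) * 1 ≤ (N : ℝ) * (2 - 5 * (wt d 2 / 5000) ^ 2) := by
      apply mul_le_mul_of_nonneg_left _ hN0.le
      nlinarith
    have h3 : (N : ℝ) * 1 ≤ N * ‖v‖ := by linarith
    have := le_of_mul_le_mul_left h3 hN0
    linarith
  have hve : v = ‖v‖ • e := by
    have h1 := hch.axis
    rw [hY, hv N le_rfl, add_sub_cancel_left, mul_smul] at h1
    exact smul_right_injective _ hN0.ne' h1
  -- centring
  have hc0 : c 0 + a = -((N : ℝ) * ‖v‖ / 2) • e := by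
    have h1 : ∑ j ∈ Finset.range N, ‖(c (j + 1) + a) - (c j + a)‖ • ((c j + a) + (c (j + 1) + a)) =
        0 := hcen
    have h2 : ∀ j ∈ Finset.range N,
        ‖(c (j + 1) + a) - (c j + a)‖ • ((c j + a) + (c (j + 1) + a)) =
        ‖v‖ • ((2 : ℝ) • (c 0 + a)) + (‖v‖ * (2 * (j : ℝ) + 1)) • v := by
      intro j hj
      have hj' := Finset.mem_range.1 hj
      rw [add_sub_add_right_eq_sub, hstep j hj', mul_smul, ← smul_add]
      congr 1
      rw [hv (j + 1) (by omega), hv j (by omega)]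
      push_cast
      module
    rw [Finset.sum_congr rfl h2, Finset.sum_add_distrib, Finset.sum_const, Finset.card_range,
      ← Finset.sum_smul, ← Finset.mul_sum] at h1
    have h3 : ∀ m : ℕ, ∑ j ∈ Finset.range m, (2 * (j : ℝ) + 1) = (m : ℝ) ^ 2 := by
      intro m
      induction m with
      | zero => simp
      | succ m ih => rw [Finset.sum_range_succ, ih]; push_cast; ring
    rw [h3] at h1
    have h4 : (2 * (N : ℝ) * ‖v‖) • (c 0 + a) = -(‖v‖ * (N : ℝ) ^ 2) • v := by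
      rw [← Nat.cast_smul_eq_nsmul ℝ] at h1
      have : (2 * (N : ℝ) * ‖v‖) • (c 0 + a) = (N : ℝ) • ‖v‖ • (2 : ℝ) • (c 0 + a) := by
        rw [smul_smul, smul_smul]; congr 1; ring
      rw [this, neg_smul]
      exact eq_neg_of_add_eq_zero_left h1
    have h5 : c 0 + a = (2 * (N : ℝ) * ‖v‖)⁻¹ • (-(‖v‖ * (N : ℝ) ^ 2) • v) := by
      rw [← h4, smul_smul, inv_mul_cancel₀ (by positivity), one_smul]
    rw [h5]
    conv_lhs => rw [hve]
    rw [smul_smul, smul_smul]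
    congr 1
    rw [norm_smul, norm_norm, hch.norm_e]
    field_simp
  have hcN : c N + a = ((N : ℝ) * ‖v‖ / 2) • e := by
    have h1 : c N + a = (c 0 + a) + (N : ℝ) • v := by rw [hv N le_rfl]; abel
    rw [h1, hc0]
    conv_lhs => rw [hve]
    rw [smul_smul, ← add_smul]
    congr 1
    rw [norm_smul, norm_norm, hch.norm_e]
    ring
  set D' : Set (Eu d) := (fun x => x + a) '' D with hD'
  have hDb : Body D' := hD.translate a
  set b : ℝ := ‖v‖ with hbdef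
  set L : ℝ := (N : ℝ) * b / 2 with hL
  set ρ : ℝ := √(1 - b ^ 2 / 4) with hρ
  set K := Kset e L ρ with hKdef
  have hee : ⟪e, e⟫_ℝ = 1 := by rw [real_inner_self_eq_norm_sq, hch.norm_e]; norm_num
  -- the Gaussian functionals agree
  have hGle : G K ≤ G D' := by
    have h1 := hmax K hK (SA_admissible hd hch.norm_e hb0 hb2 N).2
    rw [hV1 K hK, hV1 D hD] at h1
    rw [hD', FN_G_translate hD a]
    exact le_of_mul_le_mul_left h1 hC
  have hcmp := G_le_of_slices hd hDb hK hch.norm_e (fun θ hθ hθe => by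
    obtain ⟨xr, -, yr, -, σ, κ, Er, -, -, -, -, hEr, -, -, hgap⟩ := hsl θ hθ hθe
    rw [hbd, hvr] at hgap
    have : 0 ≤ wt d 2 / 2 * (0 + 0 / 2 + Er / 16 + (N : ℝ) ^ 2 / 20 * σ ^ 2) := by positivity
    linarith)
  have hno : ∀ θ : Eu d, ‖θ‖ = 1 → ⟪e, θ⟫_ℝ = 0 →
      (∫ q in Ioi 0, S4 K e θ q * wt d q) ≤ ∫ q in Ioi 0, S4 D' e θ q * wt d q := by
    intro θ hθ hθe
    by_contra hlt
    push Not at hlt
    exact absurd (hcmp.2 ⟨θ, hθ, hθe, hlt⟩) (not_lt.2 hGle)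
  -- the height in every direction
  have hheight : ∀ θ : Eu d, ‖θ‖ = 1 → ⟪e, θ⟫_ℝ = 0 → ∀ p ∈ D', ⟪θ, p⟫_ℝ ≤ ρ := by
    intro θ hθ hθe p hp
    obtain ⟨xr, hxr, yr, hyr, σ, κ, Er, hxκ, hyκ, hxc, hyc, hEr, hbet, hκ, hgap⟩ := hsl θ hθ hθe
    rw [hbd, hvr] at hgap hκ
    have hz : wt d 2 / 2 * (0 + 0 / 2 + Er / 16 + (N : ℝ) ^ 2 / 20 * σ ^ 2) ≤ 0 :=
      hgap.trans (sub_nonpos.2 (hno θ hθ hθe))
    have hz2 : 0 + 0 / 2 + Er / 16 + (N : ℝ) ^ 2 / 20 * σ ^ 2 ≤ 0 := by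
      by_contra hpos
      push Not at hpos
      exact absurd hz (not_le.2 (by positivity))
    have hσ2 : 0 ≤ (N : ℝ) ^ 2 / 20 * σ ^ 2 := by positivity
    have hEr0 : Er = 0 := by linarith
    have hσ0 : σ = 0 := by
      have h1 : (N : ℝ) ^ 2 / 20 * σ ^ 2 = 0 := by linarith
      have h2 : (N : ℝ) ^ 2 / 20 ≠ 0 := by positivity
      exact pow_eq_zero_iff two_ne_zero |>.1 ((mul_eq_zero.1 h1).resolve_left h2)
    subst hσ0
    rw [hEr0] at hbet hκ
    simp only [zero_mul, sub_zero] at hxκ hyκ hbet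
    have hκρ : κ ≤ ρ := by linarith
    rw [hcN, inner_sub_right, real_inner_smul_right, hee] at hxc
    rw [hc0, inner_sub_right, real_inner_smul_right, hee] at hyc
    have hLb : 1 ≤ L := by
      have h1 := hbasic.2.2.2.1
      rw [hY] at h1
      have h2 : (N : ℝ) * 1 ≤ (N : ℝ) * (2 - 5 * (wt d 2 / 5000) ^ 2) := by
        apply mul_le_mul_of_nonneg_left _ hN0.le
        nlinarith
      rw [hL]
      linarith
    have hxy : ⟪e, yr⟫_ℝ < ⟪e, xr⟫_ℝ := by linarith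
    refine le_trans ?_ hκρ
    rcases lt_or_ge ⟪e, xr⟫_ℝ ⟪e, p⟫_ℝ with h1 | h1
    · -- beyond `xr`
      set t : ℝ := (⟪e, xr⟫_ℝ - ⟪e, yr⟫_ℝ) / (⟪e, p⟫_ℝ - ⟪e, yr⟫_ℝ) with ht
      have hden : 0 < ⟪e, p⟫_ℝ - ⟪e, yr⟫_ℝ := by linarith
      have ht0 : 0 < t := by
        rw [ht]; exact div_pos (by linarith) hden
      have ht1 : t ≤ 1 := by
        rw [ht, div_le_one hden]; linarith
      have hzD := hDb.conv.add_smul_sub_mem hyr hp ⟨ht0.le, ht1⟩
      have hze : ⟪e, yr + t • (p - yr)⟫_ℝ = ⟪e, xr⟫_ℝ := by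
        rw [inner_add_right, real_inner_smul_right, inner_sub_right, ht]
        field_simp
        ring
      have h2 := hbet _ hzD (by rw [hze]; exact hxy.le) (by rw [hze])
      rw [inner_add_right, real_inner_smul_right, inner_sub_right, hyκ] at h2
      have h3 : t * (⟪θ, p⟫_ℝ - κ) ≤ 0 := by linarith
      by_contra h4
      push Not at h4
      exact absurd h3 (not_le.2 (mul_pos ht0 (by linarith)))
    rcases lt_or_ge ⟪e, p⟫_ℝ ⟪e, yr⟫_ℝ with h2 | h2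
    · -- before `yr`
      set t : ℝ := (⟪e, xr⟫_ℝ - ⟪e, yr⟫_ℝ) / (⟪e, xr⟫_ℝ - ⟪e, p⟫_ℝ) with ht
      have hden : 0 < ⟪e, xr⟫_ℝ - ⟪e, p⟫_ℝ := by linarith
      have ht0 : 0 < t := by
        rw [ht]; exact div_pos (by linarith) hden
      have ht1 : t ≤ 1 := by
        rw [ht, div_le_one hden]; linarith
      have hzD := hDb.conv.add_smul_sub_mem hxr hp ⟨ht0.le, ht1⟩
      have hze : ⟪e, xr + t • (p - xr)⟫_ℝ = ⟪e, yr⟫_ℝ := by
        rw [inner_add_right, real_inner_smul_right, inner_sub_right, ht]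
        field_simp
        ring
      have h3 := hbet _ hzD (by rw [hze]) (by rw [hze]; exact hxy.le)
      rw [inner_add_right, real_inner_smul_right, inner_sub_right, hxκ] at h3
      have h4 : t * (⟪θ, p⟫_ℝ - κ) ≤ 0 := by linarith
      by_contra h5
      push Not at h5
      exact absurd h4 (not_le.2 (mul_pos ht0 (by linarith)))
    · have h3 := hbet p hp h2 h1
      linarith
  -- the body is contained in the sausage
  have hsub : D' ⊆ K := by
    intro p hp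
    set w : Eu d := p - ⟪e, p⟫_ℝ • e with hw
    have hew : ⟪e, w⟫_ℝ = 0 := by
      rw [hw, inner_sub_right, real_inner_smul_right, hee]; ring
    have hwp : ⟪w, p⟫_ℝ = ‖w‖ ^ 2 := by
      have h1 : p = w + ⟪e, p⟫_ℝ • e := by rw [hw]; abel
      conv_lhs => rw [h1]
      rw [inner_add_right, real_inner_smul_right, real_inner_comm e w, hew,
        real_inner_self_eq_norm_sq]
      ring
    have hw1 : ‖w‖ ≤ ρ := by
      rcases eq_or_ne w 0 with h0 | h0
      · rw [h0, norm_zero]; exact Real.sqrt_nonneg _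
      · have h1 : 0 < ‖w‖ := norm_pos_iff.2 h0
        have h2 := hheight (‖w‖⁻¹ • w) (by
          rw [norm_smul, norm_inv, norm_norm, inv_mul_cancel₀ h1.ne'])
          (by rw [real_inner_smul_right, hew, mul_zero]) p hp
        rw [real_inner_smul_left, hwp] at h2
        have h3 : ‖w‖⁻¹ * ‖w‖ ^ 2 = ‖w‖ := by field_simp
        rwa [h3] at h2
    have hsplit : ∀ s : ℝ, ‖p - s • e‖ ^ 2 = (⟪e, p⟫_ℝ - s) ^ 2 + ‖w‖ ^ 2 := by
      intro s
      rw [← real_inner_self_eq_norm_sq, ← real_inner_self_eq_norm_sq w, hw]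
      simp only [inner_sub_left, inner_sub_right, real_inner_smul_left, real_inner_smul_right, hee,
        real_inner_comm e p]
      ring
    have hcap : ∀ s : ℝ, 0 ≤ s → s ^ 2 + ‖w‖ ^ 2 ≤ 1 → s ≤ √(1 - ‖w‖ ^ 2) := by
      intro s hs h1
      exact Real.le_sqrt_of_sq_le (by linarith)
    refine ⟨hw1, ?_⟩
    rw [abs_le]
    have hs0 := Real.sqrt_nonneg (1 - ‖w‖ ^ 2)
    have hr := (hch.translate a).right p hp
    have hl := (hch.translate a).left p hp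
    constructor
    · by_contra h1
      push Not at h1
      have h2 : ‖p - (c 0 + a)‖ ≤ 1 := by
        apply hl
        rw [hc0, inner_sub_right, real_inner_smul_right, hee]
        linarith
      rw [hc0] at h2
      have h3 := hsplit (-L)
      have h4 : ‖p - -L • e‖ ^ 2 ≤ 1 := pow_le_one₀ (norm_nonneg _) h2
      rw [h3] at h4
      have h5 := hcap (-(⟪e, p⟫_ℝ + L)) (by linarith) (by nlinarith)
      linarith
    · by_contra h1
      push Not at h1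
      have h2 : ‖p - (c N + a)‖ ≤ 1 := by
        apply hr
        rw [hcN, inner_sub_right, real_inner_smul_right, hee]
        linarith
      rw [hcN] at h2
      have h3 := hsplit L
      have h4 : ‖p - L • e‖ ^ 2 ≤ 1 := pow_le_one₀ (norm_nonneg _) h2
      rw [h3] at h4
      have h5 := hcap (⟪e, p⟫_ℝ - L) (by linarith) h4
      linarith
  exact ⟨e, a, b, hch.norm_e, hb0, hb2, SA_eq_of_G hDb hK hsub hGle⟩

end Pool.Agent.Sausage27
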