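import Pool.Agent.Sausage27.SA

/-!
# Sausage27: sharp asymptotics of the maximal first intrinsic volume
-/

namespace Pool.Agent.Sausage27

open MeasureTheory Set Metric Filter Topology
open scoped InnerProductSpace Pointwise

theorem SB_V1_translate {d : ℕ} (hd : 1 ≤ d) {D : Set (Eu d)} (hD : Body D) (a : Eu d) :
    V1 ((fun x => x + a) '' D) = V1 D := by
  obtain ⟨C, hC, hV⟩ := V1_eq d hd
  have h1 := (hV _ (hD.translate a)).limUnder_eq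
  have h2 := (hV _ hD).limUnder_eq
  unfold V1
  rw [h1, h2, FN_G_translate hD a]

/-- The upper bound, for `n` large. -/
theorem SB_upper (d : ℕ) (hd : 2 ≤ d) : ∃ N₀ : ℕ, ∀ n ≥ N₀, ∀ D : Set (Eu d), Extremal n D →
    V1 D ≤ 2 + √(4 * ((n : ℝ) - 1) ^ 2 + betaV d ^ 2) := by
  obtain ⟨N₀, hN₀⟩ := SA_shape d hd
  refine ⟨N₀ + 1, fun n hn D hext => ?_⟩
  obtain ⟨N, rfl⟩ : ∃ N, n = N + 1 := ⟨n - 1, by omega⟩
  obtain ⟨e, a, b, he, hb0, hb2, hDK⟩ := hN₀ N (by omega) D hext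
  have h1 := SB_V1_translate (by omega) hext.1 a
  rw [hDK] at h1
  have h2 := (KB_bounds hd he hb0 hb2 N).2
  have h3 := KB_cs (m := (N : ℝ)) (β := betaV d) hb2 hb0
  have h4 : ((N + 1 : ℕ) : ℝ) - 1 = N := by push_cast; ring
  rw [← h1, h4]
  linarith

theorem SB_sqrt_ge {m β : ℝ} (hm : 0 < m) :
    2 * m + β ^ 2 / (4 * m) - β ^ 4 / (64 * m ^ 3) ≤ √(4 * m ^ 2 + β ^ 2) := by
  set x := β ^ 2 / (4 * m ^ 2) with hx
  have hx0 : 0 ≤ x := by positivity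
  have h1 : 2 * m + β ^ 2 / (4 * m) - β ^ 4 / (64 * m ^ 3) = 2 * m * (1 + x / 2 - x ^ 2 / 8) := by
    rw [hx]; field_simp; ring
  have h2 : 4 * m ^ 2 + β ^ 2 = (2 * m) ^ 2 * (1 + x) := by
    rw [hx]; field_simp; ring
  rw [h1, h2, Real.sqrt_mul (by positivity), Real.sqrt_sq (by positivity)]
  apply mul_le_mul_of_nonneg_left _ (by positivity)
  by_cases h3 : x ≤ 8
  · apply Real.le_sqrt_of_sq_le
    have h4 : (1 + x / 2 - x ^ 2 / 8) ^ 2 = 1 + x + x ^ 3 * (x - 8) / 64 := by ring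
    rw [h4]
    have h5 : x ^ 3 * (x - 8) / 64 ≤ 0 := by
      apply div_nonpos_of_nonpos_of_nonneg _ (by norm_num)
      exact mul_nonpos_of_nonneg_of_nonpos (by positivity) (by linarith)
    linarith
  · push Not at h3
    refine le_trans ?_ (Real.sqrt_nonneg _)
    nlinarith

theorem SB_sqrt_le {m β : ℝ} (hm : 0 < m) :
    √(4 * m ^ 2 + β ^ 2) ≤ 2 * m + β ^ 2 / (4 * m) := by
  rw [Real.sqrt_le_iff]
  refine ⟨by positivity, ?_⟩
  have : (2 * m + β ^ 2 / (4 * m)) ^ 2 = 4 * m ^ 2 + β ^ 2 + (β ^ 2 / (4 * m)) ^ 2 := by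
    field_simp; ring
  rw [this]
  have := sq_nonneg (β ^ 2 / (4 * m))
  linarith

/-- The sharp asymptotic formula. -/
theorem SB_asymp (d : ℕ) (hd : 2 ≤ d) : ∃ N₀ : ℕ, ∀ n ≥ N₀, ∀ D : Set (Eu d), Extremal n D →
    √(4 * (n : ℝ) ^ 2 + betaV d ^ 2) ≤ V1 D ∧
    V1 D ≤ 2 + √(4 * ((n : ℝ) - 1) ^ 2 + betaV d ^ 2) ∧
    |V1 D - (2 * n + betaV d ^ 2 / (4 * n))| ≤ (betaV d ^ 2 + betaV d ^ 4) / (n : ℝ) ^ 2 := by
  obtain ⟨N₀, hN₀⟩ := SB_upper d hd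
  refine ⟨max N₀ 2, fun n hn D hext => ?_⟩
  have hn2 : 2 ≤ n := (le_max_right _ _).trans hn
  have hl := SA_lower hd (by omega) hext
  have hu := hN₀ n ((le_max_left _ _).trans hn) D hext
  refine ⟨hl, hu, ?_⟩
  have hn' : (2 : ℝ) ≤ n := by exact_mod_cast hn2
  have h1 := SB_sqrt_ge (m := (n : ℝ)) (β := betaV d) (by linarith)
  have h2 := SB_sqrt_le (m := (n : ℝ) - 1) (β := betaV d) (by linarith)
  set β := betaV d
  have hβ4 : 0 ≤ β ^ 4 := by positivity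
  have hβ2 : 0 ≤ β ^ 2 := by positivity
  have h3 : β ^ 4 / (64 * (n : ℝ) ^ 3) ≤ β ^ 4 / (n : ℝ) ^ 2 := by
    apply div_le_div_of_nonneg_left hβ4 (by positivity)
    nlinarith [sq_nonneg (n : ℝ)]
  have h4 : β ^ 2 / (4 * ((n : ℝ) - 1)) - β ^ 2 / (4 * n) ≤ β ^ 2 / (n : ℝ) ^ 2 := by
    have e1 : β ^ 2 / (4 * ((n : ℝ) - 1)) - β ^ 2 / (4 * n) =
        β ^ 2 * (1 / (4 * (n : ℝ) * (n - 1))) := by
      have : (n : ℝ) - 1 ≠ 0 := by linarith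
      field_simp
      ring
    rw [e1, div_eq_mul_one_div (β ^ 2) ((n : ℝ) ^ 2)]
    apply mul_le_mul_of_nonneg_left _ hβ2
    apply one_div_le_one_div_of_le (by positivity)
    nlinarith
  have h5 : 0 ≤ β ^ 2 / (n : ℝ) ^ 2 := by positivity
  have h6 : 0 ≤ β ^ 4 / (n : ℝ) ^ 2 := by positivity
  rw [add_div, abs_le]
  constructor <;> linarith

end Pool.Agent.Sausage27
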