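import Pool.Agent.Sausage27.SB

/-!
# Sausage27: uniqueness of the extremal bodies up to congruence
-/

namespace Pool.Agent.Sausage27

open MeasureTheory Set Metric Filter Topology
open scoped InnerProductSpace Pointwise

/-! ### Isometries -/

theorem SC_hS_iso {d : ℕ} {D : Set (Eu d)} (hD : Body D) (f : Eu d ≃ₗᵢ[ℝ] Eu d)
    (hfD : Body (f '' D)) (x : Eu d) : hS (f '' D) (f x) = hS D x := by
  apply le_antisymm
  · refine hfD.hS_le ?_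
    rintro _ ⟨y, hy, rfl⟩
    rw [f.inner_map_map]
    exact hD.inner_le hy x
  · obtain ⟨y, hy, he⟩ := hD.exists_eq x
    rw [he, ← f.inner_map_map]
    exact hfD.inner_le (mem_image_of_mem _ hy) _

theorem SC_G_iso {d : ℕ} {D : Set (Eu d)} (hD : Body D) (f : Eu d ≃ₗᵢ[ℝ] Eu d)
    (hfD : Body (f '' D)) : G (f '' D) = G D := by
  unfold G
  rw [← (f.measurePreserving).integral_comp f.toHomeomorph.measurableEmbedding]
  congr 1
  funext x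
  show hS (f '' D) (f x) * Real.exp (-‖f x‖ ^ 2 / 2) = hS D x * Real.exp (-‖x‖ ^ 2 / 2)
  rw [SC_hS_iso hD f hfD, f.norm_map]

theorem SC_Kset_iso {d : ℕ} (f : Eu d ≃ₗᵢ[ℝ] Eu d) (e : Eu d) (L ρ : ℝ) :
    f '' (Kset e L ρ) = Kset (f e) L ρ := by
  ext x
  constructor
  · rintro ⟨y, ⟨h1, h2⟩, rfl⟩
    have h3 : f y - ⟪f e, f y⟫_ℝ • f e = f (y - ⟪e, y⟫_ℝ • e) := by
      rw [f.inner_map_map, map_sub, map_smul]
    refine ⟨by rw [h3, f.norm_map]; exact h1, ?_⟩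
    rw [h3, f.norm_map, f.inner_map_map]; exact h2
  · rintro ⟨h1, h2⟩
    refine ⟨f.symm x, ?_, f.apply_symm_apply x⟩
    have h3 : ⟪e, f.symm x⟫_ℝ = ⟪f e, x⟫_ℝ := by
      rw [← f.inner_map_map, f.apply_symm_apply]
    have h4 : ‖f.symm x - ⟪e, f.symm x⟫_ℝ • e‖ = ‖x - ⟪f e, x⟫_ℝ • f e‖ := by
      rw [← f.norm_map, map_sub, map_smul, f.apply_symm_apply, h3]
    exact ⟨by rw [h4]; exact h1, by rw [h4, h3]; exact h2⟩

theorem SC_V1_Kset {d : ℕ} (hd : 1 ≤ d) {e e' : Eu d} (he : ‖e‖ = 1) (he' : ‖e'‖ = 1) {L ρ : ℝ}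
    (hL : 0 ≤ L) (hρ : 0 ≤ ρ) (hρ1 : ρ ≤ 1) : V1 (Kset e' L ρ) = V1 (Kset e L ρ) := by
  have hK := Kset_body he hL hρ hρ1
  have hK' := Kset_body he' hL hρ hρ1
  have hf : (Submodule.reflection (ℝ ∙ (e - e'))ᗮ) e = e' := Submodule.reflection_sub (by rw [he, he'])
  have h1 := SC_Kset_iso (Submodule.reflection (ℝ ∙ (e - e'))ᗮ) e L ρ
  rw [hf] at h1
  have h2 := SC_G_iso hK (Submodule.reflection (ℝ ∙ (e - e'))ᗮ) (by rw [h1]; exact hK')
  rw [h1] at h2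
  rw [V1_formula hd hK', V1_formula hd hK, h2]

/-! ### Continuity in the parameters -/

theorem SC_cont_le {d : ℕ} {e : Eu d} (he : ‖e‖ = 1) {L ρ L' ρ' : ℝ} (hL : 0 ≤ L) (hρ : 0 ≤ ρ)
    (hρ1 : ρ ≤ 1) (hL' : 0 ≤ L') (hρ' : 0 ≤ ρ') (hρ1' : ρ' ≤ 1) (x : Eu d) :
    hS (Kset e L' ρ') x ≤ hS (Kset e L ρ) x + (|L' - L| + |ρ' - ρ|) * ‖x‖ := by
  have hK := Kset_body he hL hρ hρ1
  have hK' := Kset_body he hL' hρ' hρ1'
  have hee : ⟪e, e⟫_ℝ = 1 := by rw [real_inner_self_eq_norm_sq, he]; norm_num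
  refine hK'.hS_le fun y hy => ?_
  obtain ⟨h1, h2⟩ := hy
  set w := y - ⟪e, y⟫_ℝ • e with hw
  have hew : ⟪e, w⟫_ℝ = 0 := KB_perp he y
  set s := ⟪e, y⟫_ℝ with hs
  -- the perpendicular part
  obtain ⟨w', hw1, hw2, hw3, hw4⟩ : ∃ w' : Eu d, ‖w'‖ ≤ ρ ∧ ‖w'‖ ≤ ‖w‖ ∧ ⟪e, w'⟫_ℝ = 0 ∧
      ‖w - w'‖ ≤ |ρ' - ρ| := by
    rcases le_total ‖w‖ ρ with h | h
    · exact ⟨w, h, le_rfl, hew, by rw [sub_self, norm_zero]; exact abs_nonneg _⟩
    · rcases eq_or_ne w 0 with h0 | h0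
      · exact ⟨0, by simpa using hρ, by simp, by simp, by rw [h0]; simp⟩
      have hwp : 0 < ‖w‖ := norm_pos_iff.2 h0
      have hn : ‖(ρ / ‖w‖) • w‖ = ρ := by
        rw [norm_smul, norm_div, Real.norm_of_nonneg hρ, norm_norm]; field_simp
      refine ⟨(ρ / ‖w‖) • w, by rw [hn], by rw [hn]; exact h, ?_, ?_⟩
      · rw [real_inner_smul_right, hew, mul_zero]
      · have e1 : w - (ρ / ‖w‖) • w = (1 - ρ / ‖w‖) • w := by rw [sub_smul, one_smul]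
        have e2 : 0 ≤ 1 - ρ / ‖w‖ := by
          rw [sub_nonneg, div_le_one hwp]; exact h
        rw [e1, norm_smul, Real.norm_of_nonneg e2]
        have e3 : (1 - ρ / ‖w‖) * ‖w‖ = ‖w‖ - ρ := by field_simp
        rw [e3]
        exact (by linarith : ‖w‖ - ρ ≤ ρ' - ρ).trans (le_abs_self _)
  -- the axial part
  have hsq : √(1 - ‖w‖ ^ 2) ≤ √(1 - ‖w'‖ ^ 2) := by
    apply Real.sqrt_le_sqrt
    have := pow_le_pow_left₀ (norm_nonneg _) hw2 2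
    linarith
  set M := L + √(1 - ‖w'‖ ^ 2) with hM
  have hM0 : 0 ≤ M := by positivity
  have hsM : |s| ≤ M + |L' - L| := by
    have : L' ≤ L + |L' - L| := by linarith [le_abs_self (L' - L)]
    linarith
  obtain ⟨s', hs1, hs2⟩ : ∃ s' : ℝ, |s'| ≤ M ∧ |s - s'| ≤ |L' - L| := by
    have h0 := abs_nonneg (L' - L)
    rcases le_total |s| M with h | h
    · exact ⟨s, h, by rw [sub_self, abs_zero]; exact h0⟩
    · rcases le_total 0 s with h3 | h3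
      · refine ⟨M, by rw [abs_of_nonneg hM0], ?_⟩
        rw [abs_of_nonneg h3] at hsM h
        rw [abs_of_nonneg (by linarith)]; linarith
      · refine ⟨-M, by rw [abs_neg, abs_of_nonneg hM0], ?_⟩
        rw [abs_of_nonpos h3] at hsM h
        rw [abs_of_nonpos (by linarith)]; linarith
  have hmem : s' • e + w' ∈ Kset e L ρ := by
    have e1 : ⟪e, s' • e + w'⟫_ℝ = s' := by
      rw [inner_add_right, real_inner_smul_right, hee, hw3]; ring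
    have e2 : s' • e + w' - ⟪e, s' • e + w'⟫_ℝ • e = w' := by rw [e1]; abel
    exact ⟨by rw [e2]; exact hw1, by rw [e2, e1]; exact hs1⟩
  have h5 := hK.inner_le hmem x
  have h6 : y = (s' • e + w') + ((s - s') • e + (w - w')) := by
    rw [hw, sub_smul]; abel
  rw [h6, inner_add_left]
  have h7 : ⟪(s - s') • e + (w - w'), x⟫_ℝ ≤ (|L' - L| + |ρ' - ρ|) * ‖x‖ := by
    refine (real_inner_le_norm _ _).trans (mul_le_mul_of_nonneg_right ?_ (norm_nonneg _))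
    refine (norm_add_le _ _).trans (add_le_add ?_ hw4)
    rw [norm_smul, he, mul_one, Real.norm_eq_abs]; exact hs2
  linarith

theorem SC_G_le {d : ℕ} {e : Eu d} (he : ‖e‖ = 1) {L ρ L' ρ' : ℝ} (hL : 0 ≤ L) (hρ : 0 ≤ ρ)
    (hρ1 : ρ ≤ 1) (hL' : 0 ≤ L') (hρ' : 0 ≤ ρ') (hρ1' : ρ' ≤ 1) :
    G (Kset e L' ρ') ≤ G (Kset e L ρ) + (|L' - L| + |ρ' - ρ|) *
      ∫ x : Eu d, ‖x‖ * Real.exp (-‖x‖ ^ 2 / 2) := by
  have hK := Kset_body he hL hρ hρ1
  have hK' := Kset_body he hL' hρ' hρ1'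
  have hi : Integrable fun x : Eu d => ‖x‖ * Real.exp (-‖x‖ ^ 2 / 2) :=
    VB12_integrable (E := Eu d) (f := fun x => ‖x‖) (by fun_prop) (R := 1)
      (fun x => by rw [abs_norm, one_mul])
  unfold G
  rw [← integral_const_mul, ← integral_add (FN_integrable_hS hK) (hi.const_mul _)]
  apply integral_mono (FN_integrable_hS hK') ((FN_integrable_hS hK).add (hi.const_mul _))
  intro x
  have h1 := SC_cont_le he hL hρ hρ1 hL' hρ' hρ1' x
  have h2 := Real.exp_pos (-‖x‖ ^ 2 / 2)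
  have h3 := mul_le_mul_of_nonneg_right h1 h2.le
  show hS (Kset e L' ρ') x * Real.exp (-‖x‖ ^ 2 / 2) ≤
    hS (Kset e L ρ) x * Real.exp (-‖x‖ ^ 2 / 2) +
      (|L' - L| + |ρ' - ρ|) * (‖x‖ * Real.exp (-‖x‖ ^ 2 / 2))
  linarith

theorem SC_continuous {d : ℕ} {e : Eu d} (he : ‖e‖ = 1) (N : ℕ) :
    ContinuousOn (fun b : ℝ => G (Kset e ((N : ℝ) * b / 2) (√(1 - b ^ 2 / 4)))) (Icc 0 2) := by
  set I := ∫ x : Eu d, ‖x‖ * Real.exp (-‖x‖ ^ 2 / 2) with hI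
  have hI0 : 0 ≤ I := integral_nonneg fun x => by positivity
  intro b hb
  have h1 : Tendsto (fun b' : ℝ => (|(N : ℝ) * b' / 2 - (N : ℝ) * b / 2| +
      |√(1 - b' ^ 2 / 4) - √(1 - b ^ 2 / 4)|) * I) (𝓝[Icc 0 2] b) (𝓝 0) := by
    have hc : Continuous fun b' : ℝ => (|(N : ℝ) * b' / 2 - (N : ℝ) * b / 2| +
      |√(1 - b' ^ 2 / 4) - √(1 - b ^ 2 / 4)|) * I := by fun_prop
    have := (hc.tendsto b).mono_left (nhdsWithin_le_nhds (s := Icc 0 2))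
    simpa using this
  rw [ContinuousWithinAt, tendsto_iff_dist_tendsto_zero]
  refine squeeze_zero' (Eventually.of_forall fun _ => dist_nonneg) ?_ h1
  filter_upwards [self_mem_nhdsWithin] with b' hb'
  rw [Real.dist_eq]
  have hN : (0 : ℝ) ≤ N := Nat.cast_nonneg N
  have p1 : 0 ≤ (N : ℝ) * b / 2 := by have := hb.1; positivity
  have p2 : 0 ≤ (N : ℝ) * b' / 2 := by have := hb'.1; positivity
  have g1 := SC_G_le he p1 SA_sqrt_le.1 (SA_sqrt_le (b := b)).2 p2 SA_sqrt_le.1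
    (SA_sqrt_le (b := b')).2
  have g2 := SC_G_le he p2 SA_sqrt_le.1 (SA_sqrt_le (b := b')).2 p1 SA_sqrt_le.1
    (SA_sqrt_le (b := b)).2
  rw [abs_sub_comm ((N : ℝ) * b / 2), abs_sub_comm (√(1 - b ^ 2 / 4))] at g2
  rw [abs_le]
  constructor <;> linarith

/-! ### Strict concavity -/

theorem SC_mid {d : ℕ} {e : Eu d} (he : ‖e‖ = 1) {L1 ρ1 L2 ρ2 : ℝ} (hL1 : 0 ≤ L1) (hρ1 : 0 ≤ ρ1)
    (hρ11 : ρ1 ≤ 1) (hL2 : 0 ≤ L2) (hρ2 : 0 ≤ ρ2) (hρ21 : ρ2 ≤ 1) :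
    G (Kset e L1 ρ1) + G (Kset e L2 ρ2) ≤ 2 * G (Kset e ((L1 + L2) / 2) ((ρ1 + ρ2) / 2)) := by
  have hK1 := Kset_body he hL1 hρ1 hρ11
  have hK2 := Kset_body he hL2 hρ2 hρ21
  have hK := Kset_body he (L := (L1 + L2) / 2) (ρ := (ρ1 + ρ2) / 2) (by positivity) (by positivity)
    (by linarith)
  have hle : ∀ x : Eu d, hS (Kset e L1 ρ1) x + hS (Kset e L2 ρ2) x ≤
      2 * hS (Kset e ((L1 + L2) / 2) ((ρ1 + ρ2) / 2)) x := by
    intro x
    obtain ⟨y, ⟨hy1, hy2⟩, hye⟩ := hK1.exists_eq x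
    obtain ⟨z, ⟨hz1, hz2⟩, hze⟩ := hK2.exists_eq x
    have hmem : (1 / 2 : ℝ) • y + (1 / 2 : ℝ) • z ∈ Kset e ((L1 + L2) / 2) ((ρ1 + ρ2) / 2) := by
      have hP : ((1 / 2 : ℝ) • y + (1 / 2 : ℝ) • z) -
          ⟪e, (1 / 2 : ℝ) • y + (1 / 2 : ℝ) • z⟫_ℝ • e =
          (1 / 2 : ℝ) • (y - ⟪e, y⟫_ℝ • e) + (1 / 2 : ℝ) • (z - ⟪e, z⟫_ℝ • e) := by
        rw [inner_add_right, inner_smul_right, inner_smul_right]; module
      have hn : ‖((1 / 2 : ℝ) • y + (1 / 2 : ℝ) • z) -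
          ⟪e, (1 / 2 : ℝ) • y + (1 / 2 : ℝ) • z⟫_ℝ • e‖ ≤
          1 / 2 * ‖y - ⟪e, y⟫_ℝ • e‖ + 1 / 2 * ‖z - ⟪e, z⟫_ℝ • e‖ := by
        rw [hP]
        refine (norm_add_le _ _).trans ?_
        rw [norm_smul, norm_smul, Real.norm_of_nonneg (by norm_num : (0 : ℝ) ≤ 1 / 2)]
      refine ⟨by linarith, ?_⟩
      have hcc := KS26_concave (a := 1 / 2) (b := 1 / 2) (by norm_num) (by norm_num) (by norm_num)
        (norm_nonneg (y - ⟪e, y⟫_ℝ • e)) (hy1.trans hρ11) (norm_nonneg (z - ⟪e, z⟫_ℝ • e))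
        (hz1.trans hρ21)
      have hmono : √(1 - (1 / 2 * ‖y - ⟪e, y⟫_ℝ • e‖ + 1 / 2 * ‖z - ⟪e, z⟫_ℝ • e‖) ^ 2) ≤
          √(1 - ‖((1 / 2 : ℝ) • y + (1 / 2 : ℝ) • z) -
          ⟪e, (1 / 2 : ℝ) • y + (1 / 2 : ℝ) • z⟫_ℝ • e‖ ^ 2) := by
        apply Real.sqrt_le_sqrt
        have := pow_le_pow_left₀ (norm_nonneg _) hn 2
        linarith
      have habs : |⟪e, (1 / 2 : ℝ) • y + (1 / 2 : ℝ) • z⟫_ℝ| ≤
          1 / 2 * |⟪e, y⟫_ℝ| + 1 / 2 * |⟪e, z⟫_ℝ| := by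
        rw [inner_add_right, real_inner_smul_right, real_inner_smul_right]
        refine (abs_add_le _ _).trans ?_
        rw [abs_mul, abs_mul, abs_of_nonneg (by norm_num : (0 : ℝ) ≤ 1 / 2)]
      linarith
    have h1 := hK.inner_le hmem x
    rw [inner_add_left, real_inner_smul_left, real_inner_smul_left, ← hye, ← hze] at h1
    linarith
  unfold G
  rw [← integral_add (FN_integrable_hS hK1) (FN_integrable_hS hK2), ← integral_const_mul]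
  apply integral_mono ((FN_integrable_hS hK1).add (FN_integrable_hS hK2))
    ((FN_integrable_hS hK).const_mul _)
  intro x
  have h3 := mul_le_mul_of_nonneg_right (hle x) (Real.exp_pos (-‖x‖ ^ 2 / 2)).le
  show hS (Kset e L1 ρ1) x * Real.exp (-‖x‖ ^ 2 / 2) + hS (Kset e L2 ρ2) x *
    Real.exp (-‖x‖ ^ 2 / 2) ≤ 2 * (hS (Kset e ((L1 + L2) / 2) ((ρ1 + ρ2) / 2)) x *
    Real.exp (-‖x‖ ^ 2 / 2))
  linarith

theorem SC_Kset_mono {d : ℕ} {e : Eu d} {L ρ L' ρ' : ℝ} (hL : L ≤ L') (hρ : ρ ≤ ρ') :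
    Kset e L ρ ⊆ Kset e L' ρ' := fun _ ⟨h1, h2⟩ => ⟨h1.trans hρ, h2.trans (by linarith)⟩

theorem SC_perp_exists {d : ℕ} (hd : 2 ≤ d) {e : Eu d} (he : ‖e‖ = 1) :
    ∃ w : Eu d, ‖w‖ = 1 ∧ ⟪e, w⟫_ℝ = 0 := by
  have h1 : Module.finrank ℝ (ℝ ∙ e)ᗮ = d - 1 := by
    have h2 := (ℝ ∙ e).finrank_add_finrank_orthogonal
    rw [finrank_span_singleton (by
      intro h0; rw [h0, norm_zero] at he; exact zero_ne_one he)] at h2
    rw [finrank_euclideanSpace_fin] at h2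
    omega
  have h3 : Nontrivial (ℝ ∙ e)ᗮ := Module.finrank_pos_iff (R := ℝ).1 (by omega)
  obtain ⟨w, hw⟩ := exists_ne (0 : (ℝ ∙ e)ᗮ)
  have hw' : 0 < ‖w‖ := norm_pos_iff.2 hw
  refine ⟨‖w‖⁻¹ • (w : Eu d), ?_, ?_⟩
  · rw [norm_smul, norm_inv, norm_norm, ← Submodule.coe_norm, inv_mul_cancel₀ hw'.ne']
  · rw [real_inner_smul_right, (Submodule.mem_orthogonal_singleton_iff_inner_right).1 w.2, mul_zero]

theorem SC_strict {d : ℕ} (hd : 2 ≤ d) {e : Eu d} (he : ‖e‖ = 1) (N : ℕ) {b1 b2 : ℝ}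
    (h1 : b1 ∈ Icc (0 : ℝ) 2) (h2 : b2 ∈ Icc (0 : ℝ) 2) (hne : b1 ≠ b2) :
    ∃ b ∈ Icc (0 : ℝ) 2, G (Kset e ((N : ℝ) * b1 / 2) (√(1 - b1 ^ 2 / 4))) +
      G (Kset e ((N : ℝ) * b2 / 2) (√(1 - b2 ^ 2 / 4))) <
      2 * G (Kset e ((N : ℝ) * b / 2) (√(1 - b ^ 2 / 4))) := by
  obtain ⟨p1, q1⟩ := h1
  obtain ⟨p2, q2⟩ := h2
  have hN : (0 : ℝ) ≤ N := Nat.cast_nonneg N
  set r1 := √(1 - b1 ^ 2 / 4) with hr1
  set r2 := √(1 - b2 ^ 2 / 4) with hr2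
  have s1 : r1 ^ 2 = 1 - b1 ^ 2 / 4 := Real.sq_sqrt (by nlinarith)
  have s2 : r2 ^ 2 = 1 - b2 ^ 2 / 4 := Real.sq_sqrt (by nlinarith)
  have r10 : 0 ≤ r1 := Real.sqrt_nonneg _
  have r20 : 0 ≤ r2 := Real.sqrt_nonneg _
  have r11 : r1 ≤ 1 := SA_sqrt_le.2
  have r21 : r2 ≤ 1 := SA_sqrt_le.2
  set c := (b1 + b2) / 4 with hc
  set r := (r1 + r2) / 2 with hr
  have hc0 : 0 ≤ c := by positivity
  have hr0 : 0 < r := by
    by_contra h
    push Not at h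
    have e1 : r1 = 0 := by linarith
    have e2 : r2 = 0 := by linarith
    rw [e1] at s1
    rw [e2] at s2
    apply hne
    have : b1 ^ 2 = b2 ^ 2 := by linarith
    exact (pow_left_inj₀ p1 p2 two_ne_zero).1 this
  set t := √(c ^ 2 + r ^ 2) with ht
  have ht2 : t ^ 2 = c ^ 2 + r ^ 2 := Real.sq_sqrt (by positivity)
  have ht0 : 0 < t := Real.sqrt_pos.2 (by positivity)
  have ht1 : t < 1 := by
    have h3 : 0 < (b1 - b2) ^ 2 := by
      have : b1 - b2 ≠ 0 := sub_ne_zero.2 hne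
      positivity
    have h4 : c ^ 2 + r ^ 2 < 1 := by
      rw [hc, hr]
      nlinarith [sq_nonneg (r1 - r2)]
    rw [ht]
    calc √(c ^ 2 + r ^ 2) < √1 := Real.sqrt_lt_sqrt (by positivity) h4
      _ = 1 := Real.sqrt_one
  -- the parameter
  refine ⟨2 * c / t, ⟨by positivity, ?_⟩, ?_⟩
  · rw [div_le_iff₀ ht0]
    have : c ≤ t := by
      rw [ht]
      apply Real.le_sqrt_of_sq_le
      have := sq_nonneg r
      linarith
    linarith
  have hρ : √(1 - (2 * c / t) ^ 2 / 4) = r / t := by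
    have : 1 - (2 * c / t) ^ 2 / 4 = (r / t) ^ 2 := by
      rw [div_pow, div_pow, ht2]
      have : c ^ 2 + r ^ 2 ≠ 0 := by positivity
      field_simp
      ring
    rw [this, Real.sqrt_sq (by positivity)]
  rw [hρ]
  have hmid := SC_mid he (L1 := (N : ℝ) * b1 / 2) (ρ1 := r1) (L2 := (N : ℝ) * b2 / 2) (ρ2 := r2)
    (by positivity) r10 r11 (by positivity) r20 r21
  have e1 : ((N : ℝ) * b1 / 2 + (N : ℝ) * b2 / 2) / 2 = N * c := by rw [hc]; ring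
  rw [e1] at hmid
  have hrt : r / t ≤ 1 := by
    rw [div_le_one ht0, ht]
    apply Real.le_sqrt_of_sq_le
    have := sq_nonneg c
    linarith
  have hK1 := Kset_body he (L := N * c) (ρ := r) (by positivity) hr0.le (by linarith)
  have hK2 := Kset_body he (L := (N : ℝ) * (2 * c / t) / 2) (ρ := r / t) (by positivity)
    (by positivity) hrt
  have hLle : (N : ℝ) * c ≤ (N : ℝ) * (2 * c / t) / 2 := by
    have : c ≤ c / t := by
      rw [le_div_iff₀ ht0]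
      nlinarith
    have := mul_le_mul_of_nonneg_left this hN
    calc (N : ℝ) * c ≤ N * (c / t) := this
      _ = _ := by ring
  have hrlt : r < r / t := by
    rw [lt_div_iff₀ ht0]
    nlinarith
  have hsub := SC_Kset_mono (e := e) hLle hrlt.le
  have hlt : G (Kset e (N * c) r) < G (Kset e ((N : ℝ) * (2 * c / t) / 2) (r / t)) := by
    by_contra h
    push Not at h
    have heq := SA_eq_of_G hK1 hK2 hsub h
    obtain ⟨w, hw1, hw2⟩ := SC_perp_exists hd he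
    have e3 : ⟪e, (r / t) • w⟫_ℝ = 0 := by rw [real_inner_smul_right, hw2, mul_zero]
    have e4 : (r / t) • w - ⟪e, (r / t) • w⟫_ℝ • e = (r / t) • w := by rw [e3]; simp
    have e5 : ‖(r / t) • w‖ = r / t := by
      rw [norm_smul, hw1, mul_one, Real.norm_of_nonneg (by positivity)]
    have hmem : (r / t) • w ∈ Kset e ((N : ℝ) * (2 * c / t) / 2) (r / t) := by
      refine ⟨by rw [e4, e5], ?_⟩
      rw [e3, abs_zero]; positivity
    rw [← heq] at hmem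
    have := hmem.1
    rw [e4, e5] at this
    linarith
  linarith

/-- There is exactly one maximiser. -/
theorem SC_max {d : ℕ} (hd : 2 ≤ d) (N : ℕ) : ∃ b ∈ Icc (0 : ℝ) 2, ∀ e : Eu d, ‖e‖ = 1 →
    ∀ b' ∈ Icc (0 : ℝ) 2, b' ≠ b → V1 (Kset e ((N : ℝ) * b' / 2) (√(1 - b' ^ 2 / 4))) <
      V1 (Kset e ((N : ℝ) * b / 2) (√(1 - b ^ 2 / 4))) := by
  obtain ⟨e0, he0⟩ : ∃ e : Eu d, ‖e‖ = 1 := by
    refine ⟨EuclideanSpace.single ⟨0, by omega⟩ 1, by simp⟩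
  obtain ⟨b, hb, hmax⟩ := isCompact_Icc.exists_isMaxOn (nonempty_Icc.2 (by norm_num : (0 : ℝ) ≤ 2))
    (SC_continuous he0 N)
  refine ⟨b, hb, fun e he b' hb' hne => ?_⟩
  have hN : (0 : ℝ) ≤ N := Nat.cast_nonneg N
  have hL : 0 ≤ (N : ℝ) * b / 2 := by have := hb.1; positivity
  have hL' : 0 ≤ (N : ℝ) * b' / 2 := by have := hb'.1; positivity
  rw [SC_V1_Kset (by omega) he0 he hL' SA_sqrt_le.1 SA_sqrt_le.2,
    SC_V1_Kset (by omega) he0 he hL SA_sqrt_le.1 SA_sqrt_le.2,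
    V1_formula (by omega) (Kset_body he0 hL' SA_sqrt_le.1 SA_sqrt_le.2),
    V1_formula (by omega) (Kset_body he0 hL SA_sqrt_le.1 SA_sqrt_le.2)]
  have hZ := Zg_pos (E := Eu d)
  apply mul_lt_mul_of_pos_left _ (by positivity)
  obtain ⟨b'', hb'', hlt⟩ := SC_strict hd he0 N hb' hb hne
  have h1 : G (Kset e0 ((N : ℝ) * b'' / 2) (√(1 - b'' ^ 2 / 4))) ≤
      G (Kset e0 ((N : ℝ) * b / 2) (√(1 - b ^ 2 / 4))) := hmax hb''
  linarith

/-! ### The comparison for all admissible sets -/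

theorem SC_compare (d : ℕ) (hd : 2 ≤ d) : ∃ N₀ : ℕ, ∀ N ≥ N₀, ∀ D : Set (Eu d), Body D →
    (∃ c : Fin (N + 1) → Eu d, skel 1 D ⊆ ⋃ j, closedBall (c j) 1) →
    ∃ (e : Eu d) (b : ℝ), ‖e‖ = 1 ∧ b ∈ Icc (0 : ℝ) 2 ∧
      V1 D ≤ V1 (Kset e ((N : ℝ) * b / 2) (√(1 - b ^ 2 / 4))) := by
  have hw0 := FN_wt_pos d 2
  have hw1 := FN_wt_le_one d 2
  have hδ : 0 < wt d 2 / 5000 := by positivity
  have hδ1 : wt d 2 / 5000 ≤ 1 / 100 := by linarith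
  obtain ⟨N1, hN1⟩ := exists_chain d (by omega) hδ hδ1
  obtain ⟨M, hM⟩ := exists_nat_gt (1000 / wt d 2)
  refine ⟨max N1 M, fun N hNN D hD hcov => ?_⟩
  obtain ⟨c0, hc0⟩ := hcov
  have hZ := Zg_pos (E := Eu d)
  have hC : 0 < √(2 * Real.pi) / Zg (Eu d) := by positivity
  by_cases hG : ((N + 1 : ℕ) : ℝ) * √(2 / Real.pi) * Zg (Eu d) ≤ G D
  · have hNM : 1000 / wt d 2 ≤ N := by
      have : (M : ℝ) ≤ N := by exact_mod_cast (le_max_right _ _).trans hNN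
      linarith
    obtain ⟨σ, e, hch⟩ := hN1 N ((le_max_left _ _).trans hNN) D c0 hD (sliceCov_of_skel hc0) hG
    set c' : ℕ → Eu d := fun j => c0 (σ (Fin.ofNat (N + 1) j)) with hc'
    have hN2 : 100 ≤ N := by
      have : (1000 : ℝ) ≤ 1000 / wt d 2 := by
        rw [le_div_iff₀ hw0]; linarith
      have : (100 : ℝ) ≤ N := by linarith
      exact_mod_cast this
    obtain ⟨-, -, -, -, -, hbd0, -, -, -, -⟩ := hch.basic hδ hδ1 hN2
    have hvr0 : 0 ≤ vr c' N := by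
      unfold vr
      apply div_nonneg _ (Finset.sum_nonneg fun _ _ => norm_nonneg _)
      exact Finset.sum_nonneg fun _ _ => mul_nonneg (norm_nonneg _) (sq_nonneg _)
    obtain ⟨a, -, hb0, hb2, hK, hsl⟩ := SA_slices d hd hδ le_rfl hNM hD hch
    refine ⟨e, bA c' N / N, hch.norm_e, ⟨hb0, hb2⟩, ?_⟩
    rw [V1_formula (by omega) hD, V1_formula (by omega) hK]
    apply mul_le_mul_of_nonneg_left _ hC.le
    rw [← FN_G_translate hD a]
    refine (G_le_of_slices hd (hD.translate a) hK hch.norm_e fun θ hθ hθe => ?_).1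
    obtain ⟨xr, -, yr, -, σ', κ, Er, -, -, -, -, hEr, -, -, hgap⟩ := hsl θ hθ hθe
    have : 0 ≤ wt d 2 / 2 * (bd c' N + vr c' N / 2 + Er / 16 + (N : ℝ) ^ 2 / 20 * σ' ^ 2) := by
      positivity
    linarith
  · push Not at hG
    obtain ⟨e, he⟩ : ∃ e : Eu d, ‖e‖ = 1 := by
      refine ⟨EuclideanSpace.single ⟨0, by omega⟩ 1, by simp⟩
    refine ⟨e, 2, he, ⟨by norm_num, le_rfl⟩, ?_⟩
    have h1 := (KB_bounds hd he (a := 2) (by norm_num) le_rfl N).1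
    have h2 := SA_betaV_nonneg hd
    have h3 : 0 ≤ √(1 - (2 : ℝ) ^ 2 / 4) * betaV d := by positivity
    have h4 : V1 D ≤ ((N : ℝ) + 1) * 2 := by
      rw [V1_formula (by omega) hD]
      have h5 := mul_le_mul_of_nonneg_left hG.le hC.le
      refine h5.trans (le_of_eq ?_)
      have h6 : √(2 * Real.pi) * √(2 / Real.pi) = 2 := by
        rw [← Real.sqrt_mul (by positivity)]
        have : 2 * Real.pi * (2 / Real.pi) = 2 ^ 2 := by
          have := Real.pi_pos.ne'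
          field_simp
        rw [this, Real.sqrt_sq (by norm_num)]
      push_cast
      calc √(2 * Real.pi) / Zg (Eu d) * (((N : ℝ) + 1) * √(2 / Real.pi) * Zg (Eu d))
          = (Zg (Eu d) / Zg (Eu d)) * (((N : ℝ) + 1) * (√(2 * Real.pi) * √(2 / Real.pi))) := by ring
        _ = _ := by rw [h6, div_self hZ.ne', one_mul]
    linarith

/-- Translates of admissible sets are admissible. -/
theorem SC_skel_translate {d : ℕ} (D : Set (Eu d)) (a : Eu d) :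
    skel 1 ((fun x => x + a) '' D) = (fun x => x + a) '' skel 1 D := by
  have hmem : ∀ (y : Eu d), y + a ∈ (fun x => x + a) '' D ↔ y ∈ D := by
    intro y
    constructor
    · rintro ⟨x, hx, h⟩
      rwa [← add_right_cancel h]
    · exact fun h => mem_image_of_mem _ h
  ext x
  constructor
  · rintro ⟨⟨y, hy, rfl⟩, hno⟩
    refine ⟨y, ⟨hy, ?_⟩, rfl⟩
    rintro ⟨P, r, hP, hr, hb⟩
    apply hno
    refine ⟨P, r, hP, hr, fun v hv hvr => ?_⟩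
    have := hb v hv hvr
    show y + a + v ∈ _
    rw [show y + a + v = (y + v) + a by abel, hmem]
    exact this
  · rintro ⟨y, ⟨hy, hno⟩, rfl⟩
    refine ⟨mem_image_of_mem _ hy, ?_⟩
    rintro ⟨P, r, hP, hr, hb⟩
    apply hno
    refine ⟨P, r, hP, hr, fun v hv hvr => ?_⟩
    have := hb v hv hvr
    rw [show y + a + v = (y + v) + a by abel, hmem] at this
    exact this

/-- The extremal bodies for `n` large: unique up to congruence. -/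
theorem SC_unique (d : ℕ) (hd : 2 ≤ d) : ∃ N₀ : ℕ, ∀ n ≥ N₀, ∃ b ∈ Icc (0 : ℝ) 2,
    (∀ e : Eu d, ‖e‖ = 1 → ∀ b' ∈ Icc (0 : ℝ) 2, b' ≠ b →
      V1 (Kset e (((n : ℝ) - 1) * b' / 2) (√(1 - b' ^ 2 / 4))) <
      V1 (Kset e (((n : ℝ) - 1) * b / 2) (√(1 - b ^ 2 / 4)))) ∧
    ∀ D : Set (Eu d), Extremal n D ↔ ∃ e a : Eu d, ‖e‖ = 1 ∧
      D = (fun x => x + a) '' Kset e (((n : ℝ) - 1) * b / 2) (√(1 - b ^ 2 / 4)) := by
  obtain ⟨N1, hN1⟩ := SA_shape d hd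
  obtain ⟨N2, hN2⟩ := SC_compare d hd
  refine ⟨max N1 N2 + 1, fun n hn => ?_⟩
  obtain ⟨N, rfl⟩ : ∃ N, n = N + 1 := ⟨n - 1, by omega⟩
  have hn1 : ((N + 1 : ℕ) : ℝ) - 1 = N := by push_cast; ring
  rw [hn1]
  obtain ⟨b, hb, hbm⟩ := SC_max hd N
  refine ⟨b, hb, hbm, fun D => ⟨fun hext => ?_, ?_⟩⟩
  · obtain ⟨e, a, b', he, hb0, hb2, hDK⟩ := hN1 N (by omega) D hext
    have hbb : b' = b := by
      by_contra hne
      have h1 := hbm e he b' ⟨hb0, hb2⟩ hne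
      obtain ⟨hK, hKc⟩ := SA_admissible hd he hb.1 hb.2 N
      have h2 := hext.2.2 _ hK hKc
      rw [← SB_V1_translate (by omega) hext.1 a, hDK] at h2
      linarith
    subst hbb
    refine ⟨e, -a, he, ?_⟩
    rw [← hDK, image_image]
    simp
  · rintro ⟨e, a, he, rfl⟩
    obtain ⟨hK, c, hc⟩ := SA_admissible hd he hb.1 hb.2 N
    refine ⟨hK.translate a, ⟨fun j => c j + a, ?_⟩, fun D' hD' hc' => ?_⟩
    · rw [SC_skel_translate]
      rintro _ ⟨y, hy, rfl⟩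
      obtain ⟨j, hj⟩ := mem_iUnion.1 (hc hy)
      refine mem_iUnion.2 ⟨j, ?_⟩
      simpa [mem_closedBall, dist_eq_norm] using hj
    · obtain ⟨e', b', he', hb', hle⟩ := hN2 N (by omega) D' hD' hc'
      rw [SB_V1_translate (by omega) hK a]
      refine hle.trans ?_
      have hN : (0 : ℝ) ≤ N := Nat.cast_nonneg N
      rw [SC_V1_Kset (by omega) he he' (by have := hb'.1; positivity) SA_sqrt_le.1 SA_sqrt_le.2]
      by_cases hbb : b' = b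
      · rw [hbb]
      · exact (hbm e he b' hb' hbb).le

end Pool.Agent.Sausage27
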