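import Pool.Agent.Sausage27.SC

/-!
# Sausage27: the largest circular disc in the extremal bodies
-/

namespace Pool.Agent.Sausage27

open MeasureTheory Set Metric Filter Topology
open scoped InnerProductSpace Pointwise

/-- The largest radius of a circular disc (a two-dimensional ball) contained in `D`. -/
noncomputable def discRadius {d : ℕ} (D : Set (Eu d)) : ℝ :=
  sSup {r : ℝ | 0 ≤ r ∧ ∃ (x : Eu d) (P : Submodule ℝ (Eu d)), Module.finrank ℝ P = 2 ∧
    ∀ v ∈ P, ‖v‖ ≤ r → x + v ∈ D}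

theorem SD_translate {d : ℕ} (D : Set (Eu d)) (a : Eu d) :
    discRadius ((fun x => x + a) '' D) = discRadius D := by
  have hmem : ∀ (y : Eu d), y + a ∈ (fun x => x + a) '' D ↔ y ∈ D := by
    intro y
    constructor
    · rintro ⟨x, hx, h⟩
      rwa [← add_right_cancel h]
    · exact fun h => mem_image_of_mem _ h
  unfold discRadius
  congr 1
  ext r
  constructor
  · rintro ⟨hr, x, P, hP, h⟩
    refine ⟨hr, x - a, P, hP, fun v hv hvr => ?_⟩
    have := h v hv hvr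
    rw [← hmem, show x - a + v + a = x + v by abel]
    exact this
  · rintro ⟨hr, x, P, hP, h⟩
    refine ⟨hr, x + a, P, hP, fun v hv hvr => ?_⟩
    have := h v hv hvr
    rw [show x + a + v = x + v + a by abel, hmem]
    exact this

/-- The largest disc in the sausage has radius `ρ`. -/
theorem SD_Kset {d : ℕ} (hd : 2 ≤ d) {e : Eu d} (he : ‖e‖ = 1) {L ρ : ℝ} (hL : 0 ≤ L)
    (hρ : 0 ≤ ρ) (hρ1 : ρ ≤ 1) : discRadius (Kset e L ρ) = ρ := by
  have hee : ⟪e, e⟫_ℝ = 1 := by rw [real_inner_self_eq_norm_sq, he]; norm_num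
  have he0 : e ≠ 0 := by intro h; rw [h, norm_zero] at he; exact zero_ne_one he
  apply IsGreatest.csSup_eq
  constructor
  · obtain ⟨w, hw1, hw2⟩ := SC_perp_exists hd he
    have hww : ⟪w, w⟫_ℝ = 1 := by rw [real_inner_self_eq_norm_sq, hw1]; norm_num
    have hwe : ⟪w, e⟫_ℝ = 0 := by rw [real_inner_comm]; exact hw2
    refine ⟨hρ, 0, Submodule.span ℝ {e, w}, ?_, ?_⟩
    · have hli : LinearIndependent ℝ ![e, w] := by
        rw [LinearIndependent.pair_iff]
        intro s t hst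
        have h1 : ⟪e, s • e + t • w⟫_ℝ = s := by
          rw [inner_add_right, real_inner_smul_right, real_inner_smul_right, hee, hw2]; ring
        have h2 : ⟪w, s • e + t • w⟫_ℝ = t := by
          rw [inner_add_right, real_inner_smul_right, real_inner_smul_right, hwe, hww]; ring
        rw [hst, inner_zero_right] at h1 h2
        exact ⟨h1.symm, h2.symm⟩
      have h3 := finrank_span_eq_card hli
      have h4 : Set.range ![e, w] = {e, w} := by simp [Matrix.range_cons, Set.pair_comm]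
      rw [h4] at h3
      simpa using h3
    · intro v hv hvρ
      obtain ⟨s, t, rfl⟩ := Submodule.mem_span_pair.1 hv
      rw [zero_add]
      have h1 : ⟪e, s • e + t • w⟫_ℝ = s := by
        rw [inner_add_right, real_inner_smul_right, real_inner_smul_right, hee, hw2]; ring
      have h2 : s • e + t • w - ⟪e, s • e + t • w⟫_ℝ • e = t • w := by rw [h1]; abel
      have h3 : ‖t • w‖ = |t| := by rw [norm_smul, hw1, mul_one, Real.norm_eq_abs]
      have h4 : ‖s • e + t • w‖ ^ 2 = s ^ 2 + t ^ 2 := by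
        rw [← real_inner_self_eq_norm_sq]
        simp only [inner_add_left, inner_add_right, real_inner_smul_left, real_inner_smul_right,
          hee, hww, hwe, hw2]
        ring
      have h5 : s ^ 2 + t ^ 2 ≤ ρ ^ 2 := by
        rw [← h4]; exact pow_le_pow_left₀ (norm_nonneg _) hvρ 2
      refine ⟨?_, ?_⟩
      · rw [h2, h3]
        apply abs_le_of_sq_le_sq _ hρ
        have := sq_nonneg s
        linarith
      · rw [h2, h3, h1, sq_abs]
        have h6 : |s| ≤ √(1 - t ^ 2) := by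
          apply Real.abs_le_sqrt
          nlinarith
        linarith
  · rintro r ⟨hr, x, P, hP, h⟩
    -- a unit vector of `P` orthogonal to `e`
    obtain ⟨u, huP, hu1, hue⟩ : ∃ u ∈ P, ‖u‖ = 1 ∧ ⟪e, u⟫_ℝ = 0 := by
      have h1 : 1 ≤ Module.finrank ℝ (P ⊓ (ℝ ∙ e)ᗮ : Submodule ℝ (Eu d)) := by
        have h2 := Submodule.finrank_sup_add_finrank_inf_eq P (ℝ ∙ e)ᗮ
        have h3 := (ℝ ∙ e).finrank_add_finrank_orthogonal
        rw [finrank_span_singleton he0, finrank_euclideanSpace_fin] at h3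
        have h4 := Submodule.finrank_le (P ⊔ (ℝ ∙ e)ᗮ)
        rw [finrank_euclideanSpace_fin] at h4
        omega
      have h3 : Nontrivial (P ⊓ (ℝ ∙ e)ᗮ : Submodule ℝ (Eu d)) :=
        Module.finrank_pos_iff (R := ℝ).1 (by omega)
      obtain ⟨⟨z, hz⟩, hz0⟩ := exists_ne (0 : (P ⊓ (ℝ ∙ e)ᗮ : Submodule ℝ (Eu d)))
      have hz0' : z ≠ 0 := by
        intro h0; apply hz0; ext1; exact h0
      have hzp : 0 < ‖z‖ := norm_pos_iff.2 hz0'
      refine ⟨‖z‖⁻¹ • z, P.smul_mem _ hz.1, ?_, ?_⟩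
      · rw [norm_smul, norm_inv, norm_norm, inv_mul_cancel₀ hzp.ne']
      · rw [real_inner_smul_right, (Submodule.mem_orthogonal_singleton_iff_inner_right).1 hz.2,
          mul_zero]
    have k1 := (h (r • u) (P.smul_mem _ huP) (by
      rw [norm_smul, hu1, mul_one, Real.norm_of_nonneg hr])).1
    have k2 := (h (-(r • u)) (P.neg_mem (P.smul_mem _ huP)) (by
      rw [norm_neg, norm_smul, hu1, mul_one, Real.norm_of_nonneg hr])).1
    have e1 : x + r • u - ⟪e, x + r • u⟫_ℝ • e = (x - ⟪e, x⟫_ℝ • e) + r • u := by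
      rw [inner_add_right, real_inner_smul_right, hue]; module
    have e2 : x + -(r • u) - ⟪e, x + -(r • u)⟫_ℝ • e = (x - ⟪e, x⟫_ℝ • e) - r • u := by
      rw [inner_add_right, inner_neg_right, real_inner_smul_right, hue]; module
    rw [e1] at k1
    rw [e2] at k2
    have h5 : ‖(2 * r) • u‖ ≤ 2 * ρ := by
      have h6 : (2 * r) • u = ((x - ⟪e, x⟫_ℝ • e) + r • u) - ((x - ⟪e, x⟫_ℝ • e) - r • u) := by
        module
      rw [h6]
      refine (norm_sub_le _ _).trans ?_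
      linarith
    rw [norm_smul, hu1, mul_one, Real.norm_of_nonneg (by positivity)] at h5
    linarith

theorem SD_num {m β ρ V b : ℝ} (hm : 1 ≤ m) (hβ : 0 ≤ β) (hb0 : 0 ≤ b) (hb2 : b ≤ 2)
    (hρ : ρ = √(1 - b ^ 2 / 4)) (h1 : √(4 * (m + 1) ^ 2 + β ^ 2) ≤ V)
    (h2 : V ≤ m * b + 2 + ρ * β) :
    (ρ - β / (2 * m)) ^ 2 ≤ (β ^ 2 + β ^ 4) / (4 * m ^ 3) := by
  have hm0 : 0 < m := by linarith
  have h3 := SB_sqrt_ge (m := m + 1) (β := β) (by linarith)
  have hρ2 : ρ ^ 2 = 1 - b ^ 2 / 4 := by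
    rw [hρ]; exact Real.sq_sqrt (by nlinarith)
  have hb : b ≤ 2 - ρ ^ 2 := by nlinarith
  have hmb : m * b ≤ m * (2 - ρ ^ 2) := mul_le_mul_of_nonneg_left hb hm0.le
  have h4 : m * ρ ^ 2 - β * ρ ≤ β ^ 4 / (64 * (m + 1) ^ 3) - β ^ 2 / (4 * (m + 1)) := by
    linarith
  have h5 : m * (ρ - β / (2 * m)) ^ 2 = m * ρ ^ 2 - β * ρ + β ^ 2 / (4 * m) := by
    field_simp; ring
  have h6 : β ^ 2 / (4 * m) - β ^ 2 / (4 * (m + 1)) = β ^ 2 / (4 * m * (m + 1)) := by
    field_simp; ring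
  have h7 : m * (ρ - β / (2 * m)) ^ 2 ≤ β ^ 4 / (64 * (m + 1) ^ 3) + β ^ 2 / (4 * m * (m + 1)) := by
    linarith
  have h8 : β ^ 2 / (4 * m * (m + 1)) ≤ β ^ 2 / (4 * m ^ 2) := by
    apply div_le_div_of_nonneg_left (by positivity) (by positivity)
    nlinarith
  have h9 : β ^ 4 / (64 * (m + 1) ^ 3) ≤ β ^ 4 / (4 * m ^ 2) := by
    apply div_le_div_of_nonneg_left (by positivity) (by positivity)
    have : m ^ 2 ≤ (m + 1) ^ 3 := by nlinarith [sq_nonneg m, sq_nonneg (m + 1)]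
    nlinarith [sq_nonneg m]
  have h10 : m * (ρ - β / (2 * m)) ^ 2 ≤ m * ((β ^ 2 + β ^ 4) / (4 * m ^ 3)) := by
    have e1 : m * ((β ^ 2 + β ^ 4) / (4 * m ^ 3)) = β ^ 4 / (4 * m ^ 2) + β ^ 2 / (4 * m ^ 2) := by
      field_simp; ring
    rw [e1]; linarith
  exact le_of_mul_le_mul_left h10 hm0

theorem SD_disc (d : ℕ) (hd : 2 ≤ d) : ∃ N₀ : ℕ, ∀ n ≥ N₀, ∀ D : Set (Eu d), Extremal n D →
    |(n : ℝ) * discRadius D - betaV d / 2| ≤ 3 * (betaV d + betaV d ^ 2) / √n := by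
  obtain ⟨N₀, hN₀⟩ := SA_shape d hd
  refine ⟨N₀ + 2, fun n hn D hext => ?_⟩
  obtain ⟨N, rfl⟩ : ∃ N, n = N + 1 := ⟨n - 1, by omega⟩
  obtain ⟨e, a, b, he, hb0, hb2, hDK⟩ := hN₀ N (by omega) D hext
  have hN1 : (1 : ℝ) ≤ N := by
    have : 1 ≤ N := by omega
    exact_mod_cast this
  have hβ := SA_betaV_nonneg hd
  have hdr : discRadius D = √(1 - b ^ 2 / 4) := by
    rw [← SD_translate D a, hDK, SD_Kset hd he (by positivity) SA_sqrt_le.1 SA_sqrt_le.2]
  have hl := SA_lower hd (by omega) hext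
  have hu := (KB_bounds hd he hb0 hb2 N).2
  rw [← hDK, SB_V1_translate (by omega) hext.1 a] at hu
  push_cast at hl
  have key := SD_num (m := (N : ℝ)) hN1 hβ hb0 hb2 rfl hl (by linarith)
  rw [hdr]
  push_cast
  set β := betaV d
  set ρ := √(1 - b ^ 2 / 4)
  set m : ℝ := (N : ℝ) with hm
  have hm0 : 0 < m := by linarith
  set s := √(m + 1) with hs
  have hs2 : s ^ 2 = m + 1 := Real.sq_sqrt (by linarith)
  have hs0 : 0 < s := Real.sqrt_pos.2 (by linarith)
  have hs1 : 1 ≤ s := by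
    rw [hs]; exact Real.one_le_sqrt.2 (by linarith)
  -- `|ρ - β/(2m)| ≤ 3/2 (β+β²) / s³`
  have h1 : |ρ - β / (2 * m)| ≤ 3 / 2 * (β + β ^ 2) / s ^ 3 := by
    apply abs_le_of_sq_le_sq _ (by positivity)
    refine key.trans ?_
    have e1 : (3 / 2 * (β + β ^ 2) / s ^ 3) ^ 2 = 9 / 4 * (β + β ^ 2) ^ 2 / (m + 1) ^ 3 := by
      rw [div_pow, ← pow_mul, show 3 * 2 = 2 * 3 by norm_num, pow_mul, hs2]; ring
    rw [e1, div_le_div_iff₀ (by positivity) (by positivity)]
    have e2 : β ^ 2 + β ^ 4 ≤ (β + β ^ 2) ^ 2 := by nlinarith [pow_nonneg hβ 3]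
    have e3 : (m + 1) ^ 3 ≤ 8 * m ^ 3 := by
      have : (m + 1) ^ 3 ≤ (2 * m) ^ 3 := pow_le_pow_left₀ (by linarith) (by linarith) 3
      calc (m + 1) ^ 3 ≤ (2 * m) ^ 3 := this
        _ = _ := by ring
    calc (β ^ 2 + β ^ 4) * (m + 1) ^ 3 ≤ (β + β ^ 2) ^ 2 * (8 * m ^ 3) :=
          mul_le_mul e2 e3 (by positivity) (by positivity)
      _ ≤ 9 / 4 * (β + β ^ 2) ^ 2 * (4 * m ^ 3) := by
          have : 0 ≤ (β + β ^ 2) ^ 2 * m ^ 3 := by positivity
          nlinarith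
  have h2 : (m + 1) * ρ - β / 2 = (m + 1) * (ρ - β / (2 * m)) + β / (2 * m) := by
    field_simp; ring
  have h3 : β / (2 * m) ≤ β / s := by
    apply div_le_div_of_nonneg_left hβ hs0
    nlinarith
  have h4 : (m + 1) * |ρ - β / (2 * m)| ≤ 3 / 2 * (β + β ^ 2) / s := by
    calc (m + 1) * |ρ - β / (2 * m)| ≤ (m + 1) * (3 / 2 * (β + β ^ 2) / s ^ 3) :=
          mul_le_mul_of_nonneg_left h1 (by linarith)
      _ = 3 / 2 * (β + β ^ 2) / s := by rw [← hs2]; field_simp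
  rw [h2]
  refine (abs_add_le _ _).trans ?_
  rw [abs_mul, abs_of_pos (by linarith : 0 < m + 1), abs_of_nonneg (by positivity : 0 ≤ β / (2 * m))]
  have h5 : 3 / 2 * (β + β ^ 2) / s + β / s ≤ 3 * (β + β ^ 2) / s := by
    rw [← add_div]
    apply div_le_div_of_nonneg_right _ hs0.le
    nlinarith [sq_nonneg β]
  linarith

end Pool.Agent.Sausage27
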