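import Pool.Agent.Sausage27.CP19

/-!
# Sausage27, SU23: support points of a chain
-/

namespace Pool.Agent.Sausage27

open MeasureTheory Set Metric Filter Topology
open scoped InnerProductSpace Pointwise

section general

variable {E : Type*} [NormedAddCommGroup E] [InnerProductSpace ℝ E]

theorem SU23_lat {δ : ℝ} {N : ℕ} {D : Set E} {c : ℕ → E} {e : E} (h : Chain δ N D c e) {θ : E}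
    (hθ : ‖θ‖ = 1) (hθe : ⟪e, θ⟫_ℝ = 0) {x : E} (hx : x ∈ D) : |⟪θ, x⟫_ℝ - ⟪θ, c 0⟫_ℝ| ≤ δ := by
  have h1 := h.lat x hx
  have h2 := abs_real_inner_le_norm θ (x - c 0 - ⟪e, x - c 0⟫_ℝ • e)
  have h3 : ⟪θ, x - c 0 - ⟪e, x - c 0⟫_ℝ • e⟫_ℝ = ⟪θ, x⟫_ℝ - ⟪θ, c 0⟫_ℝ := by
    rw [inner_sub_right, inner_sub_right, inner_smul_right, real_inner_comm e θ, hθe]
    ring
  rw [h3, hθ, one_mul] at h2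
  exact h2.trans h1

theorem SU23_diff {δ : ℝ} {N : ℕ} {D : Set E} {c : ℕ → E} {e : E} (h : Chain δ N D c e) {θ : E}
    (hθ : ‖θ‖ = 1) (hθe : ⟪e, θ⟫_ℝ = 0) {x x' : E} (hx : x ∈ D) (hx' : x' ∈ D) :
    ⟪θ, x⟫_ℝ - ⟪θ, x'⟫_ℝ ≤ 2 * δ := by
  have h1 := abs_le.1 (SU23_lat h hθ hθe hx)
  have h2 := abs_le.1 (SU23_lat h hθ hθe hx')
  linarith [h1.2, h2.1]

/-- SU23a. Support points for `q ≥ 1` lie in the caps. -/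
theorem Chain.support_caps {δ : ℝ} {N : ℕ} {D : Set E} {c : ℕ → E} {e : E} (hD : Body D)
    (h : Chain δ N D c e) (hδ : 0 < δ) (hδ1 : δ ≤ 1 / 100) {θ : E} (hθ : ‖θ‖ = 1)
    (hθe : ⟪e, θ⟫_ℝ = 0) {q : ℝ} (hq : 1 ≤ q) :
    (∀ x ∈ D, (∀ x' ∈ D, q * ⟪e, x'⟫_ℝ + ⟪θ, x'⟫_ℝ ≤ q * ⟪e, x⟫_ℝ + ⟪θ, x⟫_ℝ) →
      1 / 2 ≤ ⟪e, x - c N⟫_ℝ) ∧
    (∀ y ∈ D, (∀ y' ∈ D, -(q * ⟪e, y'⟫_ℝ) + ⟪θ, y'⟫_ℝ ≤ -(q * ⟪e, y⟫_ℝ) + ⟪θ, y⟫_ℝ) →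
      ⟪e, y - c 0⟫_ℝ ≤ -(1 / 2)) := by
  constructor
  · intro x hx hmax
    obtain ⟨x', hx', hx'1⟩ := h.right_pt
    have h1 := hmax x' hx'
    have h2 := SU23_diff h hθ hθe hx hx'
    rw [inner_sub_right] at hx'1 ⊢
    by_contra hcon
    push Not at hcon
    have h3 : 0 ≤ ⟪e, x'⟫_ℝ - ⟪e, x⟫_ℝ := by linarith
    have h4 : ⟪e, x'⟫_ℝ - ⟪e, x⟫_ℝ ≤ q * (⟪e, x'⟫_ℝ - ⟪e, x⟫_ℝ) :=
      le_mul_of_one_le_left h3 hq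
    linarith
  · intro y hy hmax
    obtain ⟨y', hy', hy'1⟩ := h.left_pt
    have h1 := hmax y' hy'
    have h2 := SU23_diff h hθ hθe hy hy'
    rw [inner_sub_right] at hy'1 ⊢
    by_contra hcon
    push Not at hcon
    have h3 : 0 ≤ ⟪e, y⟫_ℝ - ⟪e, y'⟫_ℝ := by linarith
    have h4 : ⟪e, y⟫_ℝ - ⟪e, y'⟫_ℝ ≤ q * (⟪e, y⟫_ℝ - ⟪e, y'⟫_ℝ) :=
      le_mul_of_one_le_left h3 hq
    linarith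

theorem SU23_inner (x e θ : E) (q : ℝ) : ⟪x, q • e + θ⟫_ℝ = q * ⟪e, x⟫_ℝ + ⟪θ, x⟫_ℝ := by
  rw [inner_add_right, inner_smul_right, real_inner_comm e x, real_inner_comm θ x]

theorem SU23_inner' (x e θ : E) (q : ℝ) :
    ⟪x, -(q • e) + θ⟫_ℝ = -(q * ⟪e, x⟫_ℝ) + ⟪θ, x⟫_ℝ := by
  rw [inner_add_right, inner_neg_right, inner_smul_right, real_inner_comm e x,
    real_inner_comm θ x]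

/-- Scalar form: outside the range of the reference points nothing is gained. -/
theorem SU23_clamp {q qr ex tx exr txr eyr tyr : ℝ} (hq : 0 < q) (hqqr : q ≤ qr)
    (h1 : qr * ex + tx ≤ qr * exr + txr) (h2 : -(qr * ex) + tx ≤ -(qr * eyr) + tyr) :
    (exr ≤ ex → q * ex + tx ≤ q * exr + txr) ∧ (ex ≤ eyr → q * ex + tx ≤ q * eyr + tyr) ∧
    (exr ≤ ex → -(q * ex) + tx ≤ -(q * exr) + txr) ∧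
    (ex ≤ eyr → -(q * ex) + tx ≤ -(q * eyr) + tyr) := by
  refine ⟨fun h => ?_, fun h => ?_, fun h => ?_, fun h => ?_⟩
  · linarith [mul_nonneg (sub_nonneg.2 hqqr) (sub_nonneg.2 h)]
  · linarith [mul_nonneg (add_pos hq (hq.trans_le hqqr)).le (sub_nonneg.2 h)]
  · linarith [mul_nonneg (add_pos hq (hq.trans_le hqqr)).le (sub_nonneg.2 h)]
  · linarith [mul_nonneg (sub_nonneg.2 hqqr) (sub_nonneg.2 h)]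

/-- SU23b. Support points for `0 < q ≤ qr`: crude bound. -/
theorem Chain.crude {δ : ℝ} {N : ℕ} {D : Set E} {c : ℕ → E} {e : E} (hD : Body D)
    (h : Chain δ N D c e) (hδ : 0 < δ) (hδ1 : δ ≤ 1 / 100) (hN : 100 ≤ N) (hc : Centred c N)
    {θ : E} (hθ : ‖θ‖ = 1) (hθe : ⟪e, θ⟫_ℝ = 0) {qr : ℝ} (hqr : 1 ≤ qr) {xr yr : E} (hxr : xr ∈ D)
    (hyr : yr ∈ D)
    (hxs : ∀ x ∈ D, qr * ⟪e, x⟫_ℝ + ⟪θ, x⟫_ℝ ≤ qr * ⟪e, xr⟫_ℝ + ⟪θ, xr⟫_ℝ)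
    (hys : ∀ y ∈ D, -(qr * ⟪e, y⟫_ℝ) + ⟪θ, y⟫_ℝ ≤ -(qr * ⟪e, yr⟫_ℝ) + ⟪θ, yr⟫_ℝ) {σ κ Er : ℝ}
    (hxκ : ⟪θ, xr⟫_ℝ - σ * ⟪e, xr⟫_ℝ = κ) (hyκ : ⟪θ, yr⟫_ℝ - σ * ⟪e, yr⟫_ℝ = κ) (hEr : 0 ≤ Er)
    (hE : ∀ p ∈ D, ⟪e, yr⟫_ℝ ≤ ⟪e, p⟫_ℝ → ⟪e, p⟫_ℝ ≤ ⟪e, xr⟫_ℝ →
      ⟪θ, p⟫_ℝ - σ * ⟪e, p⟫_ℝ - κ ≤ Er) {q : ℝ} (hq : 0 < q) (hqqr : q ≤ qr) :
    hS D (q • e + θ) + hS D (-(q • e) + θ) ≤
      q * (‖c N - c 0‖ + 2) + 2 * κ + 2.2 * N * |σ| + 2 * Er := by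
  obtain ⟨hcx, hcy⟩ := h.support_caps hD hδ hδ1 hθ hθe hqr
  have hcx := hcx xr hxr hxs
  have hcy := hcy yr hyr hys
  obtain ⟨-, p2, p3, -, p5, p6, p7, -⟩ := h.pair hD hδ hδ1 hN hc hθ hθe hxr hyr
    (by linarith) (by linarith) hxκ hyκ
  have hNr : (100 : ℝ) ≤ N := by exact_mod_cast hN
  have hyx : ⟪e, yr⟫_ℝ ≤ ⟪e, xr⟫_ℝ := by linarith
  -- bound of `σ * t` for `|t| ≤ 1.1 N`
  have hσt : ∀ t : ℝ, |t| ≤ 1.1 * N → σ * t ≤ 1.1 * N * |σ| := by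
    intro t ht
    calc σ * t ≤ |σ * t| := le_abs_self _
      _ = |σ| * |t| := abs_mul _ _
      _ ≤ |σ| * (1.1 * N) := mul_le_mul_of_nonneg_left ht (abs_nonneg _)
      _ = 1.1 * N * |σ| := by ring
  have hmid : ∀ t : ℝ, ⟪e, yr⟫_ℝ ≤ t → t ≤ ⟪e, xr⟫_ℝ → |t| ≤ 1.1 * N := by
    intro t h1 h2
    have := abs_le.1 p5
    have := abs_le.1 p6
    rw [abs_le]
    constructor <;> linarith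
  have hxσ := hσt _ p5
  have hyσ := hσt _ p6
  have hA : hS D (q • e + θ) ≤ q * ⟪e, xr⟫_ℝ + κ + 1.1 * N * |σ| + Er := by
    refine hD.hS_le fun x hx => ?_
    rw [SU23_inner]
    obtain ⟨c1, c2, c3, c4⟩ := SU23_clamp hq hqqr (hxs x hx) (hys x hx)
    rcases le_total ⟪e, xr⟫_ℝ ⟪e, x⟫_ℝ with h1 | h1
    · have := c1 h1
      linarith
    · rcases le_total ⟪e, x⟫_ℝ ⟪e, yr⟫_ℝ with h2 | h2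
      · have := c2 h2
        have h3 : q * ⟪e, yr⟫_ℝ ≤ q * ⟪e, xr⟫_ℝ := mul_le_mul_of_nonneg_left hyx hq.le
        linarith
      · have h3 := hE x hx h2 h1
        have h4 := hσt _ (hmid _ h2 h1)
        have h5 : q * ⟪e, x⟫_ℝ ≤ q * ⟪e, xr⟫_ℝ := mul_le_mul_of_nonneg_left h1 hq.le
        linarith
  have hB : hS D (-(q • e) + θ) ≤ -(q * ⟪e, yr⟫_ℝ) + κ + 1.1 * N * |σ| + Er := by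
    refine hD.hS_le fun x hx => ?_
    rw [SU23_inner']
    obtain ⟨c1, c2, c3, c4⟩ := SU23_clamp hq hqqr (hxs x hx) (hys x hx)
    rcases le_total ⟪e, xr⟫_ℝ ⟪e, x⟫_ℝ with h1 | h1
    · have := c3 h1
      have h3 : q * ⟪e, yr⟫_ℝ ≤ q * ⟪e, xr⟫_ℝ := mul_le_mul_of_nonneg_left hyx hq.le
      linarith
    · rcases le_total ⟪e, x⟫_ℝ ⟪e, yr⟫_ℝ with h2 | h2
      · have := c4 h2
        linarith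
      · have h3 := hE x hx h2 h1
        have h4 := hσt _ (hmid _ h2 h1)
        have h5 : q * ⟪e, yr⟫_ℝ ≤ q * ⟪e, x⟫_ℝ := mul_le_mul_of_nonneg_left h2 hq.le
        linarith
  have hC : q * (⟪e, xr⟫_ℝ - ⟪e, yr⟫_ℝ) ≤ q * (‖c N - c 0‖ + 2) :=
    mul_le_mul_of_nonneg_left p7 hq.le
  linarith

/-- SU23c. Support points for `4|σ| + 2 Er ≤ q ≤ qr`: they lie in the caps, and the slope of the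
chord is controlled by the reference slope. -/
theorem Chain.slopes {δ : ℝ} {N : ℕ} {D : Set E} {c : ℕ → E} {e : E} (hD : Body D)
    (h : Chain δ N D c e) (hδ : 0 < δ) (hδ1 : δ ≤ 1 / 100) (hN : 100 ≤ N) (hc : Centred c N)
    {θ : E} (hθ : ‖θ‖ = 1) (hθe : ⟪e, θ⟫_ℝ = 0) {qr : ℝ} (hqr : 1 ≤ qr) {xr yr : E} (hxr : xr ∈ D)
    (hyr : yr ∈ D)
    (hxs : ∀ x ∈ D, qr * ⟪e, x⟫_ℝ + ⟪θ, x⟫_ℝ ≤ qr * ⟪e, xr⟫_ℝ + ⟪θ, xr⟫_ℝ)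
    (hys : ∀ y ∈ D, -(qr * ⟪e, y⟫_ℝ) + ⟪θ, y⟫_ℝ ≤ -(qr * ⟪e, yr⟫_ℝ) + ⟪θ, yr⟫_ℝ) {σ κ Er : ℝ}
    (hxκ : ⟪θ, xr⟫_ℝ - σ * ⟪e, xr⟫_ℝ = κ) (hyκ : ⟪θ, yr⟫_ℝ - σ * ⟪e, yr⟫_ℝ = κ) (hEr : 0 ≤ Er)
    (hE : ∀ p ∈ D, ⟪e, yr⟫_ℝ ≤ ⟪e, p⟫_ℝ → ⟪e, p⟫_ℝ ≤ ⟪e, xr⟫_ℝ →
      ⟪θ, p⟫_ℝ - σ * ⟪e, p⟫_ℝ - κ ≤ Er) {q : ℝ} (hq : 0 < q) (hqqr : q ≤ qr)
    (hqs : 4 * |σ| + 2 * Er ≤ q) :
    ∃ x ∈ D, ∃ y ∈ D, hS D (q • e + θ) = q * ⟪e, x⟫_ℝ + ⟪θ, x⟫_ℝ ∧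
      hS D (-(q • e) + θ) = -(q * ⟪e, y⟫_ℝ) + ⟪θ, y⟫_ℝ ∧ -(1 / 2) ≤ ⟪e, x - c N⟫_ℝ ∧
      ⟪e, y - c 0⟫_ℝ ≤ 1 / 2 ∧
      |⟪θ, x⟫_ℝ - ⟪θ, y⟫_ℝ| ≤ (2 * |σ| + Er / N) * (⟪e, x⟫_ℝ - ⟪e, y⟫_ℝ) := by
  obtain ⟨hcx, hcy⟩ := h.support_caps hD hδ hδ1 hθ hθe hqr
  have hcx := hcx xr hxr hxs
  have hcy := hcy yr hyr hys
  obtain ⟨-, p2, p3, -, p5, p6, p7, -⟩ := h.pair hD hδ hδ1 hN hc hθ hθe hxr hyr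
    (by linarith) (by linarith) hxκ hyκ
  have hNr : (100 : ℝ) ≤ N := by exact_mod_cast hN
  have hyx : ⟪e, yr⟫_ℝ ≤ ⟪e, xr⟫_ℝ := by linarith
  -- the support point `x`
  have hX : ∃ x ∈ D, hS D (q • e + θ) = q * ⟪e, x⟫_ℝ + ⟪θ, x⟫_ℝ ∧ ⟪e, yr⟫_ℝ ≤ ⟪e, x⟫_ℝ ∧
      ⟪e, x⟫_ℝ ≤ ⟪e, xr⟫_ℝ := by
    obtain ⟨x, hx, hxe⟩ := hD.exists_eq (q • e + θ)
    rw [SU23_inner] at hxe
    obtain ⟨c1, c2, c3, c4⟩ := SU23_clamp hq hqqr (hxs x hx) (hys x hx)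
    rcases le_total ⟪e, xr⟫_ℝ ⟪e, x⟫_ℝ with h1 | h1
    · refine ⟨xr, hxr, le_antisymm (by rw [hxe]; exact c1 h1) ?_, hyx, le_refl _⟩
      rw [← SU23_inner]
      exact hD.inner_le hxr _
    · rcases le_total ⟪e, x⟫_ℝ ⟪e, yr⟫_ℝ with h2 | h2
      · refine ⟨yr, hyr, le_antisymm (by rw [hxe]; exact c2 h2) ?_, le_refl _, hyx⟩
        rw [← SU23_inner]
        exact hD.inner_le hyr _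
      · exact ⟨x, hx, hxe, h2, h1⟩
  have hY : ∃ y ∈ D, hS D (-(q • e) + θ) = -(q * ⟪e, y⟫_ℝ) + ⟪θ, y⟫_ℝ ∧ ⟪e, yr⟫_ℝ ≤ ⟪e, y⟫_ℝ ∧
      ⟪e, y⟫_ℝ ≤ ⟪e, xr⟫_ℝ := by
    obtain ⟨x, hx, hxe⟩ := hD.exists_eq (-(q • e) + θ)
    rw [SU23_inner'] at hxe
    obtain ⟨c1, c2, c3, c4⟩ := SU23_clamp hq hqqr (hxs x hx) (hys x hx)
    rcases le_total ⟪e, xr⟫_ℝ ⟪e, x⟫_ℝ with h1 | h1
    · refine ⟨xr, hxr, le_antisymm (by rw [hxe]; exact c3 h1) ?_, hyx, le_refl _⟩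
      rw [← SU23_inner']
      exact hD.inner_le hxr _
    · rcases le_total ⟪e, x⟫_ℝ ⟪e, yr⟫_ℝ with h2 | h2
      · refine ⟨yr, hyr, le_antisymm (by rw [hxe]; exact c4 h2) ?_, le_refl _, hyx⟩
        rw [← SU23_inner']
        exact hD.inner_le hyr _
      · exact ⟨x, hx, hxe, h2, h1⟩
  obtain ⟨x, hx, hxe, hx1, hx2⟩ := hX
  obtain ⟨y, hy, hye, hy1, hy2⟩ := hY
  have ex := hE x hx hx1 hx2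
  have ey := hE y hy hy1 hy2
  have mx : q * ⟪e, xr⟫_ℝ + ⟪θ, xr⟫_ℝ ≤ q * ⟪e, x⟫_ℝ + ⟪θ, x⟫_ℝ := by
    rw [← hxe, ← SU23_inner]; exact hD.inner_le hxr _
  have my : -(q * ⟪e, yr⟫_ℝ) + ⟪θ, yr⟫_ℝ ≤ -(q * ⟪e, y⟫_ℝ) + ⟪θ, y⟫_ℝ := by
    rw [← hye, ← SU23_inner']; exact hD.inner_le hyr _
  have hσ1 := neg_abs_le σ
  have hσ2 := le_abs_self σ
  have hσ0 := abs_nonneg σ
  have ht0 : 0 ≤ ⟪e, xr⟫_ℝ - ⟪e, x⟫_ℝ := by linarith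
  have ht0' : 0 ≤ ⟪e, y⟫_ℝ - ⟪e, yr⟫_ℝ := by linarith
  have ht1 : (q + σ) * (⟪e, xr⟫_ℝ - ⟪e, x⟫_ℝ) ≤ Er := by linarith
  have ht1' : (q - σ) * (⟪e, y⟫_ℝ - ⟪e, yr⟫_ℝ) ≤ Er := by linarith
  have hqa : 3 / 4 * q ≤ q + σ := by linarith
  have hqa' : 3 / 4 * q ≤ q - σ := by linarith
  have hqE : 3 / 2 * Er ≤ 3 / 4 * q := by linarith
  have ht : ⟪e, xr⟫_ℝ - ⟪e, x⟫_ℝ ≤ 2 / 3 := by
    by_contra hcon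
    push Not at hcon
    have hp : 0 < q + σ := by linarith
    have := mul_lt_mul_of_pos_left hcon hp
    linarith
  have ht' : ⟪e, y⟫_ℝ - ⟪e, yr⟫_ℝ ≤ 2 / 3 := by
    by_contra hcon
    push Not at hcon
    have hp : 0 < q - σ := by linarith
    have := mul_lt_mul_of_pos_left hcon hp
    linarith
  refine ⟨x, hx, y, hy, hxe, hye, ?_, ?_, ?_⟩
  · rw [inner_sub_right] at hcx ⊢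
    linarith
  · rw [inner_sub_right] at hcy ⊢
    linarith
  · have hu0 : 0 ≤ ⟪θ, x⟫_ℝ - ⟪θ, xr⟫_ℝ := by
      have := mul_nonneg hq.le ht0
      linarith
    have hv0 : 0 ≤ ⟪θ, y⟫_ℝ - ⟪θ, yr⟫_ℝ := by
      have := mul_nonneg hq.le ht0'
      linarith
    have hst : |σ| * (⟪e, xr⟫_ℝ - ⟪e, x⟫_ℝ) ≤ |σ| * (2 / 3) := mul_le_mul_of_nonneg_left ht hσ0
    have hst' : |σ| * (⟪e, y⟫_ℝ - ⟪e, yr⟫_ℝ) ≤ |σ| * (2 / 3) :=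
      mul_le_mul_of_nonneg_left ht' hσ0
    have hss : -σ * (⟪e, xr⟫_ℝ - ⟪e, x⟫_ℝ) ≤ |σ| * (⟪e, xr⟫_ℝ - ⟪e, x⟫_ℝ) :=
      mul_le_mul_of_nonneg_right (by linarith) ht0
    have hss' : σ * (⟪e, y⟫_ℝ - ⟪e, yr⟫_ℝ) ≤ |σ| * (⟪e, y⟫_ℝ - ⟪e, yr⟫_ℝ) :=
      mul_le_mul_of_nonneg_right (by linarith) ht0'
    have hu1 : ⟪θ, x⟫_ℝ - ⟪θ, xr⟫_ℝ ≤ Er + |σ| * (2 / 3) := by linarith
    have hv1 : ⟪θ, y⟫_ℝ - ⟪θ, yr⟫_ℝ ≤ Er + |σ| * (2 / 3) := by linarith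
    have hΛ0 : 0 ≤ ⟪e, xr⟫_ℝ - ⟪e, yr⟫_ℝ := by linarith
    have hΛ : ⟪e, xr⟫_ℝ - ⟪e, yr⟫_ℝ - 4 / 3 ≤ ⟪e, x⟫_ℝ - ⟪e, y⟫_ℝ := by linarith
    have hNpos : (0 : ℝ) < N := by linarith
    have hEN : Er ≤ Er / N * (⟪e, x⟫_ℝ - ⟪e, y⟫_ℝ) := by
      rw [div_mul_eq_mul_div, le_div_iff₀ hNpos]
      apply mul_le_mul_of_nonneg_left _ hEr
      linarith
    have hs1 : |σ| * (⟪e, xr⟫_ℝ - ⟪e, yr⟫_ℝ - 4 / 3) ≤ |σ| * (⟪e, x⟫_ℝ - ⟪e, y⟫_ℝ) :=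
      mul_le_mul_of_nonneg_left hΛ hσ0
    have hs2 : |σ| * 190 ≤ |σ| * (⟪e, xr⟫_ℝ - ⟪e, yr⟫_ℝ) :=
      mul_le_mul_of_nonneg_left (by linarith) hσ0
    have hs3 : σ * (⟪e, xr⟫_ℝ - ⟪e, yr⟫_ℝ) ≤ |σ| * (⟪e, xr⟫_ℝ - ⟪e, yr⟫_ℝ) :=
      mul_le_mul_of_nonneg_right hσ2 hΛ0
    have hs4 : -|σ| * (⟪e, xr⟫_ℝ - ⟪e, yr⟫_ℝ) ≤ σ * (⟪e, xr⟫_ℝ - ⟪e, yr⟫_ℝ) :=
      mul_le_mul_of_nonneg_right hσ1 hΛ0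
    rw [abs_le]
    constructor <;> linarith

end general

end Pool.Agent.Sausage27
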