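import Pool.Agent.Sausage27.CH16
import Pool.Agent.Sausage27.CD18
import Pool.Agent.Sausage27.KB17
import Pool.Agent.Sausage27.CP19
import Pool.Agent.Sausage27.DB21
import Pool.Agent.Sausage27.SU23
import Pool.Agent.Sausage27.IN24

/-!
# Sausage27, SG25: the slice inequality
-/

namespace Pool.Agent.Sausage27

open MeasureTheory Set Metric Filter Topology
open scoped InnerProductSpace Pointwise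

section general

variable {E : Type*} [NormedAddCommGroup E] [InnerProductSpace ℝ E]

theorem SG25_supp {D : Set E} (hD : Body D) (u : E) :
    ∃ x ∈ D, hS D u = ⟪u, x⟫_ℝ ∧ ∀ x' ∈ D, ⟪u, x'⟫_ℝ ≤ ⟪u, x⟫_ℝ := by
  obtain ⟨x, hx, he⟩ := hD.exists_eq u
  refine ⟨x, hx, by rw [he, real_inner_comm], fun x' hx' => ?_⟩
  have := hD.inner_le hx' u
  rw [he] at this
  rwa [real_inner_comm, real_inner_comm x u]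

theorem SG25_inner_pos (e θ x : E) (q : ℝ) :
    ⟪q • e + θ, x⟫_ℝ = q * ⟪e, x⟫_ℝ + ⟪θ, x⟫_ℝ := by
  rw [inner_add_left, real_inner_smul_left]

theorem SG25_inner_neg (e θ x : E) (q : ℝ) :
    ⟪-(q • e) + θ, x⟫_ℝ = -(q * ⟪e, x⟫_ℝ) + ⟪θ, x⟫_ℝ := by
  rw [inner_add_left, inner_neg_left, real_inner_smul_left]

/-- Slope and intercept of the chord between two points in the caps. -/
theorem SG25_chord_data {δ : ℝ} {N : ℕ} {D : Set E} {c : ℕ → E} {e : E}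
    (h : Chain δ N D c e) (hδ : 0 < δ) (hδ1 : δ ≤ 1 / 100) (hN : 100 ≤ N) {θ x y : E}
    (hx' : -(1 / 2) ≤ ⟪e, x - c N⟫_ℝ) (hy' : ⟪e, y - c 0⟫_ℝ ≤ 1 / 2) :
    0 < ⟪e, x⟫_ℝ - ⟪e, y⟫_ℝ ∧ ∃ σ κ : ℝ, ⟪θ, x⟫_ℝ - σ * ⟪e, x⟫_ℝ = κ ∧
      ⟪θ, y⟫_ℝ - σ * ⟪e, y⟫_ℝ = κ := by
  obtain ⟨-, -, -, hY, -⟩ := h.basic hδ hδ1 hN
  have hN' : (100 : ℝ) ≤ N := by exact_mod_cast hN
  have hY' : (100 : ℝ) ≤ ‖c N - c 0‖ := by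
    have : (N : ℝ) * 1 ≤ (N : ℝ) * (2 - 5 * δ ^ 2) := by
      apply mul_le_mul_of_nonneg_left _ (by linarith)
      nlinarith
    linarith
  have he : ⟪e, c N - c 0⟫_ℝ = ‖c N - c 0‖ := by
    conv_lhs => rw [h.axis]
    rw [real_inner_smul_right, real_inner_self_eq_norm_sq, h.norm_e]; ring
  rw [inner_sub_right] at hx' hy' he
  have hpos : 0 < ⟪e, x⟫_ℝ - ⟪e, y⟫_ℝ := by linarith
  refine ⟨hpos, (⟪θ, x⟫_ℝ - ⟪θ, y⟫_ℝ) / (⟪e, x⟫_ℝ - ⟪e, y⟫_ℝ), _, rfl, ?_⟩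
  field_simp
  ring

/-- The bound for `κ` with an excess. -/
theorem SG25_kappa {δ : ℝ} {N : ℕ} {D : Set E} {c : ℕ → E} {e : E} (hD : Body D)
    (h : Chain δ N D c e) (hδ : 0 < δ) (hδ1 : δ ≤ 1 / 100) (hN : 100 ≤ N) (hc : Centred c N)
    {θ : E} (hθ : ‖θ‖ = 1) (hθe : ⟪e, θ⟫_ℝ = 0) {x y p : E} (hx : x ∈ D) (hy : y ∈ D) (hp : p ∈ D)
    (hx' : -(1 / 2) ≤ ⟪e, x - c N⟫_ℝ) (hy' : ⟪e, y - c 0⟫_ℝ ≤ 1 / 2) {σ κ : ℝ}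
    (hxκ : ⟪θ, x⟫_ℝ - σ * ⟪e, x⟫_ℝ = κ) (hyκ : ⟪θ, y⟫_ℝ - σ * ⟪e, y⟫_ℝ = κ)
    (hp1 : ⟪e, y⟫_ℝ ≤ ⟪e, p⟫_ℝ) (hp2 : ⟪e, p⟫_ℝ ≤ ⟪e, x⟫_ℝ)
    (hpκ : 0 ≤ ⟪θ, p⟫_ℝ - σ * ⟪e, p⟫_ℝ - κ) :
    κ + (⟪θ, p⟫_ℝ - σ * ⟪e, p⟫_ℝ - κ) / 16 ≤ rhob c N - vr c N / 4 + δ / N * bd c N := by
  have h1 := h.chord hD hδ hδ1 hN hc hθ hθe hx hy hp hx' hy' hxκ hyκ hp1 hp2 hpκ
  obtain ⟨hσ, -⟩ := h.pair hD hδ hδ1 hN hc hθ hθe hx hy hx' hy' hxκ hyκ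
  exact h1.trans (h.K_bound hδ hδ1 hN hθ hθe hσ)

/-- Reference data at `qr ≥ 1`. -/
theorem SG25_ref {δ : ℝ} {N : ℕ} {D : Set E} {c : ℕ → E} {e : E} (hD : Body D)
    (h : Chain δ N D c e) (hδ : 0 < δ) (hδ1 : δ ≤ 1 / 100) (hN : 100 ≤ N) (hc : Centred c N)
    {θ : E} (hθ : ‖θ‖ = 1) (hθe : ⟪e, θ⟫_ℝ = 0) {qr : ℝ} (hqr : 1 ≤ qr) :
    ∃ xr ∈ D, ∃ yr ∈ D, ∃ σ κ Er : ℝ,
      (∀ x ∈ D, qr * ⟪e, x⟫_ℝ + ⟪θ, x⟫_ℝ ≤ qr * ⟪e, xr⟫_ℝ + ⟪θ, xr⟫_ℝ) ∧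
      (∀ y ∈ D, -(qr * ⟪e, y⟫_ℝ) + ⟪θ, y⟫_ℝ ≤ -(qr * ⟪e, yr⟫_ℝ) + ⟪θ, yr⟫_ℝ) ∧
      hS D (qr • e + θ) = qr * ⟪e, xr⟫_ℝ + ⟪θ, xr⟫_ℝ ∧
      hS D (-(qr • e) + θ) = -(qr * ⟪e, yr⟫_ℝ) + ⟪θ, yr⟫_ℝ ∧
      ⟪θ, xr⟫_ℝ - σ * ⟪e, xr⟫_ℝ = κ ∧ ⟪θ, yr⟫_ℝ - σ * ⟪e, yr⟫_ℝ = κ ∧
      -(1 / 2) ≤ ⟪e, xr - c N⟫_ℝ ∧ ⟪e, yr - c 0⟫_ℝ ≤ 1 / 2 ∧ 0 ≤ Er ∧
      (∀ p ∈ D, ⟪e, yr⟫_ℝ ≤ ⟪e, p⟫_ℝ → ⟪e, p⟫_ℝ ≤ ⟪e, xr⟫_ℝ →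
        ⟪θ, p⟫_ℝ - σ * ⟪e, p⟫_ℝ - κ ≤ Er) ∧
      κ + Er / 16 ≤ rhob c N - vr c N / 4 + δ / N * bd c N ∧ Er ≤ 8.5 * δ := by
  obtain ⟨xr, hxr, hxe, hxs⟩ := SG25_supp hD (qr • e + θ)
  obtain ⟨yr, hyr, hye, hys⟩ := SG25_supp hD (-(qr • e) + θ)
  simp only [SG25_inner_pos] at hxe hxs
  simp only [SG25_inner_neg] at hye hys
  obtain ⟨hc1, hc2⟩ := h.support_caps hD hδ hδ1 hθ hθe hqr
  have hx' : -(1 / 2) ≤ ⟪e, xr - c N⟫_ℝ := by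
    have := hc1 xr hxr hxs; linarith
  have hy' : ⟪e, yr - c 0⟫_ℝ ≤ 1 / 2 := by
    have := hc2 yr hyr hys; linarith
  obtain ⟨hΛ, σ, κ, hxκ, hyκ⟩ := SG25_chord_data h hδ hδ1 hN (θ := θ) hx' hy'
  -- maximal excess
  have hcomp : IsCompact (D ∩ {p | ⟪e, yr⟫_ℝ ≤ ⟪e, p⟫_ℝ ∧ ⟪e, p⟫_ℝ ≤ ⟪e, xr⟫_ℝ}) := by
    apply hD.comp.inter_right
    have hcont : Continuous fun p : E => ⟪e, p⟫_ℝ := by fun_prop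
    exact (isClosed_le continuous_const hcont).inter (isClosed_le hcont continuous_const)
  obtain ⟨p, ⟨hpD, hp1, hp2⟩, hpm⟩ := hcomp.exists_isMaxOn ⟨xr, hxr, by simpa using hΛ.le, le_rfl⟩
    (f := fun p => ⟪θ, p⟫_ℝ - σ * ⟪e, p⟫_ℝ - κ) (by fun_prop)
  have hE0 : 0 ≤ ⟪θ, p⟫_ℝ - σ * ⟪e, p⟫_ℝ - κ := by
    have := hpm (⟨hxr, by simpa using hΛ.le, le_rfl⟩ :
      xr ∈ D ∩ {p | ⟪e, yr⟫_ℝ ≤ ⟪e, p⟫_ℝ ∧ ⟪e, p⟫_ℝ ≤ ⟪e, xr⟫_ℝ})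
    simp only [Set.mem_ofPred_eq] at this
    linarith
  have hk := SG25_kappa hD h hδ hδ1 hN hc hθ hθe hxr hyr hpD hx' hy' hxκ hyκ hp1 hp2 hE0
  obtain ⟨hσ, -, -, hκ4, hX, hY, -⟩ := h.pair hD hδ hδ1 hN hc hθ hθe hxr hyr hx' hy' hxκ hyκ
  obtain ⟨-, -, hlat⟩ := h.centred hδ hδ1 hN hc
  have hN' : (100 : ℝ) ≤ N := by exact_mod_cast hN
  have hEle : ⟪θ, p⟫_ℝ - σ * ⟪e, p⟫_ℝ - κ ≤ 8.5 * δ := by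
    have h1 : ⟪θ, p⟫_ℝ ≤ 2 * δ := by
      have h2 : ⟪θ, p⟫_ℝ = ⟪θ, p - ⟪e, p⟫_ℝ • e⟫_ℝ := by
        rw [inner_sub_right, real_inner_smul_right, real_inner_comm e θ, hθe]; ring
      rw [h2]
      calc _ ≤ ‖θ‖ * ‖p - ⟪e, p⟫_ℝ • e‖ := real_inner_le_norm _ _
        _ ≤ 2 * δ := by rw [hθ, one_mul]; exact hlat p hpD
    have h3 : |⟪e, p⟫_ℝ| ≤ 1.1 * N := by
      rw [abs_le] at hX hY ⊢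
      constructor <;> linarith [hX.1, hX.2, hY.1, hY.2]
    have h4 : -(σ * ⟪e, p⟫_ℝ) ≤ 2.2 * δ := by
      have : |σ * ⟪e, p⟫_ℝ| ≤ 2 * δ / N * (1.1 * N) := by
        rw [abs_mul]
        exact mul_le_mul hσ h3 (abs_nonneg _) (by positivity)
      have h5 : 2 * δ / N * (1.1 * N) = 2.2 * δ := by field_simp; norm_num
      rw [h5] at this
      exact (neg_le_abs _).trans this
    have h6 := (abs_le.1 hκ4).1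
    linarith
  refine ⟨xr, hxr, yr, hyr, σ, κ, _, hxs, hys, hxe, hye, hxκ, hyκ, hx', hy', hE0, ?_, hk, hEle⟩
  intro p' hp' h1 h2
  exact hpm (⟨hp', h1, h2⟩ : p' ∈ D ∩ {p | ⟪e, yr⟫_ℝ ≤ ⟪e, p⟫_ℝ ∧ ⟪e, p⟫_ℝ ≤ ⟪e, xr⟫_ℝ})

/-- The bound for the sum of two opposite support values when the support points are in the caps,
together with everything needed for `delta_bounds`. -/
theorem SG25_pair {δ : ℝ} {N : ℕ} {D : Set E} {c : ℕ → E} {e : E} (hD : Body D)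
    (h : Chain δ N D c e) (hδ : 0 < δ) (hδ1 : δ ≤ 1 / 100) (hN : 100 ≤ N) (hc : Centred c N)
    {θ : E} (hθ : ‖θ‖ = 1) (hθe : ⟪e, θ⟫_ℝ = 0) {q : ℝ} (hq : 0 ≤ q) {x y : E} (hx : x ∈ D)
    (hy : y ∈ D) (hxe : hS D (q • e + θ) = q * ⟪e, x⟫_ℝ + ⟪θ, x⟫_ℝ)
    (hye : hS D (-(q • e) + θ) = -(q * ⟪e, y⟫_ℝ) + ⟪θ, y⟫_ℝ)
    (hx' : -(1 / 2) ≤ ⟪e, x - c N⟫_ℝ) (hy' : ⟪e, y - c 0⟫_ℝ ≤ 1 / 2) {σ κ : ℝ}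
    (hxκ : ⟪θ, x⟫_ℝ - σ * ⟪e, x⟫_ℝ = κ) (hyκ : ⟪θ, y⟫_ℝ - σ * ⟪e, y⟫_ℝ = κ)
    (hσq : 2 * |σ| ≤ q) :
    |κ| ≤ 4 * δ ∧ |σ| ≤ 2 * δ / N ∧ 1.9 * N ≤ ⟪e, x⟫_ℝ - ⟪e, y⟫_ℝ ∧
    ⟪e, x⟫_ℝ - ⟪e, y⟫_ℝ ≤ 2.1 * N ∧ κ + 0 / 16 ≤ rhob c N - vr c N / 4 + δ / N * bd c N ∧
    hS D (q • e + θ) + hS D (-(q • e) + θ) ≤
      q * ‖c N - c 0‖ + 2 * (q * √(1 - (κ - ⟪θ, c 0⟫_ℝ) ^ 2) + κ) + (2 + q) * |σ| * bd c N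
        + 10 * δ * σ ^ 2 * (⟪e, x⟫_ℝ - ⟪e, y⟫_ℝ)
        - q / 16 * σ ^ 2 * (⟪e, x⟫_ℝ - ⟪e, y⟫_ℝ) ^ 2 := by
  obtain ⟨h1, h2, h3, h4, -, -, -, h5⟩ := h.pair hD hδ hδ1 hN hc hθ hθe hx hy hx' hy' hxκ hyκ
  have hΛ := (SG25_chord_data h hδ hδ1 hN (θ := θ) hx' hy').1
  refine ⟨h4, h1, h2, h3, ?_, ?_⟩
  · have := SG25_kappa hD h hδ hδ1 hN hc hθ hθe hx hy hx hx' hy' hxκ hyκ (by linarith) le_rfl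
      (by rw [hxκ]; simp)
    rw [hxκ] at this
    simpa using this
  · have := h5 q hq hσq
    rw [hxe, hye]
    linarith

/-- Pair data for `q ≥ 1`. -/
theorem SG25_large {δ : ℝ} {N : ℕ} {D : Set E} {c : ℕ → E} {e : E} (hD : Body D)
    (h : Chain δ N D c e) (hδ : 0 < δ) (hδ1 : δ ≤ 1 / 100) (hN : 100 ≤ N) (hc : Centred c N)
    {θ : E} (hθ : ‖θ‖ = 1) (hθe : ⟪e, θ⟫_ℝ = 0) {q : ℝ} (hq : 1 ≤ q) :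
    ∃ σ κ Λ : ℝ, |κ| ≤ 4 * δ ∧ |σ| ≤ 2 * δ / N ∧ 1.9 * N ≤ Λ ∧ Λ ≤ 2.1 * N ∧
      κ + 0 / 16 ≤ rhob c N - vr c N / 4 + δ / N * bd c N ∧
      hS D (q • e + θ) + hS D (-(q • e) + θ) ≤
      q * ‖c N - c 0‖ + 2 * (q * √(1 - (κ - ⟪θ, c 0⟫_ℝ) ^ 2) + κ) + (2 + q) * |σ| * bd c N
        + 10 * δ * σ ^ 2 * Λ - q / 16 * σ ^ 2 * Λ ^ 2 := by
  obtain ⟨x, hx, y, hy, σ, κ, -, -, -, hxe, hye, hxκ, hyκ, hx', hy', -⟩ :=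
    SG25_ref hD h hδ hδ1 hN hc hθ hθe hq
  have hN' : (100 : ℝ) ≤ N := by exact_mod_cast hN
  have hσ := (h.pair hD hδ hδ1 hN hc hθ hθe hx hy hx' hy' hxκ hyκ).1
  have hσq : 2 * |σ| ≤ q := by
    have : 2 * δ / N ≤ 1 / 2 := by
      rw [div_le_iff₀ (by linarith)]
      linarith
    linarith
  obtain ⟨h1, h2, h3, h4, h5, h6⟩ := SG25_pair hD h hδ hδ1 hN hc hθ hθe (by linarith) hx hy hxe hye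
    hx' hy' hxκ hyκ hσq
  exact ⟨σ, κ, _, h1, h2, h3, h4, h5, h6⟩

theorem SG25_S4 (D : Set E) (e θ : E) (q : ℝ) :
    S4 D e θ q = (hS D (q • e + θ) + hS D (-(q • e) + θ)) +
      (hS D (q • e + -θ) + hS D (-(q • e) + -θ)) := by
  unfold S4
  rw [sub_eq_add_neg, sub_eq_add_neg]
  ring

theorem SG25_S4_continuous {D : Set E} (hD : Body D) (e θ : E) : Continuous (S4 D e θ) := by
  unfold S4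
  have := hD.continuous_hS
  fun_prop

/-- Pair data for small `q`. -/
theorem SG25_small {δ : ℝ} {N : ℕ} {D : Set E} {c : ℕ → E} {e : E} (hD : Body D)
    (h : Chain δ N D c e) (hδ : 0 < δ) (hδ1 : δ ≤ 1 / 100) (hN : 100 ≤ N) (hc : Centred c N)
    {θ : E} (hθ : ‖θ‖ = 1) (hθe : ⟪e, θ⟫_ℝ = 0) {qr : ℝ} (hqr : 1 ≤ qr) {xr yr : E} (hxr : xr ∈ D)
    (hyr : yr ∈ D)
    (hxs : ∀ x ∈ D, qr * ⟪e, x⟫_ℝ + ⟪θ, x⟫_ℝ ≤ qr * ⟪e, xr⟫_ℝ + ⟪θ, xr⟫_ℝ)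
    (hys : ∀ y ∈ D, -(qr * ⟪e, y⟫_ℝ) + ⟪θ, y⟫_ℝ ≤ -(qr * ⟪e, yr⟫_ℝ) + ⟪θ, yr⟫_ℝ) {σr κr Er : ℝ}
    (hxκ : ⟪θ, xr⟫_ℝ - σr * ⟪e, xr⟫_ℝ = κr) (hyκ : ⟪θ, yr⟫_ℝ - σr * ⟪e, yr⟫_ℝ = κr)
    (hEr : 0 ≤ Er)
    (hE : ∀ p ∈ D, ⟪e, yr⟫_ℝ ≤ ⟪e, p⟫_ℝ → ⟪e, p⟫_ℝ ≤ ⟪e, xr⟫_ℝ →
      ⟪θ, p⟫_ℝ - σr * ⟪e, p⟫_ℝ - κr ≤ Er) {q : ℝ} (hq : 0 < q) (hqqr : q ≤ qr)
    (hqs : 4 * |σr| + 2 * Er ≤ q) :
    ∃ σ κ Λ : ℝ, |κ| ≤ 4 * δ ∧ |σ| ≤ 2 * δ / N ∧ 1.9 * N ≤ Λ ∧ Λ ≤ 2.1 * N ∧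
      κ + 0 / 16 ≤ rhob c N - vr c N / 4 + δ / N * bd c N ∧
      |σ| ≤ 2 * |σr| + Er / N ∧
      hS D (q • e + θ) + hS D (-(q • e) + θ) ≤
      q * ‖c N - c 0‖ + 2 * (q * √(1 - (κ - ⟪θ, c 0⟫_ℝ) ^ 2) + κ) + (2 + q) * |σ| * bd c N
        + 10 * δ * σ ^ 2 * Λ - q / 16 * σ ^ 2 * Λ ^ 2 := by
  obtain ⟨x, hx, y, hy, hxe, hye, hx', hy', hsl⟩ := h.slopes hD hδ hδ1 hN hc hθ hθe hqr hxr hyr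
    hxs hys hxκ hyκ hEr hE hq hqqr hqs
  obtain ⟨hΛ, σ, κ, hxκ', hyκ'⟩ := SG25_chord_data h hδ hδ1 hN (θ := θ) hx' hy'
  have hN' : (100 : ℝ) ≤ N := by exact_mod_cast hN
  have hσ : |σ| ≤ 2 * |σr| + Er / N := by
    have h1 : ⟪θ, x⟫_ℝ - ⟪θ, y⟫_ℝ = σ * (⟪e, x⟫_ℝ - ⟪e, y⟫_ℝ) := by linarith
    rw [h1, abs_mul, abs_of_pos hΛ] at hsl
    exact le_of_mul_le_mul_right hsl hΛ
  have hEN : Er / N ≤ Er := div_le_self hEr (by linarith)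
  have hσq : 2 * |σ| ≤ q := by linarith
  obtain ⟨h1, h2, h3, h4, h5, h6⟩ := SG25_pair hD h hδ hδ1 hN hc hθ hθe hq.le hx hy hxe hye
    hx' hy' hxκ' hyκ' hσq
  exact ⟨σ, κ, _, h1, h2, h3, h4, h5, hσ, h6⟩

theorem SG25_sq_bound {x a E N : ℝ} (hx : |x| ≤ 2 * |a| + E / N) :
    x ^ 2 ≤ 8 * a ^ 2 + 2 * (E / N) ^ 2 := by
  have h0 : 0 ≤ |x| := abs_nonneg x
  have h1 : x ^ 2 ≤ (2 * |a| + E / N) ^ 2 := by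
    rw [← sq_abs x]
    exact pow_le_pow_left₀ h0 hx 2
  have h2 : (2 * |a| + E / N) ^ 2 ≤ 8 * |a| ^ 2 + 2 * (E / N) ^ 2 := by
    nlinarith [sq_nonneg (2 * |a| - E / N)]
  rw [sq_abs] at h2
  linarith

theorem SG25_abs1 (a b : ℝ) : (|a| + |b|) ^ 2 ≤ 2 * (a ^ 2 + b ^ 2) := by
  rw [← sq_abs a, ← sq_abs b]
  nlinarith [sq_nonneg (|a| - |b|)]

theorem SG25_abs2 (a b : ℝ) : a ^ 2 + b ^ 2 ≤ (|a| + |b|) ^ 2 := by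
  rw [← sq_abs a, ← sq_abs b]
  nlinarith [mul_nonneg (abs_nonneg a) (abs_nonneg b)]

theorem SG25_div {a b N : ℝ} (ha : 0 ≤ a) (hb : 0 ≤ b) :
    (a / N) ^ 2 + (b / N) ^ 2 ≤ (a + b) ^ 2 / N ^ 2 := by
  rw [div_pow, div_pow, ← add_div]
  apply div_le_div_of_nonneg_right _ (by positivity)
  nlinarith [mul_nonneg ha hb]

/-- SG25. The slice inequality. -/
theorem slice_gap {δ w0 : ℝ} {N : ℕ} {D K : Set E} {c : ℕ → E} {e : E} (hD : Body D) (hK : Body K)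
    (h : Chain δ N D c e) (hc : Centred c N) (hw0 : 0 < w0) (hw01 : w0 ≤ 1) (hδ : 0 < δ)
    (hδw : δ ≤ w0 / 5000) (hN : 1000 / w0 ≤ N) {w : ℝ → ℝ} (hwm : Measurable w)
    (hw : ∀ q, 0 ≤ w q) (hw1 : ∀ q, w q ≤ 1) (hw2 : ∀ q ∈ Icc (1 : ℝ) 2, w0 ≤ w q)
    {θ : E} (hθ : ‖θ‖ = 1) (hθe : ⟪e, θ⟫_ℝ = 0)
    (hint : IntegrableOn (fun q => (S4 K e θ q - S4 D e θ q) * w q) (Ioi 0))
    (hKs : ∀ q k, 0 ≤ q → 0 ≤ k → k ≤ rhob c N →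
      2 * q * bA c N + 4 * (q * √(1 - k ^ 2) + k) ≤ S4 K e θ q) :
    w0 / 2 * (bd c N + vr c N / 2) ≤ ∫ q in Ioi 0, (S4 K e θ q - S4 D e θ q) * w q := by
  have hδ1 : δ ≤ 1 / 100 := by linarith
  have hN1 : (1000 : ℝ) ≤ N := by
    have : (1000 : ℝ) ≤ 1000 / w0 := by
      rw [le_div_iff₀ hw0]; linarith
    linarith
  have hN2 : 100 ≤ N := by
    have : (100 : ℝ) ≤ N := by linarith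
    exact_mod_cast this
  have hNR : (100 : ℝ) ≤ N := by linarith
  have hN0 : (0 : ℝ) < N := by linarith
  obtain ⟨-, -, -, -, hbA, hbd, -, hρ0, hρ1, -⟩ := h.basic hδ hδ1 hN2
  have hbA0 : 0 ≤ bA c N := Finset.sum_nonneg fun _ _ => norm_nonneg _
  have hvr : 0 ≤ vr c N := by
    unfold vr
    apply div_nonneg _ hbA0
    exact Finset.sum_nonneg fun _ _ => mul_nonneg (norm_nonneg _) (sq_nonneg _)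
  obtain ⟨-, hc0, -⟩ := h.centred hδ hδ1 hN2 hc
  have hz : |⟪θ, c 0⟫_ℝ| ≤ δ := by
    have h2 : ⟪θ, c 0⟫_ℝ = ⟪θ, c 0 - ⟪e, c 0⟫_ℝ • e⟫_ℝ := by
      rw [inner_sub_right, real_inner_smul_right, real_inner_comm e θ, hθe]; ring
    rw [h2]
    calc _ ≤ ‖θ‖ * ‖c 0 - ⟪e, c 0⟫_ℝ • e‖ := abs_real_inner_le_norm _ _
      _ ≤ δ := by rw [hθ, one_mul]; exact hc0
  have hθ' : ‖-θ‖ = 1 := by rw [norm_neg, hθ]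
  have hθe' : ⟪e, -θ⟫_ℝ = 0 := by rw [inner_neg_right, hθe, neg_zero]
  have hz' : ∀ κ : ℝ, κ - ⟪-θ, c 0⟫_ℝ = κ + ⟪θ, c 0⟫_ℝ := by
    intro κ; rw [inner_neg_left]; ring
  have hAY : bA c N - ‖c N - c 0‖ = bd c N := rfl
  -- reference point
  have hΔc : Continuous fun q => S4 K e θ q - S4 D e θ q :=
    (SG25_S4_continuous hK e θ).sub (SG25_S4_continuous hD e θ)
  obtain ⟨qr, hqrm, hqr⟩ := (isCompact_Icc (a := (1 : ℝ)) (b := 2)).exists_isMinOn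
    ⟨1, by norm_num⟩ hΔc.continuousOn
  obtain ⟨x1, hx1, y1, hy1, σ1, κ1, E1, hxs1, hys1, hxe1, hye1, hxκ1, hyκ1, hxc1, hyc1, hE1, hEm1,
    hk1, hEb1⟩ := SG25_ref hD h hδ hδ1 hN2 hc hθ hθe hqrm.1
  obtain ⟨x2, hx2, y2, hy2, σ2, κ2, E2, hxs2, hys2, hxe2, hye2, hxκ2, hyκ2, hxc2, hyc2, hE2, hEm2,
    hk2, hEb2⟩ := SG25_ref hD h hδ hδ1 hN2 hc hθ' hθe' hqrm.1
  have hσ1 := (h.pair hD hδ hδ1 hN2 hc hθ hθe hx1 hy1 hxc1 hyc1 hxκ1 hyκ1).1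
  have hσ2 := (h.pair hD hδ hδ1 hN2 hc hθ' hθe' hx2 hy2 hxc2 hyc2 hxκ2 hyκ2).1
  have hσh : 2 * δ / N ≤ 1 / 2 := by
    rw [div_le_iff₀ hN0]
    linarith
  refine integrate_gap (Δ := fun q => S4 K e θ q - S4 D e θ q) (s := |σ1| + |σ2|) (F := E1 + E2)
    (qr := qr) hw0 hw01 hδ hδw hN hwm hw hw1 hw2 hΔc hint hqrm.1 hqrm.2 (fun q hq => hqr hq) hbd
    hvr (by positivity) (by linarith) ?_ (by linarith) ?_ ?_ ?_ ?_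
  · have : 4 * δ / (N : ℝ) = 2 * δ / N + 2 * δ / N := by ring
    rw [this]; exact add_le_add hσ1 hσ2
  · -- the reference gain
    obtain ⟨a1, a2, a3, a4, a5, a6⟩ := SG25_pair hD h hδ hδ1 hN2 hc hθ hθe
      (by linarith [hqrm.1]) hx1 hy1 hxe1 hye1 hxc1 hyc1 hxκ1 hyκ1 (by linarith [hqrm.1])
    obtain ⟨b1, b2, b3, b4, b5, b6⟩ := SG25_pair hD h hδ hδ1 hN2 hc hθ' hθe'
      (by linarith [hqrm.1]) hx2 hy2 hxe2 hye2 hxc2 hyc2 hxκ2 hyκ2 (by linarith [hqrm.1])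
    rw [hz'] at b6
    have key := (delta_bounds (q := qr) (by linarith [hqrm.1]) hδ hδ1 hNR hbd hvr hAY hρ0 hρ1 hz a1
      b1 a2 b2 a3 a4 b3 b4 hE1 hE2 hk1 hk2 a6 b6
      (fun k hk0 hk1 => hKs qr k (by linarith [hqrm.1]) hk0 hk1)).1 hqrm.1 hqrm.2
    have hS := SG25_S4 D e θ qr
    have hsq : (|σ1| + |σ2|) ^ 2 ≤ 2 * (σ1 ^ 2 + σ2 ^ 2) := SG25_abs1 σ1 σ2
    have h3 : (N : ℝ) ^ 2 / 20 * (|σ1| + |σ2|) ^ 2 ≤ (N : ℝ) ^ 2 / 10 * (σ1 ^ 2 + σ2 ^ 2) := by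
      have : (N : ℝ) ^ 2 / 10 * (σ1 ^ 2 + σ2 ^ 2) =
        (N : ℝ) ^ 2 / 20 * (2 * (σ1 ^ 2 + σ2 ^ 2)) := by ring
      rw [this]
      exact mul_le_mul_of_nonneg_left hsq (by positivity)
    rw [hS]
    linarith
  · -- `q ≥ 1`
    intro q hq
    obtain ⟨σ, κ, Λ, a1, a2, a3, a4, a5, a6⟩ := SG25_large hD h hδ hδ1 hN2 hc hθ hθe hq
    obtain ⟨σ', κ', Λ', b1, b2, b3, b4, b5, b6⟩ := SG25_large hD h hδ hδ1 hN2 hc hθ' hθe' hq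
    rw [hz'] at b6
    have key := (delta_bounds (q := q) (by linarith) hδ hδ1 hNR hbd hvr hAY hρ0 hρ1 hz a1
      b1 a2 b2 a3 a4 b3 b4 le_rfl le_rfl a5 b5 a6 b6
      (fun k hk0 hk1 => hKs q k (by linarith) hk0 hk1)).2.2 hq
    have hS := SG25_S4 D e θ q
    rw [hS]
    exact key
  · -- intermediate `q`
    intro q hq0 hqs hq1
    have hqr1 := hqrm.1
    obtain ⟨σ, κ, Λ, a1, a2, a3, a4, a5, as, a6⟩ := SG25_small hD h hδ hδ1 hN2 hc hθ hθe hqr1 hx1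
      hy1 hxs1 hys1 hxκ1 hyκ1 hE1 hEm1 hq0 (by linarith)
      (by linarith [abs_nonneg σ2])
    obtain ⟨σ', κ', Λ', b1, b2, b3, b4, b5, bs, b6⟩ := SG25_small hD h hδ hδ1 hN2 hc hθ' hθe' hqr1
      hx2 hy2 hxs2 hys2 hxκ2 hyκ2 hE2 hEm2 hq0 (by linarith)
      (by linarith [abs_nonneg σ1])
    rw [hz'] at b6
    have key := (delta_bounds (q := q) hq0.le hδ hδ1 hNR hbd hvr hAY hρ0 hρ1 hz a1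
      b1 a2 b2 a3 a4 b3 b4 le_rfl le_rfl a5 b5 a6 b6
      (fun k hk0 hk1 => hKs q k hq0.le hk0 hk1)).2.1 (by linarith)
    have hS := SG25_S4 D e θ q
    have c1 := SG25_sq_bound as
    have c2 := SG25_sq_bound bs
    have c3 : σ ^ 2 + σ' ^ 2 ≤ 8 * (|σ1| + |σ2|) ^ 2 + 2 * (E1 + E2) ^ 2 / (N : ℝ) ^ 2 := by
      have d1 : σ1 ^ 2 + σ2 ^ 2 ≤ (|σ1| + |σ2|) ^ 2 := SG25_abs2 σ1 σ2
      have d2 : (E1 / (N : ℝ)) ^ 2 + (E2 / (N : ℝ)) ^ 2 ≤ (E1 + E2) ^ 2 / (N : ℝ) ^ 2 :=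
        SG25_div hE1 hE2
      have d3 : 2 * (E1 + E2) ^ 2 / (N : ℝ) ^ 2 = 2 * ((E1 + E2) ^ 2 / (N : ℝ) ^ 2) := by ring
      rw [d3]
      linarith
    have c4 : 22 * δ * N * (σ ^ 2 + σ' ^ 2) ≤
        176 * δ * N * (|σ1| + |σ2|) ^ 2 + 44 * δ / N * (E1 + E2) ^ 2 := by
      have e1 := mul_le_mul_of_nonneg_left c3 (by positivity : 0 ≤ 22 * δ * (N : ℝ))
      have e2 : 22 * δ * (N : ℝ) * (8 * (|σ1| + |σ2|) ^ 2 + 2 * (E1 + E2) ^ 2 / (N : ℝ) ^ 2) =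
          176 * δ * N * (|σ1| + |σ2|) ^ 2 + 44 * δ / N * (E1 + E2) ^ 2 := by
        field_simp
        ring
      linarith
    rw [hS]
    linarith
  · -- small `q`
    intro q hq0 hq1
    have hqr1 := hqrm.1
    have a1 := h.crude hD hδ hδ1 hN2 hc hθ hθe hqr1 hx1
      hy1 hxs1 hys1 hxκ1 hyκ1 hE1 hEm1 hq0 (by linarith)
    have b1 := h.crude hD hδ hδ1 hN2 hc hθ' hθe' hqr1
      hx2 hy2 hxs2 hys2 hxκ2 hyκ2 hE2 hEm2 hq0 (by linarith)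
    have key := crude_bound (q := q) hq0.le hδ hδ1 hNR hbd hAY hρ0 hρ1 (κ := κ1) (κ' := κ2)
      (by linarith) (by linarith) a1 b1 (fun k hk0 hk1 => hKs q k hq0.le hk0 hk1)
    have hS := SG25_S4 D e θ q
    rw [hS]
    exact key

end general

end Pool.Agent.Sausage27
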