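import Pool.Agent.Sausage27.SG25

/-!
# Sausage27: the slice inequality with all the gains
-/

namespace Pool.Agent.Sausage27

open MeasureTheory Set Metric Filter Topology
open scoped InnerProductSpace Pointwise

/-- Integration over `q`, keeping the whole gain. -/
theorem SGS_integrate {Δ w : ℝ → ℝ} {w0 δ N bd vr s F qr : ℝ} (hw0 : 0 < w0) (hw01 : w0 ≤ 1)
    (hδ : 0 < δ) (hδw : δ ≤ w0 / 5000) (hN : 1000 / w0 ≤ N) (hwm : Measurable w)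
    (hw : ∀ q, 0 ≤ w q) (hw1 : ∀ q, w q ≤ 1) (hw2 : ∀ q ∈ Icc (1 : ℝ) 2, w0 ≤ w q)
    (hΔ : Continuous Δ) (hint : IntegrableOn (fun q => Δ q * w q) (Ioi 0)) (hqr : 1 ≤ qr)
    (hqr2 : qr ≤ 2) (hmin : ∀ q ∈ Icc (1 : ℝ) 2, Δ qr ≤ Δ q) (hbd : 0 ≤ bd) (hvr : 0 ≤ vr)
    (hs : 0 ≤ s) (hF : 0 ≤ F) (hs2 : s ≤ 4 * δ / N) (hF2 : F ≤ 17 * δ)
    (hm : bd + vr / 2 + F / 16 + N ^ 2 / 20 * s ^ 2 ≤ Δ qr) (hcc : ∀ q, 1 ≤ q → 0 ≤ Δ q)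
    (hb : ∀ q, 0 < q → 4 * s + 2 * F ≤ q → q ≤ 1 →
      -(20 * δ / N * bd) - 176 * δ * N * s ^ 2 - 44 * δ / N * F ^ 2 ≤ Δ q)
    (ha : ∀ q, 0 < q → q ≤ 1 → -(9 * q * δ ^ 2 + 4 * δ / N * bd + 2.2 * N * s + 2 * F) ≤ Δ q) :
    w0 / 2 * Δ qr ≤ ∫ q in Ioi 0, Δ q * w q := by
  have hN0 : 0 < N := lt_of_lt_of_le (by positivity) hN
  have hnum := in24_num hw0 hw01 hδ hδw hN hbd hvr hs hF hs2 hF2 hm
  set m := Δ qr with hmdef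
  set q1 := 4 * s + 2 * F with hq1
  set c1 := 20 * δ / N * bd + 176 * δ * N * s ^ 2 + 44 * δ / N * F ^ 2 with hc1
  set c2 := 9 * q1 * δ ^ 2 + 4 * δ / N * bd + 2.2 * N * s + 2 * F with hc2
  have hq10 : 0 ≤ q1 := by positivity
  have hc10 : 0 ≤ c1 := by positivity
  have hc20 : 0 ≤ c2 := by positivity
  have hq11 : q1 ≤ 1 := by
    have hN1 : 1 ≤ N := by
      refine le_trans ?_ hN
      rw [le_div_iff₀ hw0]
      linarith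
    have : 4 * δ / N ≤ 4 * δ := div_le_self (by positivity) hN1
    have : δ ≤ 1 / 5000 := by linarith
    linarith
  have hm0 : 0 ≤ m := hcc qr hqr
  obtain ⟨i1, v1⟩ := in24_indicator (c := -c2) le_rfl hq10
  obtain ⟨i2, v2⟩ := in24_indicator (c := -c1) hq10 hq11
  obtain ⟨i3, v3⟩ := in24_indicator (a := 1) (b := 2) (c := w0 * m) zero_le_one one_le_two
  have hle : ∫ q in Ioi 0, ((Ioc 0 q1).indicator (fun _ : ℝ => -c2) q +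
      (Ioc q1 1).indicator (fun _ : ℝ => -c1) q + (Ioc 1 2).indicator (fun _ : ℝ => w0 * m) q) ≤
      ∫ q in Ioi 0, Δ q * w q := by
    refine setIntegral_mono_on ((i1.add i2).add i3) hint measurableSet_Ioi ?_
    intro q hq
    have hq' : (0 : ℝ) < q := hq
    by_cases h1 : q ≤ q1
    · have n2 : q ∉ Ioc q1 1 := fun h => absurd h.1 (not_lt.2 h1)
      have n3 : q ∉ Ioc (1 : ℝ) 2 := fun h => absurd h.1 (not_lt.2 (h1.trans hq11))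
      rw [indicator_of_mem (show q ∈ Ioc 0 q1 from ⟨hq', h1⟩), indicator_of_notMem n2,
        indicator_of_notMem n3, add_zero, add_zero]
      have h2 := ha q hq' (h1.trans hq11)
      have h3 : 9 * q * δ ^ 2 ≤ 9 * q1 * δ ^ 2 := by gcongr
      have h4 : -c2 ≤ Δ q := by linarith
      have h5 : -c2 ≤ -c2 * w q := by
        have := mul_le_mul_of_nonneg_left (hw1 q) hc20
        linarith
      exact h5.trans (mul_le_mul_of_nonneg_right h4 (hw q))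
    · have h1' : q1 < q := not_le.1 h1
      have n1 : q ∉ Ioc 0 q1 := fun h => absurd h.2 h1
      by_cases h2 : q ≤ 1
      · have n3 : q ∉ Ioc (1 : ℝ) 2 := fun h => absurd h.1 (not_lt.2 h2)
        rw [indicator_of_notMem n1, indicator_of_mem (show q ∈ Ioc q1 1 from ⟨h1', h2⟩),
          indicator_of_notMem n3, add_zero, zero_add]
        have h3 := hb q hq' h1'.le h2
        have h4 : -c1 ≤ Δ q := by linarith
        have h5 : -c1 ≤ -c1 * w q := by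
          have := mul_le_mul_of_nonneg_left (hw1 q) hc10
          linarith
        exact h5.trans (mul_le_mul_of_nonneg_right h4 (hw q))
      · have h2' : 1 < q := not_le.1 h2
        have n2 : q ∉ Ioc q1 1 := fun h => absurd h.2 h2
        by_cases h3 : q ≤ 2
        · rw [indicator_of_notMem n1, indicator_of_notMem n2,
            indicator_of_mem (show q ∈ Ioc (1 : ℝ) 2 from ⟨h2', h3⟩), zero_add, zero_add]
          have h4 := hmin q ⟨h2'.le, h3⟩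
          have h5 := hw2 q ⟨h2'.le, h3⟩
          rw [mul_comm]
          exact mul_le_mul h4 h5 hw0.le (hcc q h2'.le)
        · have n3 : q ∉ Ioc (1 : ℝ) 2 := fun h => absurd h.2 h3
          rw [indicator_of_notMem n1, indicator_of_notMem n2, indicator_of_notMem n3, zero_add,
            zero_add]
          exact mul_nonneg (hcc q h2'.le) (hw q)
  refine le_trans ?_ hle
  have i12 : IntegrableOn (fun q => (Ioc 0 q1).indicator (fun _ : ℝ => -c2) q +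
      (Ioc q1 1).indicator (fun _ : ℝ => -c1) q) (Ioi 0) := i1.add i2
  rw [integral_add i12 i3, integral_add i1 i2, v1, v2, v3]
  have h8 : 0 ≤ q1 * c1 := by positivity
  linarith only [h8, hnum]

section general

variable {E : Type*} [NormedAddCommGroup E] [InnerProductSpace ℝ E]

/-- The slice inequality, with all the gains. -/
theorem slice_gap_strong {δ w0 : ℝ} {N : ℕ} {D K : Set E} {c : ℕ → E} {e : E} (hD : Body D) (hK : Body K)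
    (h : Chain δ N D c e) (hc : Centred c N) (hw0 : 0 < w0) (hw01 : w0 ≤ 1) (hδ : 0 < δ)
    (hδw : δ ≤ w0 / 5000) (hN : 1000 / w0 ≤ N) {w : ℝ → ℝ} (hwm : Measurable w)
    (hw : ∀ q, 0 ≤ w q) (hw1 : ∀ q, w q ≤ 1) (hw2 : ∀ q ∈ Icc (1 : ℝ) 2, w0 ≤ w q)
    {θ : E} (hθ : ‖θ‖ = 1) (hθe : ⟪e, θ⟫_ℝ = 0)
    (hint : IntegrableOn (fun q => (S4 K e θ q - S4 D e θ q) * w q) (Ioi 0))
    (hKs : ∀ q k, 0 ≤ q → 0 ≤ k → k ≤ rhob c N →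
      2 * q * bA c N + 4 * (q * √(1 - k ^ 2) + k) ≤ S4 K e θ q) :
    ∃ xr ∈ D, ∃ yr ∈ D, ∃ σ κ Er : ℝ,
      ⟪θ, xr⟫_ℝ - σ * ⟪e, xr⟫_ℝ = κ ∧ ⟪θ, yr⟫_ℝ - σ * ⟪e, yr⟫_ℝ = κ ∧
      -(1 / 2) ≤ ⟪e, xr - c N⟫_ℝ ∧ ⟪e, yr - c 0⟫_ℝ ≤ 1 / 2 ∧ 0 ≤ Er ∧
      (∀ p ∈ D, ⟪e, yr⟫_ℝ ≤ ⟪e, p⟫_ℝ → ⟪e, p⟫_ℝ ≤ ⟪e, xr⟫_ℝ →
        ⟪θ, p⟫_ℝ - σ * ⟪e, p⟫_ℝ - κ ≤ Er) ∧
      κ + Er / 16 ≤ rhob c N - vr c N / 4 + δ / N * bd c N ∧
      w0 / 2 * (bd c N + vr c N / 2 + Er / 16 + (N : ℝ) ^ 2 / 20 * σ ^ 2) ≤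
        ∫ q in Ioi 0, (S4 K e θ q - S4 D e θ q) * w q := by
  have hδ1 : δ ≤ 1 / 100 := by linarith
  have hN1 : (1000 : ℝ) ≤ N := by
    have : (1000 : ℝ) ≤ 1000 / w0 := by
      rw [le_div_iff₀ hw0]; linarith
    linarith
  have hN2 : 100 ≤ N := by
    have : (100 : ℝ) ≤ N := by linarith
    exact_mod_cast this
  have hNR : (100 : ℝ) ≤ N := by linarith
  have hN0 : (0 : ℝ) < N := by linarith
  obtain ⟨-, -, -, -, hbA, hbd, -, hρ0, hρ1, -⟩ := h.basic hδ hδ1 hN2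
  have hbA0 : 0 ≤ bA c N := Finset.sum_nonneg fun _ _ => norm_nonneg _
  have hvr : 0 ≤ vr c N := by
    unfold vr
    apply div_nonneg _ hbA0
    exact Finset.sum_nonneg fun _ _ => mul_nonneg (norm_nonneg _) (sq_nonneg _)
  obtain ⟨-, hc0, -⟩ := h.centred hδ hδ1 hN2 hc
  have hz : |⟪θ, c 0⟫_ℝ| ≤ δ := by
    have h2 : ⟪θ, c 0⟫_ℝ = ⟪θ, c 0 - ⟪e, c 0⟫_ℝ • e⟫_ℝ := by
      rw [inner_sub_right, real_inner_smul_right, real_inner_comm e θ, hθe]; ring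
    rw [h2]
    calc _ ≤ ‖θ‖ * ‖c 0 - ⟪e, c 0⟫_ℝ • e‖ := abs_real_inner_le_norm _ _
      _ ≤ δ := by rw [hθ, one_mul]; exact hc0
  have hθ' : ‖-θ‖ = 1 := by rw [norm_neg, hθ]
  have hθe' : ⟪e, -θ⟫_ℝ = 0 := by rw [inner_neg_right, hθe, neg_zero]
  have hz' : ∀ κ : ℝ, κ - ⟪-θ, c 0⟫_ℝ = κ + ⟪θ, c 0⟫_ℝ := by
    intro κ; rw [inner_neg_left]; ring
  have hAY : bA c N - ‖c N - c 0‖ = bd c N := rfl
  -- reference point
  have hΔc : Continuous fun q => S4 K e θ q - S4 D e θ q :=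
    (SG25_S4_continuous hK e θ).sub (SG25_S4_continuous hD e θ)
  obtain ⟨qr, hqrm, hqr⟩ := (isCompact_Icc (a := (1 : ℝ)) (b := 2)).exists_isMinOn
    ⟨1, by norm_num⟩ hΔc.continuousOn
  obtain ⟨x1, hx1, y1, hy1, σ1, κ1, E1, hxs1, hys1, hxe1, hye1, hxκ1, hyκ1, hxc1, hyc1, hE1, hEm1,
    hk1, hEb1⟩ := SG25_ref hD h hδ hδ1 hN2 hc hθ hθe hqrm.1
  obtain ⟨x2, hx2, y2, hy2, σ2, κ2, E2, hxs2, hys2, hxe2, hye2, hxκ2, hyκ2, hxc2, hyc2, hE2, hEm2,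
    hk2, hEb2⟩ := SG25_ref hD h hδ hδ1 hN2 hc hθ' hθe' hqrm.1
  have hσ1 := (h.pair hD hδ hδ1 hN2 hc hθ hθe hx1 hy1 hxc1 hyc1 hxκ1 hyκ1).1
  have hσ2 := (h.pair hD hδ hδ1 hN2 hc hθ' hθe' hx2 hy2 hxc2 hyc2 hxκ2 hyκ2).1
  have hσh : 2 * δ / N ≤ 1 / 2 := by
    rw [div_le_iff₀ hN0]
    linarith
  -- the reference gain
  have hgain : bd c N + vr c N / 2 + (E1 + E2) / 16 + (N : ℝ) ^ 2 / 20 * (|σ1| + |σ2|) ^ 2 ≤
      S4 K e θ qr - S4 D e θ qr := by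
    obtain ⟨a1, a2, a3, a4, a5, a6⟩ := SG25_pair hD h hδ hδ1 hN2 hc hθ hθe
      (by linarith [hqrm.1]) hx1 hy1 hxe1 hye1 hxc1 hyc1 hxκ1 hyκ1 (by linarith [hqrm.1])
    obtain ⟨b1, b2, b3, b4, b5, b6⟩ := SG25_pair hD h hδ hδ1 hN2 hc hθ' hθe'
      (by linarith [hqrm.1]) hx2 hy2 hxe2 hye2 hxc2 hyc2 hxκ2 hyκ2 (by linarith [hqrm.1])
    rw [hz'] at b6
    have key := (delta_bounds (q := qr) (by linarith [hqrm.1]) hδ hδ1 hNR hbd hvr hAY hρ0 hρ1 hz a1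
      b1 a2 b2 a3 a4 b3 b4 hE1 hE2 hk1 hk2 a6 b6
      (fun k hk0 hk1 => hKs qr k (by linarith [hqrm.1]) hk0 hk1)).1 hqrm.1 hqrm.2
    have hS := SG25_S4 D e θ qr
    have hsq : (|σ1| + |σ2|) ^ 2 ≤ 2 * (σ1 ^ 2 + σ2 ^ 2) := SG25_abs1 σ1 σ2
    have h3 : (N : ℝ) ^ 2 / 20 * (|σ1| + |σ2|) ^ 2 ≤ (N : ℝ) ^ 2 / 10 * (σ1 ^ 2 + σ2 ^ 2) := by
      have : (N : ℝ) ^ 2 / 10 * (σ1 ^ 2 + σ2 ^ 2) =
        (N : ℝ) ^ 2 / 20 * (2 * (σ1 ^ 2 + σ2 ^ 2)) := by ring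
      rw [this]
      exact mul_le_mul_of_nonneg_left hsq (by positivity)
    rw [hS]
    linarith
  refine ⟨x1, hx1, y1, hy1, σ1, κ1, E1, hxκ1, hyκ1, hxc1, hyc1, hE1, hEm1, hk1, ?_⟩
  have hsq1 : σ1 ^ 2 ≤ (|σ1| + |σ2|) ^ 2 := by
    rw [← sq_abs σ1]
    exact pow_le_pow_left₀ (abs_nonneg _) (by linarith [abs_nonneg σ2]) 2
  have hsq2 : (N : ℝ) ^ 2 / 20 * σ1 ^ 2 ≤ (N : ℝ) ^ 2 / 20 * (|σ1| + |σ2|) ^ 2 :=
    mul_le_mul_of_nonneg_left hsq1 (by positivity)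
  have hfin : w0 / 2 * (bd c N + vr c N / 2 + E1 / 16 + (N : ℝ) ^ 2 / 20 * σ1 ^ 2) ≤
      w0 / 2 * (S4 K e θ qr - S4 D e θ qr) :=
    mul_le_mul_of_nonneg_left (by linarith) (by positivity)
  refine hfin.trans ?_
  refine SGS_integrate (Δ := fun q => S4 K e θ q - S4 D e θ q) (s := |σ1| + |σ2|) (F := E1 + E2)
    (qr := qr) hw0 hw01 hδ hδw hN hwm hw hw1 hw2 hΔc hint hqrm.1 hqrm.2 (fun q hq => hqr hq) hbd
    hvr (by positivity) (by linarith) ?_ (by linarith) hgain ?_ ?_ ?_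
  · have : 4 * δ / (N : ℝ) = 2 * δ / N + 2 * δ / N := by ring
    rw [this]; exact add_le_add hσ1 hσ2
  · -- `q ≥ 1`
    intro q hq
    obtain ⟨σ, κ, Λ, a1, a2, a3, a4, a5, a6⟩ := SG25_large hD h hδ hδ1 hN2 hc hθ hθe hq
    obtain ⟨σ', κ', Λ', b1, b2, b3, b4, b5, b6⟩ := SG25_large hD h hδ hδ1 hN2 hc hθ' hθe' hq
    rw [hz'] at b6
    have key := (delta_bounds (q := q) (by linarith) hδ hδ1 hNR hbd hvr hAY hρ0 hρ1 hz a1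
      b1 a2 b2 a3 a4 b3 b4 le_rfl le_rfl a5 b5 a6 b6
      (fun k hk0 hk1 => hKs q k (by linarith) hk0 hk1)).2.2 hq
    have hS := SG25_S4 D e θ q
    rw [hS]
    exact key
  · -- intermediate `q`
    intro q hq0 hqs hq1
    have hqr1 := hqrm.1
    obtain ⟨σ, κ, Λ, a1, a2, a3, a4, a5, as, a6⟩ := SG25_small hD h hδ hδ1 hN2 hc hθ hθe hqr1 hx1
      hy1 hxs1 hys1 hxκ1 hyκ1 hE1 hEm1 hq0 (by linarith)
      (by linarith [abs_nonneg σ2])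
    obtain ⟨σ', κ', Λ', b1, b2, b3, b4, b5, bs, b6⟩ := SG25_small hD h hδ hδ1 hN2 hc hθ' hθe' hqr1
      hx2 hy2 hxs2 hys2 hxκ2 hyκ2 hE2 hEm2 hq0 (by linarith)
      (by linarith [abs_nonneg σ1])
    rw [hz'] at b6
    have key := (delta_bounds (q := q) hq0.le hδ hδ1 hNR hbd hvr hAY hρ0 hρ1 hz a1
      b1 a2 b2 a3 a4 b3 b4 le_rfl le_rfl a5 b5 a6 b6
      (fun k hk0 hk1 => hKs q k hq0.le hk0 hk1)).2.1 (by linarith)
    have hS := SG25_S4 D e θ q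
    have c1 := SG25_sq_bound as
    have c2 := SG25_sq_bound bs
    have c3 : σ ^ 2 + σ' ^ 2 ≤ 8 * (|σ1| + |σ2|) ^ 2 + 2 * (E1 + E2) ^ 2 / (N : ℝ) ^ 2 := by
      have d1 : σ1 ^ 2 + σ2 ^ 2 ≤ (|σ1| + |σ2|) ^ 2 := SG25_abs2 σ1 σ2
      have d2 : (E1 / (N : ℝ)) ^ 2 + (E2 / (N : ℝ)) ^ 2 ≤ (E1 + E2) ^ 2 / (N : ℝ) ^ 2 :=
        SG25_div hE1 hE2
      have d3 : 2 * (E1 + E2) ^ 2 / (N : ℝ) ^ 2 = 2 * ((E1 + E2) ^ 2 / (N : ℝ) ^ 2) := by ring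
      rw [d3]
      linarith
    have c4 : 22 * δ * N * (σ ^ 2 + σ' ^ 2) ≤
        176 * δ * N * (|σ1| + |σ2|) ^ 2 + 44 * δ / N * (E1 + E2) ^ 2 := by
      have e1 := mul_le_mul_of_nonneg_left c3 (by positivity : 0 ≤ 22 * δ * (N : ℝ))
      have e2 : 22 * δ * (N : ℝ) * (8 * (|σ1| + |σ2|) ^ 2 + 2 * (E1 + E2) ^ 2 / (N : ℝ) ^ 2) =
          176 * δ * N * (|σ1| + |σ2|) ^ 2 + 44 * δ / N * (E1 + E2) ^ 2 := by
        field_simp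
        ring
      linarith
    rw [hS]
    linarith
  · -- small `q`
    intro q hq0 hq1
    have hqr1 := hqrm.1
    have a1 := h.crude hD hδ hδ1 hN2 hc hθ hθe hqr1 hx1
      hy1 hxs1 hys1 hxκ1 hyκ1 hE1 hEm1 hq0 (by linarith)
    have b1 := h.crude hD hδ hδ1 hN2 hc hθ' hθe' hqr1
      hx2 hy2 hxs2 hys2 hxκ2 hyκ2 hE2 hEm2 hq0 (by linarith)
    have key := crude_bound (q := q) hq0.le hδ hδ1 hNR hbd hAY hρ0 hρ1 (κ := κ1) (κ' := κ2)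
      (by linarith) (by linarith) a1 b1 (fun k hk0 hk1 => hKs q k hq0.le hk0 hk1)
    have hS := SG25_S4 D e θ q
    rw [hS]
    exact key

end general

end Pool.Agent.Sausage27
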