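import Pool.Agent.Sausage27.MC11
import Pool.Agent.Sausage27.WW7
import Pool.Agent.Sausage27.VB12
import Pool.Agent.Sausage27.GF8
import Pool.Agent.Sausage27.CO9

/-!
# TH13: extremal bodies are thin
-/

namespace Pool.Agent.Sausage27

open MeasureTheory Set Metric Filter Topology
open scoped InnerProductSpace Pointwise

private lemma TH13_const : (2 : ℝ) / 3 ≤ √(2 / Real.pi) := by
  apply Real.le_sqrt_of_sq_le
  rw [le_div_iff₀ Real.pi_pos]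
  have := Real.pi_lt_d2
  nlinarith

/-- The numerical part. -/
private lemma TH13_num {n ℓ r sd H s2 : ℝ} (hn : 0 < n) (hsd : 1 ≤ sd) (hr : 0 ≤ r) (hrH : r ≤ H)
    (hs2 : 2 / 3 ≤ s2) (hG : n * s2 ≤ ℓ / 2 * s2 + r * sd)
    (hM : (1 / 2) * (ℓ / 4 - 3 / 2) * min (r ^ 2 / 128) 1 ≤ 2 * n - ℓ)
    (hn1 : 12 ≤ n) (hn2 : 3 * sd * H ≤ n) (hn3 : 48 * sd * H < n) :
    r ≤ 6144 * sd / n ∧ 2 * n - ℓ ≤ 18432 * sd ^ 2 / n := by
  have hs2p : 0 < s2 := by linarith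
  have h1 : 2 * n - ℓ ≤ 3 * sd * r := by
    have h2 : (2 * n - ℓ) * s2 ≤ 2 * (r * sd) := by linarith
    have h3 : 2 * (r * sd) ≤ 3 * sd * r * s2 := by
      have : 0 ≤ r * sd := by positivity
      nlinarith
    have h4 : (2 * n - ℓ) * s2 ≤ (3 * sd * r) * s2 := le_trans h2 h3
    exact le_of_mul_le_mul_right h4 hs2p
  have h5 : 3 * sd * r ≤ 3 * sd * H := mul_le_mul_of_nonneg_left hrH (by positivity)
  have hℓ : n ≤ ℓ := by linarith
  have hmin0 : 0 ≤ min (r ^ 2 / 128) 1 := le_min (by positivity) zero_le_one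
  have h6 : n / 16 * min (r ^ 2 / 128) 1 ≤ 3 * sd * r := by
    have h7 : n / 16 ≤ (1 / 2) * (ℓ / 4 - 3 / 2) := by linarith
    have h8 := mul_le_mul_of_nonneg_right h7 hmin0
    linarith
  have h9 : r ≤ 6144 * sd / n := by
    rcases le_total (r ^ 2 / 128) 1 with h | h
    · rw [min_eq_left h] at h6
      rw [le_div_iff₀ hn]
      rcases hr.eq_or_lt with h0 | h0
      · rw [← h0, zero_mul]
        positivity
      · have h10 : (r * n) * r ≤ (6144 * sd) * r := by nlinarith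
        exact le_of_mul_le_mul_right h10 h0
    · rw [min_eq_right h] at h6
      exfalso
      linarith
  refine ⟨h9, ?_⟩
  calc 2 * n - ℓ ≤ 3 * sd * r := h1
    _ ≤ 3 * sd * (6144 * sd / n) := mul_le_mul_of_nonneg_left h9 (by positivity)
    _ = 18432 * sd ^ 2 / n := by ring

/-- TH13. -/
theorem thin (d : ℕ) (hd : 1 ≤ d) : ∃ (C : ℝ) (N₀ : ℕ), 0 < C ∧ ∀ n ≥ N₀,
    ∀ (D : Set (Eu d)) (c : Fin n → Eu d), Body D → SliceCov D c →
    (n : ℝ) * √(2 / Real.pi) * Zg (Eu d) ≤ G D →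
    ∃ (x0 e : Eu d) (ℓ : ℝ), ‖e‖ = 1 ∧ x0 ∈ D ∧ x0 + ℓ • e ∈ D ∧
      (∀ x ∈ D, 0 ≤ ⟪e, x - x0⟫_ℝ ∧ ⟪e, x - x0⟫_ℝ ≤ ℓ) ∧
      (∀ x ∈ D, ‖x - x0 - ⟪e, x - x0⟫_ℝ • e‖ ≤ C / n) ∧ 2 * n - C / n ≤ ℓ ∧ ℓ ≤ 2 * n := by
  obtain ⟨H₂, N₁, hH, hda⟩ := diam_axis d hd
  set sd : ℝ := √(d : ℝ) with hsd
  have hd1 : (1 : ℝ) ≤ d := by exact_mod_cast hd
  have hsd1 : 1 ≤ sd := by
    rw [hsd]
    exact Real.one_le_sqrt.2 hd1
  have hsd2 : sd ^ 2 = d := Real.sq_sqrt (by linarith)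
  obtain ⟨N₂, hN₂⟩ := exists_nat_gt (48 * sd * H₂)
  refine ⟨18432 * sd ^ 2, max N₁ (max N₂ 12), by positivity, ?_⟩
  intro n hn D c hD hc hG
  have hnN₁ : N₁ ≤ n := le_trans (le_max_left _ _) hn
  have hnN₂ : N₂ ≤ n := le_trans (le_trans (le_max_left _ _) (le_max_right _ _)) hn
  have hn12 : 12 ≤ n := le_trans (le_trans (le_max_right _ _) (le_max_right _ _)) hn
  have hn12' : (12 : ℝ) ≤ n := by exact_mod_cast hn12
  have hnN₂' : (N₂ : ℝ) ≤ n := by exact_mod_cast hnN₂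
  obtain ⟨x0, e, ℓ, he, hℓ, hx0, hx1, hslab, hlat⟩ := hda n hnN₁ D c hD hc hG
  obtain ⟨q, hq, hqmax⟩ := hD.comp.exists_isMaxOn hD.ne
    (f := fun x => ‖x - x0 - ⟪e, x - x0⟫_ℝ • e‖) (by fun_prop)
  set r : ℝ := ‖q - x0 - ⟪e, q - x0⟫_ℝ • e‖ with hr
  have hr0 : 0 ≤ r := norm_nonneg _
  have hlat' : ∀ x ∈ D, ‖x - x0 - ⟪e, x - x0⟫_ℝ • e‖ ≤ r := fun x hx => hqmax hx
  have hT := G_le_of_tube hD he hℓ.le hr0 hslab hlat'
  have hfr : Module.finrank ℝ (Eu d) = d := by simp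
  rw [hfr, ← hsd] at hT
  have hZ : 0 < Zg (Eu d) := Zg_pos
  have h1 : (n : ℝ) * √(2 / Real.pi) ≤ ℓ / 2 * √(2 / Real.pi) + r * sd :=
    le_of_mul_le_mul_right (hG.trans hT) hZ
  have hM := multi_cover hD hc he hℓ.le hx0 hx1 hq (hslab q hq).1 (hslab q hq).2
  rw [← hr] at hM
  have hW := width_le hD hc he
  have hℓ2 : ℓ ≤ 2 * n := by
    have h2 := hD.inner_le hx1 e
    have h3 := hD.inner_le hx0 (-e)
    rw [inner_add_left, inner_smul_left, real_inner_self_eq_norm_sq, he] at h2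
    rw [inner_neg_right] at h3
    simp only [conj_trivial, one_pow, mul_one] at h2
    linarith
  have hsdH : 0 < sd * H₂ := by positivity
  obtain ⟨h4, h5⟩ := TH13_num (n := n) (by linarith) hsd1 hr0 (hlat q hq) TH13_const h1 hM hn12'
    (by nlinarith) (by linarith)
  have hn0 : (0 : ℝ) < n := by linarith
  refine ⟨x0, e, ℓ, he, hx0, hx1, hslab, ?_, by linarith, hℓ2⟩
  intro x hx
  refine (hlat' x hx).trans (h4.trans ?_)
  apply div_le_div_of_nonneg_right _ hn0.le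
  nlinarith

end Pool.Agent.Sausage27
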